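import Pool.Agent.Helper496_So4.Natur

/-!
The internal form of the classification.
-/

set_option autoImplicit false

namespace Helper496

open Complex

/-- Symmetric with leading term `λ⁻¹`. -/
def PolI (H : M K) : Prop := tp H = H ∧ LM H (-1) 1

theorem PolI.det {H : M K} (h : PolI H) : LC (det3 H) (-3) 1 := by
  have := LC.det3 h.2
  rw [det3_one] at this
  exact this.congr (by norm_num) rfl

theorem cof_one : cof (1 : M ℂ) = 1 := by rw [← sc_one, cof_sc]; norm_num

theorem PolI.cof {H : M K} (h : PolI H) : LM (cof H) (-2) 1 := by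
  have := h.2.cof
  rw [cof_one] at this
  exact this.congr (by norm_num) rfl

/-- Existence and uniqueness of the symmetric frame. -/
theorem PolI.root {H : M K} (h : PolI H) : ∃! S, PolI S ∧ mm S S = Helper496.cof H := by
  have k1 : tp (Helper496.cof H) = Helper496.cof H := by rw [tp_cof, h.1]
  obtain ⟨S, h1, h2, h3⟩ := exists_root k1 h.cof
  refine ⟨S, ⟨⟨h1, h3⟩, h2⟩, ?_⟩
  rintro S' ⟨⟨-, h3'⟩, h2'⟩
  exact root_unique h3' h3 (by rw [h2, h2'])

/-- Existence and uniqueness of `H` with given cofactor matrix. -/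
theorem exists_cof {G : M K} (hs : tp G = G) (hl : LM G (-2) 1) :
    ∃! H, PolI H ∧ cof H = G := by
  obtain ⟨S, h1, h2, h3⟩ := exists_root hs hl
  have hS : PolI S := ⟨h1, h3⟩
  have hd := hS.det
  have hdne : det3 S ≠ 0 := hd.ne one_ne_zero
  refine ⟨(det3 S)⁻¹ • mm (cof S) (cof S), ⟨⟨?_, ?_⟩, ?_⟩, ?_⟩
  · rw [tp_smul, tp_mm, tp_cof, h1]
  · have k1 : LC (det3 S)⁻¹ 3 1 := (hd.inv one_ne_zero).congr (by norm_num) (by norm_num)
    have k2 := hS.cof.mm hS.cof
    exact (LM.smul k1 k2).congr (by norm_num) (by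
      rw [one_smul, ← sc_one, sc_mm, one_smul])
  · rw [cof_smul, cof_mm, cof_cof, ← h2]
    have : mm (det3 S • S) (det3 S • S) = (det3 S ^ 2) • mm S S := by
      apply m_ext <;> simp <;> ring
    rw [this, smul_smul]
    have e : (det3 S)⁻¹ ^ 2 * det3 S ^ 2 = 1 := by
      field_simp
    rw [e, one_smul]
  · have uniq : ∀ H H' : M K, PolI H → PolI H' → cof H = G → cof H' = G → H = H' := by
      intro H H' hH hH' e e'
      have k1 : (det3 H - det3 H') * (det3 H + det3 H') = 0 := by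
        have a1 := det3_cof H
        have a2 := det3_cof H'
        rw [e] at a1
        rw [e'] at a2
        linear_combination a2 - a1
      have k2 : det3 H + det3 H' ≠ 0 := (hH.det.add hH'.det).ne (by norm_num)
      have k3 : det3 H = det3 H' := sub_eq_zero.mp ((mul_eq_zero.mp k1).resolve_right k2)
      have k4 : det3 H • H = det3 H • H' := by
        have a1 := cof_cof H
        have a2 := cof_cof H'
        rw [e] at a1
        rw [e'] at a2
        rw [← a1, k3, ← a2]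
      exact smul_right_injective _ (hH.det.ne one_ne_zero) k4
    rintro H' ⟨hH', e'⟩
    refine uniq _ _ hH' ⟨?_, ?_⟩ e' ?_
    · rw [tp_smul, tp_mm, tp_cof, h1]
    · have k1 : LC (det3 S)⁻¹ 3 1 := (hd.inv one_ne_zero).congr (by norm_num) (by norm_num)
      have k2 := hS.cof.mm hS.cof
      exact (LM.smul k1 k2).congr (by norm_num) (by
        rw [one_smul, ← sc_one, sc_mm, one_smul])
    · rw [cof_smul, cof_mm, cof_cof, ← h2]
      have : mm (det3 S • S) (det3 S • S) = (det3 S ^ 2) • mm S S := by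
        apply m_ext <;> simp <;> ring
      rw [this, smul_smul]
      have e : (det3 S)⁻¹ ^ 2 * det3 S ^ 2 = 1 := by
        field_simp
      rw [e, one_smul]

theorem exists_root_H {t : K} (ht : LC t (-1) 1) {B : M ℂ} (hB : tp B = B) :
    ∃! H, PolI H ∧ cof H = sc (t ^ 2) - cM B := by
  apply exists_cof
  · rw [tp_sub, tp_sc, ← cM_tp, hB]
  · have k1 : LC (t ^ 2) (-2) 1 := by
      rw [sq]
      exact (ht.mul ht).congr (by norm_num) (by norm_num)
    exact ((LM.sc k1).sub ((LM.cM B).mono (by norm_num))).congr rfl (by rw [sc_one, sub_zero])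

/-- The algebra with given data. -/
def AlgI (H W H' W' : M K) (U : Submodule ℂ M4) : Prop :=
  ∃ S S' : M K, PolI S ∧ mm S S = cof H ∧ PolI S' ∧ mm S' S' = cof H' ∧ U = Gn S W S' W'

theorem final_exists {s : K} {H W H' W' : M K} (hs : LC s (-1) 1)
    (hf : Fam (lam (-1)) s H W H' W') :
    (∃! U, AlgI H W H' W' U) ∧ ∀ U, AlgI H W H' W' U → Factoring U := by
  obtain ⟨P, Q, A, B, A', B', he⟩ := hf.eqs (LC.lam (-1)) hs
  obtain ⟨a, hp⟩ := he.pol
  obtain ⟨a', hp'⟩ := he.pol'
  obtain ⟨S, ⟨h1, h2⟩, h3⟩ := PolI.root ⟨hp.sym, hp.lead'⟩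
  obtain ⟨S', ⟨h1', h2'⟩, h3'⟩ := PolI.root ⟨hp'.sym, hp'.lead'⟩
  constructor
  · refine ⟨Gn S W S' W', ⟨S, S', h1, h2, h1', h2', rfl⟩, ?_⟩
    rintro V ⟨T, T', g1, g2, g1', g2', rfl⟩
    rw [h3 T ⟨g1, g2⟩, h3' T' ⟨g1', g2'⟩]
  · rintro V ⟨T, T', g1, g2, g1', g2', rfl⟩
    exact he.factoring (Frame.mk' hp (by rw [g1.1, g2]) g1.2)
      (Frame.mk' hp' (by rw [g1'.1, g2']) g1'.2)

theorem final_complete {U : Submodule ℂ M4} (hU : Factoring U) :
    ∃ (s : K) (H W H' W' : M K) (V : Submodule ℂ M4), LC s (-1) 1 ∧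
      Fam (lam (-1)) s H W H' W' ∧ AlgI H W H' W' V ∧ Relation.ReflTransGen Step U V := by
  obtain ⟨V, ⟨s, H, W, H', W', S, S', hs, hf, h1, h2, h3, h1', h2', h3', hV⟩, hr⟩ := hU.member
  exact ⟨s, H, W, H', W', V, hs, hf, ⟨S, S', ⟨h1, h3⟩, h2, ⟨h1', h3'⟩, h2', hV⟩, hr⟩

/-- The six generators. -/
theorem Gn_eq (N W N' W' : M K) : Gn N W N' W' = gen {X | ∃ i : Fin 3,
    X = iota (fun j => N j i) (fun j => mm N' W' j i) ∨
    X = iota (fun j => mm N W j i) (fun j => N' j i)} := by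
  have hb : ∀ (A B : M K) (i : Fin 3), lm IO_iota A B (bas i) =
      iota (fun j => A j i) (fun j => B j i) := by
    intro A B i
    rw [lm_apply]
    congr 1
    · funext j; fin_cases i <;> simp [bas]
    · funext j; fin_cases i <;> simp [bas]
  have hx : ∀ (A B : M K) (x : V ℂ), lm IO_iota A B x = x 0 • iota (fun j => A j 0) (fun j => B j 0)
      + x 1 • iota (fun j => A j 1) (fun j => B j 1) +
      x 2 • iota (fun j => A j 2) (fun j => B j 2) := by
    intro A B x
    have e : x = x 0 • bas 0 + x 1 • bas 1 + x 2 • bas 2 := by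
      apply v_ext <;> simp [bas]
    conv_lhs => rw [e]
    rw [map_add, map_add, map_smul, map_smul, map_smul, hb, hb, hb]
  apply le_antisymm
  · apply sInf_le
    refine ⟨?_, gen_closed _⟩
    rintro _ (⟨x, rfl⟩ | ⟨x, rfl⟩)
    · rw [hx]
      exact Submodule.add_mem _ (Submodule.add_mem _
        (Submodule.smul_mem _ _ (subset_gen _ ⟨0, Or.inl rfl⟩))
        (Submodule.smul_mem _ _ (subset_gen _ ⟨1, Or.inl rfl⟩)))
        (Submodule.smul_mem _ _ (subset_gen _ ⟨2, Or.inl rfl⟩))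
    · rw [hx]
      exact Submodule.add_mem _ (Submodule.add_mem _
        (Submodule.smul_mem _ _ (subset_gen _ ⟨0, Or.inr rfl⟩))
        (Submodule.smul_mem _ _ (subset_gen _ ⟨1, Or.inr rfl⟩)))
        (Submodule.smul_mem _ _ (subset_gen _ ⟨2, Or.inr rfl⟩))
  · apply sInf_le
    refine ⟨?_, gen_closed _⟩
    rintro _ ⟨i, rfl | rfl⟩
    · rw [← hb]
      exact subset_gen _ (Or.inl ⟨_, rfl⟩)
    · rw [← hb]
      exact subset_gen _ (Or.inr ⟨_, rfl⟩)

/-- Taylor series. -/
def TayI (X : M4) : Prop := ∀ i j, ∀ k < 0, cf (X i j) k = 0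

theorem factoring_iff (U : Submodule ℂ M4) : Factoring U ↔
    (∀ X ∈ U, X.transpose = -X) ∧ (∀ X ∈ U, ∀ Y ∈ U, X * Y - Y * X ∈ U) ∧
      ∀ X : M4, X.transpose = -X → ∃! Y, Y ∈ U ∧ TayI (X - Y) := by
  constructor
  · rintro ⟨hcl, hdis, hsup⟩
    have hU : ∀ X ∈ U, X.transpose = -X := by
      intro X hX
      have : X ∈ so4 := by rw [← hsup]; exact Submodule.mem_sup_right hX
      exact this
    refine ⟨hU, hcl, ?_⟩
    intro X hX
    have h1 : X ∈ T4 ⊔ U := by rw [hsup]; exact hX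
    obtain ⟨t, ht, u, hu, htu⟩ := Submodule.mem_sup.mp h1
    refine ⟨u, ⟨hu, ?_⟩, ?_⟩
    · have : X - u = t := by rw [← htu, add_sub_cancel_right]
      rw [this]
      exact ht.2
    · rintro v ⟨hv, hvt⟩
      have h2 : u - v ∈ T4 ⊓ U := by
        refine ⟨⟨?_, ?_⟩, U.sub_mem hu hv⟩
        · exact hU _ (U.sub_mem hu hv)
        · intro i j k hk
          have h3 : u - v = (X - v) - t := by rw [← htu]; abel
          rw [h3, Matrix.sub_apply, cf_sub, hvt i j k hk, ht.2 i j k hk, sub_zero]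
      rw [disjoint_iff.mp hdis] at h2
      exact (sub_eq_zero.mp ((Submodule.mem_bot ℂ).mp h2)).symm
  · rintro ⟨hU, hcl, hd⟩
    refine ⟨hcl, ?_, ?_⟩
    · rw [disjoint_iff, eq_bot_iff]
      rintro Z ⟨hZt, hZu⟩
      obtain ⟨Y, -, hY⟩ := hd 0 (by simp)
      have h1 : Z = Y := by
        apply hY
        refine ⟨hZu, ?_⟩
        intro i j k hk
        rw [zero_sub, Matrix.neg_apply, cf_neg, hZt.2 i j k hk, neg_zero]
      have h2 : (0 : M4) = Y := by
        apply hY
        refine ⟨U.zero_mem, ?_⟩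
        intro i j k _
        rw [sub_zero]; rfl
      rw [Submodule.mem_bot, h1, h2]
    · apply le_antisymm
      · apply sup_le
        · intro X hX; exact hX.1
        · intro X hX; exact hU X hX
      · intro X hX
        obtain ⟨Y, ⟨hY, hT⟩, -⟩ := hd X hX
        have h1 : X = (X - Y) + Y := by abel
        rw [h1]
        apply Submodule.add_mem_sup _ hY
        refine ⟨?_, hT⟩
        rw [Matrix.transpose_sub, hX, hU Y hY]
        abel

end Helper496
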