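import Pool.Agent.Helper496_So4.Defs
import Pool.Agent.Helper496_So4.Final

/-!
Comparison of the definitions of the statement with the working definitions.
-/

set_option autoImplicit false

open Matrix

open HahnSeries (C)

namespace Helper496.So4Loop

theorem fac_iff (U : Submodule ℂ (Mat 4 L)) : Factoring U ↔ Helper496.Factoring U :=
  (Helper496.factoring_iff U).symm

theorem op_eq {R : Type*} [CommRing R] (a b : Fin 3 → R) : op a b = vecMulVec a b := by
  apply m_ext <;> rfl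

theorem cr_eq (a b : Fin 3 → ℂ) : cr a b = cross a b := rfl

theorem dt_eq {R : Type*} [CommRing R] (a b : Fin 3 → R) : dt a b = dotProduct a b := by
  simp [dt, dotProduct, Fin.sum_univ_three]

theorem mv_eq {R : Type*} [CommRing R] (A : Matrix (Fin 3) (Fin 3) R) (x : Fin 3 → R) :
    mv A x = A.mulVec x := by
  funext i
  simp [mulVec, dotProduct, Fin.sum_univ_three]

theorem axm_eq (v : Fin 3 → ℂ) (a b c : ℂ) : axm v a b c = axial v a b c := by
  rw [axm, axial, op_eq, sc_eq_smul]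
  rfl

theorem polar_iff (S : Helper496.M K) : Polar S ↔ PolI S :=
  ⟨fun h => ⟨(tp_eq S).trans h.1, h.2⟩, fun h => ⟨(tp_eq S).symm.trans h.1, h.2⟩⟩

theorem adj_cof {S : Helper496.M K} (h : tp S = S) : cof S = S.adjugate := by
  rw [← h, ← tp_cof, h, cof_eq, tp_eq, transpose_transpose]

theorem rootH_iff (t : K) (B : Mat 3 ℂ) (H : Helper496.M K) :
    RootH t B H ↔ tp H = H ∧ LM H (-1) 1 ∧ cof H = sc (t ^ 2) - cM B := by
  have e : sc (t ^ 2) - cM B = t ^ 2 • (1 : Helper496.M K) - cM B := by rw [sc_eq_smul]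
  constructor
  · rintro ⟨h1, h2⟩
    have h3 := (polar_iff H).mp h1
    exact ⟨h3.1, h3.2, (adj_cof h3.1).trans (h2.trans e.symm)⟩
  · rintro ⟨h1, h2, h3⟩
    exact ⟨(polar_iff H).mpr ⟨h1, h2⟩, (adj_cof h1).symm.trans (h3.trans e)⟩

theorem lin_eq (t : K) (A : Mat 3 ℂ) : lin t A = (sc t + cM A : Helper496.M K) := by
  rw [sc_eq_smul]; rfl

theorem vec_eq (t : K) (v : Fin 3 → ℂ) (α β : ℂ) :
    vec t v α β = (sc t + (cc α + cc β / t) • op (cv v) (cv v) : Helper496.M K) := by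
  rw [sc_eq_smul, ← cM_op, op_eq]; rfl

theorem frac_eq (c : ℂ) (t : K) (A : Mat 3 ℂ) :
    frac c t A = ((cc c / t) • cM A : Helper496.M K) := rfl

theorem frac_inv (c : ℂ) (t : K) (A : Mat 3 ℂ) :
    frac c t A = (t⁻¹ • cM (c • A) : Helper496.M K) := by
  rw [frac_eq, cM_smul, smul_smul]
  congr 1
  field_simp

theorem frac_one (t : K) (A : Mat 3 ℂ) : frac 1 t A = (t⁻¹ • cM A : Helper496.M K) := by
  rw [frac_inv, one_smul]

theorem quad_eq (t : K) (p q : ℂ) (H : Helper496.M K) (T : Mat 3 ℂ) :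
    quad t p q H T =
      ((cc p / t ^ 2) • (mm H (cM T) + cc q • cof (cM T)) : Helper496.M K) := by
  rw [← cM_cof, ← cM_smul, cof_eq, mm_eq]; rfl

theorem rat_eq (r k D : ℂ) (t : K) (A B : Mat 3 ℂ) :
    rat r k D t A B =
      ((cc r / (t - cc k)) • (cM A + (cc D / t) • cM B) : Helper496.M K) := rfl

theorem th_to {t : K} {H : Helper496.M K} (h : TH t H) : Helper496.TH t H := by
  rcases h with ⟨A, hA, rfl⟩ | ⟨v, α, β, rfl⟩ | ⟨B, hB, hH⟩
  · rw [lin_eq]
    exact Helper496.TH.t2 t A (by rw [tp_eq]; exact hA)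
  · rw [vec_eq]
    exact Helper496.TH.t3 t v α β
  · obtain ⟨h1, h2, h3⟩ := (rootH_iff t B H).mp hH
    exact Helper496.TH.t1 t B H (by rw [tp_eq]; exact hB) h1 h2 h3

theorem th_of {t : K} {H : Helper496.M K} (h : Helper496.TH t H) : TH t H := by
  cases h with
  | t2 A hA =>
    rw [tp_eq] at hA
    exact Or.inl ⟨A, hA, (lin_eq t A).symm⟩
  | t3 v α β => exact Or.inr (Or.inl ⟨v, α, β, (vec_eq t v α β).symm⟩)
  | t1 B _ hB hs hl hc =>
    rw [tp_eq] at hB
    exact Or.inr (Or.inr ⟨B, hB, (rootH_iff t B H).mpr ⟨hs, hl, hc⟩⟩)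

theorem f6_eq {Q : Mat 3 ℂ} (hQ : Q.det ≠ 0) :
    Q * (Q.det • (Q.transpose * Q)⁻¹) = Q.adjugate.transpose := by
  have hu : IsUnit Q.det := isUnit_iff_ne_zero.mpr hQ
  have h1 : Q.adjugate = Q.det • Q⁻¹ := by
    rw [Matrix.inv_def, smul_smul, Ring.mul_inverse_cancel _ hu, one_smul]
  rw [Matrix.mul_inv_rev, Matrix.mul_smul, ← Matrix.mul_assoc, Matrix.mul_nonsing_inv _ hu,
    Matrix.one_mul, h1, transpose_smul, transpose_nonsing_inv]

theorem f6_sym (Q : Mat 3 ℂ) :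
    (Q.det • (Q.transpose * Q)⁻¹).transpose = Q.det • (Q.transpose * Q)⁻¹ := by
  rw [transpose_smul, transpose_nonsing_inv, transpose_mul, transpose_transpose]

theorem f6_uniq {Q A : Mat 3 ℂ} (hQ : Q.det ≠ 0) (h : Q * A = Q.adjugate.transpose) :
    A = Q.det • (Q.transpose * Q)⁻¹ := by
  have hu : IsUnit Q.det := isUnit_iff_ne_zero.mpr hQ
  have h1 := congrArg (fun X => Q⁻¹ * X) (h.trans (f6_eq hQ).symm)
  simp only [← Matrix.mul_assoc, Matrix.nonsing_inv_mul _ hu, Matrix.one_mul] at h1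
  exact h1

/-- The fifth family. -/
theorem f5_W (O : Mat 3 ℂ) (v : V ℂ) (a b c r D : ℂ) (t κ : K) :
    (cc r / κ) • mm (axk (cv v) (cc a) (cc b) (cc c + cc D / t)) (tp (cM O)) =
      ((cc r / κ) • (cM (axial v a b c * O.transpose) +
        (cc D / t) • cM (vecMulVec v v * O.transpose)) : Helper496.M K) := by
  congr 1
  have e : axk (cv v) (cc a) (cc b) (cc c + cc D / t) =
      cM (axm v a b c) + (cc D / t) • cM (op v v) := by
    apply m_ext <;> simp [axk, axm] <;> ring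
  rw [e, ← axm_eq, ← op_eq, ← tp_eq O, ← mm_eq, ← mm_eq, cM_mm, cM_mm, cM_tp]
  apply m_ext <;> simp <;> ring

theorem f5_W' (O : Mat 3 ℂ) (v : V ℂ) (a b d D : ℂ) (s κ : K) :
    κ⁻¹ • mm (cM O) (axk (cv v) (cc a) (-cc b) (cc d + cc D / s)) =
      ((cc 1 / κ) • (cM (O * axial v a (-b) d) +
        (cc D / s) • cM (O * vecMulVec v v)) : Helper496.M K) := by
  rw [map_one, one_div]
  congr 1
  have e : axk (cv v) (cc a) (-cc b) (cc d + cc D / s) =
      cM (axm v a (-b) d) + (cc D / s) • cM (op v v) := by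
    apply m_ext <;> simp [axk, axm] <;> ring
  rw [e, ← axm_eq, ← op_eq, ← mm_eq, ← mm_eq, cM_mm, cM_mm]
  apply m_ext <;> simp <;> ring

theorem adj_tr (T : Mat 3 ℂ) : tp (cof T) = T.adjugate := by
  rw [tp_eq, cof_eq, transpose_transpose]

theorem fam_to {t s : K} {H W H' W' : Helper496.M K} (h : Fam t s H W H' W') :
    Helper496.Fam t s H W H' W' := by
  induction h with
  | f1 t s H H' h h' => exact Helper496.Fam.dir (t : K) s H H' (th_to h) (th_to h')
  | f2 t s a b m n α β α' β' =>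
    have h1 := Helper496.Fam.f2 (t : K) (s : K) a b m n α β α' β'
    rw [← vec_eq, ← vec_eq, ← cM_op, ← cM_op, ← frac_eq, ← frac_eq, op_eq, op_eq] at h1
    exact h1
  | f3 t s a b α β A hA =>
    have h1 := Helper496.Fam.f3 (t : K) (s : K) a b α β A (by rw [tp_eq]; exact hA)
    rw [← vec_eq, ← lin_eq, ← cM_op, ← frac_eq, op_eq] at h1
    exact h1
  | f4 t s T p q H H' h h' =>
    obtain ⟨k1, k2, k3⟩ := (rootH_iff t _ H).mp h
    obtain ⟨g1, g2, g3⟩ := (rootH_iff s _ H').mp h'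
    rw [← tp_eq, ← mm_eq] at k3 g3
    have h1 := Helper496.Fam.f4 (t : K) (s : K) T p q H H' k1 k2 k3 g1 g2 g3
    rw [← quad_eq, ← cM_tp, ← quad_eq, tp_eq] at h1
    exact h1
  | f5 t s O v a b c d r D N hO hO' hN hD =>
    subst hN
    have h1 := Helper496.Fam.f5 (t : K) (s : K) O v a b c d r D
      ⟨by rw [mm_eq, tp_eq, sc_one]; exact hO, by rw [det3_eq]; exact hO'⟩
      (by rw [dt_eq]; exact hD)
    rw [← vec_eq, ← vec_eq, f5_W, f5_W', dt_eq, ← rat_eq, ← rat_eq, mv_eq] at h1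
    exact h1
  | f6 t s Q θ hQ =>
    have h1 := Helper496.Fam.f6 (t : K) (s : K) Q (Q.det • (Q.transpose * Q)⁻¹) θ
      (by rw [det3_eq]; exact hQ) (by rw [tp_eq]; exact f6_sym Q)
      (by rw [mm_eq, cof_eq]; exact f6_eq hQ)
    rw [← lin_eq, ← lin_eq, ← frac_inv, ← frac_one, adj_tr, mm_eq, tp_eq] at h1
    exact h1
  | f7 t s n e x y z θ Q hn hQ =>
    have h1 := Helper496.Fam.f7 (t : K) (s : K) n e x y z θ Q (by rw [cr_eq]; exact hn)
      (by rw [op_eq, op_eq, cr_eq, cr_eq]; exact hQ)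
    rw [← lin_eq, ← lin_eq, ← frac_inv, ← frac_one, adj_tr, mm_eq, tp_eq, op_eq, op_eq] at h1
    exact h1
  | f8 t s n e n' e' a c α α' hn hn' =>
    have h1 := Helper496.Fam.f8 (t : K) (s : K) n e n' e' a c α α' (by rw [cr_eq]; exact hn)
      (by rw [cr_eq]; exact hn')
    rw [← lin_eq, ← lin_eq, ← frac_inv, ← frac_inv] at h1
    simp only [op_eq] at h1
    exact h1
  | f9 t s n e n' e' a c α α' hn hn' =>
    have h1 := Helper496.Fam.f9 (t : K) (s : K) n e n' e' a c α α' (by rw [cr_eq]; exact hn)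
      (by rw [cr_eq]; exact hn')
    rw [← lin_eq, ← lin_eq, ← frac_inv, ← frac_inv] at h1
    simp only [op_eq] at h1
    exact h1
  | swap t s H W H' W' h ih => exact ih.swap

theorem fam_of {t s : K} {H W H' W' : Helper496.M K} (h : Helper496.Fam t s H W H' W') :
    Fam t s H W H' W' := by
  induction h with
  | dir t s H H' h h' => exact Fam.f1 t s H H' (th_of h) (th_of h')
  | f2 t s a b m n α β α' β' =>
    rw [← vec_eq, ← vec_eq, ← cM_op, ← cM_op, ← frac_eq, ← frac_eq, op_eq, op_eq]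
    exact Fam.f2 t s a b m n α β α' β'
  | f3 t s a b α β A hA =>
    rw [tp_eq] at hA
    rw [← vec_eq, ← lin_eq, ← cM_op, ← frac_eq, op_eq]
    exact Fam.f3 t s a b α β A hA
  | f4 t s T p q H H' hs hl hc hs' hl' hc' =>
    rw [mm_eq, tp_eq] at hc hc'
    rw [← quad_eq, ← cM_tp, ← quad_eq, tp_eq]
    exact Fam.f4 t s T p q H H' ((rootH_iff t _ H).mpr ⟨hs, hl, hc⟩)
      ((rootH_iff s _ H').mpr ⟨hs', hl', hc'⟩)
  | f5 t s O v a b c d r D hO hD =>
    have h1 := hO.1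
    have h2 := hO.2
    rw [mm_eq, tp_eq, sc_one] at h1
    rw [det3_eq] at h2
    rw [dt_eq] at hD
    rw [← vec_eq, ← vec_eq, f5_W, f5_W', dt_eq, ← rat_eq, ← rat_eq, mv_eq]
    exact Fam.f5 t s O v a b c d r D _ h1 h2 rfl hD
  | f6 t s Q A θ hQ hA h =>
    rw [det3_eq] at hQ
    rw [mm_eq, cof_eq] at h
    rw [f6_uniq hQ h, ← lin_eq, ← lin_eq, ← frac_inv, ← frac_one, adj_tr, mm_eq, tp_eq]
    exact Fam.f6 t s Q θ hQ
  | f7 t s n e x y z θ Q he hQ =>
    rw [cr_eq] at he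
    rw [op_eq, op_eq, cr_eq, cr_eq] at hQ
    rw [← lin_eq, ← lin_eq, ← frac_inv, ← frac_one, adj_tr, mm_eq, tp_eq, op_eq, op_eq]
    exact Fam.f7 t s n e x y z θ Q he hQ
  | f8 t s n e n' e' a c α α' he he' =>
    rw [cr_eq] at he he'
    rw [← lin_eq, ← lin_eq, ← frac_inv, ← frac_inv]
    simp only [op_eq]
    exact Fam.f8 t s n e n' e' a c α α' he he'
  | f9 t s n e n' e' a c α α' he he' =>
    rw [cr_eq] at he he'
    rw [← lin_eq, ← lin_eq, ← frac_inv, ← frac_inv]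
    simp only [op_eq]
    exact Fam.f9 t s n e n' e' a c α α' he he'
  | swap h ih => exact Fam.swap _ _ _ _ _ _ ih

theorem alg_iff {H W H' W' : Helper496.M K} (hH : tp H = H) (hH' : tp H' = H')
    (U : Submodule ℂ M4) : Alg H W H' W' U ↔ AlgI H W H' W' U := by
  have e : ∀ S S' : Helper496.M K, Gn S W S' W' =
      Gen {X | ∃ i : Fin 3, X = iota (fun j => S j i) (fun j => (S' * W') j i) ∨
        X = iota (fun j => (S * W) j i) (fun j => S' j i)} := by
    intro S S'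
    rw [Gn_eq, mm_eq, mm_eq]
    rfl
  have c1 := adj_cof hH
  have c2 := adj_cof hH'
  constructor
  · rintro ⟨S, S', h1, h2, h3, h4, h5⟩
    exact ⟨S, S', (polar_iff S).mp h1, (mm_eq S S).trans (h2.trans c1.symm),
      (polar_iff S').mp h3, (mm_eq S' S').trans (h4.trans c2.symm), h5.trans (e S S').symm⟩
  · rintro ⟨S, S', h1, h2, h3, h4, h5⟩
    exact ⟨S, S', (polar_iff S).mpr h1, (mm_eq S S).symm.trans (h2.trans c1),
      (polar_iff S').mpr h3, (mm_eq S' S').symm.trans (h4.trans c2), h5.trans (e S S')⟩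

theorem polar_s (s : K) : Polar (s • (1 : Matrix (Fin 3) (Fin 3) K)) ↔ LC s (-1) 1 := by
  rw [polar_iff, ← sc_eq_smul]
  constructor
  · rintro ⟨-, h⟩
    exact h 0 0
  · intro h
    refine ⟨tp_sc s, ?_⟩
    have := LM.sc h
    rw [sc_one] at this
    exact this

theorem fam_sym {s : K} {H W H' W' : Helper496.M K} (hs : LC s (-1) 1)
    (hf : Helper496.Fam (lam (-1)) s H W H' W') : tp H = H ∧ tp H' = H' := by
  obtain ⟨P, Q, A, B, A', B', he⟩ := hf.eqs (LC.lam (-1)) hs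
  obtain ⟨a, hp⟩ := he.pol
  obtain ⟨a', hp'⟩ := he.pol'
  exact ⟨hp.sym, hp'.sym⟩

theorem part1 (t : K) (B : Mat 3 ℂ) (ht : Polar (t • (1 : Matrix (Fin 3) (Fin 3) K)))
    (hB : B.transpose = B) : ∃! H : Helper496.M K, RootH t B H := by
  obtain ⟨H, ⟨h1, h2⟩, h3⟩ := exists_root_H ((polar_s t).mp ht) (B := B)
    (by rw [tp_eq]; exact hB)
  refine ⟨H, (rootH_iff t B H).mpr ⟨h1.1, h1.2, h2⟩, ?_⟩
  intro H' hH'
  obtain ⟨g1, g2, g3⟩ := (rootH_iff t B H').mp hH'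
  exact h3 H' ⟨⟨g1, g2⟩, g3⟩

theorem part2 (s : K) (H W H' W' : Helper496.M K)
    (hs : Polar (s • (1 : Matrix (Fin 3) (Fin 3) K)))
    (hf : Fam (HahnSeries.single (-1) 1) s H W H' W') :
    (∃! U, Alg H W H' W' U) ∧ ∀ U, Alg H W H' W' U → Factoring U := by
  have hs' := (polar_s s).mp hs
  have hf' : Helper496.Fam (lam (-1)) s H W H' W' := fam_to hf
  obtain ⟨e1, e2⟩ := fam_sym hs' hf'
  obtain ⟨⟨U, h1, h2⟩, h3⟩ := final_exists hs' hf'
  refine ⟨⟨U, (alg_iff e1 e2 U).mpr h1, fun V hV => h2 V ((alg_iff e1 e2 V).mp hV)⟩, ?_⟩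
  intro V hV
  exact (fac_iff V).mpr (h3 V ((alg_iff e1 e2 V).mp hV))

theorem part3 (U : Submodule ℂ M4) (hU : Factoring U) :
    ∃ (s : K) (H W H' W' : Helper496.M K) (V : Submodule ℂ M4),
      Polar (s • (1 : Matrix (Fin 3) (Fin 3) K)) ∧
      Fam (HahnSeries.single (-1) 1) s H W H' W' ∧ Alg H W H' W' V ∧
      Relation.ReflTransGen (fun X Y => Reparam X Y ∨ Gauge X Y) U V := by
  obtain ⟨s, H, W, H', W', V, h1, h2, h3, h4⟩ := final_complete ((fac_iff U).mp hU)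
  obtain ⟨e1, e2⟩ := fam_sym h1 h2
  exact ⟨s, H, W, H', W', V, (polar_s s).mpr h1, fam_of h2, (alg_iff e1 e2 V).mpr h3, h4⟩

end Helper496.So4Loop
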