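import Mathlib

/-!
Vectors and `3 × 3` matrices over a commutative ring: cross product, cofactor matrix and the
identities used for the classification of factoring subalgebras of `so_4((λ))`.
-/

set_option autoImplicit false

namespace Helper496

/-- Vectors of length three. -/
abbrev V (R : Type*) := Fin 3 → R
/-- `3 × 3` matrices. -/
abbrev M (R : Type*) := Matrix (Fin 3) (Fin 3) R

section defs
variable {R : Type*} [CommRing R]

/-- The cross product. -/
def cr (a b : V R) : V R :=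
  ![a 1 * b 2 - a 2 * b 1, a 2 * b 0 - a 0 * b 2, a 0 * b 1 - a 1 * b 0]

/-- Matrix times vector. -/
def mv (A : M R) (x : V R) : V R := ![A 0 0 * x 0 + A 0 1 * x 1 + A 0 2 * x 2,
  A 1 0 * x 0 + A 1 1 * x 1 + A 1 2 * x 2, A 2 0 * x 0 + A 2 1 * x 1 + A 2 2 * x 2]

/-- The bilinear form `a_0 b_0 + a_1 b_1 + a_2 b_2`. -/
def dt (a b : V R) : R := a 0 * b 0 + a 1 * b 1 + a 2 * b 2

/-- The matrix of cofactors (the transpose of the adjugate matrix). -/
def cof (A : M R) : M R := !![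
  A 1 1 * A 2 2 - A 1 2 * A 2 1, A 1 2 * A 2 0 - A 1 0 * A 2 2, A 1 0 * A 2 1 - A 1 1 * A 2 0;
  A 2 1 * A 0 2 - A 2 2 * A 0 1, A 2 2 * A 0 0 - A 2 0 * A 0 2, A 2 0 * A 0 1 - A 2 1 * A 0 0;
  A 0 1 * A 1 2 - A 0 2 * A 1 1, A 0 2 * A 1 0 - A 0 0 * A 1 2, A 0 0 * A 1 1 - A 0 1 * A 1 0]

/-- The matrix `a bᵀ`. -/
def op (a b : V R) : M R := !![a 0 * b 0, a 0 * b 1, a 0 * b 2;
  a 1 * b 0, a 1 * b 1, a 1 * b 2; a 2 * b 0, a 2 * b 1, a 2 * b 2]

/-- The matrix of `x ↦ v × x`. -/
def cm (v : V R) : M R := !![0, -v 2, v 1; v 2, 0, -v 0; -v 1, v 0, 0]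

/-- The transposed matrix. -/
def tp (A : M R) : M R := !![A 0 0, A 1 0, A 2 0; A 0 1, A 1 1, A 2 1; A 0 2, A 1 2, A 2 2]

/-- The scalar matrix. -/
def sc (a : R) : M R := !![a, 0, 0; 0, a, 0; 0, 0, a]

/-- The product of matrices. -/
def mm (A B : M R) : M R := !![
  A 0 0 * B 0 0 + A 0 1 * B 1 0 + A 0 2 * B 2 0, A 0 0 * B 0 1 + A 0 1 * B 1 1 + A 0 2 * B 2 1,
  A 0 0 * B 0 2 + A 0 1 * B 1 2 + A 0 2 * B 2 2;
  A 1 0 * B 0 0 + A 1 1 * B 1 0 + A 1 2 * B 2 0, A 1 0 * B 0 1 + A 1 1 * B 1 1 + A 1 2 * B 2 1,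
  A 1 0 * B 0 2 + A 1 1 * B 1 2 + A 1 2 * B 2 2;
  A 2 0 * B 0 0 + A 2 1 * B 1 0 + A 2 2 * B 2 0, A 2 0 * B 0 1 + A 2 1 * B 1 1 + A 2 2 * B 2 1,
  A 2 0 * B 0 2 + A 2 1 * B 1 2 + A 2 2 * B 2 2]

/-- The determinant. -/
def det3 (A : M R) : R := A 0 0 * (A 1 1 * A 2 2 - A 1 2 * A 2 1) +
  A 0 1 * (A 1 2 * A 2 0 - A 1 0 * A 2 2) + A 0 2 * (A 1 0 * A 2 1 - A 1 1 * A 2 0)

omit [CommRing R] in
theorem v_ext {a b : V R} (h0 : a 0 = b 0) (h1 : a 1 = b 1) (h2 : a 2 = b 2) : a = b := by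
  funext i; fin_cases i <;> assumption

omit [CommRing R] in
theorem m_ext {a b : M R} (h00 : a 0 0 = b 0 0) (h01 : a 0 1 = b 0 1) (h02 : a 0 2 = b 0 2)
    (h10 : a 1 0 = b 1 0) (h11 : a 1 1 = b 1 1) (h12 : a 1 2 = b 1 2)
    (h20 : a 2 0 = b 2 0) (h21 : a 2 1 = b 2 1) (h22 : a 2 2 = b 2 2) : a = b := by
  ext i j; fin_cases i <;> fin_cases j <;> assumption

omit [CommRing R] in
theorem sym3 {H : M R} (hH : tp H = H) : H 1 0 = H 0 1 ∧ H 2 0 = H 0 2 ∧ H 2 1 = H 1 2 :=
  ⟨congrFun (congrFun hH 0) 1, congrFun (congrFun hH 0) 2, congrFun (congrFun hH 1) 2⟩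

/-! ### Coordinates -/

omit [CommRing R] in
@[simp] theorem tp_apply (A : M R) (i j : Fin 3) : tp A i j = A j i := by
  fin_cases i <;> fin_cases j <;> rfl

@[simp] theorem cr_0 (a b : V R) : cr a b 0 = a 1 * b 2 - a 2 * b 1 := rfl
@[simp] theorem cr_1 (a b : V R) : cr a b 1 = a 2 * b 0 - a 0 * b 2 := rfl
@[simp] theorem cr_2 (a b : V R) : cr a b 2 = a 0 * b 1 - a 1 * b 0 := rfl

@[simp] theorem mv_apply (A : M R) (x : V R) (i : Fin 3) :
    mv A x i = A i 0 * x 0 + A i 1 * x 1 + A i 2 * x 2 := by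
  fin_cases i <;> rfl

@[simp] theorem op_apply (a b : V R) (i j : Fin 3) : op a b i j = a i * b j := by
  fin_cases i <;> fin_cases j <;> rfl

@[simp] theorem mm_apply (A B : M R) (i j : Fin 3) :
    mm A B i j = A i 0 * B 0 j + A i 1 * B 1 j + A i 2 * B 2 j := by
  fin_cases i <;> fin_cases j <;> rfl

@[simp] theorem cm_00 (v : V R) : cm v 0 0 = 0 := rfl
@[simp] theorem cm_01 (v : V R) : cm v 0 1 = -v 2 := rfl
@[simp] theorem cm_02 (v : V R) : cm v 0 2 = v 1 := rfl
@[simp] theorem cm_10 (v : V R) : cm v 1 0 = v 2 := rfl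
@[simp] theorem cm_11 (v : V R) : cm v 1 1 = 0 := rfl
@[simp] theorem cm_12 (v : V R) : cm v 1 2 = -v 0 := rfl
@[simp] theorem cm_20 (v : V R) : cm v 2 0 = -v 1 := rfl
@[simp] theorem cm_21 (v : V R) : cm v 2 1 = v 0 := rfl
@[simp] theorem cm_22 (v : V R) : cm v 2 2 = 0 := rfl

@[simp] theorem sc_00 (a : R) : sc a 0 0 = a := rfl
@[simp] theorem sc_01 (a : R) : sc a 0 1 = 0 := rfl
@[simp] theorem sc_02 (a : R) : sc a 0 2 = 0 := rfl
@[simp] theorem sc_10 (a : R) : sc a 1 0 = 0 := rfl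
@[simp] theorem sc_11 (a : R) : sc a 1 1 = a := rfl
@[simp] theorem sc_12 (a : R) : sc a 1 2 = 0 := rfl
@[simp] theorem sc_20 (a : R) : sc a 2 0 = 0 := rfl
@[simp] theorem sc_21 (a : R) : sc a 2 1 = 0 := rfl
@[simp] theorem sc_22 (a : R) : sc a 2 2 = a := rfl

@[simp] theorem cof_00 (A : M R) : cof A 0 0 = A 1 1 * A 2 2 - A 1 2 * A 2 1 := rfl
@[simp] theorem cof_01 (A : M R) : cof A 0 1 = A 1 2 * A 2 0 - A 1 0 * A 2 2 := rfl
@[simp] theorem cof_02 (A : M R) : cof A 0 2 = A 1 0 * A 2 1 - A 1 1 * A 2 0 := rfl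
@[simp] theorem cof_10 (A : M R) : cof A 1 0 = A 2 1 * A 0 2 - A 2 2 * A 0 1 := rfl
@[simp] theorem cof_11 (A : M R) : cof A 1 1 = A 2 2 * A 0 0 - A 2 0 * A 0 2 := rfl
@[simp] theorem cof_12 (A : M R) : cof A 1 2 = A 2 0 * A 0 1 - A 2 1 * A 0 0 := rfl
@[simp] theorem cof_20 (A : M R) : cof A 2 0 = A 0 1 * A 1 2 - A 0 2 * A 1 1 := rfl
@[simp] theorem cof_21 (A : M R) : cof A 2 1 = A 0 2 * A 1 0 - A 0 0 * A 1 2 := rfl
@[simp] theorem cof_22 (A : M R) : cof A 2 2 = A 0 0 * A 1 1 - A 0 1 * A 1 0 := rfl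

/-! ### Linearity -/

theorem cr_add_left (a b c : V R) : cr (a + b) c = cr a c + cr b c := by
  apply v_ext <;> simp <;> ring
theorem cr_add_right (a b c : V R) : cr a (b + c) = cr a b + cr a c := by
  apply v_ext <;> simp <;> ring
theorem cr_sub_left (a b c : V R) : cr (a - b) c = cr a c - cr b c := by
  apply v_ext <;> simp <;> ring
theorem cr_sub_right (a b c : V R) : cr a (b - c) = cr a b - cr a c := by
  apply v_ext <;> simp <;> ring
theorem cr_smul_left (r : R) (a b : V R) : cr (r • a) b = r • cr a b := by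
  apply v_ext <;> simp <;> ring
theorem cr_smul_right (r : R) (a b : V R) : cr a (r • b) = r • cr a b := by
  apply v_ext <;> simp <;> ring
theorem cr_neg_left (a b : V R) : cr (-a) b = -cr a b := by
  apply v_ext <;> simp <;> ring
theorem cr_neg_right (a b : V R) : cr a (-b) = -cr a b := by
  apply v_ext <;> simp <;> ring
theorem cr_zero_left (a : V R) : cr 0 a = 0 := by
  apply v_ext <;> simp
theorem cr_zero_right (a : V R) : cr a 0 = 0 := by
  apply v_ext <;> simp
theorem cr_self (a : V R) : cr a a = 0 := by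
  apply v_ext <;> simp <;> ring
theorem cr_skew (a b : V R) : cr a b = -cr b a := by
  apply v_ext <;> simp <;> ring
theorem cr_jacobi (a b c : V R) : cr a (cr b c) = cr (cr a b) c + cr b (cr a c) := by
  apply v_ext <;> simp <;> ring

theorem mv_add (A : M R) (x y : V R) : mv A (x + y) = mv A x + mv A y := by
  apply v_ext <;> simp <;> ring
theorem mv_sub (A : M R) (x y : V R) : mv A (x - y) = mv A x - mv A y := by
  apply v_ext <;> simp <;> ring
theorem mv_neg (A : M R) (x : V R) : mv A (-x) = -mv A x := by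
  apply v_ext <;> simp <;> ring
theorem mv_smul (r : R) (A : M R) (x : V R) : mv A (r • x) = r • mv A x := by
  apply v_ext <;> simp <;> ring
theorem mv_zero (A : M R) : mv A 0 = 0 := by
  apply v_ext <;> simp
theorem add_mv (A B : M R) (x : V R) : mv (A + B) x = mv A x + mv B x := by
  apply v_ext <;> simp <;> ring
theorem sub_mv (A B : M R) (x : V R) : mv (A - B) x = mv A x - mv B x := by
  apply v_ext <;> simp <;> ring
theorem neg_mv (A : M R) (x : V R) : mv (-A) x = -mv A x := by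
  apply v_ext <;> simp <;> ring
theorem smul_mv (r : R) (A : M R) (x : V R) : mv (r • A) x = r • mv A x := by
  apply v_ext <;> simp <;> ring
theorem zero_mv (x : V R) : mv 0 x = 0 := by
  apply v_ext <;> simp
theorem sc_mv (r : R) (x : V R) : mv (sc r) x = r • x := by
  apply v_ext <;> simp
theorem op_mv (a b x : V R) : mv (op a b) x = dt b x • a := by
  apply v_ext <;> simp [dt] <;> ring
theorem mm_mv (A B : M R) (x : V R) : mv (mm A B) x = mv A (mv B x) := by
  apply v_ext <;> simp <;> ring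
theorem cm_mv (v x : V R) : mv (cm v) x = cr v x := by
  apply v_ext <;> simp <;> ring

theorem dt_comm (a b : V R) : dt a b = dt b a := by simp only [dt]; ring
theorem dt_add_left (a b c : V R) : dt (a + b) c = dt a c + dt b c := by
  simp only [dt, Pi.add_apply]; ring
theorem dt_add_right (a b c : V R) : dt a (b + c) = dt a b + dt a c := by
  simp only [dt, Pi.add_apply]; ring
theorem dt_sub_left (a b c : V R) : dt (a - b) c = dt a c - dt b c := by
  simp only [dt, Pi.sub_apply]; ring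
theorem dt_sub_right (a b c : V R) : dt a (b - c) = dt a b - dt a c := by
  simp only [dt, Pi.sub_apply]; ring
theorem dt_smul_left (r : R) (a b : V R) : dt (r • a) b = r * dt a b := by
  simp only [dt, Pi.smul_apply, smul_eq_mul]; ring
theorem dt_smul_right (r : R) (a b : V R) : dt a (r • b) = r * dt a b := by
  simp only [dt, Pi.smul_apply, smul_eq_mul]; ring
theorem dt_neg_left (a b : V R) : dt (-a) b = -dt a b := by
  simp only [dt, Pi.neg_apply]; ring
theorem dt_neg_right (a b : V R) : dt a (-b) = -dt a b := by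
  simp only [dt, Pi.neg_apply]; ring
theorem dt_zero_left (a : V R) : dt 0 a = 0 := by simp [dt]
theorem dt_zero_right (a : V R) : dt a 0 = 0 := by simp [dt]
theorem dt_cr_self_left (a b : V R) : dt a (cr a b) = 0 := by simp [dt]; ring
theorem dt_cr_self_right (a b : V R) : dt b (cr a b) = 0 := by simp [dt]; ring
theorem dt_cr_cyc (a b c : V R) : dt a (cr b c) = dt b (cr c a) := by simp [dt]; ring
theorem dt_mv_tp (A : M R) (x y : V R) : dt (mv A x) y = dt x (mv (tp A) y) := by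
  simp [dt]; ring
theorem cr_cr (a b c : V R) : cr a (cr b c) = dt a c • b - dt a b • c := by
  apply v_ext <;> simp [dt] <;> ring

/-! ### Identities -/

/-- `M (Mᵀ a × z) = a × cof M z`. -/
theorem id2 (A : M R) (a z : V R) : mv A (cr (mv (tp A) a) z) = cr a (mv (cof A) z) := by
  apply v_ext <;> simp <;> ring

/-- `M a × M b = cof M (a × b)`. -/
theorem id3 (A : M R) (a b : V R) : cr (mv A a) (mv A b) = mv (cof A) (cr a b) := by
  apply v_ext <;> simp <;> ring

/-- `M x × cof M x = -M (x × Mᵀ M x)`. -/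
theorem id4 (A : M R) (x : V R) :
    cr (mv A x) (mv (cof A) x) = -mv A (cr x (mv (mm (tp A) A) x)) := by
  apply v_ext <;> simp <;> ring

theorem id4' (A : M R) (x y : V R) :
    cr (mv A x) (mv (cof A) y) = mv A (cr (mv (mm (tp A) A) x) y) := by
  apply v_ext <;> simp <;> ring

/-- `H (x × H z) = cof H x × z` for symmetric `H`. -/
theorem id5 {H : M R} (hH : tp H = H) (x z : V R) :
    mv H (cr x (mv H z)) = cr (mv (cof H) x) z := by
  obtain ⟨h1, h2, h3⟩ := sym3 hH
  apply v_ext <;> simp [h1, h2, h3] <;> ring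

theorem tp_tp (A : M R) : tp (tp A) = A := by apply m_ext <;> simp
theorem tp_add (A B : M R) : tp (A + B) = tp A + tp B := by apply m_ext <;> simp
theorem tp_sub (A B : M R) : tp (A - B) = tp A - tp B := by apply m_ext <;> simp
theorem tp_smul (r : R) (A : M R) : tp (r • A) = r • tp A := by apply m_ext <;> simp
theorem tp_sc (a : R) : tp (sc a) = sc a := by apply m_ext <;> simp
theorem tp_op (a b : V R) : tp (op a b) = op b a := by apply m_ext <;> simp <;> ring
theorem tp_mm (A B : M R) : tp (mm A B) = mm (tp B) (tp A) := by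
  apply m_ext <;> simp <;> ring
theorem tp_cof (A : M R) : tp (cof A) = cof (tp A) := by apply m_ext <;> simp <;> ring
theorem tp_zero : tp (0 : M R) = 0 := by apply m_ext <;> simp
theorem cof_smul (r : R) (A : M R) : cof (r • A) = r ^ 2 • cof A := by
  apply m_ext <;> simp <;> ring
theorem cof_op (a b : V R) : cof (op a b) = 0 := by apply m_ext <;> simp <;> ring
theorem cof_zero : cof (0 : M R) = 0 := by apply m_ext <;> simp
theorem cof_sc (a : R) : cof (sc a) = sc (a ^ 2) := by apply m_ext <;> simp <;> ring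
theorem cof_mm (A B : M R) : cof (mm A B) = mm (cof A) (cof B) := by
  apply m_ext <;> simp <;> ring
theorem cof_cof (A : M R) : cof (cof A) = det3 A • A := by
  apply m_ext <;> simp [det3] <;> ring
theorem mm_tp_cof (A : M R) : mm (tp A) (cof A) = sc (det3 A) := by
  apply m_ext <;> simp [det3] <;> ring
theorem mm_cof_tp (A : M R) : mm (cof A) (tp A) = sc (det3 A) := by
  apply m_ext <;> simp [det3] <;> ring
theorem mm_assoc (A B C : M R) : mm (mm A B) C = mm A (mm B C) := by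
  apply m_ext <;> simp <;> ring
theorem sc_mm (a : R) (A : M R) : mm (sc a) A = a • A := by apply m_ext <;> simp
theorem mm_sc (a : R) (A : M R) : mm A (sc a) = a • A := by apply m_ext <;> simp <;> ring
theorem mm_eq (A B : M R) : mm A B = A * B := by
  ext i j
  simp [Matrix.mul_apply, Fin.sum_univ_three]
theorem tp_eq (A : M R) : tp A = A.transpose := by
  ext i j
  simp
theorem det3_eq (A : M R) : det3 A = A.det := by
  rw [Matrix.det_fin_three, det3]; ring
theorem cof_eq (A : M R) : cof A = A.adjugate.transpose := by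
  rw [Matrix.adjugate_fin_three]
  apply m_ext <;> simp [Matrix.transpose] <;> ring
theorem det3_tp (A : M R) : det3 (tp A) = det3 A := by simp [det3]; ring
theorem det3_mm (A B : M R) : det3 (mm A B) = det3 A * det3 B := by simp [det3]; ring
theorem det3_sc (a : R) : det3 (sc a) = a ^ 3 := by simp [det3]; ring
theorem det3_cof (A : M R) : det3 (cof A) = det3 A ^ 2 := by simp [det3]; ring
theorem sc_one : sc (1 : R) = 1 := by apply m_ext <;> simp
theorem sc_add (a b : R) : sc (a + b) = sc a + sc b := by apply m_ext <;> simp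
theorem sc_eq_smul (a : R) : sc a = a • (1 : M R) := by apply m_ext <;> simp

theorem m_ext_mv {A B : M R} (h : ∀ x, mv A x = mv B x) : A = B := by
  have h0 := h ![1, 0, 0]
  have h1 := h ![0, 1, 0]
  have h2 := h ![0, 0, 1]
  have e : ∀ i, A i 0 = B i 0 ∧ A i 1 = B i 1 ∧ A i 2 = B i 2 := by
    intro i
    have a0 := congrFun h0 i
    have a1 := congrFun h1 i
    have a2 := congrFun h2 i
    simp at a0 a1 a2
    exact ⟨a0, a1, a2⟩
  exact m_ext (e 0).1 (e 0).2.1 (e 0).2.2 (e 1).1 (e 1).2.1 (e 1).2.2 (e 2).1 (e 2).2.1 (e 2).2.2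

/-- Jacobi identity for `H (· × ·)`. -/
theorem jacH {H : M R} (hH : tp H = H) (a b w : V R) :
    mv H (cr a (mv H (cr b w))) - mv H (cr b (mv H (cr a w))) =
      mv H (cr (mv H (cr a b)) w) := by
  obtain ⟨h1, h2, h3⟩ := sym3 hH
  apply v_ext <;> simp [h1, h2, h3] <;> ring

end defs
end Helper496
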