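import Pool.Agent.Helper496_So4.Core

/-!
A criterion: if `X : ℂ³ → L` is linear into a complex Lie algebra and `[X x, X₂ x]` lies in the
span of the values of `X` and of `X₂`, then all higher commutators satisfy the loop relations
modulo lower filtration.
-/

set_option autoImplicit false

namespace Helper496

/-- The standard basis vectors. -/
def bas (i : Fin 3) : V ℂ := ![if i = 0 then 1 else 0, if i = 1 then 1 else 0, if i = 2 then 1 else 0]

theorem bas_decomp (x : V ℂ) : x = x 0 • bas 0 + x 1 • bas 1 + x 2 • bas 2 := by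
  apply v_ext <;> simp [bas]

theorem lin_decomp {E : Type*} [AddCommGroup E] [Module ℂ E] (g : V ℂ →ₗ[ℂ] E) (x : V ℂ) :
    g x = x 0 • g (bas 0) + x 1 • g (bas 1) + x 2 • g (bas 2) := by
  conv_lhs => rw [bas_decomp x]
  simp only [map_add, map_smul]

theorem bil_alt {E : Type*} [AddCommGroup E] [Module ℂ E] (β : V ℂ →ₗ[ℂ] V ℂ →ₗ[ℂ] E)
    (g : V ℂ →ₗ[ℂ] E) (h00 : β (bas 0) (bas 0) = 0) (h11 : β (bas 1) (bas 1) = 0)
    (h22 : β (bas 2) (bas 2) = 0) (h12 : β (bas 1) (bas 2) = g (bas 0))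
    (h21 : β (bas 2) (bas 1) = -g (bas 0)) (h20 : β (bas 2) (bas 0) = g (bas 1))
    (h02 : β (bas 0) (bas 2) = -g (bas 1)) (h01 : β (bas 0) (bas 1) = g (bas 2))
    (h10 : β (bas 1) (bas 0) = -g (bas 2)) (x y : V ℂ) : β x y = g (cr x y) := by
  rw [lin_decomp (β x) y, lin_decomp g (cr x y)]
  have e : ∀ i, β x (bas i) = x 0 • β (bas 0) (bas i) + x 1 • β (bas 1) (bas i) +
      x 2 • β (bas 2) (bas i) := by
    intro i
    exact lin_decomp (β.flip (bas i)) x
  rw [e 0, e 1, e 2, h00, h11, h22, h12, h21, h20, h02, h01, h10]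
  simp only [cr, Matrix.cons_val_zero, Matrix.cons_val_one, Matrix.cons_val]
  module

theorem bil_ext {E : Type*} [AddCommGroup E] [Module ℂ E] (β : V ℂ →ₗ[ℂ] V ℂ →ₗ[ℂ] E)
    (h : ∀ x, β x x = 0) (x y : V ℂ) : β x y = x 0 • y 1 • β (bas 0) (bas 1) -
      x 1 • y 0 • β (bas 0) (bas 1) + (x 1 • y 2 • β (bas 1) (bas 2) -
      x 2 • y 1 • β (bas 1) (bas 2)) + (x 2 • y 0 • β (bas 2) (bas 0) -
      x 0 • y 2 • β (bas 2) (bas 0)) := by
  have sk : ∀ a b, β a b = -β b a := by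
    intro a b
    have := h (a + b)
    simp only [map_add, LinearMap.add_apply, h a, h b, zero_add, add_zero] at this
    exact eq_neg_of_add_eq_zero_right this
  have e : ∀ i, β x (bas i) = x 0 • β (bas 0) (bas i) + x 1 • β (bas 1) (bas i) +
      x 2 • β (bas 2) (bas i) := by
    intro i
    exact lin_decomp (β.flip (bas i)) x
  rw [lin_decomp (β x) y, e 0, e 1, e 2, h, h, h, sk (bas 1) (bas 0), sk (bas 2) (bas 1),
    sk (bas 0) (bas 2)]
  module

section
variable {L : Type*} [LieRing L] [LieAlgebra ℂ L]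

/-- The bracket as a bilinear map. -/
noncomputable def lb (X Y : V ℂ →ₗ[ℂ] L) : V ℂ →ₗ[ℂ] V ℂ →ₗ[ℂ] L :=
  LinearMap.mk₂ ℂ (fun x y => ⁅X x, Y y⁆) (by intros; simp) (by intros; simp)
    (by intros; simp) (by intros; simp)

@[simp] theorem lb_apply (X Y : V ℂ →ₗ[ℂ] L) (x y : V ℂ) : lb X Y x y = ⁅X x, Y y⁆ := rfl

/-- The next commutators. -/
noncomputable def nx (X T : V ℂ →ₗ[ℂ] L) : V ℂ →ₗ[ℂ] L where
  toFun z := z 0 • ⁅X (bas 1), T (bas 2)⁆ + z 1 • ⁅X (bas 2), T (bas 0)⁆ +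
    z 2 • ⁅X (bas 0), T (bas 1)⁆
  map_add' a b := by simp only [Pi.add_apply]; module
  map_smul' c a := by simp only [Pi.smul_apply, smul_eq_mul, RingHom.id_apply]; module

theorem nx_0 (X T : V ℂ →ₗ[ℂ] L) : nx X T (bas 0) = ⁅X (bas 1), T (bas 2)⁆ := by
  simp [nx, bas]
theorem nx_1 (X T : V ℂ →ₗ[ℂ] L) : nx X T (bas 1) = ⁅X (bas 2), T (bas 0)⁆ := by
  simp [nx, bas]
theorem nx_2 (X T : V ℂ →ₗ[ℂ] L) : nx X T (bas 2) = ⁅X (bas 0), T (bas 1)⁆ := by
  simp [nx, bas]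

/-- `xs X n` is `X_{n+1}`. -/
noncomputable def xs (X : V ℂ →ₗ[ℂ] L) : ℕ → (V ℂ →ₗ[ℂ] L)
  | 0 => X
  | n + 1 => nx X (xs X n)

/-- `Vs X n` is the span of the values of `X_1, …, X_n`. -/
noncomputable def Vs (X : V ℂ →ₗ[ℂ] L) : ℕ → Submodule ℂ L
  | 0 => ⊥
  | n + 1 => Vs X n ⊔ LinearMap.range (xs X n)

theorem Vs_mono (X : V ℂ →ₗ[ℂ] L) : Monotone (Vs X) :=
  monotone_nat_of_le_succ fun n => le_sup_left

theorem xs_mem (X : V ℂ →ₗ[ℂ] L) {n m : ℕ} (h : n + 1 ≤ m) (x : V ℂ) : xs X n x ∈ Vs X m :=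
  Vs_mono X h (Submodule.mem_sup_right ⟨x, rfl⟩)

theorem xs_one (X : V ℂ →ₗ[ℂ] L) (x y : V ℂ) : xs X 1 (cr x y) = ⁅X x, X y⁆ := by
  symm
  have := bil_alt (lb X X) (xs X 1) (by simp) (by simp) (by simp) (by simp [xs, nx_0])
    (by simp [xs, nx_0]) (by simp [xs, nx_1]) (by simp [xs, nx_1]) (by simp [xs, nx_2])
    (by simp [xs, nx_2]) x y
  simpa using this

/-- The loop relation in degree `n + 2`. -/
def CC (X : V ℂ →ₗ[ℂ] L) (n : ℕ) : Prop := ∀ i j, i + j = n → ∀ x y,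
  ⁅xs X i x, xs X j y⁆ - xs X (n + 1) (cr x y) ∈ Vs X (n + 1)

theorem CC_zero (X : V ℂ →ₗ[ℂ] L) : CC X 0 := by
  intro i j hij x y
  obtain ⟨rfl, rfl⟩ : i = 0 ∧ j = 0 := by omega
  rw [zero_add, xs_one]
  simp [xs]

/-- Lie closure from the relations. -/
theorem Vs_lie (X : V ℂ →ₗ[ℂ] L) (n : ℕ) (hC : ∀ m < n, CC X m) (a b : ℕ) (hab : a + b ≤ n + 1)
    {u v : L} (hu : u ∈ Vs X a) (hv : v ∈ Vs X b) : ⁅u, v⁆ ∈ Vs X (a + b) := by
  have key : ∀ i j, i + 1 ≤ a → j + 1 ≤ b → ∀ x y, ⁅xs X i x, xs X j y⁆ ∈ Vs X (a + b) := by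
    intro i j hi hj x y
    have h1 := hC (i + j) (by omega) i j rfl x y
    have h2 := Submodule.add_mem _ (Vs_mono X (show i + j + 1 ≤ a + b by omega) h1)
      (xs_mem X (show i + j + 1 + 1 ≤ a + b by omega) (cr x y))
    rwa [sub_add_cancel] at h2
  have right : ∀ i x, i + 1 ≤ a → ∀ b' ≤ b, ∀ v ∈ Vs X b', ⁅xs X i x, v⁆ ∈ Vs X (a + b) := by
    intro i x hi b'
    induction b' with
    | zero => intro _ v hv; rw [(Submodule.mem_bot ℂ).mp hv, lie_zero]; exact Submodule.zero_mem _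
    | succ b' ih =>
      intro hb' v hv
      obtain ⟨v1, h1, v2, ⟨y, rfl⟩, rfl⟩ := Submodule.mem_sup.mp hv
      rw [lie_add]
      exact Submodule.add_mem _ (ih (by omega) v1 h1) (key i b' hi hb' x y)
  have left : ∀ a' ≤ a, ∀ u ∈ Vs X a', ⁅u, v⁆ ∈ Vs X (a + b) := by
    intro a'
    induction a' with
    | zero => intro _ v hv; rw [(Submodule.mem_bot ℂ).mp hv, zero_lie]; exact Submodule.zero_mem _
    | succ a' ih =>
      intro ha' u hu
      obtain ⟨v1, h1, v2, ⟨y, rfl⟩, rfl⟩ := Submodule.mem_sup.mp hu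
      rw [add_lie]
      exact Submodule.add_mem _ (ih (by omega) v1 h1) (right a' y ha' b le_rfl v hv)
  exact left a le_rfl u hu

theorem CC_one (X : V ℂ →ₗ[ℂ] L) (h3 : ∀ x, ⁅X x, xs X 1 x⁆ ∈ Vs X 2) : CC X 1 := by
  set q := (Vs X 2).mkQ with hq
  have q0 : ∀ x, q x = 0 ↔ x ∈ Vs X 2 := by
    intro x
    rw [hq, Submodule.mkQ_apply, Submodule.Quotient.mk_eq_zero]
  set β : V ℂ →ₗ[ℂ] V ℂ →ₗ[ℂ] (L ⧸ Vs X 2) := (lb X (xs X 1)).compr₂ q with hβ
  have hβa : ∀ x y, β x y = q ⁅X x, xs X 1 y⁆ := fun x y => rfl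
  have alt : ∀ x, β x x = 0 := by
    intro x
    rw [hβa, q0]; exact h3 x
  have sk : ∀ a b, β a b = -β b a := by
    intro a b
    have := alt (a + b)
    simp only [map_add, LinearMap.add_apply, alt a, alt b, zero_add, add_zero] at this
    exact eq_neg_of_add_eq_zero_right this
  have main : ∀ x y, β x y = (q ∘ₗ xs X 2) (cr x y) := by
    apply bil_alt β (q ∘ₗ xs X 2) (alt _) (alt _) (alt _)
    · simp [hβa, xs, nx_0]
    · rw [sk]; simp [hβa, xs, nx_0]
    · simp [hβa, xs, nx_1]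
    · rw [sk]; simp [hβa, xs, nx_1]
    · simp [hβa, xs, nx_2]
    · rw [sk]; simp [hβa, xs, nx_2]
  intro i j hij x y
  have cs : (i = 0 ∧ j = 1) ∨ (i = 1 ∧ j = 0) := by omega
  rcases cs with ⟨rfl, rfl⟩ | ⟨rfl, rfl⟩
  · rw [← q0, map_sub, sub_eq_zero]
    exact main x y
  · rw [← q0, map_sub, sub_eq_zero, ← lie_skew, map_neg]
    have h1 := main y x
    rw [hβa] at h1
    rw [show xs X 0 = X from rfl, h1]
    have : cr y x = -cr x y := by apply v_ext <;> simp [cr] <;> ring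
    rw [this, map_neg, neg_neg]; rfl

theorem CC_step (X : V ℂ →ₗ[ℂ] L) (n : ℕ) (hn : 2 ≤ n) (hC : ∀ m < n, CC X m) : CC X n := by
  set W := Vs X (n + 1) with hW
  set q := W.mkQ with hq
  have q0 : ∀ x, q x = 0 ↔ x ∈ W := by
    intro x
    rw [hq, Submodule.mkQ_apply, Submodule.Quotient.mk_eq_zero]
  have red : ∀ {a b : ℕ} {x y : L}, x ∈ Vs X a → y ∈ Vs X b → a + b ≤ n + 1 → q ⁅x, y⁆ = 0 := by
    intro a b x y hx hy hab
    rw [q0]
    exact Vs_mono X hab (Vs_lie X n hC a b hab hx hy)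
  let T : ℕ → V ℂ → V ℂ → (L ⧸ W) := fun i x y => q ⁅xs X i x, xs X (n - i) y⁆
  have Tdef : ∀ i x y, T i x y = q ⁅xs X i x, xs X (n - i) y⁆ := fun i x y => rfl
  have J : ∀ i j, i + j + 1 ≤ n → ∀ x a b,
      T i x (cr a b) = T (i + j + 1) (cr x a) b + T j a (cr x b) := by
    intro i j hij x a b
    obtain ⟨k, hk⟩ : ∃ k, n = i + j + 1 + k := ⟨n - (i + j + 1), by omega⟩
    have e1 : n - i = j + k + 1 := by omega
    have e2 : n - (i + j + 1) = k := by omega
    have e3 : n - j = i + k + 1 := by omega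
    have c1 := hC (j + k) (by omega) j k rfl a b
    have c2 := hC (i + j) (by omega) i j rfl x a
    have c3 := hC (i + k) (by omega) i k rfl x b
    have r1 := red (xs_mem X (le_refl (i + 1)) x) c1 (by omega)
    have r2 := red c2 (xs_mem X (le_refl (k + 1)) b) (by omega)
    have r3 := red (xs_mem X (le_refl (j + 1)) a) c3 (by omega)
    rw [lie_sub, map_sub, sub_eq_zero] at r1 r3
    rw [sub_lie, map_sub, sub_eq_zero] at r2
    rw [Tdef, Tdef, Tdef, e1, e2, e3, ← r1, ← r2, ← r3, ← map_add, ← leibniz_lie]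
  have skw : ∀ i, i ≤ n → ∀ x y, T i x y = -T (n - i) y x := by
    intro i hi x y
    have : n - (n - i) = i := by omega
    rw [Tdef, Tdef, this, ← lie_skew, map_neg]
  have Tneg : ∀ i x y, T i x (-y) = -T i x y := by
    intro i x y; simp only [Tdef, map_neg, lie_neg]
  have Tneg' : ∀ i x y, T i (-x) y = -T i x y := by
    intro i x y; simp only [Tdef, map_neg, neg_lie]
  have T0 : ∀ i y, T i 0 y = 0 := by
    intro i y; simp only [Tdef, map_zero, zero_lie]
  -- cross products of basis vectors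
  have c01 : cr (bas 0) (bas 1) = bas 2 := by apply v_ext <;> simp [cr, bas]
  have c12 : cr (bas 1) (bas 2) = bas 0 := by apply v_ext <;> simp [cr, bas]
  have c20 : cr (bas 2) (bas 0) = bas 1 := by apply v_ext <;> simp [cr, bas]
  have c10 : cr (bas 1) (bas 0) = -bas 2 := by apply v_ext <;> simp [cr, bas]
  have c21 : cr (bas 2) (bas 1) = -bas 0 := by apply v_ext <;> simp [cr, bas]
  have c02 : cr (bas 0) (bas 2) = -bas 1 := by apply v_ext <;> simp [cr, bas]
  have cxx : ∀ x : V ℂ, cr x x = 0 := by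
    intro x; apply v_ext <;> simp [cr] <;> ring
  -- off-diagonal
  have off : ∀ i, i + 1 ≤ n → ∀ x b, T i x (cr x b) = T 0 x (cr x b) := by
    intro i hi x b
    have := J i 0 (by omega) x x b
    rw [cxx, T0, zero_add] at this
    exact this
  have offb : ∀ i, i + 1 ≤ n → ∀ p r : Fin 3, p ≠ r → T i (bas p) (bas r) = T 0 (bas p) (bas r) := by
    intro i hi p r hpr
    fin_cases p <;> fin_cases r
    · exact absurd rfl hpr
    · have := off i hi (bas 0) (bas 2); rw [c02, Tneg, Tneg, neg_inj] at this; exact this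
    · have := off i hi (bas 0) (bas 1); rw [c01] at this; exact this
    · have := off i hi (bas 1) (bas 2); rw [c12] at this; exact this
    · exact absurd rfl hpr
    · have := off i hi (bas 1) (bas 0); rw [c10, Tneg, Tneg, neg_inj] at this; exact this
    · have := off i hi (bas 2) (bas 1); rw [c21, Tneg, Tneg, neg_inj] at this; exact this
    · have := off i hi (bas 2) (bas 0); rw [c20] at this; exact this
    · exact absurd rfl hpr
  have anti : ∀ p r : Fin 3, p ≠ r → T 0 (bas p) (bas r) = -T 0 (bas r) (bas p) := by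
    intro p r hpr
    rw [← offb 1 (by omega) p r hpr, skw 1 (by omega), offb (n - 1) (by omega) r p hpr.symm]
  have offall : ∀ i, i ≤ n → ∀ p r : Fin 3, p ≠ r →
      T i (bas p) (bas r) = T 0 (bas p) (bas r) := by
    intro i hi p r hpr
    by_cases h : i + 1 ≤ n
    · exact offb i h p r hpr
    · obtain rfl : i = n := by omega
      rw [skw i le_rfl, Nat.sub_self, anti r p hpr.symm, neg_neg]
  -- diagonal
  have D : ∀ i j, i + j + 1 ≤ n →
      (T (i + j + 1) (bas 2) (bas 2) = T i (bas 0) (bas 0) + T j (bas 1) (bas 1)) ∧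
      (T (i + j + 1) (bas 0) (bas 0) = T i (bas 1) (bas 1) + T j (bas 2) (bas 2)) ∧
      (T (i + j + 1) (bas 1) (bas 1) = T i (bas 2) (bas 2) + T j (bas 0) (bas 0)) := by
    intro i j hij
    have a1 := J i j hij (bas 0) (bas 1) (bas 2)
    have a2 := J i j hij (bas 1) (bas 2) (bas 0)
    have a3 := J i j hij (bas 2) (bas 0) (bas 1)
    rw [c12, c01, c02, Tneg] at a1
    rw [c20, c12, c10, Tneg] at a2
    rw [c01, c20, c21, Tneg] at a3
    refine ⟨?_, ?_, ?_⟩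
    · rw [a1]; abel
    · rw [a2]; abel
    · rw [a3]; abel
  obtain ⟨p1, p2, p3⟩ := D 0 0 (by omega)
  obtain ⟨r1, r2, r3⟩ := D 0 1 (by omega)
  obtain ⟨s1, s2, s3⟩ := D 1 0 (by omega)
  simp only [zero_add, Nat.reduceAdd] at p1 p2 p3 r1 r2 r3 s1 s2 s3
  set θ0 := T 0 (bas 0) (bas 0) with hθ0
  set θ1 := T 0 (bas 1) (bas 1) with hθ1
  set θ2 := T 0 (bas 2) (bas 2) with hθ2
  -- p1 : T 1 2 2 = θ0 + θ1 ; p2 : T 1 0 0 = θ1 + θ2 ; p3 : T 1 1 1 = θ2 + θ0
  have u1 : θ0 + (θ2 + θ0) = (θ1 + θ2) + θ1 := by rw [← p3, ← p2, ← r1, ← s1]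
  have u2 : θ1 + (θ0 + θ1) = (θ2 + θ0) + θ2 := by rw [← p1, ← p3, ← r2, ← s2]
  have v1 : θ0 = θ1 := by
    have : (2 : ℂ) • θ0 = (2 : ℂ) • θ1 := by
      have e1 : (2 : ℂ) • θ0 = θ0 + (θ2 + θ0) - θ2 := by module
      rw [e1, u1]; module
    exact smul_right_injective _ two_ne_zero this
  have v2 : θ1 = θ2 := by
    have : (2 : ℂ) • θ1 = (2 : ℂ) • θ2 := by
      have e1 : (2 : ℂ) • θ1 = θ1 + (θ0 + θ1) - θ0 := by module
      rw [e1, u2]; module
    exact smul_right_injective _ two_ne_zero this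
  have diag : ∀ i, i ≤ n → T i (bas 0) (bas 0) = ((i : ℂ) + 1) • θ0 ∧
      T i (bas 1) (bas 1) = ((i : ℂ) + 1) • θ0 ∧ T i (bas 2) (bas 2) = ((i : ℂ) + 1) • θ0 := by
    intro i
    induction i with
    | zero =>
      intro _
      refine ⟨?_, ?_, ?_⟩
      · simp [hθ0]
      · simp [v1, hθ1]
      · simp [v1, v2, hθ2]
    | succ i ih =>
      intro hi
      obtain ⟨i1, i2, i3⟩ := ih (by omega)
      obtain ⟨d1, d2, d3⟩ := D i 0 (by omega)
      simp only [add_zero] at d1 d2 d3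
      refine ⟨?_, ?_, ?_⟩
      · rw [d2, i2, ← hθ2, ← v2, ← v1]; push_cast; module
      · rw [d3, i3, ← hθ0]; push_cast; module
      · rw [d1, i1, ← hθ1, ← v1]; push_cast; module
  have θz : θ0 = 0 := by
    have h1 := (diag n le_rfl).1
    rw [skw n le_rfl, Nat.sub_self, ← hθ0] at h1
    have h2 : ((n : ℂ) + 2) • θ0 = 0 := by
      have e1 : ((n : ℂ) + 2) • θ0 = ((n : ℂ) + 1) • θ0 + θ0 := by module
      rw [e1, ← h1]; module
    refine (smul_eq_zero.mp h2).resolve_left ?_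
    have : ((n + 2 : ℕ) : ℂ) ≠ 0 := by exact_mod_cast Nat.succ_ne_zero (n + 1)
    push_cast at this
    exact this
  intro i j hij x y
  have hj : n - i = j := by omega
  set β : V ℂ →ₗ[ℂ] V ℂ →ₗ[ℂ] (L ⧸ W) := (lb (xs X i) (xs X j)).compr₂ q with hβ
  have hβa : ∀ x y, β x y = T i x y := by
    intro x y
    rw [Tdef, hj]; rfl
  have hg0 : (q ∘ₗ xs X (n + 1)) (bas 0) = T 0 (bas 1) (bas 2) := by
    simp [Tdef, xs, nx_0]
  have hg1 : (q ∘ₗ xs X (n + 1)) (bas 1) = T 0 (bas 2) (bas 0) := by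
    simp [Tdef, xs, nx_1]
  have hg2 : (q ∘ₗ xs X (n + 1)) (bas 2) = T 0 (bas 0) (bas 1) := by
    simp [Tdef, xs, nx_2]
  have hi : i ≤ n := by omega
  obtain ⟨d0, d1, d2⟩ := diag i hi
  rw [θz, smul_zero] at d0 d1 d2
  have main := bil_alt β (q ∘ₗ xs X (n + 1)) (by rw [hβa, d0]) (by rw [hβa, d1])
    (by rw [hβa, d2]) (by rw [hβa, hg0, offall i hi _ _ (by decide)])
    (by rw [hβa, hg0, offall i hi _ _ (by decide), anti _ _ (by decide)])
    (by rw [hβa, hg1, offall i hi _ _ (by decide)])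
    (by rw [hβa, hg1, offall i hi _ _ (by decide), anti _ _ (by decide)])
    (by rw [hβa, hg2, offall i hi _ _ (by decide)])
    (by rw [hβa, hg2, offall i hi _ _ (by decide), anti _ _ (by decide)]) x y
  rw [hβa, Tdef, hj] at main
  rw [← q0, map_sub, sub_eq_zero]
  exact main

theorem CC_all (X : V ℂ →ₗ[ℂ] L) (h3 : ∀ x, ⁅X x, xs X 1 x⁆ ∈ Vs X 2) (n : ℕ) : CC X n := by
  induction n using Nat.strong_induction_on with
  | _ n ih =>
    rcases (by omega : n = 0 ∨ n = 1 ∨ 2 ≤ n) with rfl | rfl | h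
    · exact CC_zero X
    · exact CC_one X h3
    · exact CC_step X n h ih

theorem X_Vs (X : V ℂ →ₗ[ℂ] L) (h3 : ∀ x, ⁅X x, xs X 1 x⁆ ∈ Vs X 2) (n : ℕ) (x : V ℂ) {v : L}
    (hv : v ∈ Vs X n) : ⁅X x, v⁆ ∈ Vs X (n + 1) := by
  have := Vs_lie X (n + 1) (fun m _ => CC_all X h3 m) 1 n (by omega)
    (xs_mem X (le_refl 1) x) hv
  rwa [add_comm] at this

/-- `X_{n+1}` is spanned by brackets of `X` with `X_n`. -/
theorem Vs_succ_le (X : V ℂ →ₗ[ℂ] L) (n : ℕ) (N : Submodule ℂ L) (h1 : Vs X (n + 1) ≤ N)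
    (h2 : ∀ x, ∀ v ∈ Vs X (n + 1), ⁅X x, v⁆ ∈ N) : Vs X (n + 2) ≤ N := by
  refine sup_le h1 ?_
  rintro _ ⟨z, rfl⟩
  rw [lin_decomp (xs X (n + 1)) z]
  have e0 : xs X (n + 1) (bas 0) ∈ N := by
    rw [show xs X (n + 1) (bas 0) = _ from nx_0 X _]
    exact h2 _ _ (xs_mem X le_rfl _)
  have e1 : xs X (n + 1) (bas 1) ∈ N := by
    rw [show xs X (n + 1) (bas 1) = _ from nx_1 X _]
    exact h2 _ _ (xs_mem X le_rfl _)
  have e2 : xs X (n + 1) (bas 2) ∈ N := by
    rw [show xs X (n + 1) (bas 2) = _ from nx_2 X _]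
    exact h2 _ _ (xs_mem X le_rfl _)
  exact Submodule.add_mem _ (Submodule.add_mem _ (Submodule.smul_mem _ _ e0)
    (Submodule.smul_mem _ _ e1)) (Submodule.smul_mem _ _ e2)

/-- Cross closure. -/
theorem cross_closed (X Y : V ℂ →ₗ[ℂ] L) (hX : ∀ x, ⁅X x, xs X 1 x⁆ ∈ Vs X 2)
    (hY : ∀ x, ⁅Y x, xs Y 1 x⁆ ∈ Vs Y 2)
    (hXY : ∀ x y, ⁅X x, Y y⁆ ∈ Vs X 1 ⊔ Vs Y 1) (n : ℕ) :
    (∀ x, ∀ v ∈ Vs Y n, ⁅X x, v⁆ ∈ Vs X n ⊔ Vs Y n) ∧
    (∀ y, ∀ v ∈ Vs X n, ⁅Y y, v⁆ ∈ Vs X n ⊔ Vs Y n) := by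
  have memV1 : ∀ (Z : V ℂ →ₗ[ℂ] L) (w : L), w ∈ Vs Z 1 → ∃ z, w = Z z := by
    intro Z w hw
    obtain ⟨v1, h1, v2, ⟨y, rfl⟩, rfl⟩ := Submodule.mem_sup.mp hw
    rw [(Submodule.mem_bot ℂ).mp h1, zero_add]
    exact ⟨y, rfl⟩
  have mono : ∀ {a b : ℕ}, a ≤ b → Vs X a ⊔ Vs Y a ≤ Vs X b ⊔ Vs Y b := fun h =>
    sup_le_sup (Vs_mono X h) (Vs_mono Y h)
  induction n with
  | zero =>
    constructor
    · intro x v hv; rw [(Submodule.mem_bot ℂ).mp hv, lie_zero]; exact Submodule.zero_mem _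
    · intro x v hv; rw [(Submodule.mem_bot ℂ).mp hv, lie_zero]; exact Submodule.zero_mem _
  | succ n ih =>
    obtain ⟨ih1, ih2⟩ := ih
    rcases n with _ | n
    · constructor
      · intro x v hv
        obtain ⟨y, rfl⟩ := memV1 Y v hv
        exact hXY x y
      · intro y v hv
        obtain ⟨x, rfl⟩ := memV1 X v hv
        rw [← lie_skew]
        exact Submodule.neg_mem _ (hXY x y)
    · constructor
      · intro x
        have : Vs Y (n + 2) ≤ (Vs X (n + 2) ⊔ Vs Y (n + 2)).comap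
            ((LieModule.toEnd ℂ L L (X x) : L →ₗ[ℂ] L)) := by
          apply Vs_succ_le
          · intro v hv
            exact mono (by omega) (ih1 x v hv)
          · intro y v hv
            show ⁅X x, ⁅Y y, v⁆⁆ ∈ Vs X (n + 2) ⊔ Vs Y (n + 2)
            rw [leibniz_lie]
            apply Submodule.add_mem
            · obtain ⟨a, ha, b, hb, hab⟩ := Submodule.mem_sup.mp (hXY x y)
              obtain ⟨a, rfl⟩ := memV1 X a ha
              obtain ⟨b, rfl⟩ := memV1 Y b hb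
              rw [← hab, add_lie]
              exact Submodule.add_mem _ (mono (by omega) (ih1 a v hv))
                (Submodule.mem_sup_right (X_Vs Y hY _ _ hv))
            · obtain ⟨a, ha, b, hb, hab⟩ := Submodule.mem_sup.mp (ih1 x v hv)
              rw [← hab, lie_add]
              exact Submodule.add_mem _ (mono (by omega) (ih2 y a ha))
                (Submodule.mem_sup_right (X_Vs Y hY _ _ hb))
        intro v hv
        exact this hv
      · intro y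
        have : Vs X (n + 2) ≤ (Vs X (n + 2) ⊔ Vs Y (n + 2)).comap
            ((LieModule.toEnd ℂ L L (Y y) : L →ₗ[ℂ] L)) := by
          apply Vs_succ_le
          · intro v hv
            exact mono (by omega) (ih2 y v hv)
          · intro x v hv
            show ⁅Y y, ⁅X x, v⁆⁆ ∈ Vs X (n + 2) ⊔ Vs Y (n + 2)
            rw [leibniz_lie]
            apply Submodule.add_mem
            · obtain ⟨a, ha, b, hb, hab⟩ := Submodule.mem_sup.mp (hXY x y)
              obtain ⟨a, rfl⟩ := memV1 X a ha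
              obtain ⟨b, rfl⟩ := memV1 Y b hb
              rw [← lie_skew (Y y) (X x), ← hab, neg_lie, add_lie]
              exact Submodule.neg_mem _ (Submodule.add_mem _
                (Submodule.mem_sup_left (X_Vs X hX _ _ hv)) (mono (by omega) (ih2 b v hv)))
            · obtain ⟨a, ha, b, hb, hab⟩ := Submodule.mem_sup.mp (ih2 y v hv)
              rw [← hab, lie_add]
              exact Submodule.add_mem _ (Submodule.mem_sup_left (X_Vs X hX _ _ ha))
                (mono (by omega) (ih1 x b hb))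
        intro v hv
        exact this hv

/-- The generated subalgebra is the union of the `Vs X n ⊔ Vs Y n`. -/
theorem mem_gen (X Y : V ℂ →ₗ[ℂ] L) (hX : ∀ x, ⁅X x, xs X 1 x⁆ ∈ Vs X 2)
    (hY : ∀ x, ⁅Y x, xs Y 1 x⁆ ∈ Vs Y 2)
    (hXY : ∀ x y, ⁅X x, Y y⁆ ∈ Vs X 1 ⊔ Vs Y 1) (u : L) :
    u ∈ LieSubalgebra.lieSpan ℂ L (Set.range X ∪ Set.range Y) ↔ ∃ n, u ∈ Vs X n ⊔ Vs Y n := by
  have mono : ∀ {a b : ℕ}, a ≤ b → Vs X a ⊔ Vs Y a ≤ Vs X b ⊔ Vs Y b := fun h =>
    sup_le_sup (Vs_mono X h) (Vs_mono Y h)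
  have adX : ∀ x n, ∀ v ∈ Vs X n ⊔ Vs Y n, ⁅X x, v⁆ ∈ Vs X (n + 1) ⊔ Vs Y (n + 1) := by
    intro x n v hv
    obtain ⟨a, ha, b, hb, rfl⟩ := Submodule.mem_sup.mp hv
    rw [lie_add]
    exact Submodule.add_mem _ (Submodule.mem_sup_left (X_Vs X hX _ _ ha))
      (mono (by omega) ((cross_closed X Y hX hY hXY n).1 x b hb))
  have adY : ∀ x n, ∀ v ∈ Vs X n ⊔ Vs Y n, ⁅Y x, v⁆ ∈ Vs X (n + 1) ⊔ Vs Y (n + 1) := by
    intro x n v hv
    obtain ⟨a, ha, b, hb, rfl⟩ := Submodule.mem_sup.mp hv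
    rw [lie_add]
    exact Submodule.add_mem _ (mono (by omega) ((cross_closed X Y hX hY hXY n).2 x a ha))
      (Submodule.mem_sup_right (X_Vs Y hY _ _ hb))
  constructor
  · -- the union
    intro hu
    let N : Submodule ℂ L :=
      { carrier := {u | ∃ n, u ∈ Vs X n ⊔ Vs Y n}
        add_mem' := by
          rintro a b ⟨n, ha⟩ ⟨m, hb⟩
          exact ⟨max n m, Submodule.add_mem _ (mono (le_max_left n m) ha)
            (mono (le_max_right n m) hb)⟩
        zero_mem' := ⟨0, Submodule.zero_mem _⟩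
        smul_mem' := by
          rintro c a ⟨n, ha⟩
          exact ⟨n, Submodule.smul_mem _ _ ha⟩ }
    -- the stabiliser
    let S : LieSubalgebra ℂ L :=
      { carrier := {u | ∀ v ∈ N, ⁅u, v⁆ ∈ N}
        add_mem' := by
          intro a b ha hb v hv
          rw [add_lie]; exact N.add_mem (ha v hv) (hb v hv)
        zero_mem' := by intro v _; rw [zero_lie]; exact N.zero_mem
        smul_mem' := by
          intro c a ha v hv
          rw [smul_lie]; exact N.smul_mem _ (ha v hv)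
        lie_mem' := by
          intro a b ha hb v hv
          rw [lie_lie]
          exact N.sub_mem (ha _ (hb _ hv)) (hb _ (ha _ hv)) }
    have hS : LieSubalgebra.lieSpan ℂ L (Set.range X ∪ Set.range Y) ≤ S := by
      rw [LieSubalgebra.lieSpan_le]
      rintro _ (⟨x, rfl⟩ | ⟨x, rfl⟩)
      · rintro v ⟨n, hv⟩
        exact ⟨n + 1, adX x n v hv⟩
      · rintro v ⟨n, hv⟩
        exact ⟨n + 1, adY x n v hv⟩
    have hNle : ∀ n, Vs X n ⊔ Vs Y n ≤
        (LieSubalgebra.lieSpan ℂ L (Set.range X ∪ Set.range Y)).toSubmodule := by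
      have aux : ∀ (Z : V ℂ →ₗ[ℂ] L), (∀ z, Z z ∈
          LieSubalgebra.lieSpan ℂ L (Set.range X ∪ Set.range Y)) → ∀ n, Vs Z n ≤
          (LieSubalgebra.lieSpan ℂ L (Set.range X ∪ Set.range Y)).toSubmodule := by
        intro Z hZ n
        induction n with
        | zero => exact bot_le
        | succ n ih =>
          rcases n with _ | n
          · refine sup_le ih ?_
            rintro _ ⟨z, rfl⟩
            exact hZ z
          · exact Vs_succ_le Z n _ ih (fun z v hv =>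
              LieSubalgebra.lie_mem _ (hZ z) (ih hv))
      intro n
      exact sup_le (aux X (fun z => LieSubalgebra.subset_lieSpan (Or.inl ⟨z, rfl⟩)) n)
        (aux Y (fun z => LieSubalgebra.subset_lieSpan (Or.inr ⟨z, rfl⟩)) n)
    let G : LieSubalgebra ℂ L :=
      { N with
        lie_mem' := by
          rintro a b ⟨n, ha⟩ hb
          exact hS (hNle n ha) b hb }
    have hG : LieSubalgebra.lieSpan ℂ L (Set.range X ∪ Set.range Y) ≤ G := by
      rw [LieSubalgebra.lieSpan_le]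
      rintro _ (⟨x, rfl⟩ | ⟨x, rfl⟩)
      · exact ⟨1, Submodule.mem_sup_left (xs_mem X (le_refl 1) x)⟩
      · exact ⟨1, Submodule.mem_sup_right (xs_mem Y (le_refl 1) x)⟩
    exact hG hu
  · rintro ⟨n, hn⟩
    have aux : ∀ (Z : V ℂ →ₗ[ℂ] L), (∀ z, Z z ∈
        LieSubalgebra.lieSpan ℂ L (Set.range X ∪ Set.range Y)) → ∀ n, Vs Z n ≤
        (LieSubalgebra.lieSpan ℂ L (Set.range X ∪ Set.range Y)).toSubmodule := by
      intro Z hZ n
      induction n with
      | zero => exact bot_le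
      | succ n ih =>
        rcases n with _ | n
        · refine sup_le ih ?_
          rintro _ ⟨z, rfl⟩
          exact hZ z
        · exact Vs_succ_le Z n _ ih (fun z v hv =>
            LieSubalgebra.lie_mem _ (hZ z) (ih hv))
    exact sup_le (aux X (fun z => LieSubalgebra.subset_lieSpan (Or.inl ⟨z, rfl⟩)) n)
      (aux Y (fun z => LieSubalgebra.subset_lieSpan (Or.inr ⟨z, rfl⟩)) n) hn

end
end Helper496
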