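import Pool.Agent.Helper496_So4.Rotn

/-!
Classification of the leading data.
-/

set_option autoImplicit false

namespace Helper496

open Complex

/-- The three possible types of a pair of symmetric matrices. -/
def TT (A B : M ℂ) : Prop := (∃ a, A = sc a) ∨ (∃ b, B = sc b) ∨
  (∃ (a b α β : ℂ) (v : V ℂ), A = sc a + α • op v v ∧ α • op v v ≠ 0 ∧ B = sc b + β • op v v)

/-- The equations satisfied by the leading data. -/
structure Dat (P Q A B A' B' : M ℂ) : Prop where
  sA : tp A = A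
  sB : tp B = B
  sA' : tp A' = A'
  sB' : tp B' = B'
  x2 : ∀ x, mv (tp P) (cr x (mv A x)) = cr (mv Q x) (mv (tp P) x)
  x1 : ∀ x, mv (tp P) (cr x (mv B x)) = cr (mv (tp P) x) (mv (cof Q) x)
  st : ∀ x, cr (mv Q x) (mv (cof Q) x) = mv (cof Q) (cr x (mv A x)) + mv Q (cr x (mv B x))
  x2' : ∀ y, mv (tp Q) (cr y (mv A' y)) = cr (mv P y) (mv (tp Q) y)
  x1' : ∀ y, mv (tp Q) (cr y (mv B' y)) = cr (mv (tp Q) y) (mv (cof P) y)
  st' : ∀ y, cr (mv P y) (mv (cof P) y) = mv (cof P) (cr y (mv A' y)) + mv P (cr y (mv B' y))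
  tt : TT A B
  tt' : TT A' B'

theorem Dat.swap {P Q A B A' B' : M ℂ} (D : Dat P Q A B A' B') : Dat Q P A' B' A B where
  sA := D.sA'
  sB := D.sB'
  sA' := D.sA
  sB' := D.sB
  x2 := D.x2'
  x1 := D.x1'
  st := D.st'
  x2' := D.x2
  x1' := D.x1
  st' := D.st
  tt := D.tt'
  tt' := D.tt

/-- `c = q_0 + q_1 v^× + q_2 v vᵀ`. -/
def axm (v : V ℂ) (a b c : ℂ) : M ℂ := sc a + b • cm v + c • op v v

/-- The list of leading data. -/
inductive DL : M ℂ → M ℂ → M ℂ → M ℂ → M ℂ → M ℂ → Prop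
  | dir (A B A' B' : M ℂ) : DL 0 0 A B A' B'
  | f2 (a b : V ℂ) (m n α β α' β' : ℂ) :
      DL (m • op a b) (n • op b a) (α • op a a) (β • op a a) (α' • op b b) (β' • op b b)
  | f3 (a b : V ℂ) (α β : ℂ) (A' : M ℂ) : DL (op a b) 0 (α • op a a) (β • op a a) A' 0
  | f4 (T : M ℂ) (p q : ℂ) : DL (p • T) (q • tp T) 0 (-(q ^ 2) • mm T (tp T)) 0
      (-(p ^ 2) • mm (tp T) T)
  | f5 (O : M ℂ) (v : V ℂ) (a b c d s : ℂ) (hO : Rot O) :
      DL (s • mm (axm v a b c) (tp O)) (mm O (axm v a (-b) d)) ((c - d) • op v v)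
        ((b ^ 2 - a * (c + d) - dt v v * c * d) • op v v) ((s * (d - c)) • op (mv O v) (mv O v))
        ((s ^ 2 * (b ^ 2 - a * (c + d) - dt v v * c * d)) • op (mv O v) (mv O v))
  | f6 (Q A : M ℂ) (θ : ℂ) (hA : tp A = A) (hdet : det3 Q ≠ 0) (h : mm Q A = cof Q) :
      DL (θ • tp (cof Q)) Q A 0 (θ • mm Q (tp Q)) 0
  | f7 (n e x y z : V ℂ) (θ : ℂ) (hn : n ≠ 0) (he : cr n e = I • n) :
      DL (θ • tp (cof (op n (cr y z) + (I / 2) • op e (cr x y))))
        (op n (cr y z) + (I / 2) • op e (cr x y)) ((1 / 2 : ℂ) • (op x y + op y x)) 0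
        (θ • mm (op n (cr y z) + (I / 2) • op e (cr x y))
          (tp (op n (cr y z) + (I / 2) • op e (cr x y)))) 0
  | f8 (n e n' e' : V ℂ) (a c α α' : ℂ) (hn : n ≠ 0) (he : cr n e = I • n) (hn' : n' ≠ 0)
      (he' : cr n' e' = I • n') :
      DL (a • op e n') (c • op e' n) (α • op e e - c • (op n e + op e n)) 0
        (α' • op e' e' - a • (op n' e' + op e' n')) 0
  | f9 (n e n' e' : V ℂ) (a c α α' : ℂ) (hn : n ≠ 0) (he : cr n e = I • n) (hn' : n' ≠ 0)
      (he' : cr n' e' = I • n') :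
      DL (a • op e n') (c • op n' n) (α • op e e) 0
        (α' • op n' n' + a • (op n' e' + op e' n')) 0
  | swap {P Q A B A' B' : M ℂ} (h : DL P Q A B A' B') : DL Q P A' B' A B
  | shift {P Q A B A' B' : M ℂ} (a b a' b' : ℂ) (h : DL P Q A B A' B') :
      DL P Q (A + sc a) (B + sc b) (A' + sc a') (B' + sc b')

theorem DL.mk' {P Q A B A' B' A₀ B₀ A₀' B₀' : M ℂ} (h : DL P Q A₀ B₀ A₀' B₀')
    (hA : ∃ c, A - A₀ = sc c) (hB : ∃ c, B - B₀ = sc c) (hA' : ∃ c, A' - A₀' = sc c)
    (hB' : ∃ c, B' - B₀' = sc c) : DL P Q A B A' B' := by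
  obtain ⟨a, ha⟩ := hA
  obtain ⟨b, hb⟩ := hB
  obtain ⟨a', ha'⟩ := hA'
  obtain ⟨b', hb'⟩ := hB'
  have := h.shift a b a' b'
  rw [← ha, ← hb, ← ha', ← hb'] at this
  simpa using this

theorem sc_zero : sc (0 : ℂ) = 0 := by apply m_ext <;> simp

/-- Uniqueness modulo scalars. -/
theorem uniq {R C C₀ : M ℂ} (hR : cof R ≠ 0) (hC : tp C = C) (hC₀ : tp C₀ = C₀)
    (h : ∀ x, mv R (cr x (mv C x)) = mv R (cr x (mv C₀ x))) : ∃ c, C - C₀ = sc c := by
  apply b2 hR
  · rw [tp_sub, hC, hC₀]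
  · intro x
    rw [sub_mv, cr_sub_right, mv_sub, h x, sub_self]

/-- Case A1: `A` scalar. -/
theorem caseA1 {P Q A B A' B' : M ℂ} (D : Dat P Q A B A' B') (hQ : cof Q ≠ 0) (a : ℂ)
    (hA : A = sc a) : DL P Q A B A' B' := by
  have h1 : ∀ x, cr (mv Q x) (mv (tp P) x) = 0 := by
    intro x
    rw [← D.x2 x, hA, sc_mv, cr_smul_right, cr_self, smul_zero, mv_zero]
  obtain ⟨c, hc⟩ := b1 hQ h1
  have hP : P = c • tp Q := by rw [← tp_tp P, hc, tp_smul]
  have hdl := DL.f4 (tp Q) c 1
  rw [tp_tp, one_smul, ← hP] at hdl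
  refine hdl.mk' ⟨a, by rw [hA, sub_zero]⟩ ?_ ?_ ?_
  · apply uniq hQ D.sB
    · rw [tp_smul, tp_mm, tp_tp]
    · intro x
      have h2 := D.st x
      rw [hA, sc_mv, cr_smul_right, cr_self, smul_zero, mv_zero, zero_add, id4] at h2
      rw [← h2, smul_mv, cr_smul_right, mv_smul]
      module
  · apply uniq (cof_tp_ne hQ) D.sA' tp_zero
    intro y
    rw [D.x2' y, hP, smul_mv, cr_smul_left, cr_self, smul_zero, zero_mv, cr_zero_right, mv_zero]
  · apply uniq (cof_tp_ne hQ) D.sB'
    · rw [tp_smul, tp_mm, tp_tp]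
    · intro y
      rw [D.x1' y, hP, cof_smul, smul_mv, cr_smul_right, id4, tp_tp, smul_mv, cr_smul_right,
        mv_smul]
      module

/-- The common part of the case `B` scalar. -/
theorem caseA2' {P Q A B A' B' : M ℂ} (D : Dat P Q A B A' B') (hQ : cof Q ≠ 0) (θ : ℂ)
    (hP : P = θ • tp (cof Q)) :
    (∃ c, A' - θ • mm Q (tp Q) = sc c) ∧ ∃ c, B' - 0 = sc c := by
  constructor
  · apply uniq (cof_tp_ne hQ) D.sA'
    · rw [tp_smul, tp_mm, tp_tp]
    · intro y
      have h1 := id4 (tp Q) y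
      rw [tp_tp] at h1
      rw [D.x2' y, hP, smul_mv, cr_smul_left, smul_mv, cr_smul_right, mv_smul, tp_cof,
        cr_skew, h1, neg_neg]
  · apply uniq (cof_tp_ne hQ) D.sB' tp_zero
    intro y
    rw [D.x1' y, hP, cof_smul, ← tp_cof, cof_cof, tp_smul, smul_mv, smul_mv, cr_smul_right,
      cr_smul_right, cr_self, smul_zero, smul_zero, zero_mv, cr_zero_right, mv_zero]

theorem quad_prod {x u : V ℂ} {Δ : ℂ} (hx : x ≠ 0)
    (h : ∀ w, 2 * (dt x w * dt u w) = Δ * dt w w) : u = 0 := by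
  have a0 := h ![1, 0, 0]
  have a1 := h ![0, 1, 0]
  have a2 := h ![0, 0, 1]
  have b0 := h ![1, 1, 0]
  have b1 := h ![0, 1, 1]
  have b2 := h ![1, 0, 1]
  simp [dt] at a0 a1 a2 b0 b1 b2
  have e01 : x 0 * u 1 + x 1 * u 0 = 0 := by linear_combination (1 / 2) * (b0 - a0 - a1)
  have e12 : x 1 * u 2 + x 2 * u 1 = 0 := by linear_combination (1 / 2) * (b1 - a1 - a2)
  have e02 : x 0 * u 2 + x 2 * u 0 = 0 := by linear_combination (1 / 2) * (b2 - a0 - a2)
  have hΔ : Δ = 0 := by
    have h1 : Δ ^ 3 = 0 := by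
      have : Δ ^ 3 = (2 * (x 0 * u 0)) * (2 * (x 1 * u 1)) * (2 * (x 2 * u 2)) := by
        rw [a0, a1, a2]; ring
      rw [this]
      have h2 : (x 0 * u 1) * (x 1 * u 2) * (x 2 * u 0) =
          -((x 1 * u 0) * (x 2 * u 1) * (x 0 * u 2)) := by
        have g1 : x 0 * u 1 = -(x 1 * u 0) := by linear_combination e01
        have g2 : x 1 * u 2 = -(x 2 * u 1) := by linear_combination e12
        have g3 : x 2 * u 0 = -(x 0 * u 2) := by linear_combination e02
        rw [g1, g2, g3]; ring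
      linear_combination 4 * h2
    exact pow_eq_zero_iff three_ne_zero |>.mp h1
  rw [hΔ] at a0 a1 a2
  rcases v_ne hx with hr | hr | hr
  · have u0 : u 0 = 0 := by simpa [hr] using a0
    have u1 : u 1 = 0 := by rw [u0, mul_zero, add_zero] at e01; simpa [hr] using e01
    have u2 : u 2 = 0 := by rw [u0, mul_zero, add_zero] at e02; simpa [hr] using e02
    exact v_ext u0 u1 u2
  · have u1 : u 1 = 0 := by simpa [hr] using a1
    have u0 : u 0 = 0 := by rw [u1, mul_zero, zero_add] at e01; simpa [hr] using e01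
    have u2 : u 2 = 0 := by rw [u1, mul_zero, add_zero] at e12; simpa [hr] using e12
    exact v_ext u0 u1 u2
  · have u2 : u 2 = 0 := by simpa [hr] using a2
    have u0 : u 0 = 0 := by rw [u2, mul_zero, zero_add] at e02; simpa [hr] using e02
    have u1 : u 1 = 0 := by rw [u2, mul_zero, zero_add] at e12; simpa [hr] using e12
    exact v_ext u0 u1 u2

/-- Case A2: `B` scalar. -/
theorem caseA2 {P Q A B A' B' : M ℂ} (D : Dat P Q A B A' B') (hQ : cof Q ≠ 0) (b : ℂ)
    (hB : B = sc b) : DL P Q A B A' B' := by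
  have hBx : ∀ x, cr x (mv B x) = 0 := by
    intro x; rw [hB, sc_mv, cr_smul_right, cr_self, smul_zero]
  obtain ⟨τ, hτ⟩ : ∃ τ : ℂ, cof Q - mm Q A = τ • Q := by
    apply b1 hQ
    intro x
    rw [sub_mv, cr_sub_right, D.st x, hBx, mv_zero, add_zero, mm_mv, id3, sub_self]
  have hQA : mm Q (A + sc τ) = cof Q := by
    have : cof Q = mm Q A + τ • Q := by rw [← hτ]; abel
    rw [this]
    apply m_ext <;> simp <;> ring
  have hA0 : tp (A + sc τ) = A + sc τ := by rw [tp_add, tp_sc, D.sA]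
  have hx1 : ∀ x, cr (mv (cof Q) x) (mv (tp P) x) = 0 := by
    intro x
    have := D.x1 x
    rw [hBx, mv_zero] at this
    rw [cr_skew, ← this, neg_zero]
  by_cases hdet : det3 Q = 0
  · -- `det Q = 0`
    have hcc : cof (cof Q) = 0 := by rw [cof_cof, hdet, zero_smul]
    obtain ⟨p, k, hpk⟩ := rank_one hcc
    have hp : p ≠ 0 := by
      rintro rfl; apply hQ; rw [hpk]; apply m_ext <;> simp
    have hk : k ≠ 0 := by
      rintro rfl; apply hQ; rw [hpk]; apply m_ext <;> simp
    -- `Qᵀ p = 0`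
    have hQp : mv (tp Q) p = 0 := by
      have h1 := mm_tp_cof Q
      rw [hdet, sc_zero, hpk] at h1
      obtain ⟨x, hx⟩ := exists_dt hk
      have h2 := congrArg (fun T => mv T x) h1
      simp only [mm_mv, op_mv, hx, one_smul, zero_mv] at h2
      exact h2
    have hpp : dt p p = 0 := by
      obtain ⟨x, hx⟩ := exists_dt hk
      have h2 : mv Q (mv (A + sc τ) x) = p := by
        rw [← mm_mv, hQA, hpk, op_mv, hx, one_smul]
      have h3 : dt p (mv Q (mv (A + sc τ) x)) = 0 := by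
        rw [dt_comm, dt_mv_tp, hQp, dt_zero_right]
      rw [h2] at h3
      exact h3
    obtain ⟨e, he⟩ := iso_frame hp hpp
    have hee := iso_ee hp he
    have hpe := iso_pe he
    set ν := mv (tp Q) e with hν
    obtain ⟨μ, hμ⟩ : ∃ μ, Q - op e ν = op p μ := by
      apply b1' hp
      intro x
      have h1 : I • cr p (mv (Q - op e ν) x) = 0 := by
        rw [← cr_smul_left, ← he, cr_skew, cr_cr]
        have g1 : dt (mv (Q - op e ν) x) e = 0 := by
          rw [sub_mv, op_mv, dt_sub_left, dt_smul_left, hee, dt_mv_tp, ← hν, dt_comm]; ring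
        have g2 : dt (mv (Q - op e ν) x) p = 0 := by
          rw [sub_mv, op_mv, dt_sub_left, dt_smul_left, dt_comm e p, hpe, dt_mv_tp, hQp,
            dt_zero_right]; ring
        rw [g1, g2]; simp
      exact (smul_eq_zero.mp h1).resolve_left I_ne_zero
    have hQd : Q = op p μ + op e ν := by rw [← hμ]; abel
    set y := cr μ ν with hy
    have hcof : cof Q = I • op p y := by
      rw [hQd, cof_op_add, he, ← hy]
      apply m_ext <;> simp <;> ring
    have hyne : y ≠ 0 := by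
      intro h0; apply hQ; rw [hcof, h0]; apply m_ext <;> simp
    set A₀ := A + sc τ with hA₀
    clear_value A₀
    -- `A₀ ν = 0`
    have hν0 : mv A₀ ν = 0 := by
      have h1 : mv (tp (mm Q A₀)) e = mv (tp (I • op p y)) e := by rw [hQA, hcof]
      rw [tp_mm, mm_mv, hA0, tp_smul, tp_op, smul_mv, op_mv, hpe, zero_smul, smul_zero] at h1
      exact h1
    have hμ0 : mv A₀ μ = I • y := by
      have h1 : ∀ x, (dt (mv A₀ μ) x) • p = (I * dt y x) • p := by
        intro x
        have h2 : mv (mm Q A₀) x = mv (I • op p y) x := by rw [hQA, hcof]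
        rw [mm_mv, hQd, add_mv, op_mv, op_mv, smul_mv, op_mv, smul_smul] at h2
        have h3 : dt ν (mv A₀ x) = 0 := by
          rw [dt_comm, dt_mv_tp, hA0, hν0, dt_zero_right]
        rw [h3, zero_smul, add_zero] at h2
        rw [← h2, dt_mv_tp, hA0]
      have h2 : mv A₀ μ - I • y = 0 := by
        apply dt_all
        intro x
        have h3 := h1 x
        rw [← sub_eq_zero, ← sub_smul] at h3
        have h4 := (smul_eq_zero.mp h3).resolve_right hp
        rw [dt_sub_left, dt_smul_left, h4]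
      exact sub_eq_zero.mp h2
    -- the rank one matrix
    set N := A₀ + I • cm ν with hN
    have hNν : mv N ν = 0 := by
      rw [hN, add_mv, hν0, smul_mv, cm_mv, cr_self, smul_zero, add_zero]
    have hNμ : mv N μ = 0 := by
      rw [hN, add_mv, hμ0, smul_mv, cm_mv, hy, cr_skew ν μ, smul_neg, add_neg_cancel]
    obtain ⟨x, hx⟩ : ∃ x, tp N = op y x := by
      apply b1' hyne
      intro w
      rw [hy, cr_skew, cr_cr]
      have g1 : dt (mv (tp N) w) ν = 0 := by rw [dt_mv_tp, tp_tp, hNν, dt_zero_right]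
      have g2 : dt (mv (tp N) w) μ = 0 := by rw [dt_mv_tp, tp_tp, hNμ, dt_zero_right]
      rw [g1, g2]; simp
    have hNx : N = op x y := by rw [← tp_tp N, hx, tp_op]
    have htcm : tp (cm ν) = -cm ν := by apply m_ext <;> simp
    have hAN : A₀ = (1 / 2 : ℂ) • (op x y + op y x) := by
      rw [← hNx, ← hx, hN, tp_add, hA0, tp_smul, htcm]
      module
    have hνx : ν = (I / 2) • cr x y := by
      have h1 : I • cm ν = (1 / 2 : ℂ) • (op x y - op y x) := by
        rw [← hNx, ← hx, hN, tp_add, hA0, tp_smul, htcm]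
        module
      have h01 := congrFun (congrFun h1 0) 1
      have h02 := congrFun (congrFun h1 0) 2
      have h12 := congrFun (congrFun h1 1) 2
      simp at h01 h02 h12
      have hI := I_mul_I
      apply v_ext
      · simp; linear_combination I * h12 + (ν 0) * hI
      · simp; linear_combination -I * h02 + (ν 1) * hI
      · simp; linear_combination I * h01 + (ν 2) * hI
    obtain ⟨z, hz⟩ : ∃ z, μ = cr y z := by
      apply perp_cr hyne
      rw [hy, dt_comm, dt_cr_self_left]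
    -- `P`
    obtain ⟨r, hr⟩ : ∃ r, tp P = op p r := by
      apply b1' hp
      apply dt_cancel hyne (fun x => cr p (mv (tp P) x))
      · intro a b
        simp only [mv_add, cr_add_right]
      · intro w
        have h1 := hx1 w
        rw [hcof, smul_mv, op_mv, cr_smul_left, cr_smul_left, smul_smul] at h1
        have h2 := (smul_eq_zero.mp h1)
        rcases h2 with h2 | h2
        · rw [(mul_eq_zero.mp h2).resolve_left I_ne_zero, zero_smul]
        · rw [h2, smul_zero]
    have hP : P = op r p := by rw [← tp_tp P, hr, tp_op]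
    -- the equation for `r`
    have hxne : x ≠ 0 := by
      rintro rfl
      rw [cr_zero_left, smul_zero] at hνx
      apply hyne
      rw [hy, hνx, cr_zero_right]
    have hrel : ∀ w, dt r (cr w (mv A₀ w)) = -(I * (dt r w * dt ν w)) := by
      intro w
      have h1 := D.x2 w
      have h2 : cr w (mv A w) = cr w (mv A₀ w) := by
        rw [hA₀, add_mv, sc_mv, cr_add_right, cr_smul_right, cr_self, smul_zero, add_zero]
      rw [h2, hr, op_mv, op_mv, hQd, add_mv, op_mv, op_mv, cr_smul_right, cr_add_left,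
        cr_smul_left, cr_smul_left, cr_self, smul_zero, zero_add, cr_skew e p, he] at h1
      have h3 : (dt r (cr w (mv A₀ w)) + I * (dt r w * dt ν w)) • p = 0 := by
        rw [add_smul, h1]; module
      have h4 := (smul_eq_zero.mp h3).resolve_right hp
      linear_combination h4
    have hu : cr y r = 0 := by
      apply quad_prod (Δ := dt r (cr x y)) hxne
      intro w
      have h1 := hrel w
      rw [hAN, hνx] at h1
      simp [dt] at h1 ⊢
      have hI := I_mul_I
      grind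
    obtain ⟨κ, hκ⟩ := par hyne hu
    have hPθ : P = (-(I * κ)) • tp (cof Q) := by
      rw [hcof, hP, hκ, tp_smul, tp_op]
      have hI := I_mul_I
      apply m_ext <;> simp <;> grind
    obtain ⟨hA', hB'⟩ := caseA2' D hQ _ hPθ
    have hdl := DL.f7 p e x y z (-(I * κ)) hp he
    have hQ7 : op p (cr y z) + (I / 2) • op e (cr x y) = Q := by
      rw [hQd, hz, hνx]
      apply m_ext <;> simp <;> ring
    rw [hQ7, ← hPθ, ← hAN] at hdl
    refine hdl.mk' ⟨-τ, by rw [hA₀]; apply m_ext <;> simp⟩ ⟨b, by rw [hB, sub_zero]⟩ hA' hB'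
  · -- `det Q ≠ 0`
    have hcc : cof (cof Q) ≠ 0 := by
      rw [cof_cof]
      intro h0
      have h1 := (smul_eq_zero.mp h0).resolve_left hdet
      apply hQ
      rw [h1, cof_zero]
    obtain ⟨θ, hθ⟩ := b1 hcc hx1
    have hP : P = θ • tp (cof Q) := by rw [← tp_tp P, hθ, tp_smul]
    obtain ⟨hA', hB'⟩ := caseA2' D hQ θ hP
    have hdl := DL.f6 Q (A + sc τ) θ hA0 hdet hQA
    rw [← hP] at hdl
    exact hdl.mk' ⟨-τ, by apply m_ext <;> simp⟩ ⟨b, by rw [hB, sub_zero]⟩ hA' hB'

end Helper496
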