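import Pool.Agent.Helper496_So4.Data

/-!
Classification of the leading data: the axial case.
-/

set_option autoImplicit false

namespace Helper496

open Complex

theorem axm_mv (v : V ℂ) (a b c : ℂ) (x : V ℂ) :
    mv (axm v a b c) x = a • x + b • cr v x + (c * dt v x) • v := by
  rw [axm, add_mv, add_mv, sc_mv, smul_mv, cm_mv, smul_mv, op_mv, smul_smul]

theorem tp_axm (v : V ℂ) (a b c : ℂ) : tp (axm v a b c) = axm v a (-b) c := by
  apply m_ext <;> simp [axm, mul_comm]

theorem cof_axm (v : V ℂ) (a b c : ℂ) : cof (axm v a b c) =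
    axm v (a * (a + dt v v * c)) (b * (a + dt v v * c)) (b ^ 2 - a * c) := by
  apply m_ext <;> simp [axm, dt] <;> ring

theorem gram_axm (v : V ℂ) (a b c : ℂ) : mm (tp (axm v a b c)) (axm v a b c) =
    sc (a ^ 2 + dt v v * b ^ 2) + (2 * a * c + dt v v * c ^ 2 - b ^ 2) • op v v := by
  apply m_ext <;> simp [axm, dt] <;> ring

theorem axm_smul (s : ℂ) (v : V ℂ) (a b c : ℂ) :
    s • axm v a b c = axm v (s * a) (s * b) (s * c) := by
  apply m_ext <;> simp [axm] <;> ring

theorem axm_add (v : V ℂ) (a b c a' b' c' : ℂ) :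
    axm v a b c + axm v a' b' c' = axm v (a + a') (b + b') (c + c') := by
  apply m_ext <;> simp [axm] <;> ring

theorem axm_zero (v : V ℂ) : axm v 0 0 0 = 0 := by
  apply m_ext <;> simp [axm]

/-- Rotation of the data. -/
theorem Dat.rot {P Q A B A' B' O : M ℂ} (D : Dat P Q A B A' B') (hO : Rot O) :
    Dat (mm P O) (mm (tp O) Q) A B (mm (tp O) (mm A' O)) (mm (tp O) (mm B' O)) := by
  have ht := hO.tp
  have hcofQ : cof (mm (tp O) Q) = mm (tp O) (cof Q) := by rw [cof_mm, ht.cof]
  have hcofP : cof (mm P O) = mm (cof P) O := by rw [cof_mm, hO.cof]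
  refine ⟨D.sA, D.sB, ?_, ?_, ?_, ?_, ?_, ?_, ?_, ?_, D.tt, ?_⟩
  · rw [tp_mm, tp_mm, tp_tp, D.sA', mm_assoc]
  · rw [tp_mm, tp_mm, tp_tp, D.sB', mm_assoc]
  · intro x
    rw [tp_mm, mm_mv, D.x2, mm_mv, mm_mv, ht.cr]
  · intro x
    rw [tp_mm, mm_mv, D.x1, mm_mv, hcofQ, mm_mv, ht.cr]
  · intro x
    rw [hcofQ, mm_mv, mm_mv, ht.cr, D.st, mm_mv, mm_mv, mv_add]
  · intro y
    have e : cr y (mv (mm (tp O) (mm A' O)) y) = mv (tp O) (cr (mv O y) (mv A' (mv O y))) := by
      rw [mm_mv, mm_mv, ← ht.cr, hO.tp_mv]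
    rw [e, tp_mm, tp_tp, mm_mv, hO.mv_tp, D.x2', mm_mv, mm_mv]
  · intro y
    have e : cr y (mv (mm (tp O) (mm B' O)) y) = mv (tp O) (cr (mv O y) (mv B' (mv O y))) := by
      rw [mm_mv, mm_mv, ← ht.cr, hO.tp_mv]
    rw [e, tp_mm, tp_tp, mm_mv, hO.mv_tp, D.x1', hcofP, mm_mv, mm_mv]
  · intro y
    have e : cr y (mv (mm (tp O) (mm A' O)) y) = mv (tp O) (cr (mv O y) (mv A' (mv O y))) := by
      rw [mm_mv, mm_mv, ← ht.cr, hO.tp_mv]
    have e' : cr y (mv (mm (tp O) (mm B' O)) y) = mv (tp O) (cr (mv O y) (mv B' (mv O y))) := by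
      rw [mm_mv, mm_mv, ← ht.cr, hO.tp_mv]
    rw [e, e', hcofP, mm_mv, mm_mv, D.st', mm_mv, mm_mv, hO.mv_tp, hO.mv_tp]
  · rcases D.tt' with ⟨a, ha⟩ | ⟨b, hb⟩ | ⟨a, b, α, β, v, hA, hne, hB⟩
    · left
      refine ⟨a, m_ext_mv fun x => ?_⟩
      rw [ha, mm_mv, mm_mv, sc_mv, mv_smul, hO.tp_mv, sc_mv]
    · right; left
      refine ⟨b, m_ext_mv fun x => ?_⟩
      rw [hb, mm_mv, mm_mv, sc_mv, mv_smul, hO.tp_mv, sc_mv]
    · right; right
      have key : ∀ s t : ℂ, mm (tp O) (mm (sc s + t • op v v) O) =
          sc s + t • op (mv (tp O) v) (mv (tp O) v) := by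
        intro s t
        apply m_ext_mv
        intro x
        rw [mm_mv, mm_mv, add_mv, sc_mv, smul_mv, op_mv, mv_add, mv_smul, hO.tp_mv, mv_smul,
          mv_smul, add_mv, sc_mv, smul_mv, op_mv, dt_mv_tp, tp_tp]
      refine ⟨a, b, α, β, mv (tp O) v, ?_, ?_, ?_⟩
      · rw [hA, key]
      · intro h0
        apply hne
        have h1 := key 0 α
        rw [h0, sc_zero, zero_add, zero_add] at h1
        have h2 : mm O (mm (mm (tp O) (mm (α • op v v) O)) (tp O)) = 0 := by
          rw [h1]; apply m_ext <;> simp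
        rw [← h2]
        apply m_ext_mv
        intro x
        simp only [mm_mv]
        rw [hO.mv_tp, hO.mv_tp]
      · rw [hB, key]

/-- The intertwining vector. -/
theorem exists_u {Q : M ℂ} {v : V ℂ} {α β : ℂ} (hv : v ≠ 0) (hα : α ≠ 0) (hβ : β ≠ 0)
    (hQ : cof Q ≠ 0)
    (st : ∀ x, cr (mv Q x) (mv (cof Q) x) =
      (α * dt v x) • cr (mv Q x) (mv Q v) + (β * dt v x) • mv Q (cr x v)) :
    ∃ u, dt u u = dt v v ∧ ∀ x, cr u (mv Q x) = mv Q (cr v x) := by
  set S := mm (tp Q) Q with hS
  have hSs : tp S = S := by rw [hS, tp_mm, tp_tp]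
  have hQS : ∀ x y, dt (mv Q x) (mv Q y) = dt x (mv S y) := by
    intro x y
    rw [dt_mv_tp, hS, mm_mv]
  -- `S` is axial
  have h1 : ∀ x, dt v (cr x (mv S x)) = 0 := by
    apply dt_cancel2 hv (fun x => dt v (cr x (mv S x)))
    · intro x y
      simp [dt]
      ring
    · intro x
      have h2 := congrArg (dt (mv Q x)) (st x)
      rw [dt_cr_self_left, dt_add_right, dt_smul_right, dt_smul_right, dt_cr_self_left, mul_zero,
        zero_add, dt_comm (mv Q x), hQS] at h2
      have h3 : dt (cr x v) (mv S x) = dt v (cr (mv S x) x) := by simp [dt]; ring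
      rw [h3, cr_skew, dt_neg_right] at h2
      have h4 : β * (dt v x * dt v (cr x (mv S x))) = 0 := by linear_combination h2
      exact (mul_eq_zero.mp h4).resolve_left hβ
  obtain ⟨σ, ρ, hσρ⟩ := b2a hv hSs h1
  have hSv : ∀ x, mv S x = σ • x + (ρ * dt v x) • v := by
    intro x
    rw [hσρ, add_mv, sc_mv, smul_mv, op_mv, smul_smul]
  by_cases hσ : σ = 0
  · -- `σ = 0`
    subst hσ
    have hSv' : ∀ x, mv S x = (ρ * dt v x) • v := by
      intro x; rw [hSv, zero_smul, zero_add]
    have hrel : ∀ x, α • cr (mv Q x) (mv Q v) + (β + ρ) • mv Q (cr x v) = 0 := by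
      apply dt_cancel hv (fun x => α • cr (mv Q x) (mv Q v) + (β + ρ) • mv Q (cr x v))
      · intro x y
        simp only [mv_add, cr_add_left, smul_add]
        abel
      · intro x
        have h2 := st x
        rw [id4, ← hS, hSv', cr_smul_right, mv_smul] at h2
        have h3 : dt v x • (α • cr (mv Q x) (mv Q v) + (β + ρ) • mv Q (cr x v)) =
            ((α * dt v x) • cr (mv Q x) (mv Q v) + (β * dt v x) • mv Q (cr x v)) +
              (ρ * dt v x) • mv Q (cr x v) := by module
        rw [h3, ← h2]
        module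
    have hQcof : ∀ w, (∀ x, cr (mv Q x) w = 0) → w = 0 := by
      intro w hw
      by_contra hne
      obtain ⟨r, hr⟩ := b1' (S := Q) hne (fun x => by rw [cr_skew, hw, neg_zero])
      apply hQ
      rw [hr, cof_op]
    by_cases hz : β + ρ = 0
    · -- `z = 0`
      have hQv : mv Q v = 0 := by
        apply hQcof
        intro x
        have h2 := hrel x
        rw [hz, zero_smul, add_zero] at h2
        exact (smul_eq_zero.mp h2).resolve_left hα
      have hρ : ρ ≠ 0 := by
        intro h0; apply hβ; rw [h0, add_zero] at hz; exact hz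
      have hνv : dt v v = 0 := by
        have h2 := hQS v v
        rw [hQv, dt_zero_left, hSv', dt_smul_right] at h2
        have h3 : ρ * (dt v v * dt v v) = 0 := by linear_combination -h2
        exact mul_self_eq_zero.mp ((mul_eq_zero.mp h3).resolve_left hρ)
      obtain ⟨e, he⟩ := iso_frame hv hνv
      have hve := iso_pe he
      have hee := iso_ee hv he
      obtain ⟨m, hm⟩ := exists_dt hv
      set b := mv Q e with hb
      set c := mv Q m with hc
      have bb : dt b b = 0 := by rw [hb, hQS, hSv', hve, mul_zero, zero_smul, dt_zero_right]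
      have bc : dt b c = 0 := by
        rw [dt_comm, hb, hc, hQS, hSv', hve, mul_zero, zero_smul, dt_zero_right]
      have cc' : dt c c = ρ := by
        rw [hc, hQS, hSv', hm, mul_one, dt_smul_right, dt_comm, hm, mul_one]
      have hbne : b ≠ 0 := by
        intro h0
        have hk : ∀ x, mv Q (cr v x) = 0 := by
          intro x
          -- `v × x` is a combination of `v` and `e`
          have h2 : cr v x = (-(I * dt v x)) • e + (I * dt e x) • v := by
            have h3 : cr x (cr v e) = dt x e • v - dt x v • e := cr_cr x v e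
            rw [he, cr_smul_right] at h3
            have h4 : cr v x = I • (I • cr x v) := by
              rw [smul_smul, I_mul_I, neg_one_smul, ← cr_skew]
            rw [h4, h3, dt_comm x e, dt_comm x v]
            module
          rw [h2, mv_add, mv_smul, mv_smul, hQv, ← hb, h0]; simp
        exact hQ (cof_of_kills hv hk)
      obtain ⟨ε, hε⟩ : ∃ ε : ℂ, cr b c = ε • b := by
        apply par hbne
        rw [cr_cr, bb, bc]; simp
      have hε2 : ε ≠ 0 := by
        rintro rfl
        rw [zero_smul] at hε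
        have h2 : cr (cr b c) c = 0 := by rw [hε, cr_zero_left]
        rw [cr_skew, cr_cr, dt_comm c b, bc, zero_smul, cc'] at h2
        simp at h2
        rcases h2 with h2 | h2
        · exact hρ h2
        · exact hbne h2
      refine ⟨(-I / ε) • b, by rw [dt_smul_left, dt_smul_right, bb, hνv]; ring, ?_⟩
      -- compare on `v, e, m`
      have hD : mm (cm ((-I / ε) • b)) Q - mm Q (cm v) = 0 := by
        set W := mm (cm ((-I / ε) • b)) Q - mm Q (cm v) with hW
        have hWx : ∀ x, mv W x = cr ((-I / ε) • b) (mv Q x) - mv Q (cr v x) := by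
          intro x; rw [hW, sub_mv, mm_mv, mm_mv, cm_mv, cm_mv]
        have w1 : mv W v = 0 := by
          rw [hWx, hQv, cr_zero_right, cr_self, mv_zero, sub_zero]
        have w2 : mv W e = 0 := by
          rw [hWx, ← hb, cr_smul_left, cr_self, smul_zero, he, mv_smul, hQv, smul_zero, sub_zero]
        have w3 : mv W m = 0 := by
          have h2 : cr v m = (-I) • e + (I * dt e m) • v := by
            have h3 : cr m (cr v e) = dt m e • v - dt m v • e := cr_cr m v e
            rw [he, cr_smul_right] at h3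
            have h4 : cr v m = I • (I • cr m v) := by
              rw [smul_smul, I_mul_I, neg_one_smul, ← cr_skew]
            rw [h4, h3, dt_comm m e, dt_comm m v, hm]
            module
          rw [hWx, ← hc, cr_smul_left, hε, h2, mv_add, mv_smul, mv_smul, hQv, ← hb, smul_smul,
            smul_zero, add_zero]
          have : -I / ε * ε = -I := by field_simp
          rw [this, sub_self]
        have h5 : ∀ x, cr v (mv (tp W) x) = 0 := by
          intro x
          have g1 : dt (mv (tp W) x) v = 0 := by rw [dt_mv_tp, tp_tp, w1, dt_zero_right]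
          have g2 : dt (mv (tp W) x) e = 0 := by rw [dt_mv_tp, tp_tp, w2, dt_zero_right]
          have h6 : cr (mv (tp W) x) (cr v e) = 0 := by rw [cr_cr, g1, g2]; simp
          rw [he, cr_smul_right] at h6
          rw [cr_skew, (smul_eq_zero.mp h6).resolve_left I_ne_zero, neg_zero]
        obtain ⟨r, hr⟩ := b1' hv h5
        have hW2 : W = op r v := by rw [← tp_tp W, hr, tp_op]
        rw [hW2, op_mv, hm, one_smul] at w3
        rw [hW2, w3]; apply m_ext <;> simp
      intro x
      have h2 := congrArg (fun T => mv T x) hD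
      simp only [sub_mv, mm_mv, cm_mv, zero_mv] at h2
      exact sub_eq_zero.mp h2
    · -- `z ≠ 0`
      set z := -(β + ρ) / α with hzdef
      have hzne : z ≠ 0 := by
        rw [hzdef]; exact div_ne_zero (neg_ne_zero.mpr hz) hα
      have hrel2 : ∀ x, cr (mv Q x) (mv Q v) = z • mv Q (cr x v) := by
        intro x
        have h2 := hrel x
        have h3 : cr (mv Q x) (mv Q v) = α⁻¹ • (α • cr (mv Q x) (mv Q v)) := by
          rw [smul_smul, inv_mul_cancel₀ hα, one_smul]
        have h4 : α • cr (mv Q x) (mv Q v) = -((β + ρ) • mv Q (cr x v)) :=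
          eq_neg_of_add_eq_zero_left h2
        rw [h3, h4, hzdef]
        rw [← neg_smul, smul_smul]
        congr 1
        field_simp
      have hz2 : z ^ 2 * dt v v = ρ * dt v v * dt v v ∧ dt v v ≠ 0 := by
        have h5 : ∀ x, (z ^ 2 - ρ * dt v v) • (dt v x • mv Q v - dt v v • mv Q x) = 0 := by
          intro x
          have h6 : cr (cr (mv Q x) (mv Q v)) (mv Q v) = (z ^ 2) • mv Q (cr (cr x v) v) := by
            rw [hrel2, cr_smul_left, hrel2, smul_smul, pow_two]
          have h7 : ∀ a b : V ℂ, cr (cr a b) b = dt a b • b - dt b b • a := by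
            intro a b
            rw [cr_skew, cr_cr, dt_comm b a]; module
          rw [h7, h7, hQS, hQS, hSv', dt_smul_right, dt_smul_right, mv_sub, mv_smul, mv_smul,
            dt_comm x v] at h6
          have h8 : (z ^ 2 - ρ * dt v v) • (dt v x • mv Q v - dt v v • mv Q x) =
              z ^ 2 • (dt v x • mv Q v - dt v v • mv Q x) -
              ((ρ * dt v v * dt v x) • mv Q v - (ρ * dt v v * dt v v) • mv Q x) := by module
          rw [h8, h6, sub_self]
        have hνne : dt v v ≠ 0 := by
          intro h0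
          have h6 : mv Q v = 0 := by
            obtain ⟨y, hy⟩ := exists_dt hv
            have h7 := h5 y
            rw [h0, mul_zero, sub_zero, zero_smul, sub_zero, hy, one_smul] at h7
            exact (smul_eq_zero.mp h7).resolve_left (pow_ne_zero 2 hzne)
          apply hQ
          apply cof_of_kills hv
          intro x
          have h7 := hrel2 x
          rw [h6, cr_zero_right] at h7
          have h8 := (smul_eq_zero.mp h7.symm).resolve_left hzne
          rw [cr_skew, mv_neg, h8, neg_zero]
        refine ⟨?_, hνne⟩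
        by_contra hne
        have hne' : z ^ 2 - ρ * dt v v ≠ 0 := by
          intro h0
          apply hne
          rw [sub_eq_zero.mp h0]
        apply hQ
        have h6 : Q = op ((dt v v)⁻¹ • mv Q v) v := by
          apply m_ext_mv
          intro x
          have h7 := (smul_eq_zero.mp (h5 x)).resolve_left hne'
          rw [sub_eq_zero] at h7
          rw [op_mv, smul_comm, h7, smul_smul, inv_mul_cancel₀ hνne, one_smul]
        rw [h6, cof_op]
      obtain ⟨hz3, hνne⟩ := hz2
      refine ⟨z⁻¹ • mv Q v, ?_, ?_⟩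
      · rw [dt_smul_left, dt_smul_right, hQS, hSv', dt_smul_right]
        have h9 : z ^ 2 = ρ * dt v v := mul_right_cancel₀ hνne hz3
        have : z⁻¹ * (z⁻¹ * (ρ * dt v v * dt v v)) = z⁻¹ * z⁻¹ * (z ^ 2 * dt v v) := by
          rw [h9]; ring
        rw [this]
        field_simp
      · intro x
        have h2 := hrel2 x
        rw [cr_smul_left, cr_skew, h2, smul_neg, smul_smul, inv_mul_cancel₀ hzne, one_smul,
          cr_skew x v, mv_neg, neg_neg]
  · -- `σ ≠ 0`
    refine ⟨σ⁻¹ • mv (cof Q) v, ?_, ?_⟩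
    · have h2 : dt (mv (cof Q) v) (mv (cof Q) v) = σ ^ 2 * dt v v := by
        rw [dt_mv_tp, ← mm_mv, tp_cof, ← cof_mm, ← hS, hσρ]
        simp [dt]; ring
      rw [dt_smul_left, dt_smul_right, h2]
      field_simp
    · intro x
      rw [cr_smul_left, cr_skew, id4', ← hS, hSv, cr_add_left, cr_smul_left, cr_smul_left,
        cr_self, smul_zero, add_zero, mv_smul, cr_skew x v, mv_neg, smul_neg, smul_neg, smul_neg,
        neg_neg, smul_smul, inv_mul_cancel₀ hσ, one_smul]

end Helper496
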