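import Pool.Agent.Helper496_So4.Data2

/-!
Classification of the leading data: conclusion.
-/

set_option autoImplicit false

namespace Helper496

open Complex

theorem axm_eq_zero {v : V ℂ} (hv : v ≠ 0) {a b c : ℂ} (h : axm v a b c = 0) :
    a = 0 ∧ b = 0 ∧ c = 0 := by
  have h00 := congrFun (congrFun h 0) 0
  have h01 := congrFun (congrFun h 0) 1
  have h02 := congrFun (congrFun h 0) 2
  have h10 := congrFun (congrFun h 1) 0
  have h11 := congrFun (congrFun h 1) 1
  have h12 := congrFun (congrFun h 1) 2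
  have h20 := congrFun (congrFun h 2) 0
  have h21 := congrFun (congrFun h 2) 1
  have h22 := congrFun (congrFun h 2) 2
  simp [axm] at h00 h01 h02 h10 h11 h12 h20 h21 h22
  have k0 : b * v 0 = 0 := by linear_combination (1 / 2) * h21 - (1 / 2) * h12
  have k1 : b * v 1 = 0 := by linear_combination (1 / 2) * h02 - (1 / 2) * h20
  have k2 : b * v 2 = 0 := by linear_combination (1 / 2) * h10 - (1 / 2) * h01
  have hb : b = 0 := by
    rcases v_ne hv with hr | hr | hr
    · exact (mul_eq_zero.mp k0).resolve_right hr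
    · exact (mul_eq_zero.mp k1).resolve_right hr
    · exact (mul_eq_zero.mp k2).resolve_right hr
  have hc : c = 0 := by
    by_contra hc
    have l0 : c * (v 0 * v 1) = 0 := by linear_combination h01 + k2
    have l1 : c * (v 0 * v 2) = 0 := by linear_combination h02 - k1
    have l2 : c * (v 1 * v 2) = 0 := by linear_combination h12 + k0
    have m0 := (mul_eq_zero.mp l0).resolve_left hc
    have m1 := (mul_eq_zero.mp l1).resolve_left hc
    have m2 := (mul_eq_zero.mp l2).resolve_left hc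
    rcases v_ne hv with hr | hr | hr
    · have v1 := (mul_eq_zero.mp m0).resolve_left hr
      rw [v1] at h11
      have : c * (v 0 * v 0) = 0 := by linear_combination h00 - h11
      simp [hc, hr] at this
    · have v0 := (mul_eq_zero.mp m0).resolve_right hr
      rw [v0] at h00
      have : c * (v 1 * v 1) = 0 := by linear_combination h11 - h00
      simp [hc, hr] at this
    · have v0 := (mul_eq_zero.mp m1).resolve_right hr
      rw [v0] at h00
      have : c * (v 2 * v 2) = 0 := by linear_combination h22 - h00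
      simp [hc, hr] at this
  refine ⟨?_, hb, hc⟩
  rw [hc] at h00
  linear_combination h00

theorem cr_mv_ax {a α : ℂ} {v x : V ℂ} : cr x (mv (sc a + α • op v v) x) =
    (α * dt v x) • cr x v := by
  rw [add_mv, sc_mv, smul_mv, op_mv, cr_add_right, cr_smul_right, cr_self, smul_zero, zero_add,
    cr_smul_right, cr_smul_right, smul_smul]

theorem op_ne' {v : V ℂ} (hv : v ≠ 0) {α : ℂ} (hα : α ≠ 0) : α • op v v ≠ 0 := by
  intro h
  exact op_ne hv hv ((smul_eq_zero.mp h).resolve_left hα)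

theorem core1 {P Q A B A' B' : M ℂ} {a b α β q0 q1 q2 : ℂ} {v : V ℂ} (D : Dat P Q A B A' B')
    (hv : v ≠ 0) (hβ : β ≠ 0) (hA : A = sc a + α • op v v)
    (hB : B = sc b + β • op v v) (hQ : Q = axm v q0 q1 q2) (hc : cof Q ≠ 0) :
    β = q1 ^ 2 - q0 * (α + q2 + q2) - dt v v * (α + q2) * q2 ∧
    (α * (q0 + dt v v * q2) + β = 0 ∨ ∃ c : ℂ, tp P = c • axm v q0 q1 (α + q2)) := by
  have hkill : ∀ t : ℂ, (∀ x, t • mv Q (cr x v) = 0) → t = 0 := by
    intro t ht
    by_contra hne
    apply hc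
    apply cof_of_kills hv
    intro x
    have h1 := (smul_eq_zero.mp (ht x)).resolve_left hne
    rw [cr_skew, mv_neg, h1, neg_zero]
  have hβf : (2 * q0 * q2 + dt v v * q2 ^ 2 - q1 ^ 2) + α * (q0 + dt v v * q2) + β = 0 := by
    apply hkill
    apply dt_cancel hv (fun x => ((2 * q0 * q2 + dt v v * q2 ^ 2 - q1 ^ 2) +
      α * (q0 + dt v v * q2) + β) • mv Q (cr x v))
    · intro x y
      simp only [cr_add_left, mv_add, smul_add]
    · intro x
      have h1 := D.st x
      rw [hA, hB, cr_mv_ax, cr_mv_ax, mv_smul, mv_smul, hQ, cof_axm] at h1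
      have e1 : cr (mv (axm v q0 q1 q2) x) (mv (axm v (q0 * (q0 + dt v v * q2))
          (q1 * (q0 + dt v v * q2)) (q1 ^ 2 - q0 * q2)) x) =
          (-(2 * q0 * q2 + dt v v * q2 ^ 2 - q1 ^ 2) * dt v x) •
            mv (axm v q0 q1 q2) (cr x v) := by
        apply v_ext <;> simp [axm, dt] <;> ring
      have e2 : mv (axm v (q0 * (q0 + dt v v * q2)) (q1 * (q0 + dt v v * q2))
          (q1 ^ 2 - q0 * q2)) (cr x v) = (q0 + dt v v * q2) • mv (axm v q0 q1 q2) (cr x v) := by
        apply v_ext <;> simp [axm, dt] <;> ring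
      rw [e1, e2] at h1
      rw [hQ]
      have h2 : dt v x • (((2 * q0 * q2 + dt v v * q2 ^ 2 - q1 ^ 2) +
          α * (q0 + dt v v * q2) + β) • mv (axm v q0 q1 q2) (cr x v)) =
          ((α * dt v x) • (q0 + dt v v * q2) • mv (axm v q0 q1 q2) (cr x v) +
            (β * dt v x) • mv (axm v q0 q1 q2) (cr x v)) -
          (-(2 * q0 * q2 + dt v v * q2 ^ 2 - q1 ^ 2) * dt v x) •
            mv (axm v q0 q1 q2) (cr x v) := by module
      rw [h2, ← h1, sub_self]
  have hβ' : β = q1 ^ 2 - q0 * (α + q2 + q2) - dt v v * (α + q2) * q2 := by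
    linear_combination hβf
  refine ⟨hβ', ?_⟩
  by_cases hz : α * (q0 + dt v v * q2) + β = 0
  · exact Or.inl hz
  right
  have hZ : α • cof Q + β • Q = (α * (q0 + dt v v * q2) + β) • axm v q0 q1 (α + q2) := by
    rw [hQ, cof_axm, axm_smul, axm_smul, axm_smul, axm_add]
    congr 1
    · ring
    · ring
    · have : β * q2 + α * (q1 ^ 2 - q0 * q2) = (α * (q0 + dt v v * q2) + β) * (α + q2) := by
        linear_combination (-α) * hβ'
      linear_combination this
  have hcofZ : cof (axm v q0 q1 (α + q2)) ≠ 0 := by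
    intro h0
    rw [cof_axm] at h0
    obtain ⟨k1, k2, k3⟩ := axm_eq_zero hv h0
    by_cases hz' : q0 + dt v v * (α + q2) = 0
    · apply hβ
      rw [hβ']
      linear_combination k3 - q2 * hz'
    · have j1 := (mul_eq_zero.mp k1).resolve_right hz'
      have j2 := (mul_eq_zero.mp k2).resolve_right hz'
      apply hc
      rw [hQ, j1, j2]
      apply m_ext <;> simp [axm] <;> ring
  apply b1 hcofZ
  intro x
  have h2 := D.x2 x
  have h1 := D.x1 x
  rw [hA, cr_mv_ax, mv_smul] at h2
  rw [hB, cr_mv_ax, mv_smul] at h1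
  have h3 : cr (mv (α • cof Q + β • Q) x) (mv (tp P) x) = 0 := by
    rw [add_mv, smul_mv, smul_mv, cr_add_left, cr_smul_left, cr_smul_left, ← h2,
      cr_skew (mv (cof Q) x), ← h1]
    module
  rw [hZ, smul_mv, cr_smul_left] at h3
  exact (smul_eq_zero.mp h3).resolve_left hz

theorem core2 {P Q A B A' B' : M ℂ} {a α q : ℂ} {v : V ℂ} (D : Dat P Q A B A' B')
    (hv : v ≠ 0) (hA : A = sc a + α • op v v) (hQ : Q = sc q) (hq : q ≠ 0) :
    ∃ c : ℂ, tp P = c • axm v q 0 α := by
  have h2 : ∀ x, (α * dt v x) • mv (tp P) (cr x v) = q • cr x (mv (tp P) x) := by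
    intro x
    have h := D.x2 x
    rw [hA, cr_mv_ax, mv_smul, hQ, sc_mv, cr_smul_left] at h
    exact h
  have hcm : cof (cm v) ≠ 0 := by
    have : cof (cm v) = (1 : ℂ) • op v v := by apply m_ext <;> simp <;> ring
    rw [this]
    exact op_ne' hv one_ne_zero
  obtain ⟨r0, hr0⟩ : ∃ r0 : ℂ, mm (tp P) (cm v) = r0 • cm v := by
    apply b1 hcm
    intro w
    have h := h2 (cr v w)
    rw [dt_cr_self_left, mul_zero, zero_smul] at h
    rw [mm_mv, cm_mv]
    exact (smul_eq_zero.mp h.symm).resolve_left hq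
  have hR : ∀ w, mv (tp P) (cr v w) = r0 • cr v w := by
    intro w
    have := congrArg (fun T => mv T w) hr0
    simp only [mm_mv, smul_mv, cm_mv] at this
    exact this
  obtain ⟨r', hr'⟩ : ∃ r', q • tp P - (α * r0) • op v v = sc r' := by
    apply b0
    intro x
    have h := h2 x
    rw [cr_skew x v, mv_neg, hR] at h
    rw [sub_mv, cr_sub_right, smul_mv, smul_mv, op_mv, cr_smul_right, ← h, cr_smul_right,
      cr_smul_right, cr_skew x v]
    module
  have hr : r' = q * r0 := by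
    have hw : ∃ w, cr v w ≠ 0 := by
      by_contra hcon
      push Not at hcon
      exact hv (cr_all hcon)
    obtain ⟨w, hw⟩ := hw
    have h := congrArg (fun T => mv T (cr v w)) hr'
    simp only [sub_mv, smul_mv, op_mv, sc_mv, hR, dt_cr_self_left, zero_smul, smul_zero,
      sub_zero] at h
    have h3 : (r' - q * r0) • cr v w = 0 := by rw [sub_smul, ← h]; module
    exact sub_eq_zero.mp ((smul_eq_zero.mp h3).resolve_right hw)
  refine ⟨r0 / q, ?_⟩
  have h4 : q • tp P = sc (q * r0) + (α * r0) • op v v := by rw [← hr, ← hr']; abel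
  have h5 : tp P = q⁻¹ • (q • tp P) := by rw [smul_smul, inv_mul_cancel₀ hq, one_smul]
  rw [h5, h4]
  apply m_ext <;> simp [axm] <;> field_simp

theorem finish5 {P Q A B A' B' O : M ℂ} {a b α β q0 q1 q2 c : ℂ} {v : V ℂ}
    (D : Dat P Q A B A' B') (hO : Rot O) (hcQ : cof Q ≠ 0) (hA : A = sc a + α • op v v)
    (hB : B = sc b + β • op v v) (hQ : mm (tp O) Q = axm v q0 q1 q2)
    (hP : tp (mm P O) = c • axm v q0 q1 (α + q2))
    (hβ : β = q1 ^ 2 - q0 * (α + q2 + q2) - dt v v * (α + q2) * q2) : DL P Q A B A' B' := by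
  have hQ' : Q = mm O (axm v q0 q1 q2) := by
    rw [← hQ, ← mm_assoc, hO.inv', sc_mm, one_smul]
  have hP' : mm P O = c • axm v q0 (-q1) (α + q2) := by
    rw [← tp_tp (mm P O), hP, tp_smul, tp_axm]
  have hP'' : P = c • mm (axm v q0 (-q1) (α + q2)) (tp O) := by
    have : P = mm (mm P O) (tp O) := by rw [mm_assoc, hO.inv', mm_sc, one_smul]
    rw [this, hP']
    apply m_ext_mv
    intro x
    rw [mm_mv, smul_mv, smul_mv, mm_mv]
  have hdl := DL.f5 O v q0 (-q1) (α + q2) q2 c hO
  rw [neg_neg, ← hQ', ← hP''] at hdl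
  have D1 := D.rot hO
  have hcQ1 : cof (tp (mm (tp O) Q)) ≠ 0 := by
    apply cof_tp_ne
    intro h0
    apply hcQ
    rw [cof_mm, hO.tp.cof] at h0
    have : mm O (mm (tp O) (cof Q)) = 0 := by rw [h0]; apply m_ext <;> simp
    rw [← mm_assoc, hO.inv', sc_mm, one_smul] at this
    exact this
  -- passing from the rotated matrices
  have back : ∀ (C : M ℂ) (s : ℂ), (∃ k, mm (tp O) (mm C O) - s • op v v = sc k) →
      ∃ k, C - s • op (mv O v) (mv O v) = sc k := by
    rintro C s ⟨k, hk⟩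
    refine ⟨k, m_ext_mv fun x => ?_⟩
    have h1 := congrArg (fun T => mv O (mv T (mv (tp O) x))) hk
    simp only [sub_mv, mm_mv, smul_mv, op_mv, sc_mv, mv_sub, mv_smul, hO.mv_tp] at h1
    rw [sub_mv, smul_mv, op_mv, sc_mv, ← h1, dt_mv_tp]
  refine hdl.mk' ⟨a, ?_⟩ ⟨b, ?_⟩ ?_ ?_
  · rw [hA]; apply m_ext <;> simp
  · rw [hB, hβ]; apply m_ext <;> simp
  · apply back
    apply uniq hcQ1 D1.sA'
    · rw [tp_smul, tp_op]
    · intro y
      rw [D1.x2', hQ, hP', tp_axm]
      apply v_ext <;> simp [axm, dt] <;> ring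
  · apply back
    apply uniq hcQ1 D1.sB'
    · rw [tp_smul, tp_op]
    · intro y
      rw [D1.x1', hQ, hP', tp_axm, cof_smul, cof_axm]
      apply v_ext <;> simp [axm, dt] <;> ring

theorem caseA3 {P Q A B A' B' : M ℂ} {a b α β : ℂ} {v : V ℂ} (D : Dat P Q A B A' B')
    (hQ : cof Q ≠ 0) (hA : A = sc a + α • op v v) (hne : α • op v v ≠ 0)
    (hB : B = sc b + β • op v v) (hβ : β ≠ 0) : DL P Q A B A' B' := by
  have hα : α ≠ 0 := by rintro rfl; exact hne (zero_smul _ _)
  have hv : v ≠ 0 := by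
    rintro rfl; apply hne; apply m_ext <;> simp
  obtain ⟨u, huu, hu⟩ := exists_u hv hα hβ hQ (by
    intro x
    rw [D.st x, hA, hB, cr_mv_ax, cr_mv_ax, mv_smul, mv_smul, id3])
  have hune : u ≠ 0 := by
    rintro rfl
    apply hQ
    apply cof_of_kills hv
    intro x
    rw [← hu x, cr_zero_left]
  obtain ⟨O, hO, hOv⟩ := witt hune hv huu
  have hOu : mv (tp O) u = v := by rw [← hOv, hO.tp_mv]
  obtain ⟨q0, q1, q2, hq⟩ : ∃ q0 q1 q2 : ℂ, mm (tp O) Q = sc q0 + q1 • cm v + q2 • op v v := by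
    apply commutant hv
    intro x
    rw [mm_mv, ← hu, ← hO.tp.cr, hOu, mm_mv]
  have D1 := D.rot hO
  have hcQ1 : cof (mm (tp O) Q) ≠ 0 := by
    intro h0
    apply hQ
    rw [cof_mm, hO.tp.cof] at h0
    have : mm O (mm (tp O) (cof Q)) = 0 := by rw [h0]; apply m_ext <;> simp
    rw [← mm_assoc, hO.inv', sc_mm, one_smul] at this
    exact this
  obtain ⟨hβf, hz | ⟨c, hc⟩⟩ := core1 D1 hv hβ hA hB hq hcQ1
  · -- the degenerate case
    set Q₁ := mm (tp O) Q with hQ₁
    clear_value Q₁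
    set z := q0 + dt v v * q2 with hzd
    have hzne : z ≠ 0 := by
      intro h0; apply hβ; rw [h0] at hz; linear_combination hz
    have hQax : Q₁ = axm v q0 q1 q2 := hq
    have hcof : cof Q₁ = z • Q₁ := by
      have h1 : α • cof Q₁ + β • Q₁ = 0 := by
        have h2 : α • cof Q₁ + β • Q₁ = (α * z + β) • axm v q0 q1 (α + q2) := by
          rw [hQax, cof_axm, axm_smul, axm_smul, axm_smul, axm_add]
          congr 1
          · rw [hzd]; ring
          · rw [hzd]; ring
          · rw [hzd]; linear_combination (-α) * hβf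
        rw [h2, hz, zero_smul]
      have h2 : cof Q₁ = α⁻¹ • (α • cof Q₁) := by rw [smul_smul, inv_mul_cancel₀ hα, one_smul]
      have h3 : α • cof Q₁ = -(β • Q₁) := eq_neg_of_add_eq_zero_left h1
      have h4 : β = -(α * z) := by linear_combination hz
      rw [h2, h3, h4, ← neg_smul, neg_neg, smul_smul, ← mul_assoc, inv_mul_cancel₀ hα, one_mul]
    have hQ1ne : Q₁ ≠ 0 := by rintro h0; apply hcQ1; rw [h0, cof_zero]
    have hdet : det3 Q₁ = z ^ 3 := by
      have h1 := cof_cof Q₁
      rw [hcof, cof_smul, hcof, smul_smul, ← sub_eq_zero, ← sub_smul] at h1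
      have h2 := (smul_eq_zero.mp h1).resolve_right hQ1ne
      linear_combination -h2
    have hgram : mm (tp Q₁) Q₁ = sc (z ^ 2) := by
      have h1 := mm_tp_cof Q₁
      rw [hcof, hdet] at h1
      have h2 : mm (tp Q₁) (z • Q₁) = z • mm (tp Q₁) Q₁ := by
        apply m_ext_mv
        intro x
        rw [mm_mv, smul_mv, mv_smul, smul_mv, mm_mv]
      rw [h2] at h1
      have h3 : mm (tp Q₁) Q₁ = z⁻¹ • (z • mm (tp Q₁) Q₁) := by
        rw [smul_smul, inv_mul_cancel₀ hzne, one_smul]
      rw [h3, h1]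
      apply m_ext <;> simp <;> field_simp
    set T := z⁻¹ • Q₁ with hT
    have hTrot : Rot T := by
      constructor
      · have : mm (tp T) T = (z⁻¹ * z⁻¹) • mm (tp Q₁) Q₁ := by
          rw [hT]; apply m_ext <;> simp <;> ring
        rw [this, hgram]
        apply m_ext <;> simp <;> field_simp
      · have : det3 T = z⁻¹ ^ 3 * det3 Q₁ := by rw [hT]; simp [det3]; ring
        rw [this, hdet]; field_simp
    have hTQ : mm (tp T) Q₁ = sc z := by
      have : mm (tp T) Q₁ = z⁻¹ • mm (tp Q₁) Q₁ := by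
        rw [hT]; apply m_ext <;> simp <;> ring
      rw [this, hgram]
      apply m_ext <;> simp <;> field_simp
    have D2 := D1.rot hTrot
    obtain ⟨c, hc⟩ := core2 D2 hv hA hTQ hzne
    have hOT := hO.mul hTrot
    refine finish5 (q0 := z) (q1 := 0) (q2 := 0) (c := c) D hOT hQ hA hB ?_ ?_ ?_
    · rw [tp_mm, mm_assoc, ← hQ₁, hTQ]
      apply m_ext <;> simp [axm]
    · rw [← mm_assoc, add_zero]; exact hc
    · linear_combination hz
  · exact finish5 D hO hQ hA hB hq hc hβf

/-- `cof Q ≠ 0`. -/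
theorem caseA {P Q A B A' B' : M ℂ} (D : Dat P Q A B A' B') (hQ : cof Q ≠ 0) :
    DL P Q A B A' B' := by
  rcases D.tt with ⟨a, ha⟩ | ⟨b, hb⟩ | ⟨a, b, α, β, v, hA, hne, hB⟩
  · exact caseA1 D hQ a ha
  · exact caseA2 D hQ b hb
  · by_cases hβ : β = 0
    · exact caseA2 D hQ b (by rw [hB, hβ, zero_smul, add_zero])
    · exact caseA3 D hQ hA hne hB hβ

end Helper496
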