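import Pool.Agent.Helper496_So4.Data3

/-!
Classification of the leading data: matrices of rank at most one.
-/

set_option autoImplicit false

namespace Helper496

open Complex

theorem op_cr_mv (a b x : V ℂ) (C : M ℂ) : mv (op a b) (cr x (mv C x)) =
    dt b (cr x (mv C x)) • a := op_mv _ _ _

/-- `P = 0`, `Q = c dᵀ`. -/
theorem caseC1 {Q A B A' B' : M ℂ} {c d : V ℂ} (D : Dat 0 Q A B A' B') (hQ : Q = op c d)
    (hc : c ≠ 0) (hd : d ≠ 0) : DL 0 Q A B A' B' := by
  have hA' : ∃ s t : ℂ, A' = sc s + t • op c c := by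
    apply b2a hc D.sA'
    intro y
    have h := D.x2' y
    rw [hQ, tp_op, op_mv, zero_mv, cr_zero_left] at h
    exact (smul_eq_zero.mp h).resolve_right hd
  have hB' : ∃ s t : ℂ, B' = sc s + t • op c c := by
    apply b2a hc D.sB'
    intro y
    have h := D.x1' y
    rw [hQ, tp_op, op_mv, cof_zero, zero_mv, cr_zero_right] at h
    exact (smul_eq_zero.mp h).resolve_right hd
  have hB : ∃ s t : ℂ, B = sc s + t • op d d := by
    apply b2a hd D.sB
    intro y
    have h := D.st y
    rw [hQ, cof_op, zero_mv, zero_mv, cr_zero_right, zero_add, op_mv] at h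
    exact (smul_eq_zero.mp h.symm).resolve_right hc
  obtain ⟨s', t', hA'⟩ := hA'
  obtain ⟨u', w', hB'⟩ := hB'
  obtain ⟨u, w, hB⟩ := hB
  -- when `A` is in the span of `1` and `d dᵀ`
  have fin2 : ∀ s t : ℂ, A = sc s + t • op d d → DL 0 Q A B A' B' := by
    intro s t hA
    have hdl := DL.f2 d c 0 1 t w t' w'
    rw [zero_smul, one_smul, ← hQ] at hdl
    refine hdl.mk' ⟨s, ?_⟩ ⟨u, ?_⟩ ⟨s', ?_⟩ ⟨u', ?_⟩
    · rw [hA, add_sub_cancel_right]
    · rw [hB, add_sub_cancel_right]
    · rw [hA', add_sub_cancel_right]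
    · rw [hB', add_sub_cancel_right]
  have fin3 : ∀ s : ℂ, B = sc s → DL 0 Q A B A' B' := by
    intro s hBs
    have hdl := (DL.f3 c d t' w' A).swap
    rw [← hQ] at hdl
    refine hdl.mk' ⟨0, ?_⟩ ⟨s, ?_⟩ ⟨s', ?_⟩ ⟨u', ?_⟩
    · rw [sub_self, sc_zero]
    · rw [hBs, sub_zero]
    · rw [hA', add_sub_cancel_right]
    · rw [hB', add_sub_cancel_right]
  rcases D.tt with ⟨a, ha⟩ | ⟨b, hb⟩ | ⟨a, b, α, β, v, hA, hne, hBv⟩
  · exact fin2 a 0 (by rw [ha, zero_smul, add_zero])
  · exact fin3 b hb
  · by_cases hβ : β = 0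
    · exact fin3 b (by rw [hBv, hβ, zero_smul, add_zero])
    -- `v` is parallel to `d`
    have h1 : β • op v v = sc (u - b) + w • op d d := by
      have h2 : sc b + β • op v v = sc u + w • op d d := by rw [← hBv, hB]
      have h3 : β • op v v = (sc u + w • op d d) - sc b := by rw [← h2]; abel
      rw [h3]; apply m_ext <;> simp <;> ring
    have hvd : cr v d = 0 := by
      by_contra hcr
      exact hβ (op_sc' h1 hcr).1
    have hdv : cr d v = 0 := by rw [cr_skew, hvd, neg_zero]
    obtain ⟨κ, hκ⟩ := par hd hdv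
    apply fin2 a (α * κ ^ 2)
    rw [hA, hκ]
    apply m_ext <;> simp <;> ring

/-- Both of rank one. -/
theorem caseC2 {P Q A B A' B' : M ℂ} {a b c d : V ℂ} (D : Dat P Q A B A' B')
    (hP : P = op a b) (hQ : Q = op c d) (ha : a ≠ 0) (hb : b ≠ 0) (hc : c ≠ 0) (hd : d ≠ 0) :
    DL P Q A B A' B' := by
  -- `c × b = ε b`
  have r2 : ∀ x, dt a (cr x (mv A x)) • b = (dt d x * dt a x) • cr c b := by
    intro x
    have h := D.x2 x
    rw [hP, hQ, tp_op, op_mv, op_mv, op_mv, cr_smul_left, cr_smul_right, smul_smul] at h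
    exact h
  have r2' : ∀ y, dt c (cr y (mv A' y)) • d = (dt b y * dt c y) • cr a d := by
    intro y
    have h := D.x2' y
    rw [hP, hQ, tp_op, op_mv, op_mv, op_mv, cr_smul_left, cr_smul_right, smul_smul] at h
    exact h
  obtain ⟨ε, hε⟩ : ∃ ε : ℂ, cr c b = ε • b := by
    obtain ⟨x, h1, h2⟩ := lf2 hd ha
    refine ⟨dt a (cr x (mv A x)) / (dt d x * dt a x), ?_⟩
    have h3 : cr c b = (dt d x * dt a x)⁻¹ • ((dt d x * dt a x) • cr c b) := by
      rw [smul_smul, inv_mul_cancel₀ (mul_ne_zero h1 h2), one_smul]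
    rw [h3, ← r2, smul_smul]
    congr 1
    ring
  obtain ⟨ε', hε'⟩ : ∃ ε' : ℂ, cr a d = ε' • d := by
    obtain ⟨x, h1, h2⟩ := lf2 hb hc
    refine ⟨dt c (cr x (mv A' x)) / (dt b x * dt c x), ?_⟩
    have h3 : cr a d = (dt b x * dt c x)⁻¹ • ((dt b x * dt c x) • cr a d) := by
      rw [smul_smul, inv_mul_cancel₀ (mul_ne_zero h1 h2), one_smul]
    rw [h3, ← r2', smul_smul]
    congr 1
    ring
  have q2 : ∀ x, dt a (cr x (mv A x)) = ε * (dt d x * dt a x) := by
    intro x
    have h := r2 x
    rw [hε, smul_smul, ← sub_eq_zero, ← sub_smul] at h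
    have h2 := (smul_eq_zero.mp h).resolve_right hb
    linear_combination h2
  have q2' : ∀ y, dt c (cr y (mv A' y)) = ε' * (dt b y * dt c y) := by
    intro x
    have h := r2' x
    rw [hε', smul_smul, ← sub_eq_zero, ← sub_smul] at h
    have h2 := (smul_eq_zero.mp h).resolve_right hd
    linear_combination h2
  have hBa : ∃ s t : ℂ, B = sc s + t • op a a := by
    apply b2a ha D.sB
    intro y
    have h := D.x1 y
    rw [hP, tp_op, op_mv, hQ, cof_op, zero_mv, cr_zero_right] at h
    exact (smul_eq_zero.mp h).resolve_right hb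
  have hBd : ∃ s t : ℂ, B = sc s + t • op d d := by
    apply b2a hd D.sB
    intro y
    have h := D.st y
    rw [hQ, cof_op, zero_mv, zero_mv, cr_zero_right, zero_add, op_mv] at h
    exact (smul_eq_zero.mp h.symm).resolve_right hc
  have hBc' : ∃ s t : ℂ, B' = sc s + t • op c c := by
    apply b2a hc D.sB'
    intro y
    have h := D.x1' y
    rw [hQ, tp_op, op_mv, hP, cof_op, zero_mv, cr_zero_right] at h
    exact (smul_eq_zero.mp h).resolve_right hd
  have hBb' : ∃ s t : ℂ, B' = sc s + t • op b b := by
    apply b2a hb D.sB'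
    intro y
    have h := D.st' y
    rw [hP, cof_op, zero_mv, zero_mv, cr_zero_right, zero_add, op_mv] at h
    exact (smul_eq_zero.mp h.symm).resolve_right ha
  obtain ⟨s1, t1, hBa⟩ := hBa
  obtain ⟨s2, t2, hBd⟩ := hBd
  obtain ⟨s3, t3, hBc'⟩ := hBc'
  obtain ⟨s4, t4, hBb'⟩ := hBb'
  -- consequences of `ε ≠ 0`
  have iso : ∀ {p q : V ℂ} {η : ℂ}, q ≠ 0 → η ≠ 0 → cr p q = η • q →
      dt q q = 0 ∧ dt p q = 0 ∧ cr q ((-I / η) • p) = I • q := by
    intro p q η hq hη h
    refine ⟨?_, ?_, ?_⟩
    · have h1 := dt_cr_self_right p q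
      rw [h, dt_smul_right] at h1
      exact (mul_eq_zero.mp h1).resolve_left hη
    · have h1 := dt_cr_self_left p q
      rw [h, dt_smul_right] at h1
      exact (mul_eq_zero.mp h1).resolve_left hη
    · rw [cr_smul_right, cr_skew, h, smul_neg, smul_smul, ← neg_smul]
      congr 1
      field_simp
  have scalarOf : ∀ {C : M ℂ} {s t s' t' : ℂ} {p q : V ℂ}, C = sc s + t • op p p →
      C = sc s' + t' • op q q → cr p q ≠ 0 → C = sc s := by
    intro C s t s' t' p q h1 h2 hpq
    have h3 : t • op p p = sc (s' - s) + t' • op q q := by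
      have h4 : sc s + t • op p p = sc s' + t' • op q q := by rw [← h1, h2]
      have h5 : t • op p p = (sc s' + t' • op q q) - sc s := by rw [← h4]; abel
      rw [h5]; apply m_ext <;> simp <;> ring
    rw [h1, (op_sc' h3 hpq).1, zero_smul, add_zero]
  by_cases e0 : ε = 0
  · by_cases e0' : ε' = 0
    · -- `c ∥ b`, `a ∥ d`
      rw [e0, zero_smul] at hε
      rw [e0', zero_smul] at hε'
      have hbc : cr b c = 0 := by rw [cr_skew, hε, neg_zero]
      obtain ⟨μ, hμ⟩ := par hb hbc
      obtain ⟨μ', hμ'⟩ := par ha hε'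
      obtain ⟨s5, t5, hA⟩ := b2a ha D.sA (by intro x; rw [q2, e0, zero_mul])
      obtain ⟨s6, t6, hA'⟩ := b2a hc D.sA' (by intro x; rw [q2', e0', zero_mul])
      have hdl := DL.f2 a b 1 (μ * μ') t5 t1 (t6 * μ ^ 2) t4
      have hQ2 : (μ * μ') • op b a = Q := by
        rw [hQ, hμ, hμ']; apply m_ext <;> simp <;> ring
      rw [one_smul, ← hP, hQ2] at hdl
      refine hdl.mk' ⟨s5, ?_⟩ ⟨s1, ?_⟩ ⟨s6, ?_⟩ ⟨s4, ?_⟩
      · rw [hA, add_sub_cancel_right]
      · rw [hBa, add_sub_cancel_right]
      · rw [hA', hμ]; apply m_ext <;> simp <;> ring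
      · rw [hBb', add_sub_cancel_right]
    · -- family 9
      obtain ⟨dd, ad, hfr⟩ := iso hd e0' hε'
      rw [e0, zero_smul] at hε
      have hbc : cr b c = 0 := by rw [cr_skew, hε, neg_zero]
      obtain ⟨μ, hμ⟩ := par hb hbc
      have hμ0 : μ ≠ 0 := by rintro rfl; apply hc; rw [hμ, zero_smul]
      set e1 := (-I / ε') • a with he1
      have hae : a = (I * ε') • e1 := by
        rw [he1, smul_smul]
        have : I * ε' * (-I / ε') = 1 := by
          field_simp; linear_combination -I_mul_I
        rw [this, one_smul]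
      -- `b` is isotropic
      have q3 : ∀ y, dt b (cr y (mv A' y)) = ε' * (dt b y * dt b y) := by
        intro y
        have h := q2' y
        rw [hμ, dt_smul_left, dt_smul_left] at h
        have h2 : μ * (dt b (cr y (mv A' y)) - ε' * (dt b y * dt b y)) = 0 := by
          linear_combination h
        have h3 := (mul_eq_zero.mp h2).resolve_left hμ0
        linear_combination h3
      have bb : dt b b = 0 := by
        have h := q3 b
        rw [dt_cr_self_left] at h
        exact mul_self_eq_zero.mp ((mul_eq_zero.mp h.symm).resolve_left e0')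
      obtain ⟨e2, he2⟩ := iso_frame hb bb
      obtain ⟨s5, t5, hA⟩ := b2a ha D.sA (by intro x; rw [q2, e0, zero_mul])
      obtain ⟨s6, t6, hA'⟩ : ∃ s t : ℂ, A' - (I * ε') • (op b e2 + op e2 b) = sc s + t • op b b := by
        apply b2a hb
        · rw [tp_sub, D.sA', tp_smul, tp_add, tp_op, tp_op, add_comm (op e2 b)]
        · intro y
          rw [sub_mv, cr_sub_right, dt_sub_right, q3, smul_mv, add_mv, op_mv, op_mv,
            cr_smul_right, cr_add_right, cr_smul_right, cr_smul_right, dt_smul_right,
            dt_add_right, dt_smul_right, dt_smul_right]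
          have g1 : dt b (cr y b) = 0 := dt_cr_self_right y b
          have g2 : dt b (cr y e2) = -(I * dt b y) := by
            rw [dt_cr_cyc, cr_skew, he2, dt_neg_right, dt_smul_right, dt_comm y b]
          rw [g1, g2]
          linear_combination (ε' * (dt b y * dt b y)) * I_mul_I
      have had : cr a d ≠ 0 := by
        rw [hε']; exact smul_ne_zero e0' hd
      have hBs : B = sc s1 := scalarOf hBa hBd had
      -- `B'` is scalar
      have hB's : ∃ s, B' = sc s := by
        rcases D.tt' with ⟨k, hk⟩ | ⟨k, hk⟩ | ⟨k, l, α, β, v, hAv, hne, hBv⟩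
        · exfalso
          obtain ⟨y, hy⟩ := exists_dt hb
          have h := q3 y
          rw [hk, sc_mv, cr_smul_right, cr_self, smul_zero, dt_zero_right, hy] at h
          apply e0'; linear_combination -h
        · exact ⟨k, hk⟩
        · by_cases hβ : β = 0
          · exact ⟨l, by rw [hBv, hβ, zero_smul, add_zero]⟩
          exfalso
          have h1 : β • op v v = sc (s4 - l) + t4 • op b b := by
            have h2 : sc l + β • op v v = sc s4 + t4 • op b b := by rw [← hBv, hBb']
            have h3 : β • op v v = (sc s4 + t4 • op b b) - sc l := by rw [← h2]; abel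
            rw [h3]; apply m_ext <;> simp <;> ring
          have hvb : cr v b = 0 := by
            by_contra hcr
            exact hβ (op_sc' h1 hcr).1
          have hbv : cr b v = 0 := by rw [cr_skew, hvb, neg_zero]
          obtain ⟨κ, hκ⟩ := par hb hbv
          obtain ⟨y, hy⟩ := exists_dt hb
          have h := q3 y
          rw [hAv, cr_mv_ax, hκ, dt_smul_right, cr_smul_right, dt_smul_right,
            dt_cr_self_right, hy] at h
          apply e0'; linear_combination -h
      obtain ⟨s7, hB's⟩ := hB's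
      have hdl := DL.f9 d e1 b e2 (I * ε') μ (t5 * (I * ε') ^ 2) t6 hd hfr hb he2
      have hP2 : (I * ε') • op e1 b = P := by
        rw [hP, hae]; apply m_ext <;> simp <;> ring
      have hQ2 : μ • op b d = Q := by
        rw [hQ, hμ]; apply m_ext <;> simp <;> ring
      rw [hP2, hQ2] at hdl
      refine hdl.mk' ⟨s5, ?_⟩ ⟨s1, ?_⟩ ⟨s6, ?_⟩ ⟨s7, ?_⟩
      · rw [hA, hae]; apply m_ext <;> simp <;> ring
      · rw [hBs, sub_zero]
      · have : A' = sc s6 + t6 • op b b + (I * ε') • (op b e2 + op e2 b) := by
          rw [← hA']; abel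
        rw [this]; abel
      · rw [hB's, sub_zero]
  · by_cases e0' : ε' = 0
    · -- family 9, exchanged
      obtain ⟨bb, cb, hfr⟩ := iso hb e0 hε
      rw [e0', zero_smul] at hε'
      have hda : cr d a = 0 := by rw [cr_skew, hε', neg_zero]
      obtain ⟨μ, hμ⟩ := par hd hda
      have hμ0 : μ ≠ 0 := by rintro rfl; apply ha; rw [hμ, zero_smul]
      set e1 := (-I / ε) • c with he1
      have hce : c = (I * ε) • e1 := by
        rw [he1, smul_smul]
        have : I * ε * (-I / ε) = 1 := by
          field_simp; linear_combination -I_mul_I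
        rw [this, one_smul]
      have q3 : ∀ y, dt d (cr y (mv A y)) = ε * (dt d y * dt d y) := by
        intro y
        have h := q2 y
        rw [hμ, dt_smul_left, dt_smul_left] at h
        have h2 : μ * (dt d (cr y (mv A y)) - ε * (dt d y * dt d y)) = 0 := by
          linear_combination h
        have h3 := (mul_eq_zero.mp h2).resolve_left hμ0
        linear_combination h3
      have dd : dt d d = 0 := by
        have h := q3 d
        rw [dt_cr_self_left] at h
        exact mul_self_eq_zero.mp ((mul_eq_zero.mp h.symm).resolve_left e0)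
      obtain ⟨e2, he2⟩ := iso_frame hd dd
      obtain ⟨s5, t5, hA'⟩ := b2a hc D.sA' (by intro x; rw [q2', e0', zero_mul])
      obtain ⟨s6, t6, hA⟩ : ∃ s t : ℂ, A - (I * ε) • (op d e2 + op e2 d) = sc s + t • op d d := by
        apply b2a hd
        · rw [tp_sub, D.sA, tp_smul, tp_add, tp_op, tp_op, add_comm (op e2 d)]
        · intro y
          rw [sub_mv, cr_sub_right, dt_sub_right, q3, smul_mv, add_mv, op_mv, op_mv,
            cr_smul_right, cr_add_right, cr_smul_right, cr_smul_right, dt_smul_right,
            dt_add_right, dt_smul_right, dt_smul_right]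
          have g1 : dt d (cr y d) = 0 := dt_cr_self_right y d
          have g2 : dt d (cr y e2) = -(I * dt d y) := by
            rw [dt_cr_cyc, cr_skew, he2, dt_neg_right, dt_smul_right, dt_comm y d]
          rw [g1, g2]
          linear_combination (ε * (dt d y * dt d y)) * I_mul_I
      have hcb : cr c b ≠ 0 := by
        rw [hε]; exact smul_ne_zero e0 hb
      have hB's : B' = sc s3 := scalarOf hBc' hBb' hcb
      have hBs : ∃ s, B = sc s := by
        rcases D.tt with ⟨k, hk⟩ | ⟨k, hk⟩ | ⟨k, l, α, β, v, hAv, hne, hBv⟩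
        · exfalso
          obtain ⟨y, hy⟩ := exists_dt hd
          have h := q3 y
          rw [hk, sc_mv, cr_smul_right, cr_self, smul_zero, dt_zero_right, hy] at h
          apply e0; linear_combination -h
        · exact ⟨k, hk⟩
        · by_cases hβ : β = 0
          · exact ⟨l, by rw [hBv, hβ, zero_smul, add_zero]⟩
          exfalso
          have h1 : β • op v v = sc (s2 - l) + t2 • op d d := by
            have h2 : sc l + β • op v v = sc s2 + t2 • op d d := by rw [← hBv, hBd]
            have h3 : β • op v v = (sc s2 + t2 • op d d) - sc l := by rw [← h2]; abel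
            rw [h3]; apply m_ext <;> simp <;> ring
          have hvb : cr v d = 0 := by
            by_contra hcr
            exact hβ (op_sc' h1 hcr).1
          have hbv : cr d v = 0 := by rw [cr_skew, hvb, neg_zero]
          obtain ⟨κ, hκ⟩ := par hd hbv
          obtain ⟨y, hy⟩ := exists_dt hd
          have h := q3 y
          rw [hAv, cr_mv_ax, hκ, dt_smul_right, cr_smul_right, dt_smul_right,
            dt_cr_self_right, hy] at h
          apply e0; linear_combination -h
      obtain ⟨s7, hBs⟩ := hBs
      have hdl := (DL.f9 b e1 d e2 (I * ε) μ (t5 * (I * ε) ^ 2) t6 hb hfr hd he2).swap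
      have hP2 : (I * ε) • op e1 d = Q := by
        rw [hQ, hce]; apply m_ext <;> simp <;> ring
      have hQ2 : μ • op d b = P := by
        rw [hP, hμ]; apply m_ext <;> simp <;> ring
      rw [hP2, hQ2] at hdl
      refine hdl.mk' ⟨s6, ?_⟩ ⟨s7, ?_⟩ ⟨s5, ?_⟩ ⟨s3, ?_⟩
      · have : A = sc s6 + t6 • op d d + (I * ε) • (op d e2 + op e2 d) := by
          rw [← hA]; abel
        rw [this]; abel
      · rw [hBs, sub_zero]
      · rw [hA', hce]; apply m_ext <;> simp <;> ring
      · rw [hB's, sub_zero]
    · -- family 8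
      obtain ⟨bb, cb, hfr⟩ := iso hb e0 hε
      obtain ⟨dd, ad, hfr'⟩ := iso hd e0' hε'
      set e2 := (-I / ε) • c with he2
      set e1 := (-I / ε') • a with he1
      clear_value e1 e2
      have hce : c = (I * ε) • e2 := by
        rw [he2, smul_smul]
        have : I * ε * (-I / ε) = 1 := by
          field_simp; linear_combination -I_mul_I
        rw [this, one_smul]
      have hae : a = (I * ε') • e1 := by
        rw [he1, smul_smul]
        have : I * ε' * (-I / ε') = 1 := by
          field_simp; linear_combination -I_mul_I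
        rw [this, one_smul]
      have hcb : cr c b ≠ 0 := by
        rw [hε]; exact smul_ne_zero e0 hb
      have had : cr a d ≠ 0 := by
        rw [hε']; exact smul_ne_zero e0' hd
      have hBs : B = sc s1 := scalarOf hBa hBd had
      have hB's : B' = sc s3 := scalarOf hBc' hBb' hcb
      obtain ⟨s5, t5, hA⟩ : ∃ s t : ℂ, A + (I * ε) • (op d e1 + op e1 d) = sc s + t • op a a := by
        apply b2a ha
        · rw [tp_add, D.sA, tp_smul, tp_add, tp_op, tp_op, add_comm (op e1 d)]
        · intro y
          rw [add_mv, cr_add_right, dt_add_right, q2, smul_mv, add_mv, op_mv, op_mv,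
            cr_smul_right, cr_add_right, cr_smul_right, cr_smul_right, dt_smul_right,
            dt_add_right, dt_smul_right, dt_smul_right]
          have g1 : dt a (cr y e1) = 0 := by
            rw [hae, dt_smul_left, dt_cr_self_right, mul_zero]
          have g2 : dt a (cr y d) = -(ε' * dt d y) := by
            rw [dt_cr_cyc, cr_skew, hε', dt_neg_right, dt_smul_right, dt_comm y d]
          have g3 : ε' * dt e1 y = -I * dt a y := by
            rw [hae, dt_smul_left]; linear_combination (ε' * dt e1 y) * I_mul_I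
          rw [g1, g2]
          linear_combination (-(I * ε * dt d y)) * g3 + (ε * dt d y * dt a y) * I_mul_I
      obtain ⟨s6, t6, hA'⟩ : ∃ s t : ℂ,
          A' + (I * ε') • (op b e2 + op e2 b) = sc s + t • op c c := by
        apply b2a hc
        · rw [tp_add, D.sA', tp_smul, tp_add, tp_op, tp_op, add_comm (op e2 b)]
        · intro y
          rw [add_mv, cr_add_right, dt_add_right, q2', smul_mv, add_mv, op_mv, op_mv,
            cr_smul_right, cr_add_right, cr_smul_right, cr_smul_right, dt_smul_right,
            dt_add_right, dt_smul_right, dt_smul_right]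
          have g1 : dt c (cr y e2) = 0 := by
            rw [hce, dt_smul_left, dt_cr_self_right, mul_zero]
          have g2 : dt c (cr y b) = -(ε * dt b y) := by
            rw [dt_cr_cyc, cr_skew, hε, dt_neg_right, dt_smul_right, dt_comm y b]
          have g3 : ε * dt e2 y = -I * dt c y := by
            rw [hce, dt_smul_left]; linear_combination (ε * dt e2 y) * I_mul_I
          rw [g1, g2]
          linear_combination (-(I * ε' * dt b y)) * g3 + (ε' * dt b y * dt c y) * I_mul_I
      have hdl := DL.f8 d e1 b e2 (I * ε') (I * ε) (t5 * (I * ε') ^ 2) (t6 * (I * ε) ^ 2)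
        hd hfr' hb hfr
      have hP2 : (I * ε') • op e1 b = P := by
        rw [hP, hae]; apply m_ext <;> simp <;> ring
      have hQ2 : (I * ε) • op e2 d = Q := by
        rw [hQ, hce]; apply m_ext <;> simp <;> ring
      rw [hP2, hQ2] at hdl
      refine hdl.mk' ⟨s5, ?_⟩ ⟨s1, ?_⟩ ⟨s6, ?_⟩ ⟨s3, ?_⟩
      · have : A = sc s5 + t5 • op a a - (I * ε) • (op d e1 + op e1 d) := by
          rw [← hA]; abel
        rw [this]
        conv_lhs => rw [hae]
        apply m_ext <;> simp <;> ring
      · rw [hBs, sub_zero]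
      · have : A' = sc s6 + t6 • op c c - (I * ε') • (op b e2 + op e2 b) := by
          rw [← hA']; abel
        rw [this]
        conv_lhs => rw [hce]
        apply m_ext <;> simp <;> ring
      · rw [hB's, sub_zero]

/-- The classification of the leading data. -/
theorem classify {P Q A B A' B' : M ℂ} (D : Dat P Q A B A' B') : DL P Q A B A' B' := by
  by_cases hQ : cof Q = 0
  · by_cases hP : cof P = 0
    · obtain ⟨a, b, hab⟩ := rank_one hP
      obtain ⟨c, d, hcd⟩ := rank_one hQ
      have nz : ∀ {a b : V ℂ}, op a b ≠ 0 → a ≠ 0 ∧ b ≠ 0 := by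
        intro a b h
        constructor
        · rintro rfl; apply h; apply m_ext <;> simp
        · rintro rfl; apply h; apply m_ext <;> simp
      by_cases hP0 : P = 0
      · by_cases hQ0 : Q = 0
        · rw [hP0, hQ0]; exact DL.dir _ _ _ _
        · obtain ⟨h1, h2⟩ := nz (hcd ▸ hQ0)
          subst hP0
          exact caseC1 D hcd h1 h2
      · obtain ⟨h1, h2⟩ := nz (hab ▸ hP0)
        by_cases hQ0 : Q = 0
        · subst hQ0
          exact (caseC1 D.swap hab h1 h2).swap
        · obtain ⟨h3, h4⟩ := nz (hcd ▸ hQ0)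
          exact caseC2 D hab hcd h1 h2 h3 h4
    · exact (caseA D.swap hP).swap
  · exact caseA D hQ

end Helper496
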