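import Mathlib

/-!
# Factoring subalgebras of `so_4((λ))`: the definitions used in the statement
-/

set_option autoImplicit false

open Matrix

open HahnSeries (C)

namespace Helper496.So4Loop

/-- The field `ℂ((λ))` of formal Laurent series. -/
abbrev L : Type := LaurentSeries ℂ

/-- Square matrices. -/
abbrev Mat (n : ℕ) (R : Type) : Type := Matrix (Fin n) (Fin n) R

/-- A constant matrix, viewed as a matrix over `ℂ((λ))`. -/
noncomputable def con (A : Mat 3 ℂ) : Mat 3 L := A.map C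

/-- `S` is symmetric and `S = λ⁻¹ + S₀ + S₁ λ + …`. -/
def Polar (S : Mat 3 L) : Prop :=
  S.transpose = S ∧ ∀ i j, (∀ k < -1, (S i j).coeff k = 0) ∧
    (S i j).coeff (-1) = (1 : Mat 3 ℂ) i j

/-- `H` is symmetric, `H = λ⁻¹ + …`, and `adj H = t² - B`. -/
def RootH (t : L) (B : Mat 3 ℂ) (H : Mat 3 L) : Prop :=
  Polar H ∧ H.adjugate = t ^ 2 • 1 - con B

/-- `t + A`. -/
noncomputable def lin (t : L) (A : Mat 3 ℂ) : Mat 3 L := t • 1 + con A

/-- `t + (α + β / t) v vᵀ`. -/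
noncomputable def vec (t : L) (v : Fin 3 → ℂ) (α β : ℂ) : Mat 3 L :=
  t • 1 + ((C α : L) + C β / t) • con (vecMulVec v v)

/-- `(c / t) A`. -/
noncomputable def frac (c : ℂ) (t : L) (A : Mat 3 ℂ) : Mat 3 L := ((C c : L) / t) • con A

/-- `(p / t²) (H T + q adj(T)ᵀ)`. -/
noncomputable def quad (t : L) (p q : ℂ) (H : Mat 3 L) (T : Mat 3 ℂ) : Mat 3 L :=
  ((C p : L) / t ^ 2) • (H * con T + con (q • T.adjugate.transpose))

/-- `(r / (t - k)) (A + (D / t) B)`. -/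
noncomputable def rat (r k D : ℂ) (t : L) (A B : Mat 3 ℂ) : Mat 3 L :=
  ((C r : L) / (t - C k)) • (con A + frac D t B)

/-- The cross product of two vectors. -/
def cross (a b : Fin 3 → ℂ) : Fin 3 → ℂ :=
  ![a 1 * b 2 - a 2 * b 1, a 2 * b 0 - a 0 * b 2, a 0 * b 1 - a 1 * b 0]

/-- The matrix of `x ↦ a x + b v × x + c v (v · x)`. -/
def axial (v : Fin 3 → ℂ) (a b c : ℂ) : Mat 3 ℂ :=
  a • 1 + b • !![0, -v 2, v 1; v 2, 0, -v 0; -v 1, v 0, 0] + c • vecMulVec v v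

/-- `a bᵀ + b aᵀ`. -/
def sym (a b : Fin 3 → ℂ) : Mat 3 ℂ := vecMulVec a b + vecMulVec b a

/-- The possible matrices `H` when `W = 0`. -/
def TH (t : L) (H : Mat 3 L) : Prop :=
  (∃ A : Mat 3 ℂ, A.transpose = A ∧ H = lin t A) ∨
  (∃ (v : Fin 3 → ℂ) (α β : ℂ), H = vec t v α β) ∨
  (∃ B : Mat 3 ℂ, B.transpose = B ∧ RootH t B H)

/-- The nine families of data `(H, W, H', W')` with parameters `t`, `s`. -/
inductive Fam : L → L → Mat 3 L → Mat 3 L → Mat 3 L → Mat 3 L → Prop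
  | f1 (t s : L) (H H' : Mat 3 L) (h : TH t H) (h' : TH s H') : Fam t s H 0 H' 0
  | f2 (t s : L) (a b : Fin 3 → ℂ) (m n α β α' β' : ℂ) :
      Fam t s (vec t a α β) (frac m t (vecMulVec a b)) (vec s b α' β') (frac n s (vecMulVec b a))
  | f3 (t s : L) (a b : Fin 3 → ℂ) (α β : ℂ) (A : Mat 3 ℂ) (hA : A.transpose = A) :
      Fam t s (vec t a α β) (frac 1 t (vecMulVec a b)) (lin s A) 0
  | f4 (t s : L) (T : Mat 3 ℂ) (p q : ℂ) (H H' : Mat 3 L)
      (h : RootH t (-(q ^ 2) • (T * T.transpose)) H)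
      (h' : RootH s (-(p ^ 2) • (T.transpose * T)) H') :
      Fam t s H (quad t p q H T) H' (quad s q p H' T.transpose)
  | f5 (t s : L) (O : Mat 3 ℂ) (v : Fin 3 → ℂ) (a b c d r D N : ℂ)
      (hO : O.transpose * O = 1) (hO' : O.det = 1) (hN : N = dotProduct v v)
      (hD : D = b ^ 2 - a * (c + d) - N * c * d) :
      Fam t s (vec t v (c - d) D)
        (rat r (a + N * d) D t (axial v a b c * O.transpose) (vecMulVec v v * O.transpose))
        (vec s (O.mulVec v) (r * (d - c)) (r ^ 2 * D))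
        (rat 1 (r * (a + N * c)) (r * D) s (O * axial v a (-b) d) (O * vecMulVec v v))
  | f6 (t s : L) (Q : Mat 3 ℂ) (θ : ℂ) (hQ : Q.det ≠ 0) :
      Fam t s (lin t (Q.det • (Q.transpose * Q)⁻¹)) (frac θ t Q.adjugate)
        (lin s (θ • (Q * Q.transpose))) (frac 1 s Q)
  | f7 (t s : L) (n e x y z : Fin 3 → ℂ) (θ : ℂ) (Q : Mat 3 ℂ) (hn : cross n e = Complex.I • n)
      (hQ : Q = vecMulVec n (cross y z) + (Complex.I / 2) • vecMulVec e (cross x y)) :
      Fam t s (lin t ((1 / 2 : ℂ) • sym x y)) (frac θ t Q.adjugate)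
        (lin s (θ • (Q * Q.transpose))) (frac 1 s Q)
  | f8 (t s : L) (n e n' e' : Fin 3 → ℂ) (a c α α' : ℂ) (hn : cross n e = Complex.I • n)
      (hn' : cross n' e' = Complex.I • n') :
      Fam t s (lin t (α • vecMulVec e e - c • sym n e)) (frac a t (vecMulVec e n'))
        (lin s (α' • vecMulVec e' e' - a • sym n' e')) (frac c s (vecMulVec e' n))
  | f9 (t s : L) (n e n' e' : Fin 3 → ℂ) (a c α α' : ℂ) (hn : cross n e = Complex.I • n)
      (hn' : cross n' e' = Complex.I • n') :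
      Fam t s (lin t (α • vecMulVec e e)) (frac a t (vecMulVec e n'))
        (lin s (α' • vecMulVec n' n' + a • sym n' e')) (frac c s (vecMulVec n' n))
  | swap (t s : L) (H W H' W' : Mat 3 L) (h : Fam t s H W H' W') : Fam s t H' W' H W

/-- The isomorphism of `so_3((λ)) ⊕ so_3((λ))` with `so_4((λ))`; a vector `a` stands for the
skew-symmetric matrix of `x ↦ a × x`. -/
noncomputable def iota (a b : Fin 3 → L) : Mat 4 L := (2 : L)⁻¹ • !![
  0, -a 0 + b 0, -a 1 + b 1, -a 2 + b 2;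
  a 0 - b 0, 0, -a 2 - b 2, a 1 + b 1;
  a 1 - b 1, a 2 + b 2, 0, -a 0 - b 0;
  a 2 - b 2, -a 1 - b 1, a 0 + b 0, 0]

/-- The Lie algebra over `ℂ` generated by a set of matrices. -/
noncomputable def Gen (X : Set (Mat 4 L)) : Submodule ℂ (Mat 4 L) :=
  sInf {N | X ⊆ N ∧ ∀ Y ∈ N, ∀ Z ∈ N, Y * Z - Z * Y ∈ N}

/-- `U` is the subalgebra with data `(H, W, H', W')`: it is generated by
`ι(S eᵢ, S' W' eᵢ)` and `ι(S W eᵢ, S' eᵢ)`, where `S`, `S'` are the symmetric square roots of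
`adj H`, `adj H'` with leading term `λ⁻¹`. -/
def Alg (H W H' W' : Mat 3 L) (U : Submodule ℂ (Mat 4 L)) : Prop :=
  ∃ S S' : Mat 3 L, Polar S ∧ S * S = H.adjugate ∧ Polar S' ∧ S' * S' = H'.adjugate ∧
    U = Gen {X | ∃ i : Fin 3, X = iota (fun j => S j i) (fun j => (S' * W') j i) ∨
      X = iota (fun j => (S * W) j i) (fun j => S' j i)}

/-- `U` is a factoring subalgebra of `so_4((λ))`: it consists of skew-symmetric matrices, is
closed under commutators, and `so_4((λ)) = so_4[[λ]] ⊕ U`. -/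
def Factoring (U : Submodule ℂ (Mat 4 L)) : Prop :=
  (∀ X ∈ U, X.transpose = -X) ∧ (∀ X ∈ U, ∀ Y ∈ U, X * Y - Y * X ∈ U) ∧
    ∀ X : Mat 4 L, X.transpose = -X →
      ∃! Y, Y ∈ U ∧ ∀ i j, ∀ k < 0, ((X - Y) i j).coeff k = 0

/-- `V` is the image of `U` under a reparametrisation `λ ↦ φ(λ) = λ + k₂ λ² + …`. -/
def Reparam (U V : Submodule ℂ (Mat 4 L)) : Prop :=
  ∃ (φ : PowerSeries ℂ) (σ : L →+* L), PowerSeries.constantCoeff φ = 0 ∧
    PowerSeries.coeff 1 φ = 1 ∧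
    (∀ f : PowerSeries ℂ, σ (HahnSeries.ofPowerSeries ℤ ℂ f) =
      HahnSeries.ofPowerSeries ℤ ℂ (PowerSeries.subst φ f)) ∧
    ∀ Y, Y ∈ V ↔ ∃ X ∈ U, X.map σ = Y

/-- `V` is the image of `U` under `exp (ad g)` with `g` in `λ so_4[[λ]]`; here `exp (ad g) X` is
the `λ`-adic limit of the finite sums of the exponential series. -/
def Gauge (U V : Submodule ℂ (Mat 4 L)) : Prop :=
  ∃ g : Mat 4 L, g.transpose = -g ∧ (∀ i j, ∀ k < 1, (g i j).coeff k = 0) ∧
    ∀ Y, Y ∈ V ↔ ∃ X ∈ U, ∀ N : ℤ, ∃ m₀ : ℕ, ∀ m ≥ m₀, ∀ i j, ∀ k < N,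
      ((Y - ∑ l ∈ Finset.range m, ((l.factorial : ℂ)⁻¹) •
        (fun Z => g * Z - Z * g)^[l] X) i j).coeff k = 0

end Helper496.So4Loop
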