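import Pool.Agent.Helper496_So4.TType
import Pool.Agent.Helper496_So4.Data4

/-!
The equations between the series and the leading data they imply.
-/

set_option autoImplicit false

namespace Helper496

/-- The relation `(E)`: `H (x × W y) = x × P y + W (Q x × y)`. -/
def RE (H W : M K) (P Q : M ℂ) : Prop := ∀ x y : V K,
  mv H (cr x (mv W y)) = cr x (mv (cM P) y) + mv W (cr (mv (cM Q) x) y)

/-- The relation `(st)`. -/
def RS (Q A B : M ℂ) : Prop := ∀ x, cr (mv Q x) (mv (cof Q) x) =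
  mv (cof Q) (cr x (mv A x)) + mv Q (cr x (mv B x))

/-- All equations; `A`, `B`, `A'`, `B'` matter modulo scalars. -/
structure Eqs (H W H' W' : M K) (P Q A B A' B' : M ℂ) : Prop where
  pol : ∃ a, Pol H (A + sc a)
  pol' : ∃ a, Pol H' (A' + sc a)
  w : LM W 1 P
  w' : LM W' 1 Q
  e : RE H W P Q
  e' : RE H' W' Q P
  f : RF H A B
  f' : RF H' A' B'
  sB : tp B = B
  sB' : tp B' = B'
  st : RS Q A B
  st' : RS P A' B'

theorem Eqs.swap {H W H' W' : M K} {P Q A B A' B' : M ℂ} (h : Eqs H W H' W' P Q A B A' B') :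
    Eqs H' W' H W Q P A' B' A B where
  pol := h.pol'
  pol' := h.pol
  w := h.w'
  w' := h.w
  e := h.e'
  e' := h.e
  f := h.f'
  f' := h.f
  sB := h.sB'
  sB' := h.sB
  st := h.st'
  st' := h.st

theorem cr_mv_shift {R : Type*} [CommRing R] (A : M R) (a : R) (x : V R) :
    cr x (mv (A + sc a) x) = cr x (mv A x) := by
  rw [add_mv, sc_mv, cr_add_right, cr_smul_right, cr_self, smul_zero, add_zero]

theorem RF.shiftA {H : M K} {A B : M ℂ} (a : ℂ) : RF H (A + sc a) B ↔ RF H A B := by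
  have e : ∀ x : V K, cr x (mv (H - cM (A + sc a)) x) = cr x (mv (H - cM A) x) := by
    intro x
    rw [cM_add, cM_sc, sub_mv, sub_mv, cr_sub_right, cr_sub_right, cr_mv_shift]
  constructor
  · intro h x; rw [← e, h]
  · intro h x; rw [e, h]

theorem RF.shiftB {H : M K} {A B : M ℂ} (b : ℂ) : RF H A (B + sc b) ↔ RF H A B := by
  constructor
  · intro h x; rw [h, cM_add, cM_sc, cr_mv_shift]
  · intro h x; rw [h, cM_add, cM_sc, cr_mv_shift]

theorem RS.shift {Q A B : M ℂ} (a b : ℂ) : RS Q (A + sc a) (B + sc b) ↔ RS Q A B := by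
  constructor
  · intro h x; have := h x; rwa [cr_mv_shift, cr_mv_shift] at this
  · intro h x; rw [cr_mv_shift, cr_mv_shift]; exact h x

theorem Eqs.unshift {H W H' W' : M K} {P Q A B A' B' : M ℂ} {a b a' b' : ℂ}
    (h : Eqs H W H' W' P Q (A + sc a) (B + sc b) (A' + sc a') (B' + sc b')) :
    Eqs H W H' W' P Q A B A' B' where
  pol := by
    obtain ⟨c, hc⟩ := h.pol
    exact ⟨a + c, by rw [sc_add, ← add_assoc]; exact hc⟩
  pol' := by
    obtain ⟨c, hc⟩ := h.pol'
    exact ⟨a' + c, by rw [sc_add, ← add_assoc]; exact hc⟩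
  w := h.w
  w' := h.w'
  e := h.e
  e' := h.e'
  f := (RF.shiftB b).mp ((RF.shiftA a).mp h.f)
  f' := (RF.shiftB b').mp ((RF.shiftA a').mp h.f')
  sB := by have := h.sB; rw [tp_add, tp_sc] at this; exact add_right_cancel this
  sB' := by have := h.sB'; rw [tp_add, tp_sc] at this; exact add_right_cancel this
  st := (RS.shift a b).mp h.st
  st' := (RS.shift a' b').mp h.st'

/-! ### Consequences of `(E)` -/

theorem lin_ext {F G : V K → K} (hF : ∀ (r : K) x y, F (x + r • y) = F x + r * F y)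
    (hG : ∀ (r : K) x y, G (x + r • y) = G x + r * G y) (h0 : F 0 = G 0)
    (h : ∀ a b, F (cr a b) = G (cr a b)) (x : V K) : F x = G x := by
  have e0 : ∀ x : V K, x = ((0 + x 0 • cr ![0, 1, 0] ![0, 0, 1]) + x 1 • cr ![0, 0, 1] ![1, 0, 0]) +
      x 2 • cr ![1, 0, 0] ![0, 1, 0] := by
    intro x; apply v_ext <;> simp
  rw [e0 x, hF, hF, hF, hG, hG, hG, h, h, h, h0]

/-- The second equation for `W`, paired with `z`. -/
theorem RE.second {H W : M K} {P Q : M ℂ} (hH : tp H = H) (h : RE H W P Q) (z y : V K) :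
    ∃ μ : K, μ = dt ![1, 0, 0] (mv (cM P) (cr (mv (cM Q) ![1, 0, 0]) y)) +
      dt ![0, 1, 0] (mv (cM P) (cr (mv (cM Q) ![0, 1, 0]) y)) +
      dt ![0, 0, 1] (mv (cM P) (cr (mv (cM Q) ![0, 0, 1]) y)) ∧
    dt (mv H z) (cr z (mv (cM P) y)) + (μ * dt z z +
      dt (mv (cM Q) z) (cr (mv (tp (cM P)) z) y)) +
      dt z (mv W (cr (mv (cof (cM Q)) z) y)) = 0 := by
  refine ⟨_, rfl, ?_⟩
  set μ : K := dt ![1, 0, 0] (mv (cM P) (cr (mv (cM Q) ![1, 0, 0]) y)) +
      dt ![0, 1, 0] (mv (cM P) (cr (mv (cM Q) ![0, 1, 0]) y)) +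
      dt ![0, 0, 1] (mv (cM P) (cr (mv (cM Q) ![0, 0, 1]) y)) with hμ
  -- the vector identity for `z = a × b`
  have key : ∀ a b w : V K, dt w (mv H (cr (mv H (cr a b)) (mv W y))) =
      dt w (mv H (cr (cr a b) (mv (cM P) y)) + (μ • cr a b +
        mv (tp (cM Q)) (cr (mv (tp (cM P)) (cr a b)) y)) +
        mv W (cr (mv (cof (cM Q)) (cr a b)) y)) := by
    intro a b w
    congr 1
    rw [← jacH hH, h b y, h a y, cr_add_right, cr_add_right, mv_add, mv_add, h, h,
      ← id3, cr_jacobi a b]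
    have e1 : cr a (mv (cM P) (cr (mv (cM Q) b) y)) - cr b (mv (cM P) (cr (mv (cM Q) a) y)) =
        μ • cr a b + mv (tp (cM Q)) (cr (mv (tp (cM P)) (cr a b)) y) := by
      rw [hμ]
      apply v_ext <;> simp [dt] <;> ring
    have e2 : mv W (cr (mv (cM Q) a) (cr (mv (cM Q) b) y)) =
        mv W (cr (cr (mv (cM Q) a) (mv (cM Q) b)) y) +
          mv W (cr (mv (cM Q) b) (cr (mv (cM Q) a) y)) := by
      rw [← mv_add, ← cr_jacobi]
    rw [e2, mv_add, ← e1]
    abel
  have key2 : ∀ w z : V K, dt w (mv H (cr (mv H z) (mv W y))) =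
      dt w (mv H (cr z (mv (cM P) y)) + (μ • z +
        mv (tp (cM Q)) (cr (mv (tp (cM P)) z) y)) + mv W (cr (mv (cof (cM Q)) z) y)) := by
    intro w
    apply lin_ext
    · intro r x y'
      simp only [mv_add, mv_smul, cr_add_left, cr_smul_left, dt_add_right, dt_smul_right]
    · intro r x y'
      simp only [mv_add, mv_smul, cr_add_left, cr_smul_left, dt_add_right, dt_smul_right,
        smul_add]
      ring
    · simp only [mv_zero, cr_zero_left, smul_zero, dt_zero_right, add_zero]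
    · intro a b; exact key a b w
  have h1 := key2 z z
  have h2 : dt z (mv H (cr (mv H z) (mv W y))) = 0 := by
    rw [dt_comm, dt_mv_tp, hH, dt_comm, dt_cr_self_left]
  have h3 : dt z (mv H (cr z (mv (cM P) y))) = dt (mv H z) (cr z (mv (cM P) y)) := by
    rw [dt_mv_tp, hH]
  have h4 : dt z (mv (tp (cM Q)) (cr (mv (tp (cM P)) z) y)) =
      dt (mv (cM Q) z) (cr (mv (tp (cM P)) z) y) := by
    rw [dt_mv_tp]
  rw [h2, dt_add_right, dt_add_right, dt_add_right, h3, h4, dt_smul_right] at h1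
  exact h1.symm

theorem Pol.x2 {H W : M K} {P Q A : M ℂ} (hp : Pol H A) (hw : LM W 1 P) (h : RE H W P Q)
    (x : V ℂ) : mv (tp P) (cr x (mv A x)) = cr (mv Q x) (mv (tp P) x) := by
  have key : ∀ y : V ℂ, dt (mv A x) (cr x (mv P y)) = dt x (mv P (cr (mv Q x) y)) := by
    intro y
    have h1 := congrArg (dt (cv x)) (h (cv x) (cv y))
    rw [dt_add_right, dt_cr_self_left, zero_add] at h1
    have h2 : dt (cv x) (mv H (cr (cv x) (mv W (cv y)))) =
        dt (mv (H - sc (lam (-1))) (cv x)) (cr (cv x) (mv W (cv y))) := by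
      rw [sub_mv, sc_mv, dt_sub_left, dt_smul_left, dt_cr_self_left, mul_zero, sub_zero,
        dt_mv_tp, hp.sym]
    rw [h2] at h1
    have l1 := (hp.lead.mv (LV.cv x) |> fun h => LC.dt h ((LV.cv x).cr (hw.mv (LV.cv y))))
    have l2 := LC.dt (LV.cv x) (hw.mv (((LM.cM Q).mv (LV.cv x)).cr (LV.cv y)))
    rw [h1] at l1
    exact (l1.congr (by norm_num : _ = (1 : ℤ)) rfl).unique (l2.congr (by norm_num) rfl)
  have h1 : mv (tp P) (cr x (mv A x)) - cr (mv Q x) (mv (tp P) x) = 0 := by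
    apply dt_all
    intro y
    have h2 := key y
    have h3 : dt (mv (tp P) (cr x (mv A x)) - cr (mv Q x) (mv (tp P) x)) y =
        -(dt (mv A x) (cr x (mv P y)) - dt x (mv P (cr (mv Q x) y))) := by
      simp [dt]; ring
    rw [h3, h2, sub_self, neg_zero]
  exact sub_eq_zero.mp h1

/-- The coefficient of `λ`. -/
noncomputable def coefM (A : M K) (n : ℤ) : M ℂ := fun i j => cf (A i j) n

theorem Pol.lead2 {H : M K} {A : M ℂ} (hp : Pol H A) :
    LM (H - sc (lam (-1)) - cM A) 1 (coefM H 1) := by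
  intro i j
  have h1 : LC ((H - sc (lam (-1)) - cM A) i j) 0 0 := by
    have := (hp.lead i j).sub (LC.cc (A i j))
    rw [sub_self] at this
    exact this
  have h2 := h1.ord_succ
  rw [zero_add] at h2
  refine ⟨h2, ?_⟩
  have h3 : cf (sc (lam (-1)) i j) 1 = 0 := by
    have : LM (sc (lam (-1))) (-1) (sc 1) := LM.sc (LC.lam (-1))
    fin_cases i <;> fin_cases j <;> simp [cf_lam, cf_zero]
  simp only [Matrix.sub_apply, cf_sub, cM_apply, cf_cc, h3, coefM]
  simp

theorem Pol.x1 {H W : M K} {P Q A : M ℂ} (hp : Pol H A) (hw : LM W 1 P) (h : RE H W P Q)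
    (x : V ℂ) : mv (tp P) (cr x (mv (coefM H 1) x)) = cr (mv (tp P) x) (mv (cof Q) x) := by
  have key : ∀ y : V ℂ, dt (mv (coefM H 1) x) (cr x (mv P y)) +
      dt x (mv P (cr (mv (cof Q) x) y)) = 0 := by
    intro y
    obtain ⟨μ, hμ, h1⟩ := h.second hp.sym (cv x) (cv y)
    set Z := H - sc (lam (-1)) - cM A with hZ
    have h2 : mv H (cv x) = mv Z (cv x) + lam (-1) • cv x + mv (cM A) (cv x) := by
      rw [hZ, sub_mv, sub_mv, sc_mv]; abel
    rw [h2, dt_add_left, dt_add_left, dt_smul_left, dt_cr_self_left, mul_zero, add_zero] at h1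
    -- the constant
    obtain ⟨κ, hκ⟩ : ∃ κ : ℂ, dt (mv (cM A) (cv x)) (cr (cv x) (mv (cM P) (cv y))) +
        (μ * dt (cv x) (cv x) + dt (mv (cM Q) (cv x)) (cr (mv (tp (cM P)) (cv x)) (cv y))) =
        cc κ := by
      have b0 : (![1, 0, 0] : V K) = cv ![1, 0, 0] := by apply v_ext <;> simp
      have b1 : (![0, 1, 0] : V K) = cv ![0, 1, 0] := by apply v_ext <;> simp
      have b2 : (![0, 0, 1] : V K) = cv ![0, 0, 1] := by apply v_ext <;> simp
      rw [hμ, b0, b1, b2]
      simp only [← cM_mv, ← cv_cr, ← cc_dt, ← cM_tp, ← map_add, ← map_mul]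
      exact ⟨_, rfl⟩
    have h3 : dt (mv Z (cv x)) (cr (cv x) (mv (cM P) (cv y))) +
        dt (cv x) (mv W (cr (mv (cof (cM Q)) (cv x)) (cv y))) = -cc κ := by
      rw [← hκ]; linear_combination h1
    have l1 := LC.dt (hp.lead2.mv (LV.cv x)) ((LV.cv x).cr ((LM.cM P).mv (LV.cv y)))
    have l2 := LC.dt (LV.cv x) (hw.mv ((((LM.cM (cof Q))).mv (LV.cv x)).cr (LV.cv y)))
    rw [← hZ] at l1
    rw [cM_cof] at l2
    have l3 := (l1.congr (by norm_num : _ = (1 : ℤ)) rfl).add (l2.congr (by norm_num) rfl)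
    rw [h3] at l3
    have l4 : cf (-cc κ) 1 = 0 := by rw [cf_neg, cf_cc, if_neg (by norm_num), neg_zero]
    rw [← l3.2, l4]
  have h1 : mv (tp P) (cr x (mv (coefM H 1) x)) - cr (mv (tp P) x) (mv (cof Q) x) = 0 := by
    apply dt_all
    intro y
    have h2 := key y
    have h3 : dt (mv (tp P) (cr x (mv (coefM H 1) x)) - cr (mv (tp P) x) (mv (cof Q) x)) y =
        -(dt (mv (coefM H 1) x) (cr x (mv P y)) + dt x (mv P (cr (mv (cof Q) x) y))) := by
      simp [dt]; ring
    rw [h3, h2, neg_zero]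
  exact sub_eq_zero.mp h1

/-- `B` is the coefficient of `λ` in `H`, modulo scalars. -/
theorem RF.coef {H : M K} {A B : M ℂ} (hp : Pol H A) (hF : RF H A B) (x : V ℂ) :
    cr x (mv B x) = cr x (mv (coefM H 1) x) := by
  have h1 := hF (cv x)
  set Z := H - sc (lam (-1)) - cM A with hZ
  have h2 : cr (cv x) (mv (H - cM A) (cv x)) = cr (cv x) (mv Z (cv x)) := by
    have : H - cM A = Z + sc (lam (-1)) := by rw [hZ]; abel
    rw [this, cr_mv_shift]
  rw [h2] at h1
  have l1 := hp.lead'.mv ((LV.cv x).cr (hp.lead2.mv (LV.cv x)))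
  rw [← hZ, h1] at l1
  have l2 := (LV.cv x).cr ((LM.cM B).mv (LV.cv x))
  have l3 := (l2.congr (by norm_num : _ = (0 : ℤ)) rfl).unique (l1.congr (by norm_num) rfl)
  rw [l3, ← sc_one, sc_mv, one_smul]

theorem Eqs.dat {H W H' W' : M K} {P Q A B A' B' : M ℂ} (h : Eqs H W H' W' P Q A B A' B') :
    Dat P Q A B A' B' := by
  have side : ∀ {H W : M K} {P Q A B : M ℂ}, (∃ a, Pol H (A + sc a)) → LM W 1 P → RE H W P Q →
      RF H A B → tp B = B → tp A = A ∧
      (∀ x, mv (tp P) (cr x (mv A x)) = cr (mv Q x) (mv (tp P) x)) ∧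
      (∀ x, mv (tp P) (cr x (mv B x)) = cr (mv (tp P) x) (mv (cof Q) x)) ∧ TT A B := by
    intro H W P Q A B hpol hw he hf hB
    obtain ⟨a, hp⟩ := hpol
    have hf' : RF H (A + sc a) B := (RF.shiftA a).mpr hf
    refine ⟨?_, ?_, ?_, ?_⟩
    · have := hp.symA
      rw [tp_add, tp_sc] at this
      exact add_right_cancel this
    · intro x
      have := hp.x2 hw he x
      rwa [cr_mv_shift] at this
    · intro x
      rw [hf'.coef hp, hp.x1 hw he]
    · rcases trich hp hB hf' with ⟨c, hc⟩ | ⟨⟨b, hb⟩, -⟩ | ⟨c, b, α, β, v, h1, h2, h3⟩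
      · left
        exact ⟨c - a, by rw [← add_sub_cancel_right A (sc a), hc]; apply m_ext <;> simp⟩
      · right; left; exact ⟨b, hb⟩
      · right; right
        refine ⟨c - a, b, α, β, v, ?_, h2, h3⟩
        rw [← add_sub_cancel_right A (sc a), h1]
        apply m_ext <;> simp <;> ring
  obtain ⟨a1, a2, a3, a4⟩ := side h.pol h.w h.e h.f h.sB
  obtain ⟨b1, b2, b3, b4⟩ := side h.pol' h.w' h.e' h.f' h.sB'
  exact ⟨a1, h.sB, b1, h.sB', a2, a3, h.st, b2, b3, h.st', a4, b4⟩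

/-- `W` is determined by `H`, `P`, `Q`. -/
theorem W_unique {H W W₂ : M K} {P Q A : M ℂ} (hp : Pol H A) (h : RE H W P Q)
    (h2 : RE H W₂ P Q) : W = W₂ := by
  set D := W - W₂ with hD
  have hDe : ∀ x y : V K, mv H (cr x (mv D y)) = mv D (cr (mv (cM Q) x) y) := by
    intro x y
    rw [hD, sub_mv, sub_mv, cr_sub_right, mv_sub, h, h2]
    abel
  have hz : ∀ i : Fin 3 × Fin 3, D i.1 i.2 = 0 := by
    apply eq_zero_of_step (fun i : Fin 3 × Fin 3 => D i.1 i.2)
    intro n hn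
    set C := coefM D n with hC
    have hDC : LM D n C := fun i j => ⟨hn (i, j), rfl⟩
    have hC0 : C = 0 := by
      have h3 : ∀ x y : V ℂ, cr x (mv C y) = 0 := by
        intro x y
        have l1 := hp.lead'.mv ((LV.cv x).cr (hDC.mv (LV.cv y)))
        rw [hDe] at l1
        have l2 := hDC.mv (((LM.cM Q).mv (LV.cv x)).cr (LV.cv y))
        have l3 : LV (mv D (cr (mv (cM Q) (cv x)) (cv y))) (-1 + (0 + (n + 0))) 0 := by
          intro i
          exact LC.ord ((l2 i).1.mono (by omega))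
        have l4 := l1.unique l3
        rw [← sc_one, sc_mv, one_smul] at l4
        exact l4
      apply m_ext_mv
      intro y
      rw [zero_mv]
      apply cr_all
      intro x
      rw [cr_skew, h3, neg_zero]
    intro i
    have h4 : LC (D i.1 i.2) n 0 := by
      have := hDC i.1 i.2
      rw [hC0] at this
      exact this
    exact h4.ord_succ
  have hD0 : D = 0 := by
    ext i j
    exact hz (i, j)
  rw [hD] at hD0
  exact sub_eq_zero.mp hD0

end Helper496
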