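import Pool.Agent.Helper496_So4.Fact

/-!
Every factoring subalgebra comes from a solution of the equations.
-/

set_option autoImplicit false

namespace Helper496

attribute [local instance 100] LieRing.ofAssociativeRing

theorem klin_ext {F G : V K → V K} (hF : ∀ (r : K) x y, F (x + r • y) = F x + r • F y)
    (hG : ∀ (r : K) x y, G (x + r • y) = G x + r • G y) (h0 : F 0 = G 0)
    (h : ∀ i, F (cv (bas i)) = G (cv (bas i))) (x : V K) : F x = G x := by
  have e0 : x = ((0 + x 0 • cv (bas 0)) + x 1 • cv (bas 1)) + x 2 • cv (bas 2) := by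
    apply v_ext <;> simp [bas]
  rw [e0, hF, hF, hF, hG, hG, hG, h, h, h, h0]

theorem quad_ext (β : V K → V K → V K) (h1 : ∀ (r : K) x y z, β (x + r • y) z = β x z + r • β y z)
    (h2 : ∀ (r : K) x y z, β x (y + r • z) = β x y + r • β x z) (h01 : ∀ z, β 0 z = 0)
    (h02 : ∀ z, β z 0 = 0) (h : ∀ x : V ℂ, β (cv x) (cv x) = 0) (x : V K) : β x x = 0 := by
  have hd : ∀ i, β (cv (bas i)) (cv (bas i)) = 0 := fun i => h (bas i)
  have g1 : ∀ x y z, β (x + y) z = β x z + β y z := by
    intro x y z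
    have := h1 1 x y z
    rwa [one_smul, one_smul] at this
  have g2 : ∀ x y z, β x (y + z) = β x y + β x z := by
    intro x y z
    have := h2 1 x y z
    rwa [one_smul, one_smul] at this
  have ho : ∀ i j, β (cv (bas i)) (cv (bas j)) = -β (cv (bas j)) (cv (bas i)) := by
    intro i j
    have h3 := h (bas i + bas j)
    rw [cv_add, g1, g2, g2, hd, hd, zero_add, add_zero] at h3
    exact eq_neg_of_add_eq_zero_left h3
  have e0 : x = ((0 + x 0 • cv (bas 0)) + x 1 • cv (bas 1)) + x 2 • cv (bas 2) := by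
    apply v_ext <;> simp [bas]
  rw [e0]
  simp only [h1, h2, h01, h02, hd, ho 1 0, ho 2 0, ho 2 1]
  module

theorem coefM_tp {H : M K} (h : tp H = H) (n : ℤ) : tp (coefM H n) = coefM H n := by
  ext i j
  have e : tp H i j = H i j := by rw [h]
  rw [tp_apply] at e
  rw [tp_apply]
  show cf (H j i) n = cf (H i j) n
  rw [e]

/-- What is obtained for one of the two factors. -/
theorem half {io : V K → V K → M4} (h : IO io) {U : Submodule ℂ M4} (hcl : Closed U)
    {N S T N' : M K} (hN : LM N (-1) 1) (hN' : LM N' (-1) 1) (hS : ∀ i j, Ord (S i j) 0)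
    (hT : ∀ i j, Ord (T i j) 0) (hX : ∀ x, lm h N T x ∈ U) (hY : ∀ y, lm h S N' y ∈ U)
    (up : ∀ a b x y, io a b ∈ U → LV a (-1) x → LV b (-1) y →
      io a b = lm h N T x + lm h S N' y) :
    ∃ (H W : M K) (A B : M ℂ), Pol H A ∧ LM W 1 (coefM S 0) ∧ Frame N H ∧ mm N W = S ∧
      RE H W (coefM S 0) (coefM T 0) ∧ RF H A B ∧ tp B = B ∧ RS (coefM T 0) A B := by
  set P := coefM S 0 with hP
  set Q := coefM T 0 with hQ
  have lS : LM S 0 P := fun i j => ⟨hS i j, rfl⟩
  have lT : LM T 0 Q := fun i j => ⟨hT i j, rfl⟩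
  have hdN : LC (det3 N) (-3) 1 := by
    have := LC.det3 hN
    rw [det3_one] at this
    exact this.congr (by norm_num) rfl
  have hne : det3 N ≠ 0 := hdN.ne one_ne_zero
  have hinv : LC (det3 N)⁻¹ 3 1 := by
    have := hdN.inv one_ne_zero
    exact this.congr (by norm_num) (by norm_num)
  have hcof1 : cof (1 : M ℂ) = 1 := by rw [← sc_one, cof_sc]; norm_num
  have htp1 : tp (1 : M ℂ) = 1 := by rw [← sc_one, tp_sc]
  have hNt : mm N (tp (cof N)) = sc (det3 N) := by
    have h2 := congrArg tp (mm_cof_tp N)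
    rw [tp_mm, tp_tp, tp_sc] at h2
    exact h2
  have hNt' : mm (tp (cof N)) N = sc (det3 N) := by
    have := mm_cof_tp (tp N)
    rw [tp_tp, det3_tp, ← tp_cof] at this
    exact this
  have inj : ∀ {a b : V K}, mv N a = mv N b → a = b := by
    intro a b hab
    have h1 : mv (tp (cof N)) (mv N a) = mv (tp (cof N)) (mv N b) := by rw [hab]
    rw [← mm_mv, ← mm_mv, hNt', sc_mv, sc_mv] at h1
    exact smul_right_injective _ hne h1
  set Ni := (det3 N)⁻¹ • tp (cof N) with hNi
  have lNi : LM Ni 1 1 := by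
    have := LM.smul hinv (hN.cof.tp)
    rw [hcof1, htp1, one_smul] at this
    exact this.congr (by norm_num) rfl
  have hNNi : ∀ C, mm N (mm Ni C) = C := by
    intro C
    have : mm N Ni = sc 1 := by
      have h1 : mm N Ni = (det3 N)⁻¹ • mm N (tp (cof N)) := by
        rw [hNi]; apply m_ext <;> simp <;> ring
      rw [h1, hNt]
      apply m_ext <;> simp [hne]
    rw [← mm_assoc, this, sc_mm, one_smul]
  set W := mm Ni S with hW
  set H := mm Ni (cof N) with hH
  have hmm1 : ∀ C : M ℂ, mm 1 C = C := by intro C; rw [← sc_one, sc_mm, one_smul]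
  have lW : LM W 1 P := by
    have := lNi.mm lS
    rw [hmm1] at this
    exact this.congr (by norm_num) rfl
  have hNW : mm N W = S := hNNi S
  have hNH : mm N H = cof N := hNNi (cof N)
  have hHs : tp H = H := by
    rw [hH, hNi]
    apply m_ext <;> simp <;> ring
  have lH : LM H (-1) 1 := by
    have := lNi.mm hN.cof
    rw [hmm1, hcof1] at this
    exact this.congr (by norm_num) rfl
  have hgram : mm (tp N) N = cof H := by
    have h1 : cof H = ((det3 N)⁻¹ * (det3 N)⁻¹) • mm (cof (tp (cof N))) (cof (cof N)) := by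
      rw [hH, cof_mm, hNi, cof_smul]
      apply m_ext <;> simp <;> ring
    rw [h1, ← tp_cof, cof_cof, tp_smul]
    apply m_ext <;> simp <;> field_simp
  set A := coefM (H - sc (lam (-1))) 0 with hA
  have lHA : LM (H - sc (lam (-1))) 0 A := by
    intro i j
    have l1 : LM (sc (lam (-1))) (-1) (sc 1) := LM.sc (LC.lam (-1))
    have l2 := (lH.sub l1) i j
    rw [sc_one, sub_self] at l2
    have l3 := l2.ord_succ
    exact ⟨l3, rfl⟩
  have hp : Pol H A := ⟨hHs, lHA⟩
  have hfr : Frame N H := ⟨hgram, hNH, hN⟩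
  clear_value H W
  -- (R2)
  have hR2 : ∀ x y, ⁅lm h N T x, lm h S N' y⁆ = lm h N T (cr x (mv P y)) +
      lm h S N' (cr (mv Q x) y) := by
    intro x y
    have hmem : ⁅lm h N T x, lm h S N' y⁆ ∈ U := by
      rw [Ring.lie_def]; exact hcl _ (hX x) _ (hY y)
    rw [lm_apply, lm_apply, h.br] at hmem ⊢
    apply up _ _ _ _ hmem
    · have l := (hN.mv (LV.cv x)).cr (lS.mv (LV.cv y))
      rw [← sc_one, sc_mv, one_smul] at l
      exact l.congr (by norm_num) rfl
    · have l := (lT.mv (LV.cv x)).cr (hN'.mv (LV.cv y))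
      rw [← sc_one, sc_mv, one_smul] at l
      exact l.congr (by norm_num) rfl
  have hRE : RE H W P Q := by
    have hconst : ∀ x y : V ℂ, mv H (cr (cv x) (mv W (cv y))) =
        cr (cv x) (mv (cM P) (cv y)) + mv W (cr (mv (cM Q) (cv x)) (cv y)) := by
      intro x y
      have h1 := hR2 x y
      rw [lm_apply, lm_apply, h.br, lm_apply, lm_apply, ← h.add] at h1
      obtain ⟨h2, -⟩ := h.inj' h1
      apply inj
      rw [mv_add, ← mm_mv, hNH, ← id3, ← mm_mv, hNW, h2, cv_cr, cM_mv, cv_cr, cM_mv, ← mm_mv,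
        hNW]
    have hx : ∀ (x : V K) (y : V ℂ), mv H (cr x (mv W (cv y))) =
        cr x (mv (cM P) (cv y)) + mv W (cr (mv (cM Q) x) (cv y)) := by
      intro x y
      apply klin_ext (F := fun x => mv H (cr x (mv W (cv y))))
        (G := fun x => cr x (mv (cM P) (cv y)) + mv W (cr (mv (cM Q) x) (cv y)))
      · intro r a b
        simp only [cr_add_left, cr_smul_left, mv_add, mv_smul]
      · intro r a b
        simp only [cr_add_left, cr_smul_left, mv_add, mv_smul, smul_add]
        abel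
      · simp only [cr_zero_left, mv_zero, add_zero]
      · intro i; exact hconst (bas i) y
    intro x y
    apply klin_ext (F := fun y => mv H (cr x (mv W y)))
      (G := fun y => cr x (mv (cM P) y) + mv W (cr (mv (cM Q) x) y))
    · intro r a b
      simp only [cr_add_right, cr_smul_right, mv_add, mv_smul]
    · intro r a b
      simp only [cr_add_right, cr_smul_right, mv_add, mv_smul, smul_add]
      abel
    · simp only [cr_zero_right, mv_zero, add_zero]
    · intro i; exact hx x (bas i)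
  -- (R3)
  set B := coefM H 1 with hB
  have hBs : tp B = B := coefM_tp hHs 1
  have hR3 : ∀ x : V ℂ, io (mv N (mv H (cr (cv x) (mv (H - cM A) (cv x)))))
      (cr (mv T (cv x)) (mv (cof T) (cv x)) - mv (cof T) (cv (cr x (mv A x)))) =
      lm h N T (cr x (mv B x)) + lm h S N' 0 := by
    intro x
    have hxs : ∀ z, xs (lm h N T) 1 z ∈ U := by
      intro z
      have hb : ∀ a b, ⁅lm h N T a, xs (lm h N T) 0 b⁆ ∈ U := by
        intro a b
        rw [Ring.lie_def]; exact hcl _ (hX a) _ (hX b)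
      exact Submodule.add_mem _ (Submodule.add_mem _ (Submodule.smul_mem _ _ (hb _ _))
        (Submodule.smul_mem _ _ (hb _ _))) (Submodule.smul_mem _ _ (hb _ _))
    have hmem : ⁅lm h N T x, xs (lm h N T) 1 x⁆ - xs (lm h N T) 1 (cr x (mv A x)) ∈ U := by
      apply Submodule.sub_mem _ _ (hxs _)
      rw [Ring.lie_def]; exact hcl _ (hX x) _ (hxs x)
    rw [xs_lm, xs_lm, lm_apply, h.br, ← h.sub] at hmem
    have e1 : cr (mv N (cv x)) (mv (cof N) (cv x)) - mv (cof N) (cv (cr x (mv A x))) =
        mv N (mv H (cr (cv x) (mv (H - cM A) (cv x)))) := by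
      have c1 : ∀ z, mv (cof N) z = mv N (mv H z) := by intro z; rw [← hNH, mm_mv]
      rw [c1, c1, id3, c1, cv_cr, cM_mv, ← mv_sub, ← mv_sub, ← cr_sub_right, ← sub_mv]
    rw [e1] at hmem
    apply up _ _ _ _ hmem
    · have hdec : cr (cv x) (mv (H - cM A) (cv x)) =
          cr (cv x) (mv (H - sc (lam (-1)) - cM A) (cv x)) := by
        have : H - cM A = (H - sc (lam (-1)) - cM A) + sc (lam (-1)) := by abel
        conv_lhs => rw [this, cr_mv_shift]
      rw [hdec]
      have l := hN.mv (lH.mv ((LV.cv x).cr (hp.lead2.mv (LV.cv x))))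
      rw [← sc_one, sc_mv, sc_mv, one_smul, one_smul] at l
      exact l.congr (by norm_num) rfl
    · intro i
      apply LC.ord
      have l1 := (lT.mv (LV.cv x)).cr (lT.cof.mv (LV.cv x))
      have l2 := lT.cof.mv (LV.cv (cr x (mv A x)))
      have l3 := ((l1.congr (by norm_num : _ = (0 : ℤ)) rfl).sub
        (l2.congr (by norm_num : _ = (0 : ℤ)) rfl)) i
      exact l3.1.mono (by norm_num)
  have hR3' : ∀ x : V ℂ, mv H (cr (cv x) (mv (H - cM A) (cv x))) = cr (cv x) (mv (cM B) (cv x)) ∧
      cr (mv T (cv x)) (mv (cof T) (cv x)) - mv (cof T) (cv (cr x (mv A x))) =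
        mv T (cv (cr x (mv B x))) := by
    intro x
    have h1 := hR3 x
    rw [map_zero, add_zero, lm_apply] at h1
    obtain ⟨h2, h3⟩ := h.inj' h1
    refine ⟨?_, h3⟩
    have h4 := inj h2
    rw [h4, cv_cr, cM_mv]
  have hRF : RF H A B := by
    intro x
    have h1 := quad_ext (fun x z => mv H (cr x (mv (H - cM A) z)) - cr x (mv (cM B) z))
      (by
        intro r a b c
        simp only [cr_add_left, cr_smul_left, mv_add, mv_smul, smul_sub]
        abel)
      (by
        intro r a b c
        simp only [mv_add, mv_smul, cr_add_right, cr_smul_right, smul_sub]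
        abel)
      (by intro z; simp only [cr_zero_left, mv_zero, sub_zero])
      (by intro z; simp only [mv_zero, cr_zero_right, mv_zero, sub_zero])
      (by intro x; simp only [(hR3' x).1, sub_self]) x
    exact sub_eq_zero.mp h1
  have hRS : RS Q A B := by
    intro x
    have h1 := (hR3' x).2
    have l1 := (lT.mv (LV.cv x)).cr (lT.cof.mv (LV.cv x))
    have l2 := lT.cof.mv (LV.cv (cr x (mv A x)))
    have l3 := lT.mv (LV.cv (cr x (mv B x)))
    have l4 := (l1.congr (by norm_num : _ = (0 : ℤ)) rfl).sub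
        (l2.congr (by norm_num : _ = (0 : ℤ)) rfl)
    rw [h1] at l4
    have l5 := l4.unique (l3.congr (by norm_num) rfl)
    rw [← l5]
    abel
  exact ⟨H, W, A, B, hp, lW, hfr, hNW, hRE, hRF, hBs, hRS⟩

/-- Every factoring subalgebra comes from a solution of the equations. -/
theorem exists_eqs {U : Submodule ℂ M4} (hU : Factoring U) :
    ∃ (H W H' W' N N' : M K) (P Q A B A' B' : M ℂ), Eqs H W H' W' P Q A B A' B' ∧
      Frame N H ∧ Frame N' H' ∧ U = gen (Set.range (lm IO_iota N (mm N' W')) ∪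
        Set.range (lm IO_iota (mm N W) N')) := by
  obtain ⟨hcl, hdis, hsup⟩ := hU
  have hUle : U ≤ so4 := by rw [← hsup]; exact le_sup_right
  -- the generators
  have ex1 : ∀ a b : V K, ∃ p q, OV p 0 ∧ OV q 0 ∧ iota (a - p) (b - q) ∈ U := by
    intro a b
    have h1 : iota a b ∈ T4 ⊔ U := by rw [hsup]; exact iota_skew a b
    obtain ⟨t, ht, u, hu, htu⟩ := Submodule.mem_sup.mp h1
    obtain ⟨p, q, hpq⟩ := exists_iota ht.1
    rw [hpq] at ht
    obtain ⟨h2, h3⟩ := OV_of_T4 ht
    refine ⟨p, q, h2, h3, ?_⟩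
    rw [IO_iota.sub, ← hpq, ← htu, add_sub_cancel_left]
    exact hu
  choose p q hp hq hpq using fun i : Fin 3 => ex1 (lam (-1) • cv (bas i)) 0
  choose p' q' hp' hq' hpq' using fun i : Fin 3 => ex1 0 (lam (-1) • cv (bas i))
  let N : M K := fun i j => (lam (-1) • cv (bas j) - p j) i
  let T : M K := fun i j => (0 - q j) i
  let S : M K := fun i j => (0 - p' j) i
  let N' : M K := fun i j => (lam (-1) • cv (bas j) - q' j) i
  have hS : ∀ i j, Ord (S i j) 0 := fun i j => (Ord.zero 0).sub (hp' j i)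
  have hT : ∀ i j, Ord (T i j) 0 := fun i j => (Ord.zero 0).sub (hq j i)
  have h1bas : ∀ i j, (1 : M ℂ) i j = bas j i := by
    intro i j
    fin_cases i <;> fin_cases j <;> simp [bas]
  have hN : LM N (-1) 1 := by
    intro i j
    have l1 := (LC.lam (-1)).mul (LC.cc (bas j i))
    have l2 : LC (p j i) (-1) 0 := LC.ord ((hp j i).mono (by norm_num))
    have l3 := (l1.congr (by norm_num : _ = (-1 : ℤ)) rfl).sub l2
    rw [h1bas]
    exact l3.congr rfl (by ring)
  have hN' : LM N' (-1) 1 := by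
    intro i j
    have l1 := (LC.lam (-1)).mul (LC.cc (bas j i))
    have l2 : LC (q' j i) (-1) 0 := LC.ord ((hq' j i).mono (by norm_num))
    have l3 := (l1.congr (by norm_num : _ = (-1 : ℤ)) rfl).sub l2
    rw [h1bas]
    exact l3.congr rfl (by ring)
  have colm : ∀ (C : M K) (j : Fin 3), mv C (cv (bas j)) = fun i => C i j := by
    intro C j
    funext i
    rw [mv_apply]
    fin_cases j <;> simp [bas]
  have hX : ∀ x, lm IO_iota N T x ∈ U := by
    intro x
    rw [lin_decomp (lm IO_iota N T) x]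
    have hb : ∀ j, lm IO_iota N T (bas j) ∈ U := by
      intro j
      rw [lm_apply, colm, colm]
      exact hpq j
    exact Submodule.add_mem _ (Submodule.add_mem _ (Submodule.smul_mem _ _ (hb _))
      (Submodule.smul_mem _ _ (hb _))) (Submodule.smul_mem _ _ (hb _))
  have hY : ∀ x, lm IO_iota S N' x ∈ U := by
    intro x
    rw [lin_decomp (lm IO_iota S N') x]
    have hb : ∀ j, lm IO_iota S N' (bas j) ∈ U := by
      intro j
      rw [lm_apply, colm, colm]
      exact hpq' j
    exact Submodule.add_mem _ (Submodule.add_mem _ (Submodule.smul_mem _ _ (hb _))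
      (Submodule.smul_mem _ _ (hb _))) (Submodule.smul_mem _ _ (hb _))
  have up : ∀ a b x y, iota a b ∈ U → LV a (-1) x → LV b (-1) y →
      iota a b = lm IO_iota N T x + lm IO_iota S N' y := by
    intro a b x y hab la lb'
    have h1 : iota a b - (lm IO_iota N T x + lm IO_iota S N' y) ∈ U :=
      U.sub_mem hab (U.add_mem (hX x) (hY y))
    have h2 : iota a b - (lm IO_iota N T x + lm IO_iota S N' y) =
        iota (a - (mv N (cv x) + mv S (cv y))) (b - (mv T (cv x) + mv N' (cv y))) := by
      rw [lm_apply, lm_apply, ← IO_iota.add, ← IO_iota.sub]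
    have o : ∀ (C : M K) (hC : ∀ i j, Ord (C i j) 0) (z : V ℂ), LV (mv C (cv z)) (-1) 0 := by
      intro C hC z i
      apply LC.ord
      have l0 : LM C 0 (coefM C 0) := fun i j => ⟨hC i j, rfl⟩
      have l := (l0.mv (LV.cv z)) i
      exact l.1.mono (by norm_num)
    have l1 := hN.mv (LV.cv x)
    have l2 := hN'.mv (LV.cv y)
    rw [← sc_one, sc_mv, one_smul] at l1 l2
    have l3 := la.sub ((l1.congr (by norm_num : _ = (-1 : ℤ)) rfl).add (o S hS y))
    have l4 := lb'.sub ((o T hT x).add (l2.congr (by norm_num : _ = (-1 : ℤ)) rfl))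
    rw [add_zero, sub_self] at l3
    rw [zero_add, sub_self] at l4
    have h3 : iota (a - (mv N (cv x) + mv S (cv y))) (b - (mv T (cv x) + mv N' (cv y))) ∈ T4 :=
      iota_mem_T4 (fun i => (l3 i).ord_succ) (fun i => (l4 i).ord_succ)
    rw [h2] at h1
    have h4 := Submodule.disjoint_def.mp hdis _ h3 h1
    rw [← h2] at h4
    exact sub_eq_zero.mp h4
  obtain ⟨H, W, A, B, a1, a2, a3, a4, a5, a6, a7, a8⟩ := half IO_iota hcl hN hN' hS hT hX hY up
  obtain ⟨H', W', A', B', b1, b2, b3, b4, b5, b6, b7, b8⟩ := half IO_iota.flip hcl hN' hN hT hS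
    hY hX (by
      intro a b x y hab la lb'
      have := up b a y x hab lb' la
      rw [add_comm] at this
      exact this)
  have hE : Eqs H W H' W' (coefM S 0) (coefM T 0) A B A' B' :=
    ⟨⟨0, by rw [sc_zero, add_zero]; exact a1⟩, ⟨0, by rw [sc_zero, add_zero]; exact b1⟩,
      a2, b2, a5, b5, a6, b6, a7, b7, a8, b8⟩
  have hfac := hE.factoring a3 b3
  refine ⟨H, W, H', W', N, N', coefM S 0, coefM T 0, A, B, A', B', hE, a3, b3, ?_⟩
  rw [a4, b4] at hfac ⊢
  have hle : gen (Set.range (lm IO_iota N T) ∪ Set.range (lm IO_iota S N')) ≤ U := by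
    apply sInf_le
    refine ⟨?_, hcl⟩
    rintro _ (⟨x, rfl⟩ | ⟨x, rfl⟩)
    · exact hX x
    · exact hY x
  apply le_antisymm _ hle
  intro u hu
  obtain ⟨-, -, hs⟩ := hfac
  have h1 : u ∈ T4 ⊔ gen (Set.range (lm IO_iota N T) ∪ Set.range (lm IO_iota S N')) := by
    rw [hs]; exact hUle hu
  obtain ⟨t, ht, v, hv, rfl⟩ := Submodule.mem_sup.mp h1
  have h2 : t ∈ U := by
    have := U.sub_mem hu (hle hv)
    rwa [add_sub_cancel_right] at this
  have h3 := Submodule.disjoint_def.mp hdis t ht h2
  rw [h3, zero_add]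
  exact hv

end Helper496
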