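import Pool.Agent.Helper496_So4.So4

/-!
Subalgebras given by solutions of the equations are factoring.
-/

set_option autoImplicit false

namespace Helper496

attribute [local instance 100] LieRing.ofAssociativeRing

/-- `so_4((λ))`: the skew-symmetric `4 × 4` matrices of Laurent series. -/
noncomputable def so4 : Submodule ℂ M4 where
  carrier := {X | X.transpose = -X}
  add_mem' := by
    intro X Y hX hY
    simp only [Set.mem_setOf_eq] at *
    rw [Matrix.transpose_add, hX, hY, neg_add]
  zero_mem' := by simp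
  smul_mem' := by
    intro c X hX
    simp only [Set.mem_setOf_eq] at *
    rw [Matrix.transpose_smul, hX, smul_neg]

/-- `so_4[[λ]]`: the skew-symmetric matrices without negative powers of `λ`. -/
noncomputable def T4 : Submodule ℂ M4 where
  carrier := {X | X.transpose = -X ∧ ∀ i j, ∀ k < 0, cf (X i j) k = 0}
  add_mem' := by
    rintro X Y ⟨hX, hX'⟩ ⟨hY, hY'⟩
    refine ⟨by rw [Matrix.transpose_add, hX, hY, neg_add], fun i j k hk => ?_⟩
    rw [Matrix.add_apply, cf_add, hX' i j k hk, hY' i j k hk, add_zero]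
  zero_mem' := ⟨by simp, fun _ _ _ _ => rfl⟩
  smul_mem' := by
    rintro c X ⟨hX, hX'⟩
    refine ⟨by rw [Matrix.transpose_smul, hX, smul_neg], fun i j k hk => ?_⟩
    rw [Matrix.smul_apply, cf_smul, hX' i j k hk, mul_zero]

/-- Closed under commutators. -/
def Closed (U : Submodule ℂ M4) : Prop := ∀ X ∈ U, ∀ Y ∈ U, X * Y - Y * X ∈ U

/-- Factoring subalgebras. -/
def Factoring (U : Submodule ℂ M4) : Prop := Closed U ∧ Disjoint T4 U ∧ T4 ⊔ U = so4

/-- The Lie subalgebra generated by a set. -/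
noncomputable def gen (S : Set M4) : Submodule ℂ M4 := sInf {N | S ⊆ N ∧ Closed N}

theorem gen_eq (S : Set M4) : gen S = (LieSubalgebra.lieSpan ℂ M4 S).toSubmodule := by
  apply le_antisymm
  · apply sInf_le
    refine ⟨fun x hx => LieSubalgebra.subset_lieSpan hx, ?_⟩
    intro X hX Y hY
    rw [← Ring.lie_def]
    exact LieSubalgebra.lie_mem _ hX hY
  · rw [gen]
    apply le_sInf
    rintro N ⟨hS, hN⟩
    let N' : LieSubalgebra ℂ M4 := { N with
      lie_mem' := by
        intro X Y hX hY
        rw [Ring.lie_def]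
        exact hN X hX Y hY }
    have : LieSubalgebra.lieSpan ℂ M4 S ≤ N' := LieSubalgebra.lieSpan_le.mpr hS
    exact this

theorem iota_skew (a b : V K) : (iota a b).transpose = -iota a b := by
  ext i j
  fin_cases i <;> fin_cases j <;> simp [iota] <;> ring

theorem exists_iota {X : M4} (hX : X.transpose = -X) : ∃ a b, X = iota a b := by
  have e : ∀ i j, X j i = -X i j := fun i j => congrFun (congrFun hX i) j
  have d : ∀ i, X i i = 0 := by
    intro i
    have h1 : X i i + X i i = 0 := by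
      nth_rw 1 [e i i]; ring
    have h2 : 2 * X i i = 0 := by linear_combination h1
    simpa using h2
  have h2 : (2 : K) ≠ 0 := two_ne_zero
  refine ⟨![-X 0 1 - X 2 3, X 1 3 - X 0 2, -X 0 3 - X 1 2],
    ![X 0 1 - X 2 3, X 1 3 + X 0 2, X 0 3 - X 1 2], ?_⟩
  have e01 := e 0 1
  have e02 := e 0 2
  have e03 := e 0 3
  have e12 := e 1 2
  have e13 := e 1 3
  have e23 := e 2 3
  ext i j
  fin_cases i <;> fin_cases j <;> simp [iota, d, e01, e02, e03, e12, e13, e23] <;>
    field_simp <;> ring

/-- Vectors of order at least `n`. -/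
def OV (a : V K) (n : ℤ) : Prop := ∀ i, Ord (a i) n

theorem iota_mem_T4 {a b : V K} (ha : OV a 0) (hb : OV b 0) : iota a b ∈ T4 := by
  refine ⟨iota_skew a b, ?_⟩
  have h2 : (2 : K)⁻¹ = cc (1 / 2) := by
    have : cc (1 / 2 : ℂ) * 2 = 1 := by
      rw [← map_ofNat cc 2, ← map_mul]; norm_num
    exact (eq_inv_of_mul_eq_one_left this).symm
  have key : ∀ f : K, Ord f 0 → Ord ((2 : K)⁻¹ * f) 0 := by
    intro f hf
    rw [h2]
    have := (Ord.cc (1 / 2)).mul hf
    rwa [zero_add] at this
  intro i j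
  have h0 : Ord (0 : K) 0 := Ord.zero 0
  fin_cases i <;> fin_cases j
  · exact key _ h0
  · exact key _ ((ha 0).neg.add (hb 0))
  · exact key _ ((ha 1).neg.add (hb 1))
  · exact key _ ((ha 2).neg.add (hb 2))
  · exact key _ ((ha 0).sub (hb 0))
  · exact key _ h0
  · exact key _ ((ha 2).neg.sub (hb 2))
  · exact key _ ((ha 1).add (hb 1))
  · exact key _ ((ha 1).sub (hb 1))
  · exact key _ ((ha 2).add (hb 2))
  · exact key _ h0
  · exact key _ ((ha 0).neg.sub (hb 0))
  · exact key _ ((ha 2).sub (hb 2))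
  · exact key _ ((ha 1).neg.sub (hb 1))
  · exact key _ ((ha 0).add (hb 0))
  · exact key _ h0

theorem OV_of_T4 {a b : V K} (h : iota a b ∈ T4) : OV a 0 ∧ OV b 0 := by
  have h2 := h.2
  have k2 : (2 : K) ≠ 0 := two_ne_zero
  have e01 : iota a b 0 1 = (2 : K)⁻¹ * (-a 0 + b 0) := rfl
  have e02 : iota a b 0 2 = (2 : K)⁻¹ * (-a 1 + b 1) := rfl
  have e03 : iota a b 0 3 = (2 : K)⁻¹ * (-a 2 + b 2) := rfl
  have e12 : iota a b 1 2 = (2 : K)⁻¹ * (-a 2 - b 2) := rfl
  have e13 : iota a b 1 3 = (2 : K)⁻¹ * (a 1 + b 1) := rfl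
  have e23 : iota a b 2 3 = (2 : K)⁻¹ * (-a 0 - b 0) := rfl
  have hO : ∀ i j, Ord (iota a b i j) 0 := h2
  constructor
  · intro i
    fin_cases i
    · show Ord (a 0) 0
      have : a 0 = -iota a b 0 1 - iota a b 2 3 := by rw [e01, e23]; field_simp; ring
      rw [this]; exact (hO 0 1).neg.sub (hO 2 3)
    · show Ord (a 1) 0
      have : a 1 = iota a b 1 3 - iota a b 0 2 := by rw [e13, e02]; field_simp; ring
      rw [this]; exact (hO 1 3).sub (hO 0 2)
    · show Ord (a 2) 0
      have : a 2 = -iota a b 0 3 - iota a b 1 2 := by rw [e03, e12]; field_simp; ring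
      rw [this]; exact (hO 0 3).neg.sub (hO 1 2)
  · intro i
    fin_cases i
    · show Ord (b 0) 0
      have : b 0 = iota a b 0 1 - iota a b 2 3 := by rw [e01, e23]; field_simp; ring
      rw [this]; exact (hO 0 1).sub (hO 2 3)
    · show Ord (b 1) 0
      have : b 1 = iota a b 1 3 + iota a b 0 2 := by rw [e13, e02]; field_simp; ring
      rw [this]; exact (hO 1 3).add (hO 0 2)
    · show Ord (b 2) 0
      have : b 2 = iota a b 0 3 - iota a b 1 2 := by rw [e03, e12]; field_simp; ring
      rw [this]; exact (hO 0 3).sub (hO 1 2)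

/-- Leading terms of the standard elements. -/
theorem xs_lead {io : V K → V K → M4} (h : IO io) {A B : M K} (hA : LM A (-1) 1)
    (hB : ∀ i j, Ord (B i j) 0) (n : ℕ) (x : V ℂ) :
    ∃ a b, xs (lm h A B) n x = io a b ∧ LV a (-(n + 1 : ℕ)) x ∧ OV b 0 := by
  induction n generalizing x with
  | zero =>
    refine ⟨mv A (cv x), mv B (cv x), rfl, ?_, ?_⟩
    · have := hA.mv (LV.cv x)
      rw [← sc_one, sc_mv, one_smul] at this
      exact this.congr (by norm_num) rfl
    · intro i
      rw [mv_apply]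
      have t : ∀ j, Ord (B i j * cv x j) 0 := by
        intro j
        have := (hB i j).mul (Ord.cc (x j))
        rwa [add_zero] at this
      exact ((t 0).add (t 1)).add (t 2)
  | succ n ih =>
    have hX : ∀ x, ∃ a b, lm h A B x = io a b ∧ LV a (-1) x ∧ OV b 0 := by
      intro x
      refine ⟨mv A (cv x), mv B (cv x), rfl, ?_, ?_⟩
      · have := hA.mv (LV.cv x)
        rw [← sc_one, sc_mv, one_smul] at this
        exact this.congr (by norm_num) rfl
      · intro i
        rw [mv_apply]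
        have t : ∀ j, Ord (B i j * cv x j) 0 := by
          intro j
          have := (hB i j).mul (Ord.cc (x j))
          rwa [add_zero] at this
        exact ((t 0).add (t 1)).add (t 2)
    have hbr : ∀ x y, ∃ a b, ⁅lm h A B x, xs (lm h A B) n y⁆ = io a b ∧
        LV a (-(n + 1 + 1 : ℕ)) (cr x y) ∧ OV b 0 := by
      intro x y
      obtain ⟨a, b, e1, e2, e3⟩ := hX x
      obtain ⟨c, d, g1, g2, g3⟩ := ih y
      refine ⟨cr a c, cr b d, by rw [e1, g1, h.br], (e2.cr g2).congr (by push_cast; ring) rfl, ?_⟩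
      intro i
      have t : ∀ j l, Ord (b j * d l) 0 := by
        intro j l
        have := (e3 j).mul (g3 l)
        rwa [add_zero] at this
      fin_cases i
      · exact (t 1 2).sub (t 2 1)
      · exact (t 2 0).sub (t 0 2)
      · exact (t 0 1).sub (t 1 0)
    obtain ⟨a0, b0, e0, f0, g0⟩ := hbr (bas 1) (bas 2)
    obtain ⟨a1, b1, e1, f1, g1⟩ := hbr (bas 2) (bas 0)
    obtain ⟨a2, b2, e2, f2, g2⟩ := hbr (bas 0) (bas 1)
    have c01 : cr (bas 0) (bas 1) = bas 2 := by apply v_ext <;> simp [cr, bas]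
    have c12 : cr (bas 1) (bas 2) = bas 0 := by apply v_ext <;> simp [cr, bas]
    have c20 : cr (bas 2) (bas 0) = bas 1 := by apply v_ext <;> simp [cr, bas]
    rw [c12] at f0
    rw [c20] at f1
    rw [c01] at f2
    refine ⟨cc (x 0) • a0 + cc (x 1) • a1 + cc (x 2) • a2,
      cc (x 0) • b0 + cc (x 1) • b1 + cc (x 2) • b2, ?_, ?_, ?_⟩
    · show x 0 • ⁅lm h A B (bas 1), xs (lm h A B) n (bas 2)⁆ +
        x 1 • ⁅lm h A B (bas 2), xs (lm h A B) n (bas 0)⁆ +
        x 2 • ⁅lm h A B (bas 0), xs (lm h A B) n (bas 1)⁆ = _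
      rw [e0, e1, e2, ← h.smul, ← h.smul, ← h.smul, ← h.add, ← h.add]
    · have l := (((LV.smul (LC.cc (x 0)) f0).add (LV.smul (LC.cc (x 1)) f1)).add
        (LV.smul (LC.cc (x 2)) f2))
      exact l.congr (by push_cast; ring) (bas_decomp x).symm
    · intro i
      have t : ∀ (c : ℂ) (b : V K), OV b 0 → Ord ((cc c • b) i) 0 := by
        intro c b hb
        have := (Ord.cc c).mul (hb i)
        rwa [add_zero] at this
      exact ((t _ _ g0).add (t _ _ g1)).add (t _ _ g2)

theorem iota_add (a b c d : V K) : iota (a + c) (b + d) = iota a b + iota c d :=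
  IO_iota.add a b c d

/-- The main criterion. -/
theorem factoring_of {X Y : V ℂ →ₗ[ℂ] M4}
    (hX : ∀ x, ⁅X x, xs X 1 x⁆ ∈ Vs X 2) (hY : ∀ x, ⁅Y x, xs Y 1 x⁆ ∈ Vs Y 2)
    (hXY : ∀ x y, ⁅X x, Y y⁆ ∈ Vs X 1 ⊔ Vs Y 1)
    (lX : ∀ n x, ∃ a b, xs X n x = iota a b ∧ LV a (-(n + 1 : ℕ)) x ∧ OV b 0)
    (lY : ∀ n x, ∃ a b, xs Y n x = iota a b ∧ LV b (-(n + 1 : ℕ)) x ∧ OV a 0) :
    Factoring (gen (Set.range X ∪ Set.range Y)) := by
  rw [gen_eq]
  have hmem : ∀ u, u ∈ (LieSubalgebra.lieSpan ℂ M4 (Set.range X ∪ Set.range Y)).toSubmodule ↔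
      ∃ n, u ∈ Vs X n ⊔ Vs Y n := fun u => mem_gen X Y hX hY hXY u
  -- pole order of the elements of the filtration
  have poX : ∀ n, ∀ u ∈ Vs X n, ∃ a b, u = iota a b ∧ OV a (-n) ∧ OV b (-n) := by
    intro n
    induction n with
    | zero =>
      intro u hu
      rw [(Submodule.mem_bot ℂ).mp hu]
      refine ⟨0, 0, ?_, fun i => Ord.zero _, fun i => Ord.zero _⟩
      have := IO_iota.smul 0 0 0
      rw [map_zero, zero_smul, zero_smul] at this
      exact this.symm
    | succ n ih =>
      intro u hu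
      obtain ⟨v, hv, w, ⟨x, rfl⟩, rfl⟩ := Submodule.mem_sup.mp hu
      obtain ⟨a, b, e1, e2, e3⟩ := ih v hv
      obtain ⟨c, d, g1, g2, g3⟩ := lX n x
      refine ⟨a + c, b + d, by rw [e1, g1, iota_add], fun i => ?_, fun i => ?_⟩
      · exact ((e2 i).mono (by push_cast; omega)).add (g2 i).1
      · exact ((e3 i).mono (by push_cast; omega)).add ((g3 i).mono (by push_cast; omega))
  have poY : ∀ n, ∀ u ∈ Vs Y n, ∃ a b, u = iota a b ∧ OV a (-n) ∧ OV b (-n) := by
    intro n
    induction n with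
    | zero =>
      intro u hu
      rw [(Submodule.mem_bot ℂ).mp hu]
      refine ⟨0, 0, ?_, fun i => Ord.zero _, fun i => Ord.zero _⟩
      have := IO_iota.smul 0 0 0
      rw [map_zero, zero_smul, zero_smul] at this
      exact this.symm
    | succ n ih =>
      intro u hu
      obtain ⟨v, hv, w, ⟨x, rfl⟩, rfl⟩ := Submodule.mem_sup.mp hu
      obtain ⟨a, b, e1, e2, e3⟩ := ih v hv
      obtain ⟨c, d, g1, g2, g3⟩ := lY n x
      refine ⟨a + c, b + d, by rw [e1, g1, iota_add], fun i => ?_, fun i => ?_⟩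
      · exact ((e2 i).mono (by push_cast; omega)).add ((g3 i).mono (by push_cast; omega))
      · exact ((e3 i).mono (by push_cast; omega)).add (g2 i).1
  -- disjointness
  have disj : ∀ n, ∀ u ∈ Vs X n ⊔ Vs Y n, u ∈ T4 → u = 0 := by
    intro n
    induction n with
    | zero =>
      intro u hu _
      have : Vs X 0 ⊔ Vs Y 0 = ⊥ := by simp [Vs]
      rw [this] at hu
      exact (Submodule.mem_bot ℂ).mp hu
    | succ n ih =>
      intro u hu hT
      obtain ⟨p, hp, r, hr, rfl⟩ := Submodule.mem_sup.mp hu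
      obtain ⟨v, hv, w, ⟨x, rfl⟩, rfl⟩ := Submodule.mem_sup.mp hp
      obtain ⟨v', hv', w', ⟨y, rfl⟩, rfl⟩ := Submodule.mem_sup.mp hr
      obtain ⟨a1, b1, e1, f1, g1⟩ := poX n v hv
      obtain ⟨a2, b2, e2, f2, g2⟩ := lX n x
      obtain ⟨a3, b3, e3, f3, g3⟩ := poY n v' hv'
      obtain ⟨a4, b4, e4, f4, g4⟩ := lY n y
      have hsum : v + (xs X n) x + (v' + (xs Y n) y) =
          iota (a1 + a2 + (a3 + a4)) (b1 + b2 + (b3 + b4)) := by
        rw [e1, e2, e3, e4, iota_add, iota_add, iota_add]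
      rw [hsum] at hT
      obtain ⟨hTa, hTb⟩ := OV_of_T4 hT
      have o : ∀ {c : V K}, OV c (-n) → LV c (-(n + 1 : ℕ)) 0 := by
        intro c hc i
        exact LC.ord ((hc i).mono (by push_cast; omega))
      have o' : ∀ {c : V K}, OV c 0 → LV c (-(n + 1 : ℕ)) 0 := by
        intro c hc i
        exact LC.ord ((hc i).mono (by push_cast; omega))
      have hx : x = 0 := by
        have l := ((o f1).add f2).add ((o f3).add (o' g4))
        have l2 := l.unique (o' hTa)
        simpa using l2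
      have hy : y = 0 := by
        have l := ((o g1).add (o' g2)).add ((o g3).add f4)
        have l2 := l.unique (o' hTb)
        simpa using l2
      rw [hx, hy, map_zero, map_zero, add_zero, add_zero]
      apply ih
      · exact Submodule.add_mem_sup hv hv'
      · rw [← hsum, hx, hy, map_zero, map_zero, add_zero, add_zero] at hT
        exact hT
  -- every element is congruent to one of the filtration
  have surj : ∀ n : ℕ, ∀ a b : V K, OV a (-n) → OV b (-n) →
      iota a b ∈ T4 ⊔ (Vs X n ⊔ Vs Y n) := by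
    intro n
    induction n with
    | zero =>
      intro a b ha hb
      exact Submodule.mem_sup_left (iota_mem_T4 (by simpa using ha) (by simpa using hb))
    | succ n ih =>
      intro a b ha hb
      set x : V ℂ := fun i => cf (a i) (-(n + 1 : ℕ)) with hx
      set y : V ℂ := fun i => cf (b i) (-(n + 1 : ℕ)) with hy
      have la : LV a (-(n + 1 : ℕ)) x := fun i => ⟨ha i, rfl⟩
      have lb' : LV b (-(n + 1 : ℕ)) y := fun i => ⟨hb i, rfl⟩
      obtain ⟨a2, b2, e2, f2, g2⟩ := lX n x
      obtain ⟨a4, b4, e4, f4, g4⟩ := lY n y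
      have o' : ∀ {c : V K}, OV c 0 → LV c (-(n + 1 : ℕ)) 0 := by
        intro c hc i
        exact LC.ord ((hc i).mono (by push_cast; omega))
      have h1 : OV (a - (a2 + a4)) (-n) := by
        have l := la.sub (f2.add (o' g4))
        rw [add_zero, sub_self] at l
        intro i
        exact (l i).ord_succ.mono (by push_cast; omega)
      have h2 : OV (b - (b2 + b4)) (-n) := by
        have l := lb'.sub ((o' g2).add f4)
        rw [zero_add, sub_self] at l
        intro i
        exact (l i).ord_succ.mono (by push_cast; omega)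
      have h3 := ih _ _ h1 h2
      have h4 : iota a b = iota (a - (a2 + a4)) (b - (b2 + b4)) + (xs X n x + xs Y n y) := by
        rw [e2, e4, ← iota_add, ← iota_add]
        congr 1 <;> abel
      rw [h4]
      apply Submodule.add_mem
      · have hle : T4 ⊔ (Vs X n ⊔ Vs Y n) ≤ T4 ⊔ (Vs X (n + 1) ⊔ Vs Y (n + 1)) :=
          sup_le_sup le_rfl (sup_le_sup (Vs_mono X (Nat.le_succ n)) (Vs_mono Y (Nat.le_succ n)))
        exact hle h3
      · exact Submodule.mem_sup_right (Submodule.add_mem_sup (xs_mem X le_rfl x)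
          (xs_mem Y le_rfl y))
  refine ⟨?_, ?_, ?_⟩
  · intro U hU V' hV
    rw [← Ring.lie_def]
    exact LieSubalgebra.lie_mem _ hU hV
  · rw [Submodule.disjoint_def]
    intro u hT hu
    obtain ⟨n, hn⟩ := (hmem u).mp hu
    exact disj n u hn hT
  · apply le_antisymm
    · apply sup_le
      · intro u hu; exact hu.1
      · intro u hu
        obtain ⟨n, hn⟩ := (hmem u).mp hu
        obtain ⟨p, hp, r, hr, rfl⟩ := Submodule.mem_sup.mp hn
        obtain ⟨a, b, e1, -⟩ := poX n p hp
        obtain ⟨c, d, e2, -⟩ := poY n r hr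
        rw [e1, e2, ← iota_add]
        exact iota_skew _ _
    · intro u hu
      obtain ⟨a, b, rfl⟩ := exists_iota hu
      obtain ⟨n, hn⟩ : ∃ n : ℕ, OV a (-n) ∧ OV b (-n) := by
        choose n hn using fun i => exists_ord (a i)
        choose m hm using fun i => exists_ord (b i)
        refine ⟨((-(n 0)).toNat + (-(n 1)).toNat + (-(n 2)).toNat) +
          ((-(m 0)).toNat + (-(m 1)).toNat + (-(m 2)).toNat), fun i => ?_, fun i => ?_⟩
        · fin_cases i
          · exact (hn 0).mono (by push_cast; omega)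
          · exact (hn 1).mono (by push_cast; omega)
          · exact (hn 2).mono (by push_cast; omega)
        · fin_cases i
          · exact (hm 0).mono (by push_cast; omega)
          · exact (hm 1).mono (by push_cast; omega)
          · exact (hm 2).mono (by push_cast; omega)
      have h1 := surj n a b hn.1 hn.2
      have h2 : T4 ⊔ (Vs X n ⊔ Vs Y n) ≤ T4 ⊔
          (LieSubalgebra.lieSpan ℂ M4 (Set.range X ∪ Set.range Y)).toSubmodule :=
        sup_le_sup le_rfl (fun u hu => (hmem u).mpr ⟨n, hu⟩)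
      exact h2 h1

/-- Solutions of the equations give factoring subalgebras. -/
theorem Eqs.factoring {H W H' W' N N' : M K} {P Q A B A' B' : M ℂ}
    (h : Eqs H W H' W' P Q A B A' B') (hN : Frame N H) (hN' : Frame N' H') :
    Factoring (gen (Set.range (lm IO_iota N (mm N' W')) ∪
      Set.range (lm IO_iota (mm N W) N'))) := by
  obtain ⟨a, hp⟩ := h.pol
  obtain ⟨a', hp'⟩ := h.pol'
  have r3 := R3 IO_iota hp hN hN' h.e h.e' h.f h.st
  have r3' := R3 IO_iota.flip hp' hN' hN h.e' h.e h.f' h.st'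
  have tW' : ∀ i j, Ord (mm N' W' i j) 0 := fun i j =>
    ((hN'.lead.mm h.w') i j).1.mono (by norm_num)
  have tW : ∀ i j, Ord (mm N W i j) 0 := fun i j =>
    ((hN.lead.mm h.w) i j).1.mono (by norm_num)
  apply factoring_of
  · intro x
    rw [r3 x]
    exact Submodule.add_mem _ (xs_mem _ le_rfl _) (xs_mem (n := 0) _ (by norm_num) _)
  · intro x
    have := r3' x
    have h2 : lm IO_iota.flip N' (mm N W) = lm IO_iota (mm N W) N' := rfl
    rw [h2] at this
    rw [this]
    exact Submodule.add_mem _ (xs_mem _ le_rfl _) (xs_mem (n := 0) _ (by norm_num) _)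
  · intro x y
    rw [R2 IO_iota hN hN' h.e h.e' x y]
    exact Submodule.add_mem_sup (xs_mem (n := 0) _ (by norm_num) _)
      (xs_mem (n := 0) _ (by norm_num) _)
  · intro n x
    exact xs_lead IO_iota hN.lead tW' n x
  · intro n x
    obtain ⟨a, b, e1, e2, e3⟩ := xs_lead IO_iota.flip hN'.lead tW n x
    exact ⟨b, a, e1, e2, e3⟩

end Helper496
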