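import Pool.Agent.Helper496_So4.Sqrt
import Pool.Agent.Helper496_So4.Ext

/-!
The explicit families: auxiliary facts.
-/

set_option autoImplicit false

namespace Helper496

open Complex

theorem t_ne {t : K} (ht : LC t (-1) 1) : t ≠ 0 := ht.ne one_ne_zero

theorem t_inv {t : K} (ht : LC t (-1) 1) : LC t⁻¹ 1 1 :=
  (ht.inv one_ne_zero).congr (by norm_num) (by norm_num)

theorem LC.mono {f : K} {n : ℤ} {c : ℂ} (h : LC f n c) {m : ℤ} (hm : m < n) : LC f m 0 :=
  LC.ord (h.1.mono (by omega))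

theorem LM.mono {f : M K} {n : ℤ} {c : M ℂ} (h : LM f n c) {m : ℤ} (hm : m < n) : LM f m 0 :=
  fun i j => (h i j).mono hm

theorem tl {t : K} (ht : LC t (-1) 1) : LC (t - lam (-1)) 0 (cf t 0) := by
  have h1 : LC (t - lam (-1)) (-1) 0 := (ht.sub (LC.lam (-1))).congr rfl (by norm_num)
  have h2 := h1.ord_succ
  rw [neg_add_cancel] at h2
  refine ⟨h2, ?_⟩
  rw [cf_sub, cf_lam, if_neg (by norm_num), sub_zero]

theorem tcc {t : K} (ht : LC t (-1) 1) (a : ℂ) : LC (t - cc a) (-1) 1 :=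
  (ht.sub ((LC.cc a).mono (by norm_num : (-1 : ℤ) < 0))).congr rfl (by norm_num)

/-- The leading coefficient of `α + β / t`. -/
theorem ab_lead {t : K} (ht : LC t (-1) 1) (α β : ℂ) : LC (cc α + cc β / t) 0 α := by
  have h1 : LC (cc β / t) 1 β := by
    rw [div_eq_mul_inv]
    exact ((LC.cc β).mul (t_inv ht)).congr (by norm_num) (by ring)
  exact ((LC.cc α).add (h1.mono (by norm_num))).congr rfl (by ring)

/-! ### `H = t + A` -/

theorem lin_pol {t : K} (ht : LC t (-1) 1) {A : M ℂ} (hA : tp A = A) :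
    ∃ a, Pol (sc t + cM A) (A + sc a) := by
  refine ⟨cf t 0, ?_, ?_⟩
  · rw [tp_add, tp_sc, ← cM_tp, hA]
  · have e : sc t + cM A - sc (lam (-1)) = cM A + sc (t - lam (-1)) := by
      apply m_ext <;> simp <;> ring
    rw [e]
    exact (LM.cM A).add (LM.sc (tl ht))

theorem lin_RF (t : K) (A : M ℂ) : RF (sc t + cM A) A 0 := by
  intro x
  rw [add_sub_cancel_right, sc_mv, cr_smul_right, cr_self, smul_zero, mv_zero, cM_zero, zero_mv,
    cr_zero_right]

/-- The relation `(E)` for `H` and `W` linear. -/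
def RL (A P Q : M ℂ) : Prop := ∀ x y : V ℂ, mv A (cr x (mv P y)) = mv P (cr (mv Q x) y)

theorem RL.re {A P Q : M ℂ} (h : RL A P Q) {t : K} (ht : t ≠ 0) :
    RE (sc t + cM A) (t⁻¹ • cM P) P Q := by
  have hK : ∀ x y : V K, mv (cM A) (cr x (mv (cM P) y)) = mv (cM P) (cr (mv (cM Q) x) y) := by
    intro x y
    apply klin_ext (F := fun x => mv (cM A) (cr x (mv (cM P) y)))
      (G := fun x => mv (cM P) (cr (mv (cM Q) x) y))
    · intro r x z
      rw [cr_add_left, cr_smul_left, mv_add, mv_smul]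
    · intro r x z
      rw [mv_add, mv_smul, cr_add_left, cr_smul_left, mv_add, mv_smul]
    · rw [cr_zero_left, mv_zero, mv_zero, cr_zero_left, mv_zero]
    · intro i
      apply klin_ext (F := fun y => mv (cM A) (cr (cv (bas i)) (mv (cM P) y)))
        (G := fun y => mv (cM P) (cr (mv (cM Q) (cv (bas i))) y))
      · intro r x z
        rw [mv_add, mv_smul, cr_add_right, cr_smul_right, mv_add, mv_smul]
      · intro r x z
        rw [cr_add_right, cr_smul_right, mv_add, mv_smul]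
      · rw [mv_zero, cr_zero_right, mv_zero, cr_zero_right, mv_zero]
      · intro j
        rw [← cM_mv, ← cv_cr, ← cM_mv, h, cM_mv, cv_cr, cM_mv]
  intro x y
  rw [smul_mv, cr_smul_right, mv_smul, add_mv, sc_mv, smul_add, smul_smul, inv_mul_cancel₀ ht,
    one_smul, hK, smul_mv]

theorem lin_w {t : K} (ht : LC t (-1) 1) (P : M ℂ) : LM (t⁻¹ • cM P) 1 P :=
  (LM.smul (t_inv ht) (LM.cM P)).congr (by norm_num) (by rw [one_smul])

/-! ### `H = t + (α + β / t) v vᵀ` -/

theorem v_pol {t : K} (ht : LC t (-1) 1) (v : V ℂ) (α β : ℂ) :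
    ∃ a, Pol (sc t + (cc α + cc β / t) • op (cv v) (cv v)) (α • op v v + sc a) := by
  refine ⟨cf t 0, ?_, ?_⟩
  · rw [tp_add, tp_sc, tp_smul, tp_op]
  · have e : sc t + (cc α + cc β / t) • op (cv v) (cv v) - sc (lam (-1)) =
        (cc α + cc β / t) • op (cv v) (cv v) + sc (t - lam (-1)) := by
      apply m_ext <;> simp <;> ring
    rw [e, ← cM_op]
    exact ((LM.smul (ab_lead ht α β) (LM.cM _)).congr (by norm_num) rfl).add (LM.sc (tl ht))

theorem v_RF {t : K} (ht : t ≠ 0) (v : V ℂ) (α β : ℂ) :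
    RF (sc t + (cc α + cc β / t) • op (cv v) (cv v)) (α • op v v) (β • op v v) := by
  intro x
  have e : sc t + (cc α + cc β / t) • op (cv v) (cv v) - cM (α • op v v) =
      sc t + (cc β / t) • op (cv v) (cv v) := by
    rw [cM_smul, cM_op]
    apply m_ext <;> simp <;> ring
  have h1 : ∀ z : V K, dt (cv v) z = 0 → mv (sc t + (cc α + cc β / t) • op (cv v) (cv v)) z =
      t • z := by
    intro z hz
    rw [add_mv, sc_mv, smul_mv, op_mv, hz, zero_smul, smul_zero, add_zero]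
  have h2 : cr x (mv (sc t + (cc β / t) • op (cv v) (cv v)) x) =
      (cc β / t * dt (cv v) x) • cr x (cv v) := by
    rw [add_mv, sc_mv, smul_mv, op_mv, cr_add_right, cr_smul_right, cr_self, smul_zero, zero_add,
      cr_smul_right, cr_smul_right, smul_smul]
  have h3 : cr x (mv (cM (β • op v v)) x) = (cc β * dt (cv v) x) • cr x (cv v) := by
    rw [cM_smul, cM_op, smul_mv, op_mv, cr_smul_right, cr_smul_right, smul_smul]
  rw [e, h2, h3, mv_smul, h1 _ (dt_cr_self_right _ _), smul_smul]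
  congr 1
  field_simp

theorem v_lead {t h : K} {v : V ℂ} (hl : LM (sc t + h • op (cv v) (cv v)) (-1) 1) :
    LC t (-1) 1 := by
  by_cases hv : v = 0
  · have h1 := hl 0 0
    rw [hv, cv_zero] at h1
    simpa using h1
  · obtain ⟨w, hw⟩ : ∃ w, cr v w ≠ 0 := by
      by_contra hcon
      push Not at hcon
      exact hv (cr_all hcon)
    set x := cr v w with hx
    have h1 : mv (sc t + h • op (cv v) (cv v)) (cv x) = t • cv x := by
      rw [add_mv, sc_mv, smul_mv, op_mv, ← cc_dt, hx, dt_cr_self_left, map_zero, zero_smul,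
        smul_zero, add_zero]
    have h2 := hl.mv (LV.cv x)
    rw [h1, ← sc_one, sc_mv, one_smul, add_zero] at h2
    have key : ∀ i, x i ≠ 0 → LC t (-1) 1 := by
      intro i hi
      have h3 : LC (t * cc (x i)) (-1) (x i) := h2 i
      have h4 := h3.mul (LC.cc (x i)⁻¹)
      have h5 : t * cc (x i) * cc (x i)⁻¹ = t := by
        rw [mul_assoc, ← map_mul, mul_inv_cancel₀ hi, map_one, mul_one]
      rw [h5] at h4
      exact h4.congr (by norm_num) (mul_inv_cancel₀ hi)
    rcases v_ne hw with h | h | h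
    · exact key _ h
    · exact key _ h
    · exact key _ h

/-! ### `cof H = t² - B` -/

theorem r_pol {t : K} (ht : LC t (-1) 1) {H : M K} {B : M ℂ} (hs : tp H = H) (hl : LM H (-1) 1)
    (hc : cof H = sc (t ^ 2) - cM B) : ∃ a, Pol H (0 + sc a) := by
  have z1 : LM (H - sc (lam (-1))) (-1) 0 :=
    (hl.sub (LM.sc (LC.lam (-1)))).congr rfl (by rw [sc_one, sub_self])
  have z2 : LM (H - sc (lam (-1))) 0 (coefM (H - sc (lam (-1))) 0) := by
    intro i j
    have := (z1 i j).ord_succ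
    rw [neg_add_cancel] at this
    exact ⟨this, rfl⟩
  set Z := H - sc (lam (-1)) with hZ
  set C := coefM Z 0 with hC
  have hH : H = sc (lam (-1)) + Z := by rw [hZ]; abel
  have hZs : tp Z = Z := by rw [hZ, tp_sub, hs, tp_sc]
  obtain ⟨s1, s2, s3⟩ := sym3 hZs
  have e1 : cof H = sc (lam (-1) ^ 2) +
      lam (-1) • (sc (Z 0 0 + Z 1 1 + Z 2 2) - Z) + cof Z := by
    rw [hH]
    apply m_ext <;> simp [s1, s2, s3] <;> ring
  have e2 : lam (-1) • (sc (Z 0 0 + Z 1 1 + Z 2 2) - Z) =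
      sc ((t - lam (-1)) * (t + lam (-1))) - cM B - cof Z := by
    have h1 : lam (-1) • (sc (Z 0 0 + Z 1 1 + Z 2 2) - Z) =
        cof H - sc (lam (-1) ^ 2) - cof Z := by rw [e1]; abel
    rw [h1, hc]
    apply m_ext <;> simp <;> ring
  have l1 : LM (lam (-1) • (sc (Z 0 0 + Z 1 1 + Z 2 2) - Z)) (-1)
      (sc (C 0 0 + C 1 1 + C 2 2) - C) := by
    have h1 : LM (sc (Z 0 0 + Z 1 1 + Z 2 2)) 0 (sc (C 0 0 + C 1 1 + C 2 2)) :=
      LM.sc (((z2 0 0).add (z2 1 1)).add (z2 2 2))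
    exact (LM.smul (LC.lam (-1)) (h1.sub z2)).congr (by norm_num) (by rw [one_smul])
  have l2 : LM (sc ((t - lam (-1)) * (t + lam (-1))) - cM B - cof Z) (-1) (sc (2 * cf t 0)) := by
    have h1 : LC ((t - lam (-1)) * (t + lam (-1))) (-1) (2 * cf t 0) :=
      ((tl ht).mul (ht.add (LC.lam (-1)))).congr (by norm_num) (by ring)
    have h2 : LM (cM B) (-1) 0 := (LM.cM B).mono (by norm_num)
    have h3 : LM (cof Z) (-1) 0 := (z2.cof).mono (by norm_num)
    exact (((LM.sc h1).sub h2).sub h3).congr rfl (by rw [sub_zero, sub_zero])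
  rw [e2] at l1
  have h1 := l1.unique l2
  have h2 : C = sc (C 0 0 + C 1 1 + C 2 2 - 2 * cf t 0) := by
    have : C = sc (C 0 0 + C 1 1 + C 2 2) - sc (2 * cf t 0) := by rw [← h1]; abel
    conv_lhs => rw [this]
    apply m_ext <;> simp
  refine ⟨C 0 0 + C 1 1 + C 2 2 - 2 * cf t 0, hs, ?_⟩
  rw [zero_add, ← h2]
  exact z2

theorem r_RF {t : K} {H : M K} {B : M ℂ} (hs : tp H = H)
    (hc : cof H = sc (t ^ 2) - cM B) : RF H 0 B := by
  intro x
  rw [cM_zero, sub_zero, id5 hs, hc, sub_mv, sc_mv, cr_sub_left, cr_smul_left, cr_self, smul_zero,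
    zero_sub, ← cr_skew]

theorem r_lead {f : K} {H : M K} {B : M ℂ} (hl : LM H (-1) 1)
    (hc : cof H = sc f - cM B) : LC f (-2) 1 := by
  have h1 := hl.cof
  have h2 : sc f = cof H + cM B := by rw [hc]; abel
  have h3 : LM (sc f) (-2) 1 := by
    rw [h2]
    have h4 : cof (1 : M ℂ) = 1 := by rw [← sc_one, cof_sc]; norm_num
    rw [h4] at h1
    exact ((h1.congr (by norm_num : _ = (-2 : ℤ)) rfl).add
      ((LM.cM B).mono (by norm_num))).congr rfl (by rw [add_zero])
  exact h3 0 0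

/-- If `B` is zero then `H = t + A`. -/
theorem HA2 {H : M K} {A : M ℂ} (hp : ∃ a, Pol H (A + sc a)) (hF : RF H A 0) :
    ∃ t, LC t (-1) 1 ∧ H = sc t + cM A := by
  obtain ⟨a, hp⟩ := hp
  have hd : LC (det3 H) (-1 + (-1 + -1)) (det3 (1 : M ℂ)) := LC.det3 hp.lead'
  rw [det3_one] at hd
  have hdne : det3 H ≠ 0 := hd.ne one_ne_zero
  have h1 : ∀ x : V K, cr x (mv (H - cM A) x) = 0 := by
    intro x
    have h2 := hF x
    rw [cM_zero, zero_mv, cr_zero_right] at h2
    have h3 := congrArg (mv (cof H)) h2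
    rw [mv_zero, ← mm_mv] at h3
    have h4 := mm_cof_tp H
    rw [hp.sym] at h4
    rw [h4, sc_mv, smul_eq_zero] at h3
    exact h3.resolve_left hdne
  obtain ⟨t, ht⟩ := b0 h1
  have hH : H = sc t + cM A := by rw [← ht]; abel
  refine ⟨t, ?_, hH⟩
  have h5 : sc t = H - cM A := ht.symm
  have h6 : LM (sc t) (-1) 1 := by
    rw [h5]
    exact (hp.lead'.sub ((LM.cM A).mono (by norm_num))).congr rfl (by rw [sub_zero])
  exact h6 0 0

theorem HA3' {H : M K} {α β : ℂ} {v : V ℂ} (hp : ∃ a, Pol H (α • op v v + sc a))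
    (hF : RF H (α • op v v) (β • op v v)) :
    ∃ t, LC t (-1) 1 ∧ H = sc t + (cc α + cc β / t) • op (cv v) (cv v) := by
  obtain ⟨a, hp⟩ := hp
  have e1 : α • op v v + sc a = sc a + α • op v v := add_comm _ _
  have e2 : β • op v v = sc 0 + β • op v v := by rw [sc_zero, zero_add]
  have hF' : RF H (sc a + α • op v v) (sc 0 + β • op v v) := by
    rw [← e1, ← e2]
    exact (RF.shiftA a).mpr hF
  rw [e1] at hp
  obtain ⟨t, ht⟩ := HA3 hp hF'
  refine ⟨t, ?_, ht⟩
  have := hp.lead'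
  rw [ht] at this
  exact v_lead this

theorem HA1' {H : M K} {B : M ℂ} (hp : ∃ a, Pol H (0 + sc a)) (hF : RF H 0 B) :
    ∃ t, LC t (-1) 1 ∧ tp H = H ∧ LM H (-1) 1 ∧ cof H = sc (t ^ 2) - cM B := by
  obtain ⟨a, hp⟩ := hp
  have hF' : RF H (0 + sc a) B := (RF.shiftA a).mpr hF
  rw [zero_add] at hp hF'
  obtain ⟨f, hf⟩ := HA1 hp hF'
  obtain ⟨t, ht, hl⟩ := exists_sqrt (r_lead hp.lead' hf)
  exact ⟨t, hl, hp.sym, hp.lead', by rw [hf, ← ht, sq]⟩

end Helper496
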