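import Pool.Agent.Helper496_So4.Fam

/-!
The explicit families and the equations.
-/

set_option autoImplicit false

namespace Helper496

open Complex

/-- `a + b v^× + c v vᵀ`. -/
def axk {k : Type*} [CommRing k] (v : V k) (a b c : k) : M k := sc a + b • cm v + c • op v v

theorem cM_axm (v : V ℂ) (a b c : ℂ) : cM (axm v a b c) = axk (cv v) (cc a) (cc b) (cc c) := by
  apply m_ext <;> simp [axm, axk]

/-- The series `H` of one factor with parameter `t`. -/
inductive TH : K → M K → Prop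
  | t1 (t : K) (B : M ℂ) (H : M K) (hB : tp B = B) (hs : tp H = H) (hl : LM H (-1) 1)
      (hc : cof H = sc (t ^ 2) - cM B) : TH t H
  | t2 (t : K) (A : M ℂ) (hA : tp A = A) : TH t (sc t + cM A)
  | t3 (t : K) (v : V ℂ) (α β : ℂ) : TH t (sc t + (cc α + cc β / t) • op (cv v) (cv v))

/-- The families. -/
inductive Fam : K → K → M K → M K → M K → M K → Prop
  | dir (t s : K) (H H' : M K) (h : TH t H) (h' : TH s H') : Fam t s H 0 H' 0
  | f2 (t s : K) (a b : V ℂ) (m n α β α' β' : ℂ) :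
      Fam t s (sc t + (cc α + cc β / t) • op (cv a) (cv a)) ((cc m / t) • op (cv a) (cv b))
        (sc s + (cc α' + cc β' / s) • op (cv b) (cv b)) ((cc n / s) • op (cv b) (cv a))
  | f3 (t s : K) (a b : V ℂ) (α β : ℂ) (C : M ℂ) (hC : tp C = C) :
      Fam t s (sc t + (cc α + cc β / t) • op (cv a) (cv a)) ((cc 1 / t) • op (cv a) (cv b))
        (sc s + cM C) 0
  | f4 (t s : K) (T : M ℂ) (p q : ℂ) (H H' : M K) (hs : tp H = H) (hl : LM H (-1) 1)
      (hc : cof H = sc (t ^ 2) - cM (-(q ^ 2) • mm T (tp T))) (hs' : tp H' = H')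
      (hl' : LM H' (-1) 1) (hc' : cof H' = sc (s ^ 2) - cM (-(p ^ 2) • mm (tp T) T)) :
      Fam t s H ((cc p / t ^ 2) • (mm H (cM T) + cc q • cof (cM T)))
        H' ((cc q / s ^ 2) • (mm H' (tp (cM T)) + cc p • cof (tp (cM T))))
  | f5 (t s : K) (O : M ℂ) (v : V ℂ) (a b c d r D : ℂ) (hO : Rot O)
      (hD : D = b ^ 2 - a * (c + d) - dt v v * c * d) :
      Fam t s (sc t + (cc (c - d) + cc D / t) • op (cv v) (cv v))
        ((cc r / (t - cc (a + dt v v * d))) •
          mm (axk (cv v) (cc a) (cc b) (cc c + cc D / t)) (tp (cM O)))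
        (sc s + (cc (r * (d - c)) + cc (r ^ 2 * D) / s) • op (cv (mv O v)) (cv (mv O v)))
        ((s - cc (r * (a + dt v v * c)))⁻¹ •
          mm (cM O) (axk (cv v) (cc a) (-cc b) (cc d + cc (r * D) / s)))
  | f6 (t s : K) (Q A : M ℂ) (θ : ℂ) (hQ : det3 Q ≠ 0) (hA : tp A = A) (h : mm Q A = cof Q) :
      Fam t s (sc t + cM A) (t⁻¹ • cM (θ • tp (cof Q))) (sc s + cM (θ • mm Q (tp Q)))
        (s⁻¹ • cM Q)
  | f7 (t s : K) (n e x y z : V ℂ) (θ : ℂ) (Q : M ℂ) (he : cr n e = I • n)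
      (hQ : Q = op n (cr y z) + (I / 2) • op e (cr x y)) :
      Fam t s (sc t + cM ((1 / 2 : ℂ) • (op x y + op y x))) (t⁻¹ • cM (θ • tp (cof Q)))
        (sc s + cM (θ • mm Q (tp Q))) (s⁻¹ • cM Q)
  | f8 (t s : K) (n e n' e' : V ℂ) (a c α α' : ℂ) (he : cr n e = I • n)
      (he' : cr n' e' = I • n') :
      Fam t s (sc t + cM (α • op e e - c • (op n e + op e n))) (t⁻¹ • cM (a • op e n'))
        (sc s + cM (α' • op e' e' - a • (op n' e' + op e' n'))) (s⁻¹ • cM (c • op e' n))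
  | f9 (t s : K) (n e n' e' : V ℂ) (a c α α' : ℂ) (he : cr n e = I • n)
      (he' : cr n' e' = I • n') :
      Fam t s (sc t + cM (α • op e e)) (t⁻¹ • cM (a • op e n'))
        (sc s + cM (α' • op n' n' + a • (op n' e' + op e' n'))) (s⁻¹ • cM (c • op n' n))
  | swap {t s : K} {H W H' W' : M K} (h : Fam t s H W H' W') : Fam s t H' W' H W

/-! ### Auxiliary facts -/

theorem RS_zero (A B : M ℂ) : RS 0 A B := by
  intro x
  rw [cof_zero, zero_mv, cr_zero_right, zero_mv, zero_mv, add_zero]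

theorem RE_zero (H : M K) (Q : M ℂ) : RE H 0 0 Q := by
  intro x y
  rw [cM_zero, zero_mv, cr_zero_right, mv_zero, zero_mv, add_zero]

theorem RS_c {P : M ℂ} (h : cof P = 0) (C : M ℂ) : RS P C 0 := by
  intro x
  rw [h, zero_mv, cr_zero_right, zero_mv, cr_zero_right, mv_zero, add_zero]

theorem RS_q {Q A : M ℂ} (h : mm Q A = cof Q) : RS Q A 0 := by
  intro x
  rw [zero_mv, cr_zero_right, mv_zero, add_zero, ← id3, ← mm_mv, h]

theorem RS_r1 (a b : V ℂ) (n α β : ℂ) : RS (n • op b a) (α • op a a) (β • op a a) := by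
  intro x
  rw [cof_smul, cof_op, smul_zero, zero_mv, zero_mv, cr_zero_right, zero_add, smul_mv, smul_mv,
    op_mv, op_mv, cr_smul_right, cr_smul_right, dt_smul_right, dt_smul_right, dt_cr_self_right,
    mul_zero, mul_zero, zero_smul, smul_zero]

theorem RS_f4 (Q : M ℂ) : RS Q 0 (-(1 : ℂ) • mm (tp Q) Q) := by
  intro x
  rw [id4, zero_mv, cr_zero_right, mv_zero, zero_add, smul_mv, neg_one_smul, cr_neg_right, mv_neg]

theorem f2_RE {t : K} (ht : t ≠ 0) (a b : V ℂ) (m n α β : ℂ) :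
    RE (sc t + (cc α + cc β / t) • op (cv a) (cv a)) ((cc m / t) • op (cv a) (cv b))
      (m • op a b) (n • op b a) := by
  intro x y
  have h1 : mv (sc t + (cc α + cc β / t) • op (cv a) (cv a)) (cr x (cv a)) =
      t • cr x (cv a) := by
    rw [add_mv, sc_mv, smul_mv, op_mv, dt_cr_self_right, zero_smul, smul_zero, add_zero]
  have h2 : mv ((cc m / t) • op (cv a) (cv b)) (cr (mv (cM (n • op b a)) x) y) = 0 := by
    rw [cM_smul, cM_op, smul_mv, op_mv, smul_mv, op_mv, cr_smul_left, cr_smul_left,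
      dt_smul_right, dt_smul_right, dt_cr_self_left, mul_zero, mul_zero, zero_smul, smul_zero]
  rw [h2, add_zero, smul_mv, op_mv, cr_smul_right, cr_smul_right, mv_smul, mv_smul, h1, cM_smul,
    cM_op, smul_mv, op_mv, cr_smul_right, cr_smul_right, smul_smul, smul_smul, smul_smul]
  congr 1
  field_simp

theorem f2_w {t : K} (ht : LC t (-1) 1) (a b : V ℂ) (m : ℂ) :
    LM ((cc m / t) • op (cv a) (cv b)) 1 (m • op a b) := by
  rw [← cM_op, div_eq_mul_inv]
  exact (LM.smul ((LC.cc m).mul (t_inv ht)) (LM.cM _)).congr (by norm_num) (by rw [mul_one])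

theorem f4_RE {t : K} (ht : t ≠ 0) {H : M K} {T : M ℂ} {p q : ℂ} (hs : tp H = H)
    (hc : cof H = sc (t ^ 2) - cM (-(q ^ 2) • mm T (tp T))) :
    RE H ((cc p / t ^ 2) • (mm H (cM T) + cc q • cof (cM T))) (p • T) (q • tp T) := by
  intro x y
  set τ := cM T with hτ
  have h1 : mv H (cr x (mv H (mv τ y))) = t ^ 2 • cr x (mv τ y) +
      (cc q ^ 2) • mv (cof τ) (cr (mv (tp τ) x) y) := by
    rw [id5 hs, hc, sub_mv, cM_smul, map_neg, map_pow, cM_mm, cM_tp, ← hτ, neg_smul, neg_mv,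
      sub_neg_eq_add, sc_mv, smul_mv, mm_mv, cr_add_left, cr_smul_left, cr_smul_left, id3]
  have h2 : mv H (cr x (mv (cof τ) y)) = mv H (mv τ (cr (mv (tp τ) x) y)) := by
    rw [← id2]
  have ht2 : t ^ 2 ≠ 0 := pow_ne_zero 2 ht
  rw [smul_mv, add_mv, mm_mv, smul_mv, cr_smul_right, cr_add_right, cr_smul_right, mv_smul,
    mv_add, mv_smul, h1, h2, cM_smul, cM_smul, cM_tp, ← hτ, smul_mv, smul_mv, smul_mv, add_mv,
    mm_mv, smul_mv, cr_smul_right, cr_smul_left, mv_smul, mv_smul, mv_smul]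
  have e1 : (cc p / t ^ 2) • t ^ 2 • cr x (mv τ y) = cc p • cr x (mv τ y) := by
    rw [smul_smul, div_mul_cancel₀ _ ht2]
  rw [smul_add, smul_add, e1]
  module

theorem f4_w {t : K} (ht : LC t (-1) 1) {H : M K} (hl : LM H (-1) 1) (T : M ℂ) (p q : ℂ) :
    LM ((cc p / t ^ 2) • (mm H (cM T) + cc q • cof (cM T))) 1 (p • T) := by
  have h1 : LC (cc p / t ^ 2) 2 p := by
    rw [div_eq_mul_inv, ← inv_pow, sq]
    exact ((LC.cc p).mul ((t_inv ht).mul (t_inv ht))).congr (by norm_num) (by ring)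
  have h2 : LM (mm H (cM T)) (-1) T :=
    (hl.mm (LM.cM T)).congr (by norm_num) (by rw [← sc_one, sc_mm, one_smul])
  have h3 : LM (cc q • cof (cM T)) (-1) 0 := by
    rw [← cM_cof, ← cM_smul]
    exact (LM.cM _).mono (by norm_num)
  exact (LM.smul h1 (h2.add h3)).congr (by norm_num) (by rw [add_zero])

/-- The identity behind the fifth family. -/
theorem f5_id {k : Type*} [CommRing k] (v x y : V k) (a b c d r s D : k)
    (hD : D = b ^ 2 - a * (c + d) - dt v v * c * d) :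
    mv (sc (s ^ 2) + (r * (d - c) * s + r ^ 2 * D) • op v v)
      (cr x (mv (s • axk v a (-b) d + (r * D) • op v v) y)) =
    ((s - r * (a + dt v v * c)) * s ^ 2) • cr x (mv (axk v a (-b) d) y) +
      s • mv (s • axk v a (-b) d + (r * D) • op v v) (cr (mv (r • axk v a b c) x) y) := by
  subst hD
  apply v_ext <;> simp [axk, dt] <;> ring

end Helper496
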