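import Pool.Agent.Helper496_So4.Fam2

/-!
The explicit families solve the equations.
-/

set_option autoImplicit false

namespace Helper496

open Complex

theorem TH.eqs {t : K} {H : M K} (h : TH t H) (ht : LC t (-1) 1) :
    ∃ A B : M ℂ, (∃ a, Pol H (A + sc a)) ∧ RF H A B ∧ tp B = B := by
  cases h with
  | t1 B _ hB hs hl hc => exact ⟨0, B, r_pol ht hs hl hc, r_RF hs hc, hB⟩
  | t2 A hA => exact ⟨A, 0, lin_pol ht hA, lin_RF t A, tp_zero⟩
  | t3 v α β =>
    exact ⟨α • op v v, β • op v v, v_pol ht v α β, v_RF (t_ne ht) v α β, by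
      rw [tp_smul, tp_op]⟩

theorem eqs_lin {t s : K} (ht : LC t (-1) 1) (hs : LC s (-1) 1) {P Q A A' : M ℂ}
    (hA : tp A = A) (hA' : tp A' = A') (h : RL A P Q) (h' : RL A' Q P) (hst : RS Q A 0)
    (hst' : RS P A' 0) :
    Eqs (sc t + cM A) (t⁻¹ • cM P) (sc s + cM A') (s⁻¹ • cM Q) P Q A 0 A' 0 where
  pol := lin_pol ht hA
  pol' := lin_pol hs hA'
  w := lin_w ht P
  w' := lin_w hs Q
  e := h.re (t_ne ht)
  e' := h'.re (t_ne hs)
  f := lin_RF t A
  f' := lin_RF s A'
  sB := tp_zero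
  sB' := tp_zero
  st := hst
  st' := hst'

/-- The data for the sixth and seventh family. -/
theorem q_RL {Q A : M ℂ} (hA : tp A = A) (h : mm Q A = cof Q) (θ : ℂ) :
    RL A (θ • tp (cof Q)) Q := by
  intro x y
  have h1 := id2 (tp Q) x y
  rw [tp_tp] at h1
  have h2 : mm A (tp Q) = tp (cof Q) := by rw [← h, tp_mm, hA]
  rw [smul_mv, cr_smul_right, mv_smul, tp_cof, ← h1, ← mm_mv, h2, tp_cof, smul_mv]

theorem q_RL' (Q : M ℂ) (θ : ℂ) : RL (θ • mm Q (tp Q)) Q (θ • tp (cof Q)) := by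
  intro x y
  have h1 : mv (tp Q) (cr x (mv Q y)) = cr (mv (tp (cof Q)) x) y := by
    apply v_ext <;> simp <;> ring
  rw [smul_mv, mm_mv, h1, smul_mv, cr_smul_left, mv_smul]

theorem q_RS' (Q : M ℂ) (θ : ℂ) : RS (θ • tp (cof Q)) (θ • mm Q (tp Q)) 0 := by
  apply RS_q
  have h1 : cof (θ • tp (cof Q)) = (θ ^ 2 * det3 Q) • tp Q := by
    rw [cof_smul, ← tp_cof, cof_cof, tp_smul, smul_smul]
  have h2 : mm (tp (cof Q)) Q = sc (det3 Q) := by
    apply m_ext <;> simp [det3] <;> ring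
  rw [h1]
  have h3 : mm (θ • tp (cof Q)) (θ • mm Q (tp Q)) = θ ^ 2 • mm (mm (tp (cof Q)) Q) (tp Q) := by
    rw [mm_assoc]
    apply m_ext <;> simp <;> ring
  rw [h3, h2, sc_mm, smul_smul]

theorem f7_q {n e x y z : V ℂ} {Q : M ℂ} (he : cr n e = I • n)
    (hQ : Q = op n (cr y z) + (I / 2) • op e (cr x y)) :
    mm Q ((1 / 2 : ℂ) • (op x y + op y x)) = cof Q := by
  have h1 : cof Q = (I / 2) • op (cr n e) (cr (cr y z) (cr x y)) := by
    have e1 : Q = op n (cr y z) + op ((I / 2) • e) (cr x y) := by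
      rw [hQ]; apply m_ext <;> simp <;> ring
    rw [e1, cof_op_add]
    apply m_ext <;> simp <;> ring
  have h2 : cof Q = (-(1 / 2) : ℂ) • op n (cr (cr y z) (cr x y)) := by
    rw [h1, he]
    have hI : I / 2 * I = -(1 / 2) := by
      rw [div_mul_eq_mul_div, I_mul_I]; norm_num
    have e1 : op (I • n) (cr (cr y z) (cr x y)) = I • op n (cr (cr y z) (cr x y)) := by
      apply m_ext <;> simp <;> ring
    rw [e1, smul_smul, hI]
  rw [h2, hQ]
  apply m_ext <;> simp <;> ring

theorem f8_RL {n e n' e' : V ℂ} (a c α : ℂ) (he : cr n e = I • n) (he' : cr n' e' = I • n') :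
    RL (α • op e e - c • (op n e + op e n)) (a • op e n') (c • op e' n) := by
  intro x y
  have h1 : dt n (cr x e) = -(I * dt n x) := by
    rw [dt_cr_cyc, ← dt_smul_left, ← he, dt_comm (cr n e) x]
    simp [dt]; ring
  have h2 : dt n' (cr e' y) = I * dt n' y := by
    rw [← dt_smul_left, ← he']
    simp [dt]; ring
  rw [smul_mv, op_mv, cr_smul_right, cr_smul_right, mv_smul, mv_smul, sub_mv, smul_mv, smul_mv,
    add_mv, op_mv, op_mv, op_mv, dt_cr_self_right, h1, smul_mv, op_mv, smul_mv, op_mv,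
    cr_smul_left, cr_smul_left, dt_smul_right, dt_smul_right, h2]
  module

theorem smul_op_mv {k : Type*} [CommRing k] (a : k) (u w y : V k) :
    mv (a • op u w) y = (a * dt w y) • u := by
  rw [smul_mv, op_mv, smul_smul]

theorem f9_RL {n e n' : V ℂ} (a c α : ℂ) :
    RL (α • op e e) (a • op e n') (c • op n' n) := by
  intro x y
  rw [smul_op_mv a, smul_op_mv c, cr_smul_right, mv_smul, smul_op_mv, dt_cr_self_right, mul_zero,
    zero_smul, smul_zero, cr_smul_left, mv_smul, smul_op_mv, dt_cr_self_left, mul_zero, zero_smul,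
    smul_zero]

theorem f9_RL' {n e n' e' : V ℂ} (a c α' : ℂ) (he : cr n e = I • n) (he' : cr n' e' = I • n') :
    RL (α' • op n' n' + a • (op n' e' + op e' n')) (c • op n' n) (a • op e n') := by
  intro x y
  have h1 : dt e' (cr x n') = I * dt n' x := by
    rw [← dt_smul_left, ← he']
    simp [dt]; ring
  have h2 : dt n (cr e y) = I * dt n y := by
    rw [← dt_smul_left, ← he]
    simp [dt]; ring
  rw [smul_mv, op_mv, cr_smul_right, cr_smul_right, mv_smul, mv_smul, add_mv, smul_mv, smul_mv,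
    add_mv, op_mv, op_mv, op_mv, dt_cr_self_right, h1, smul_mv, op_mv, smul_mv, op_mv,
    cr_smul_left, cr_smul_left, dt_smul_right, dt_smul_right, h2]
  module

theorem f5_RS (v : V ℂ) (a b c d D : ℂ) (hD : D = b ^ 2 - a * (c + d) - dt v v * c * d)
    (x : V ℂ) : cr (mv (axm v a b c) x) (mv (cof (axm v a b c)) x) =
      (d - c) • dt v x • mv (cof (axm v a b c)) (cr x v) +
      D • dt v x • mv (axm v a b c) (cr x v) := by
  subst hD
  apply v_ext <;> simp [axm, dt] <;> ring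

end Helper496
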