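import Pool.Agent.Helper496_So4.Fam3

/-!
The fifth family.
-/

set_option autoImplicit false

namespace Helper496

open Complex

theorem f5_id' {k : Type*} [Field k] (v x y : V k) (a b c d r s D : k) (hs : s ≠ 0)
    (hD : D = b ^ 2 - a * (c + d) - dt v v * c * d) :
    mv (sc s + (r * (d - c) + r ^ 2 * D / s) • op v v)
      (cr x (mv (axk v a (-b) (d + r * D / s)) y)) =
    (s - r * (a + dt v v * c)) • cr x (mv (axk v a (-b) d) y) +
      mv (axk v a (-b) (d + r * D / s)) (cr (mv (r • axk v a b c) x) y) := by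
  have h := f5_id v x y a b c d r s D hD
  have e1 : sc (s ^ 2) + (r * (d - c) * s + r ^ 2 * D) • op v v =
      s • (sc s + (r * (d - c) + r ^ 2 * D / s) • op v v) := by
    rw [smul_add, smul_smul]
    congr 1
    · apply m_ext <;> simp <;> ring
    · congr 1
      field_simp
  have e2 : s • axk v a (-b) d + (r * D) • op v v = s • axk v a (-b) (d + r * D / s) := by
    have h1 : s • ((d + r * D / s) • op v v) = (s * d + r * D) • op v v := by
      rw [smul_smul]
      congr 1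
      field_simp
    simp only [axk, smul_add]
    rw [h1, add_smul, mul_smul s d]
    abel
  rw [e1, e2] at h
  simp only [smul_mv, cr_smul_right, mv_smul] at h
  have h2 : (s ^ 2) • mv (sc s + (r * (d - c) + r ^ 2 * D / s) • op v v)
      (cr x (mv (axk v a (-b) (d + r * D / s)) y)) =
      (s ^ 2) • ((s - r * (a + dt v v * c)) • cr x (mv (axk v a (-b) d) y) +
      mv (axk v a (-b) (d + r * D / s)) (cr (mv (r • axk v a b c) x) y)) := by
    rw [sq, ← smul_smul, smul_mv, ← sq]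
    rw [h]
    module
  exact smul_right_injective _ (pow_ne_zero 2 hs) h2

theorem cM_one_sc {O : M ℂ} (hO : Rot O) : mm (tp (cM O)) (cM O) = sc 1 := by
  rw [← cM_tp, ← cM_mm, hO.1, cM_sc, map_one]

theorem cM_one_sc' {O : M ℂ} (hO : Rot O) : mm (cM O) (tp (cM O)) = sc 1 := by
  rw [← cM_tp, ← cM_mm, hO.inv', cM_sc, map_one]

theorem cM_rot_cr {O : M ℂ} (hO : Rot O) (a b : V K) :
    cr (mv (cM O) a) (mv (cM O) b) = mv (cM O) (cr a b) := by
  rw [id3, ← cM_cof, hO.cof]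

theorem f5_RE {t : K} (ht : LC t (-1) 1) {O : M ℂ} (hO : Rot O) (v : V ℂ) (a b c d r D : ℂ)
    (hD : D = b ^ 2 - a * (c + d) - dt v v * c * d) :
    RE (sc t + (cc (c - d) + cc D / t) • op (cv v) (cv v))
        ((cc r / (t - cc (a + dt v v * d))) •
          mm (axk (cv v) (cc a) (cc b) (cc c + cc D / t)) (tp (cM O)))
        (r • mm (axm v a b c) (tp O)) (mm O (axm v a (-b) d)) := by
  intro x y
  set ρ := t - cc (a + dt v v * d) with hρ
  have hρ0 : ρ ≠ 0 := (tcc ht _).ne one_ne_zero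
  set z := mv (tp (cM O)) y with hz
  have hy : y = mv (cM O) z := by rw [hz, ← mm_mv, cM_one_sc' hO, sc_mv, one_smul]
  have hDK : cc D = (-cc b) ^ 2 - cc a * (cc d + cc c) - dt (cv v) (cv v) * cc d * cc c := by
    rw [hD, ← cc_dt]
    simp only [map_sub, map_mul, map_add, map_pow]
    ring
  have h := f5_id' (cv v) x z (cc a) (-cc b) (cc d) (cc c) 1 t (cc D) (t_ne ht) hDK
  simp only [one_mul, one_pow, neg_neg, one_smul] at h
  rw [← map_sub, ← cc_dt, ← map_mul, ← map_add, ← hρ] at h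
  have e1 : mv ((cc r / ρ) • mm (axk (cv v) (cc a) (cc b) (cc c + cc D / t)) (tp (cM O))) y =
      (cc r / ρ) • mv (axk (cv v) (cc a) (cc b) (cc c + cc D / t)) z := by
    rw [smul_mv, mm_mv]
  have e2 : cr (mv (cM (mm O (axm v a (-b) d))) x) y =
      mv (cM O) (cr (mv (axk (cv v) (cc a) (-cc b) (cc d)) x) z) := by
    rw [cM_mm, cM_axm, map_neg, mm_mv]
    conv_lhs => rw [hy]
    rw [cM_rot_cr hO]
  have e3 : mv (cM (r • mm (axm v a b c) (tp O))) y =
      cc r • mv (axk (cv v) (cc a) (cc b) (cc c)) z := by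
    rw [cM_smul, cM_mm, cM_axm, cM_tp, smul_mv, mm_mv]
  rw [e1, e2, e3, cr_smul_right, mv_smul, h, smul_mv, mm_mv, ← mm_mv (tp (cM O)), cM_one_sc hO,
    sc_mv, one_smul, smul_add, smul_smul, div_mul_cancel₀ _ hρ0, cr_smul_right]

theorem f5_RE' {s : K} (hs : LC s (-1) 1) {O : M ℂ} (hO : Rot O) (v : V ℂ) (a b c d r D : ℂ)
    (hD : D = b ^ 2 - a * (c + d) - dt v v * c * d) :
    RE (sc s + (cc (r * (d - c)) + cc (r ^ 2 * D) / s) • op (cv (mv O v)) (cv (mv O v)))
        ((s - cc (r * (a + dt v v * c)))⁻¹ •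
          mm (cM O) (axk (cv v) (cc a) (-cc b) (cc d + cc (r * D) / s)))
        (mm O (axm v a (-b) d)) (r • mm (axm v a b c) (tp O)) := by
  intro x y
  set ρ := s - cc (r * (a + dt v v * c)) with hρ
  have hρ0 : ρ ≠ 0 := (tcc hs _).ne one_ne_zero
  set z := mv (tp (cM O)) x with hz
  have hx : x = mv (cM O) z := by rw [hz, ← mm_mv, cM_one_sc' hO, sc_mv, one_smul]
  have hDK : cc D = cc b ^ 2 - cc a * (cc c + cc d) - dt (cv v) (cv v) * cc c * cc d := by
    rw [hD, ← cc_dt]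
    simp only [map_sub, map_mul, map_add, map_pow]
  have h := f5_id' (cv v) z y (cc a) (cc b) (cc c) (cc d) (cc r) s (cc D) (t_ne hs) hDK
  have k1 : cc r * (cc d - cc c) = cc (r * (d - c)) := by rw [map_mul, map_sub]
  have k2 : cc r ^ 2 * cc D = cc (r ^ 2 * D) := by rw [map_mul, map_pow]
  have k3 : cc r * (cc a + dt (cv v) (cv v) * cc c) = cc (r * (a + dt v v * c)) := by
    rw [map_mul, map_add, map_mul, cc_dt]
  have k4 : cc r * cc D = cc (r * D) := by rw [map_mul]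
  rw [k1, k2, k3, k4, ← hρ] at h
  have e0 : ∀ w, mv (sc s + (cc (r * (d - c)) + cc (r ^ 2 * D) / s) •
      op (cv (mv O v)) (cv (mv O v))) (mv (cM O) w) =
      mv (cM O) (mv (sc s + (cc (r * (d - c)) + cc (r ^ 2 * D) / s) • op (cv v) (cv v)) w) := by
    intro w
    have h1 : dt (cv (mv O v)) (mv (cM O) w) = dt (cv v) w := by
      rw [cM_mv, dt_mv_tp, ← mm_mv, cM_one_sc hO, sc_mv, one_smul]
    rw [add_mv, sc_mv, smul_op_mv, h1, add_mv, mv_add, sc_mv, smul_op_mv, mv_smul, mv_smul, cM_mv]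
  have e1 : mv (ρ⁻¹ • mm (cM O) (axk (cv v) (cc a) (-cc b) (cc d + cc (r * D) / s))) y =
      ρ⁻¹ • mv (cM O) (mv (axk (cv v) (cc a) (-cc b) (cc d + cc (r * D) / s)) y) := by
    rw [smul_mv, mm_mv]
  have e2 : cr (mv (cM (r • mm (axm v a b c) (tp O))) x) y =
      cr (mv (cc r • axk (cv v) (cc a) (cc b) (cc c)) z) y := by
    rw [cM_smul, cM_mm, cM_axm, cM_tp, smul_mv, mm_mv, ← hz, smul_mv]
  have e3 : cr x (mv (cM (mm O (axm v a (-b) d))) y) =
      mv (cM O) (cr z (mv (axk (cv v) (cc a) (-cc b) (cc d)) y)) := by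
    rw [cM_mm, cM_axm, map_neg, mm_mv]
    conv_lhs => rw [hx]
    rw [cM_rot_cr hO]
  rw [e1, e2, e3, cr_smul_right, mv_smul]
  conv_lhs => rw [hx]
  rw [cM_rot_cr hO, e0, h, mv_add, mv_smul, smul_add, smul_smul, inv_mul_cancel₀ hρ0, one_smul,
    smul_mv ρ⁻¹, mm_mv]

theorem axk_lead {v : V ℂ} {a b c : ℂ} {γ : K} (h : LC γ 0 c) :
    LM (axk (cv v) (cc a) (cc b) γ) 0 (axm v a b c) := by
  have e : axk (cv v) (cc a) (cc b) γ = cM (sc a) + cM (b • cm v) + γ • cM (op v v) := by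
    apply m_ext <;> simp [axk]
  rw [e]
  exact (((LM.cM _).add (LM.cM _)).add
    ((LM.smul h (LM.cM _)).congr (by norm_num) rfl)).congr rfl rfl

theorem f5_w {t : K} (ht : LC t (-1) 1) (O : M ℂ) (v : V ℂ) (a b c r D κ : ℂ) :
    LM ((cc r / (t - cc κ)) • mm (axk (cv v) (cc a) (cc b) (cc c + cc D / t)) (tp (cM O))) 1
      (r • mm (axm v a b c) (tp O)) := by
  have h1 : LC (cc r / (t - cc κ)) 1 r := by
    rw [div_eq_mul_inv]
    exact ((LC.cc r).mul (t_inv (tcc ht κ))).congr (by norm_num) (by ring)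
  have h2 := (axk_lead (v := v) (a := a) (b := b) (ab_lead ht c D)).mm ((LM.cM O).tp)
  exact (LM.smul h1 h2).congr (by norm_num) rfl

theorem f5_w' {s : K} (hs : LC s (-1) 1) (O : M ℂ) (v : V ℂ) (a b d D κ : ℂ) :
    LM ((s - cc κ)⁻¹ • mm (cM O) (axk (cv v) (cc a) (-cc b) (cc d + cc D / s))) 1
      (mm O (axm v a (-b) d)) := by
  rw [← map_neg]
  have h2 := (LM.cM O).mm (axk_lead (v := v) (a := a) (b := -b) (ab_lead hs d D))
  exact (LM.smul (t_inv (tcc hs κ)) h2).congr (by norm_num) (by rw [one_smul])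

theorem f5_RSQ {O : M ℂ} (hO : Rot O) (v : V ℂ) (a b c d D : ℂ)
    (hD : D = b ^ 2 - a * (c + d) - dt v v * c * d) :
    RS (mm O (axm v a (-b) d)) ((c - d) • op v v) (D • op v v) := by
  intro x
  have h := f5_RS v a (-b) d c D (by rw [hD]; ring) x
  rw [cof_mm, hO.cof, mm_mv, mm_mv, hO.cr, h, smul_op_mv, cr_smul_right, mv_smul, mm_mv,
    smul_op_mv, cr_smul_right, mv_smul, mm_mv, mv_add, mv_smul, mv_smul, mv_smul, mv_smul,
    smul_smul, smul_smul]

theorem f5_RSP {O : M ℂ} (hO : Rot O) (v : V ℂ) (a b c d r D : ℂ)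
    (hD : D = b ^ 2 - a * (c + d) - dt v v * c * d) :
    RS (r • mm (axm v a b c) (tp O)) ((r * (d - c)) • op (mv O v) (mv O v))
      ((r ^ 2 * D) • op (mv O v) (mv O v)) := by
  intro x
  set z := mv (tp O) x with hz
  have hx : x = mv O z := by rw [hz, hO.mv_tp]
  have h := f5_RS v a b c d D hD z
  have h1 : dt (mv O v) x = dt v z := by rw [hx, hO.dt]
  have h2 : cr x (mv O v) = mv O (cr z v) := by rw [hx, hO.cr]
  rw [cof_smul, cof_mm, hO.tp.cof, smul_mv, smul_mv, mm_mv, mm_mv, ← hz, cr_smul_left,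
    cr_smul_right, h, smul_op_mv, smul_op_mv, h1, cr_smul_right, cr_smul_right, h2]
  simp only [smul_mv, mm_mv, mv_smul, hO.tp_mv]
  module

end Helper496
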