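import Pool.Agent.Helper496_So4.Fam4

/-!
The explicit families are exactly the solutions of the equations.
-/

set_option autoImplicit false

namespace Helper496

open Complex

theorem Fam.eqs {t s : K} {H W H' W' : M K} (h : Fam t s H W H' W') :
    LC t (-1) 1 → LC s (-1) 1 → ∃ P Q A B A' B' : M ℂ, Eqs H W H' W' P Q A B A' B' := by
  induction h with
  | dir t s H H' h h' =>
    intro ht hs
    obtain ⟨A, B, h1, h2, h3⟩ := h.eqs ht
    obtain ⟨A', B', h1', h2', h3'⟩ := h'.eqs hs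
    exact ⟨0, 0, A, B, A', B', h1, h1', fun _ _ => LC.zero _, fun _ _ => LC.zero _,
      RE_zero _ _, RE_zero _ _, h2, h2', h3, h3', RS_zero _ _, RS_zero _ _⟩
  | f2 t s a b m n α β α' β' =>
    intro ht hs
    exact ⟨_, _, _, _, _, _, v_pol ht a α β, v_pol hs b α' β', f2_w ht a b m, f2_w hs b a n,
      f2_RE (t_ne ht) a b m n α β, f2_RE (t_ne hs) b a n m α' β', v_RF (t_ne ht) a α β,
      v_RF (t_ne hs) b α' β', by rw [tp_smul, tp_op], by rw [tp_smul, tp_op],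
      RS_r1 a b n α β, RS_r1 b a m α' β'⟩
  | f3 t s a b α β C hC =>
    intro ht hs
    have h0 : (0 : ℂ) • op b a = 0 := zero_smul _ _
    have e := f2_RE (t_ne ht) a b 1 0 α β
    rw [h0] at e
    refine ⟨(1 : ℂ) • op a b, 0, _, _, _, 0, v_pol ht a α β, lin_pol hs hC, f2_w ht a b 1,
      fun _ _ => LC.zero _, e, RE_zero _ _, v_RF (t_ne ht) a α β, lin_RF s C,
      by rw [tp_smul, tp_op], tp_zero, RS_zero _ _, RS_c ?_ C⟩
    rw [cof_smul, cof_op, smul_zero]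
  | f4 t s T p q H H' h1 h2 h3 h1' h2' h3' =>
    intro ht hs
    have e' := f4_RE (T := tp T) (p := q) (q := p) (t_ne hs) h1' (by rw [tp_tp]; exact h3')
    have w' := f4_w hs h2' (tp T) q p
    rw [tp_tp] at e'
    rw [cM_tp] at e' w'
    have st := RS_f4 (q • tp T)
    have st' := RS_f4 (p • T)
    have k1 : -(1 : ℂ) • mm (tp (q • tp T)) (q • tp T) = -(q ^ 2) • mm T (tp T) := by
      apply m_ext <;> simp <;> ring
    have k2 : -(1 : ℂ) • mm (tp (p • T)) (p • T) = -(p ^ 2) • mm (tp T) T := by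
      apply m_ext <;> simp <;> ring
    rw [k1] at st
    rw [k2] at st'
    exact ⟨p • T, q • tp T, 0, _, 0, _, r_pol ht h1 h2 h3, r_pol hs h1' h2' h3',
      f4_w ht h2 T p q, w', f4_RE (t_ne ht) h1 h3, e', r_RF h1 h3, r_RF h1' h3',
      by rw [tp_smul, tp_mm, tp_tp], by rw [tp_smul, tp_mm, tp_tp], st, st'⟩
  | f5 t s O v a b c d r D hO hD =>
    intro ht hs
    exact ⟨_, _, _, _, _, _, v_pol ht v (c - d) D, v_pol hs (mv O v) (r * (d - c)) (r ^ 2 * D),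
      f5_w ht O v a b c r D _, f5_w' hs O v a b d (r * D) _, f5_RE ht hO v a b c d r D hD,
      f5_RE' hs hO v a b c d r D hD, v_RF (t_ne ht) v _ _, v_RF (t_ne hs) _ _ _,
      by rw [tp_smul, tp_op], by rw [tp_smul, tp_op], f5_RSQ hO v a b c d D hD,
      f5_RSP hO v a b c d r D hD⟩
  | f6 t s Q A θ hQ hA h =>
    intro ht hs
    exact ⟨_, _, _, _, _, _, eqs_lin ht hs hA (by rw [tp_smul, tp_mm, tp_tp]) (q_RL hA h θ)
      (q_RL' Q θ) (RS_q h) (q_RS' Q θ)⟩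
  | f7 t s n e x y z θ Q he hQ =>
    intro ht hs
    have hA : tp ((1 / 2 : ℂ) • (op x y + op y x)) = (1 / 2 : ℂ) • (op x y + op y x) := by
      rw [tp_smul, tp_add, tp_op, tp_op, add_comm]
    have h := f7_q he hQ
    exact ⟨_, _, _, _, _, _, eqs_lin ht hs hA (by rw [tp_smul, tp_mm, tp_tp]) (q_RL hA h θ)
      (q_RL' Q θ) (RS_q h) (q_RS' Q θ)⟩
  | f8 t s n e n' e' a c α α' he he' =>
    intro ht hs
    have hs1 : ∀ (α c : ℂ) (n e : V ℂ), tp (α • op e e - c • (op n e + op e n)) =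
        α • op e e - c • (op n e + op e n) := by
      intro α c n e
      rw [tp_sub, tp_smul, tp_smul, tp_add, tp_op, tp_op, tp_op, add_comm (op e n)]
    exact ⟨_, _, _, _, _, _, eqs_lin ht hs (hs1 _ _ _ _) (hs1 _ _ _ _) (f8_RL a c α he he')
      (f8_RL c a α' he' he) (RS_c (by rw [cof_smul, cof_op, smul_zero]) _)
      (RS_c (by rw [cof_smul, cof_op, smul_zero]) _)⟩
  | f9 t s n e n' e' a c α α' he he' =>
    intro ht hs
    exact ⟨_, _, _, _, _, _, eqs_lin ht hs (by rw [tp_smul, tp_op])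
      (by rw [tp_add, tp_smul, tp_smul, tp_add, tp_op, tp_op, tp_op, add_comm (op e' n')])
      (f9_RL a c α) (f9_RL' a c α' he he') (RS_c (by rw [cof_smul, cof_op, smul_zero]) _)
      (RS_c (by rw [cof_smul, cof_op, smul_zero]) _)⟩
  | swap h ih =>
    intro hs ht
    obtain ⟨P, Q, A, B, A', B', he⟩ := ih ht hs
    exact ⟨_, _, _, _, _, _, he.swap⟩

/-- The type of `H`. -/
theorem TH_of {H : M K} {A B : M ℂ} (hp : ∃ a, Pol H (A + sc a)) (hF : RF H A B)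
    (hB : tp B = B) : ∃ t, LC t (-1) 1 ∧ TH t H := by
  obtain ⟨a, hp'⟩ := hp
  have hF' := (RF.shiftA (A := A) (B := B) (H := H) a).mpr hF
  rcases trich hp' hB hF' with ⟨c, hc⟩ | ⟨⟨b, hb⟩, t, ht⟩ | ⟨c, b, α, β, v, h1, h2, h3⟩
  · have hF0 : RF H 0 B := by
      have e : A + sc a = 0 + sc c := by rw [hc, zero_add]
      rw [e] at hF'
      exact (RF.shiftA c).mp hF'
    have hp0 : ∃ a, Pol H (0 + sc a) := ⟨c, by rw [zero_add, ← hc]; exact hp'⟩
    obtain ⟨t, ht, k1, k2, k3⟩ := HA1' hp0 hF0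
    exact ⟨t, ht, TH.t1 t B H hB k1 k2 k3⟩
  · refine ⟨t, ?_, ?_⟩
    · have h1 : LM (sc t) (-1) 1 := by
        have e : sc t = H - cM (A + sc a) := by rw [ht]; abel
        rw [e]
        exact (hp'.lead'.sub ((LM.cM _).mono (by norm_num))).congr rfl (by rw [sub_zero])
      exact h1 0 0
    · rw [ht]
      exact TH.t2 t _ hp'.symA
  · rw [h1] at hp' hF'
    rw [h3] at hF'
    have hp0 : ∃ a, Pol H (α • op v v + sc a) := ⟨c, by rw [add_comm]; exact hp'⟩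
    have hF0 : RF H (α • op v v) (β • op v v) := by
      rw [add_comm (sc c), add_comm (sc b)] at hF'
      exact (RF.shiftB b).mp ((RF.shiftA c).mp hF')
    obtain ⟨t, ht, hH⟩ := HA3' hp0 hF0
    refine ⟨t, ht, ?_⟩
    rw [hH]
    exact TH.t3 t v α β

theorem eqs_lin_fam {H W H' W' : M K} {P Q A A' : M ℂ}
    (h : Eqs H W H' W' P Q A 0 A' 0) (hr : RL A P Q) (hr' : RL A' Q P) :
    ∃ t s, LC t (-1) 1 ∧ LC s (-1) 1 ∧ H = sc t + cM A ∧ W = t⁻¹ • cM P ∧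
      H' = sc s + cM A' ∧ W' = s⁻¹ • cM Q := by
  obtain ⟨t, ht, hH⟩ := HA2 h.pol h.f
  obtain ⟨s, hs, hH'⟩ := HA2 h.pol' h.f'
  obtain ⟨a, hp⟩ := h.pol
  obtain ⟨a', hp'⟩ := h.pol'
  have he := h.e
  have he' := h.e'
  have w1 := hr.re (t_ne ht)
  have w2 := hr'.re (t_ne hs)
  rw [← hH] at w1
  rw [← hH'] at w2
  exact ⟨t, s, ht, hs, hH, W_unique hp he w1, hH', W_unique hp' he' w2⟩

theorem DL.fam {P Q A B A' B' : M ℂ} (hd : DL P Q A B A' B') :
    ∀ {H W H' W' : M K}, Eqs H W H' W' P Q A B A' B' →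
      ∃ t s, LC t (-1) 1 ∧ LC s (-1) 1 ∧ Fam t s H W H' W' := by
  induction hd with
  | dir A B A' B' =>
    intro H W H' W' h
    obtain ⟨t, ht, hH⟩ := TH_of h.pol h.f h.sB
    obtain ⟨s, hs, hH'⟩ := TH_of h.pol' h.f' h.sB'
    obtain ⟨a, hp⟩ := h.pol
    obtain ⟨a', hp'⟩ := h.pol'
    have hW : W = 0 := W_unique hp h.e (RE_zero _ _)
    have hW' : W' = 0 := W_unique hp' h.e' (RE_zero _ _)
    rw [hW, hW']
    exact ⟨t, s, ht, hs, Fam.dir t s H H' hH hH'⟩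
  | f2 a b m n α β α' β' =>
    intro H W H' W' h
    obtain ⟨t, ht, hH⟩ := HA3' h.pol h.f
    obtain ⟨s, hs, hH'⟩ := HA3' h.pol' h.f'
    obtain ⟨_, hp⟩ := h.pol
    obtain ⟨_, hp'⟩ := h.pol'
    have e := f2_RE (t_ne ht) a b m n α β
    have e' := f2_RE (t_ne hs) b a n m α' β'
    rw [← hH] at e
    rw [← hH'] at e'
    rw [W_unique hp h.e e, W_unique hp' h.e' e', hH, hH']
    exact ⟨t, s, ht, hs, Fam.f2 t s a b m n α β α' β'⟩
  | f3 a b α β C =>
    intro H W H' W' h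
    obtain ⟨t, ht, hH⟩ := HA3' h.pol h.f
    obtain ⟨s, hs, hH'⟩ := HA2 h.pol' h.f'
    obtain ⟨c, hp⟩ := h.pol
    obtain ⟨c', hp'⟩ := h.pol'
    have hC : tp C = C := by
      have := hp'.symA
      rw [tp_add, tp_sc] at this
      exact add_right_cancel this
    have e := f2_RE (t_ne ht) a b 1 0 α β
    rw [zero_smul, one_smul, ← hH] at e
    rw [W_unique hp h.e e, W_unique hp' h.e' (RE_zero _ _), hH, hH']
    exact ⟨t, s, ht, hs, Fam.f3 t s a b α β C hC⟩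
  | f4 T p q =>
    intro H W H' W' h
    obtain ⟨t, ht, h1, h2, h3⟩ := HA1' h.pol h.f
    obtain ⟨s, hs, h1', h2', h3'⟩ := HA1' h.pol' h.f'
    obtain ⟨c, hp⟩ := h.pol
    obtain ⟨c', hp'⟩ := h.pol'
    have e := f4_RE (T := T) (p := p) (q := q) (t_ne ht) h1 h3
    have e' := f4_RE (T := tp T) (p := q) (q := p) (t_ne hs) h1' (by rw [tp_tp]; exact h3')
    rw [tp_tp, cM_tp] at e'
    rw [W_unique hp h.e e, W_unique hp' h.e' e']
    exact ⟨t, s, ht, hs, Fam.f4 t s T p q H H' h1 h2 h3 h1' h2' h3'⟩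
  | f5 O v a b c d r hO =>
    intro H W H' W' h
    obtain ⟨t, ht, hH⟩ := HA3' h.pol h.f
    obtain ⟨s, hs, hH'⟩ := HA3' h.pol' h.f'
    obtain ⟨k, hp⟩ := h.pol
    obtain ⟨k', hp'⟩ := h.pol'
    have e := f5_RE ht hO v a b c d r _ rfl
    have e' := f5_RE' hs hO v a b c d r _ rfl
    rw [← hH] at e
    rw [← hH'] at e'
    rw [W_unique hp h.e e, W_unique hp' h.e' e', hH, hH']
    exact ⟨t, s, ht, hs, Fam.f5 t s O v a b c d r _ hO rfl⟩
  | f6 Q A θ hA hdet hQ =>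
    intro H W H' W' h
    obtain ⟨t, s, ht, hs, h1, h2, h3, h4⟩ := eqs_lin_fam h (q_RL hA hQ θ) (q_RL' Q θ)
    rw [h1, h2, h3, h4]
    exact ⟨t, s, ht, hs, Fam.f6 t s Q A θ hdet hA hQ⟩
  | f7 n e x y z θ hn he =>
    intro H W H' W' h
    have hA : tp ((1 / 2 : ℂ) • (op x y + op y x)) = (1 / 2 : ℂ) • (op x y + op y x) := by
      rw [tp_smul, tp_add, tp_op, tp_op, add_comm]
    obtain ⟨t, s, ht, hs, h1, h2, h3, h4⟩ := eqs_lin_fam h
      (q_RL hA (f7_q he rfl) θ) (q_RL' _ θ)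
    rw [h1, h2, h3, h4]
    exact ⟨t, s, ht, hs, Fam.f7 t s n e x y z θ _ he rfl⟩
  | f8 n e n' e' a c α α' hn he hn' he' =>
    intro H W H' W' h
    obtain ⟨t, s, ht, hs, h1, h2, h3, h4⟩ := eqs_lin_fam h (f8_RL a c α he he')
      (f8_RL c a α' he' he)
    rw [h1, h2, h3, h4]
    exact ⟨t, s, ht, hs, Fam.f8 t s n e n' e' a c α α' he he'⟩
  | f9 n e n' e' a c α α' hn he hn' he' =>
    intro H W H' W' h
    obtain ⟨t, s, ht, hs, h1, h2, h3, h4⟩ := eqs_lin_fam h (f9_RL a c α) (f9_RL' a c α' he he')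
    rw [h1, h2, h3, h4]
    exact ⟨t, s, ht, hs, Fam.f9 t s n e n' e' a c α α' he he'⟩
  | swap h ih =>
    intro H W H' W' h
    obtain ⟨t, s, ht, hs, hf⟩ := ih h.swap
    exact ⟨s, t, hs, ht, hf.swap⟩
  | shift a b a' b' h ih =>
    intro H W H' W' h
    exact ih h.unshift

/-- The solutions of the equations are the members of the families. -/
theorem Eqs.fam {H W H' W' : M K} {P Q A B A' B' : M ℂ} (h : Eqs H W H' W' P Q A B A' B') :
    ∃ t s, LC t (-1) 1 ∧ LC s (-1) 1 ∧ Fam t s H W H' W' :=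
  (classify h.dat).fam h

end Helper496
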