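import Pool.Agent.Helper496_So4.Fam5

/-!
The automorphisms `exp (ad g)`.
-/

set_option autoImplicit false

namespace Helper496

open Complex

attribute [local instance 100] LieRing.ofAssociativeRing

theorem gen_closed (S : Set M4) : Closed (gen S) := by
  intro X hX Y hY
  rw [gen, Submodule.mem_sInf] at *
  intro N hN
  exact hN.2 X (hX N hN) Y (hY N hN)

theorem subset_gen (S : Set M4) : S ⊆ gen S := by
  intro X hX
  rw [gen, SetLike.mem_coe, Submodule.mem_sInf]
  intro N hN
  exact hN.1 hX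

theorem gen_map (f : M4 →ₗ[ℂ] M4) (hf : ∀ X Y, f (X * Y - Y * X) = f X * f Y - f Y * f X)
    (S : Set M4) : (gen S).map f = gen (f '' S) := by
  apply le_antisymm
  · rw [Submodule.map_le_iff_le_comap]
    apply sInf_le
    constructor
    · intro x hx
      exact subset_gen _ ⟨x, hx, rfl⟩
    · intro X hX Y hY
      show f _ ∈ gen _
      rw [hf]
      exact gen_closed _ _ hX _ hY
  · apply sInf_le
    constructor
    · rintro _ ⟨x, hx, rfl⟩
      exact ⟨x, subset_gen _ hx, rfl⟩
    · rintro _ ⟨X, hX, rfl⟩ _ ⟨Y, hY, rfl⟩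
      exact ⟨X * Y - Y * X, gen_closed _ X hX Y hY, hf X Y⟩

/-- The subalgebra with given data. -/
noncomputable def Gn (N W N' W' : M K) : Submodule ℂ M4 :=
  gen (Set.range (lm IO_iota N (mm N' W')) ∪ Set.range (lm IO_iota (mm N W) N'))

/-- `ad g`. -/
noncomputable def adg (g X : M4) : M4 := g * X - X * g

/-- `Y = exp (ad g) X`, as a limit of finite sums. -/
def IsExpAd (g X Y : M4) : Prop :=
  ∀ N : ℤ, ∃ m₀ : ℕ, ∀ m ≥ m₀, ∀ i j,
    Ord ((Y - ∑ k ∈ Finset.range m, ((k.factorial : ℂ)⁻¹) • (adg g)^[k] X) i j) N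

/-- One application of an automorphism `exp (ad g)` with `g` in `λ so_4[[λ]]`. -/
def GaugeStep (U V : Submodule ℂ M4) : Prop :=
  ∃ g : M4, g.transpose = -g ∧ (∀ i j, Ord (g i j) 1) ∧ ∀ Y, Y ∈ V ↔ ∃ X ∈ U, IsExpAd g X Y

/-- Conjugation by `1 + g`. -/
noncomputable def cj (g : M4) : M4 →ₗ[ℂ] M4 where
  toFun X := (1 + g) * X * (1 - g)
  map_add' X Y := by rw [mul_add, add_mul]
  map_smul' c X := by
    rw [RingHom.id_apply, mul_smul_comm, smul_mul_assoc]

theorem cj_hom {g : M4} (hg : g * g = 0) (X Y : M4) :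
    cj g (X * Y - Y * X) = cj g X * cj g Y - cj g Y * cj g X := by
  have h1 : (1 - g) * (1 + g) = 1 := by
    rw [sub_mul, one_mul, mul_add, mul_one, hg]
    abel
  have h2 : ∀ X Y : M4, cj g X * cj g Y = cj g (X * Y) := by
    intro X Y
    show (1 + g) * X * (1 - g) * ((1 + g) * Y * (1 - g)) = (1 + g) * (X * Y) * (1 - g)
    have : (1 + g) * X * (1 - g) * ((1 + g) * Y * (1 - g)) =
        (1 + g) * X * ((1 - g) * (1 + g)) * Y * (1 - g) := by noncomm_ring
    rw [this, h1, mul_one, mul_assoc (1 + g) X Y]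
  rw [h2, h2, map_sub]

theorem adg2 {g : M4} (hg : g * g = 0) (X : M4) : adg g (adg g X) = -(g * X * g + g * X * g) := by
  have : adg g (adg g X) = g * g * X - (g * X * g + g * X * g) + X * (g * g) := by
    unfold adg; noncomm_ring
  rw [this, hg, zero_mul, mul_zero]
  abel

theorem adg3 {g : M4} (hg : g * g = 0) (X : M4) : adg g (adg g (adg g X)) = 0 := by
  have h : adg g (-(g * X * g + g * X * g)) = -(g * g * (X * g) + g * g * (X * g)) +
      (g * X * (g * g) + g * X * (g * g)) := by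
    unfold adg; noncomm_ring
  rw [congrArg (adg g) (adg2 hg X), h, hg, zero_mul, mul_zero]
  abel

theorem cj_eq {g : M4} (hg : g * g = 0) (X : M4) :
    cj g X = X + adg g X + ((2 : ℂ)⁻¹) • adg g (adg g X) := by
  rw [adg2 hg]
  have h1 : ((2 : ℂ)⁻¹) • -(g * X * g + g * X * g) = -(g * X * g) := by
    rw [← two_smul ℂ, ← smul_neg, smul_smul]
    norm_num
  rw [h1]
  show (1 + g) * X * (1 - g) = _
  unfold adg
  noncomm_ring

theorem adg_iter_zero (g : M4) (k : ℕ) : (adg g)^[k] 0 = 0 := by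
  induction k with
  | zero => rfl
  | succ k ih =>
    rw [Function.iterate_succ_apply', ih]
    unfold adg
    rw [mul_zero, zero_mul, sub_zero]

theorem exp_sum {g : M4} (hg : g * g = 0) (X : M4) (m : ℕ) :
    ∑ k ∈ Finset.range (3 + m), ((k.factorial : ℂ)⁻¹) • (adg g)^[k] X = cj g X := by
  rw [Finset.sum_range_add, cj_eq hg]
  have h1 : ∑ x ∈ Finset.range m, (((3 + x).factorial : ℂ)⁻¹) • (adg g)^[3 + x] X = 0 := by
    apply Finset.sum_eq_zero
    intro k _
    have h2 : (adg g)^[3 + k] X = 0 := by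
      rw [add_comm, Function.iterate_add_apply]
      have h3 : (adg g)^[3] X = 0 := adg3 hg X
      rw [h3, adg_iter_zero]
    rw [h2, smul_zero]
  rw [h1, add_zero, Finset.sum_range_succ, Finset.sum_range_succ, Finset.sum_range_succ]
  simp

theorem isExpAd_iff {g : M4} (hg : g * g = 0) (X Y : M4) : IsExpAd g X Y ↔ cj g X = Y := by
  constructor
  · intro h
    have h1 : ∀ i j, (Y - cj g X) i j = 0 := by
      intro i j
      apply eq_zero_of_ord
      intro N
      obtain ⟨m₀, hm⟩ := h N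
      have := hm (3 + m₀) (by omega) i j
      rwa [exp_sum hg] at this
    have h2 : Y - cj g X = 0 := m4_ext h1
    exact (sub_eq_zero.mp h2).symm
  · rintro rfl N
    refine ⟨3, fun m hm i j => ?_⟩
    obtain ⟨k, rfl⟩ := Nat.exists_eq_add_of_le hm
    rw [exp_sum hg, sub_self]
    exact Ord.zero N

theorem gaugeStep_cj {g : M4} (hg : g * g = 0) (hs : g.transpose = -g)
    (ho : ∀ i j, Ord (g i j) 1) (U : Submodule ℂ M4) : GaugeStep U (U.map (cj g)) := by
  refine ⟨g, hs, ho, fun Y => ?_⟩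
  rw [Submodule.mem_map]
  simp only [isExpAd_iff hg]

/-! ### Nilpotent elements -/

theorem iota_sq1 (x : V K) (hx : dt x x = 0) : iota x 0 * iota x 0 = 0 := by
  simp only [dt] at hx
  apply m4_ext
  intro i j
  fin_cases i <;> fin_cases j <;>
    simp [iota, Matrix.mul_apply, Fin.sum_univ_four] <;>
    first
    | linear_combination (-(1 / 4 : K)) * hx
    | ring

theorem iota_sq2 (x : V K) (hx : dt x x = 0) : iota 0 x * iota 0 x = 0 := by
  simp only [dt] at hx
  apply m4_ext
  intro i j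
  fin_cases i <;> fin_cases j <;>
    simp [iota, Matrix.mul_apply, Fin.sum_univ_four] <;>
    first
    | linear_combination (-(1 / 4 : K)) * hx
    | ring

end Helper496
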