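import Pool.Agent.Helper496_So4.Sqrt
import Pool.Agent.Helper496_So4.Eqs

/-!
Rotations congruent to `1` as products of unipotent rotations.
-/

set_option autoImplicit false

namespace Helper496

open Complex

/-- The rotation of a quaternion. -/
def rq {k : Type*} [CommRing k] (q0 : k) (q : V k) : M k :=
  sc (q0 ^ 2 - dt q q) + (2 * q0) • cm q + (2 : k) • op q q

theorem rq_mul {k : Type*} [CommRing k] (p0 q0 : k) (p q : V k) :
    mm (rq p0 p) (rq q0 q) = rq (p0 * q0 - dt p q) (p0 • q + q0 • p + cr p q) := by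
  apply m_ext <;> simp [rq, dt] <;> ring

/-- Rotations in terms of quaternions. -/
theorem rot_rq {k : Type*} [Field k] [CharZero k] {R : M k} (h1 : mm (tp R) R = sc 1)
    (h2 : cof R = R) {q0 w : k} (hq : q0 * q0 = (1 + (R 0 0 + R 1 1 + R 2 2)) / 4)
    (hw : 4 * q0 * w = 1) :
    R = rq q0 (w • ![R 2 1 - R 1 2, R 0 2 - R 2 0, R 1 0 - R 0 1]) := by
  have h3 : mm R (tp R) = sc 1 := by
    rw [mm_eq, sc_one] at h1 ⊢
    exact mul_eq_one_comm.mp h1
  have c : ∀ i j, mm (tp R) R i j = sc 1 i j := fun i j => by rw [h1]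
  have r : ∀ i j, mm R (tp R) i j = sc 1 i j := fun i j => by rw [h3]
  have m : ∀ i j, cof R i j = R i j := fun i j => by rw [h2]
  have c00 := c 0 0
  have c11 := c 1 1
  have c22 := c 2 2
  have c01 := c 0 1
  have c02 := c 0 2
  have c12 := c 1 2
  have r00 := r 0 0
  have r11 := r 1 1
  have r22 := r 2 2
  have r01 := r 0 1
  have r02 := r 0 2
  have r12 := r 1 2
  have m00 := m 0 0
  have m01 := m 0 1
  have m02 := m 0 2
  have m10 := m 1 0
  have m11 := m 1 1
  have m12 := m 1 2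
  have m20 := m 2 0
  have m21 := m 2 1
  have m22 := m 2 2
  simp only [mm_apply, tp_apply, sc_00, sc_01, sc_02, sc_11, sc_12, sc_22] at c00 c11 c22 c01 c02 c12 r00 r11 r22 r01 r02 r12
  simp only [cof_00, cof_01, cof_02, cof_10, cof_11, cof_12, cof_20, cof_21, cof_22] at m00 m01 m02 m10 m11 m12 m20 m21 m22
  clear c r m h1 h2 h3
  set a := R 0 0
  set b := R 0 1
  set d := R 0 2
  set e := R 1 0
  set f := R 1 1
  set g := R 1 2
  set x := R 2 0
  set y := R 2 1
  set z := R 2 2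
  have hw2 : 4 * (1 + (a + f + z)) * w ^ 2 = 1 := by
    have : 4 * (1 + (a + f + z)) * w ^ 2 = (4 * q0 * w) ^ 2 := by
      linear_combination (-16 * w ^ 2) * hq
    rw [this, hw, one_pow]
  have e00 : (y - g) ^ 2 - (d - x) ^ 2 - (e - b) ^ 2 = 4 * (1 + (a + f + z)) * a - (1 + (a + f + z)) ^ 2 := by
    linear_combination r11 + r22 - 2 * c00 - r00 + 2 * m00 - 2 * m11 - 2 * m22
  have e11 : (d - x) ^ 2 - (y - g) ^ 2 - (e - b) ^ 2 = 4 * (1 + (a + f + z)) * f - (1 + (a + f + z)) ^ 2 := by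
    linear_combination r22 + r00 - 2 * c11 - r11 + 2 * m11 - 2 * m00 - 2 * m22
  have e22 : (e - b) ^ 2 - (d - x) ^ 2 - (y - g) ^ 2 = 4 * (1 + (a + f + z)) * z - (1 + (a + f + z)) ^ 2 := by
    linear_combination r11 + r00 - 2 * c22 - r22 + 2 * m22 - 2 * m00 - 2 * m11
  have e01 : (y - g) * (d - x) = (1 + (a + f + z)) * (b + e) := by
    linear_combination m01 + m10 - c01 - r01
  have e02 : (y - g) * (e - b) = (1 + (a + f + z)) * (d + x) := by
    linear_combination m02 + m20 - c02 - r02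
  have e12 : (d - x) * (e - b) = (1 + (a + f + z)) * (g + y) := by
    linear_combination m12 + m21 - c12 - r12
  apply m_ext
  · simp [rq, dt]
    linear_combination (-a + (1 + (a + f + z)) / 4) * hw2 - hq - w ^ 2 * e00
  · simp [rq, dt]
    linear_combination (e - b) / 2 * hw - (b + e) / 2 * hw2 - 2 * w ^ 2 * e01
  · simp [rq, dt]
    linear_combination -(d - x) / 2 * hw - (d + x) / 2 * hw2 - 2 * w ^ 2 * e02
  · simp [rq, dt]
    linear_combination -(e - b) / 2 * hw - (b + e) / 2 * hw2 - 2 * w ^ 2 * e01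
  · simp [rq, dt]
    linear_combination (-f + (1 + (a + f + z)) / 4) * hw2 - hq - w ^ 2 * e11
  · simp [rq, dt]
    linear_combination (y - g) / 2 * hw - (g + y) / 2 * hw2 - 2 * w ^ 2 * e12
  · simp [rq, dt]
    linear_combination (d - x) / 2 * hw - (d + x) / 2 * hw2 - 2 * w ^ 2 * e02
  · simp [rq, dt]
    linear_combination -(y - g) / 2 * hw - (g + y) / 2 * hw2 - 2 * w ^ 2 * e12
  · simp [rq, dt]
    linear_combination (-z + (1 + (a + f + z)) / 4) * hw2 - hq - w ^ 2 * e22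

/-- The rotation `exp (a n^×)` for isotropic `n`. -/
noncomputable def rE (a : K) (n : V ℂ) : M K :=
  sc 1 + a • cm (cv n) + (a ^ 2 / 2) • op (cv n) (cv n)

theorem rE_rq (a : K) {n : V ℂ} (hn : dt n n = 0) : rE (2 * a) n = rq 1 (a • cv n) := by
  have h1 : dt (a • cv n) (a • cv n) = 0 := by
    rw [dt_smul_left, dt_smul_right, ← cc_dt, hn, map_zero, mul_zero, mul_zero]
  unfold rE rq
  rw [h1]
  apply m_ext <;> simp <;> ring

theorem iso1 : dt (![1, I, 0] : V ℂ) ![1, I, 0] = 0 := by simp [dt]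
theorem iso2 : dt (![1, -I, 0] : V ℂ) ![1, -I, 0] = 0 := by simp [dt]
theorem iso3 : dt (![I, 0, 1] : V ℂ) ![I, 0, 1] = 0 := by simp [dt]

theorem rot_decomp {R : M K} (h1 : mm (tp R) R = sc 1) (h2 : cof R = R) (hl : LM R 0 1) :
    ∃ a b c : K, Ord a 1 ∧ Ord b 1 ∧ Ord c 1 ∧
      R = mm (rE a ![1, I, 0]) (mm (rE b ![1, -I, 0]) (rE c ![I, 0, 1])) := by
  have one : LC (1 : K) 0 1 := by
    have := LC.cc 1
    rwa [map_one] at this
  have half : LC ((4 : K)⁻¹) 0 (1 / 4) := by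
    have : cc (1 / 4) = (4 : K)⁻¹ := by rw [one_div, map_inv₀, map_ofNat]
    rw [← this]; exact LC.cc _
  -- the scalar part
  have hf : LC ((1 + (R 0 0 + R 1 1 + R 2 2)) / 4) 0 1 := by
    have h3 := one.add (((hl 0 0).add (hl 1 1)).add (hl 2 2))
    rw [div_eq_mul_inv]
    exact (h3.mul half).congr (by norm_num) (by norm_num)
  obtain ⟨q0, hq, hq0⟩ := exists_sqrt0 hf
  have hq0ne : q0 ≠ 0 := hq0.ne one_ne_zero
  set w : K := (4 * q0)⁻¹ with hw
  have hw1 : 4 * q0 * w = 1 := by rw [hw]; field_simp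
  have hwo : Ord w 0 := by
    rw [hw, mul_inv]
    exact (half.mul (hq0.inv one_ne_zero)).1.mono (by norm_num)
  have hR := rot_rq h1 h2 hq hw1
  set q : V K := w • ![R 2 1 - R 1 2, R 0 2 - R 2 0, R 1 0 - R 0 1] with hqd
  have ho : ∀ i j, i ≠ j → Ord (R i j) 1 := by
    intro i j hij
    have := hl i j
    rw [Matrix.one_apply_ne hij] at this
    exact this.ord_succ
  have q0o : Ord (q 0) 1 := by
    have : Ord (w * (R 2 1 - R 1 2)) (0 + 1) :=
      hwo.mul ((ho 2 1 (by decide)).sub (ho 1 2 (by decide)))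
    exact this
  have q1o : Ord (q 1) 1 := by
    have : Ord (w * (R 0 2 - R 2 0)) (0 + 1) :=
      hwo.mul ((ho 0 2 (by decide)).sub (ho 2 0 (by decide)))
    exact this
  have q2o : Ord (q 2) 1 := by
    have : Ord (w * (R 1 0 - R 0 1)) (0 + 1) :=
      hwo.mul ((ho 1 0 (by decide)).sub (ho 0 1 (by decide)))
    exact this
  have hn : q0 ^ 2 + (q 0 ^ 2 + q 1 ^ 2 + q 2 ^ 2) = 1 := by
    have e0 : R 0 0 = rq q0 q 0 0 := congrFun (congrFun hR 0) 0
    have e1 : R 1 1 = rq q0 q 1 1 := congrFun (congrFun hR 1) 1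
    have e2 : R 2 2 = rq q0 q 2 2 := congrFun (congrFun hR 2) 2
    clear_value q
    simp [rq, dt] at e0 e1 e2
    linear_combination e0 + e1 + e2 + 4 * hq
  clear_value q
  set i := cc I with hi
  have hii : i * i = -1 := by rw [hi, ← map_mul, I_mul_I, map_neg, map_one]
  have io : Ord i 0 := Ord.cc I
  have hδ : LC (q0 - i * q 1 - q 0 + i * q 2) 0 1 := by
    have k1 : LC (i * q 1) 0 0 := LC.ord ((io.mul q1o).mono (by norm_num))
    have k2 : LC (q 0) 0 0 := LC.ord (q0o.mono (by norm_num))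
    have k3 : LC (i * q 2) 0 0 := LC.ord ((io.mul q2o).mono (by norm_num))
    exact (((hq0.sub k1).sub k2).add k3).congr rfl (by norm_num)
  set δ := q0 - i * q 1 - q 0 + i * q 2 with hδd
  have hδne : δ ≠ 0 := hδ.ne one_ne_zero
  have q01 : Ord (q0 - 1) 1 := by
    have := hq0.sub one
    rw [sub_self] at this
    exact this.ord_succ
  set c := (q 2 - i * (q0 - 1)) / δ with hcd
  have hc : δ * c = q 2 - i * (q0 - 1) := by rw [hcd, mul_div_cancel₀ _ hδne]
  have hco : Ord c 1 := by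
    rw [hcd, div_eq_mul_inv]
    have k1 : Ord (i * (q0 - 1)) 1 := (io.mul q01).mono (by norm_num)
    exact ((q2o.sub k1).mul ((hδ.inv one_ne_zero).1)).mono (by norm_num)
  clear_value c
  -- the remaining quaternion
  set p0 := q0 + c * (i * q 0 + q 2) with hp0
  set px := q 0 - c * (i * q0) - c * q 1 with hpx
  set py := q 1 - c * (i * q 2 - q 0) with hpy
  set pz := q 2 - c * q0 + c * (i * q 1) with hpz
  have ez : pz = i * (p0 - 1) := by
    rw [hpz, hp0]
    linear_combination (-1 : K) * hc - c * q 0 * hii + c * hδd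
  have en : p0 ^ 2 + (px ^ 2 + py ^ 2 + pz ^ 2) = 1 := by
    rw [hpz, hp0, hpx, hpy]
    linear_combination hn + c ^ 2 * (q0 ^ 2 + q 0 ^ 2 + q 1 ^ 2 + q 2 ^ 2) * hii
  have pxo : Ord px 1 := by
    have k1 : Ord (c * (i * q0)) 1 := (hco.mul (io.mul hq0.1)).mono (by norm_num)
    have k2 : Ord (c * q 1) 1 := (hco.mul q1o).mono (by norm_num)
    exact (q0o.sub k1).sub k2
  have pyo : Ord py 1 := by
    have k1 : Ord (c * (i * q 2 - q 0)) 1 :=
      (hco.mul ((io.mul q2o).sub (q0o.mono (by norm_num)))).mono (by norm_num)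
    exact q1o.sub k1
  have e2 : rq p0 ![px, py, pz] = mm (rq q0 q) (rq 1 ((-c) • cv ![I, 0, 1])) := by
    rw [rq_mul]
    congr 1
    · rw [hp0]; simp [dt, ← hi]; ring
    · apply v_ext
      · simp [← hi, hpx]; ring
      · simp [← hi, hpy]; ring
      · simp [← hi, hpz]; ring
  have e3 : mm (rq (1 : K) ((-c) • cv ![I, 0, 1])) (rq 1 (c • cv ![I, 0, 1])) = sc 1 := by
    rw [rq_mul]
    have k1 : (1 : K) * 1 - dt ((-c) • cv ![I, 0, 1]) (c • cv ![I, 0, 1]) = 1 := by
      rw [dt_smul_left, dt_smul_right, ← cc_dt, iso3, map_zero]; ring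
    have k2 : (1 : K) • (c • cv ![I, 0, 1]) + (1 : K) • ((-c) • cv ![I, 0, 1]) +
        cr ((-c) • cv ![I, 0, 1]) (c • cv ![I, 0, 1]) = 0 := by
      rw [cr_smul_left, cr_smul_right, cr_self]
      module
    rw [k1, k2]
    apply m_ext <;> simp [rq, dt]
  have e4 : rq p0 ![px, py, pz] = mm (rq 1 (((px - i * py) / 2) • cv ![1, I, 0]))
      (rq 1 (((px + i * py) / 2) • cv ![1, -I, 0])) := by
    rw [rq_mul]
    have hp : px ^ 2 + py ^ 2 = 2 - 2 * p0 := by
      have : pz ^ 2 = -(p0 - 1) ^ 2 := by rw [ez]; linear_combination (p0 - 1) ^ 2 * hii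
      linear_combination en - this
    clear_value px py pz p0
    congr 1
    · simp [dt, ← hi]
      linear_combination (1 / 2 : K) * hp + (-(px ^ 2) / 4 + py ^ 2 * (i * i - 2) / 4) * hii
    · apply v_ext
      · simp [← hi]; ring
      · simp [← hi]; linear_combination py * hii
      · simp [← hi]; rw [ez]
        linear_combination (i / 2) * hp - (i / 2 * py ^ 2) * hii
  refine ⟨2 * ((px - i * py) / 2), 2 * ((px + i * py) / 2), 2 * c, ?_, ?_, ?_, ?_⟩
  · rw [mul_div_cancel₀ _ (two_ne_zero : (2 : K) ≠ 0)]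
    exact pxo.sub ((io.mul pyo).mono (by norm_num))
  · rw [mul_div_cancel₀ _ (two_ne_zero : (2 : K) ≠ 0)]
    exact pxo.add ((io.mul pyo).mono (by norm_num))
  · rw [two_mul]; exact hco.add hco
  · rw [rE_rq _ iso1, rE_rq _ iso2, rE_rq _ iso3, ← mm_assoc, ← e4, e2, mm_assoc, e3, mm_sc,
      one_smul]
    exact hR

end Helper496
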