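import Pool.Agent.Helper496_So4.Gauge
import Pool.Agent.Helper496_So4.Rdec

/-!
Changing frames by automorphisms `exp (ad g)`.
-/

set_option autoImplicit false

namespace Helper496

open Complex

attribute [local instance 100] LieRing.ofAssociativeRing

theorem adg_iota (a b c d : V K) : adg (iota a b) (iota c d) = iota (cr a c) (cr b d) := by
  rw [← IO_iota.br, Ring.lie_def]
  rfl

theorem iota_add' (a b c d : V K) : iota a b + iota c d = iota (a + c) (b + d) :=
  (IO_iota.add a b c d).symm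

theorem iota_smul' (r : ℂ) (a b : V K) : r • iota a b = iota (cc r • a) (cc r • b) :=
  (IO_iota.smul r a b).symm

theorem rE_mv (a : K) {n : V ℂ} (hn : dt n n = 0) (x : V K) :
    mv (rE a n) x = x + cr (a • cv n) x + cc (2 : ℂ)⁻¹ • cr (a • cv n) (cr (a • cv n) x) := by
  have h1 : cr (a • cv n) (cr (a • cv n) x) = (a ^ 2 * dt (cv n) x) • cv n := by
    rw [cr_smul_left, cr_smul_left, cr_smul_right, cr_cr, ← cc_dt, hn, map_zero, zero_smul,
      sub_zero, smul_smul, smul_smul]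
    congr 1
    ring
  have h2 : cc (2 : ℂ)⁻¹ = (2 : K)⁻¹ := by rw [map_inv₀, map_ofNat]
  rw [h1, h2, rE, add_mv, add_mv, sc_mv, one_smul, smul_mv, cm_mv, smul_op_mv, cr_smul_left,
    smul_smul]
  congr 2
  ring

theorem dt_acv (a : K) {n : V ℂ} (hn : dt n n = 0) : dt (a • cv n) (a • cv n) = 0 := by
  rw [dt_smul_left, dt_smul_right, ← cc_dt, hn, map_zero, mul_zero, mul_zero]

theorem cj_iota1 (a : K) {n : V ℂ} (hn : dt n n = 0) (x y : V K) :
    cj (iota (a • cv n) 0) (iota x y) = iota (mv (rE a n) x) y := by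
  rw [cj_eq (iota_sq1 _ (dt_acv a hn)), adg_iota, adg_iota, iota_smul', iota_add', iota_add',
    ← rE_mv a hn, cr_zero_left, cr_zero_right, smul_zero, add_zero, add_zero]

theorem cj_iota2 (a : K) {n : V ℂ} (hn : dt n n = 0) (x y : V K) :
    cj (iota 0 (a • cv n)) (iota x y) = iota x (mv (rE a n) y) := by
  rw [cj_eq (iota_sq2 _ (dt_acv a hn)), adg_iota, adg_iota, iota_smul', iota_add', iota_add',
    ← rE_mv a hn, cr_zero_left, cr_zero_right, smul_zero, add_zero, add_zero]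

theorem iota_smulK (a : K) (x y : V K) : iota (a • x) (a • y) = a • iota x y := by
  apply m4_ext
  intro i j
  fin_cases i <;> fin_cases j <;> simp [iota] <;> ring

theorem ord_iota1 {a : K} (ha : Ord a 1) (n : V ℂ) (i j : Fin 4) :
    Ord (iota (a • cv n) 0 i j) 1 := by
  have h1 : iota (a • cv n) 0 = a • iota (cv n) 0 := by
    rw [← iota_smulK, smul_zero]
  rw [h1]
  have h2 : iota (cv n) 0 ∈ T4 := iota_mem_T4 (fun i => Ord.cc _) (fun i => Ord.zero _)
  exact (ha.mul (h2.2 i j)).mono (by norm_num)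

theorem ord_iota2 {a : K} (ha : Ord a 1) (n : V ℂ) (i j : Fin 4) :
    Ord (iota 0 (a • cv n) i j) 1 := by
  have h1 : iota 0 (a • cv n) = a • iota 0 (cv n) := by
    rw [← iota_smulK, smul_zero]
  rw [h1]
  have h2 : iota 0 (cv n) ∈ T4 := iota_mem_T4 (fun i => Ord.zero _) (fun i => Ord.cc _)
  exact (ha.mul (h2.2 i j)).mono (by norm_num)

theorem Gn_map1 (a : K) {n : V ℂ} (hn : dt n n = 0) (N W N' W' : M K) :
    (Gn N W N' W').map (cj (iota (a • cv n) 0)) = Gn (mm (rE a n) N) W N' W' := by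
  rw [Gn, gen_map _ (cj_hom (iota_sq1 _ (dt_acv a hn))), Set.image_union, ← Set.range_comp,
    ← Set.range_comp, Gn, mm_assoc]
  have e : ∀ A B : M K, (cj (iota (a • cv n) 0)) ∘ (lm IO_iota A B) =
      lm IO_iota (mm (rE a n) A) B := by
    intro A B
    funext z
    rw [Function.comp_apply, lm_apply, lm_apply, cj_iota1 a hn, mm_mv]
  rw [e, e]

theorem Gn_map2 (a : K) {n : V ℂ} (hn : dt n n = 0) (N W N' W' : M K) :
    (Gn N W N' W').map (cj (iota 0 (a • cv n))) = Gn N W (mm (rE a n) N') W' := by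
  rw [Gn, gen_map _ (cj_hom (iota_sq2 _ (dt_acv a hn))), Set.image_union, ← Set.range_comp,
    ← Set.range_comp, Gn, mm_assoc]
  have e : ∀ A B : M K, (cj (iota 0 (a • cv n))) ∘ (lm IO_iota A B) =
      lm IO_iota A (mm (rE a n) B) := by
    intro A B
    funext z
    rw [Function.comp_apply, lm_apply, lm_apply, cj_iota2 a hn, mm_mv]
  rw [e, e]

theorem Gn_step1 {a : K} (ha : Ord a 1) {n : V ℂ} (hn : dt n n = 0) (N W N' W' : M K) :
    GaugeStep (Gn N W N' W') (Gn (mm (rE a n) N) W N' W') := by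
  rw [← Gn_map1 a hn]
  exact gaugeStep_cj (iota_sq1 _ (dt_acv a hn)) (iota_skew _ _) (ord_iota1 ha n) _

theorem Gn_step2 {a : K} (ha : Ord a 1) {n : V ℂ} (hn : dt n n = 0) (N W N' W' : M K) :
    GaugeStep (Gn N W N' W') (Gn N W (mm (rE a n) N') W') := by
  rw [← Gn_map2 a hn]
  exact gaugeStep_cj (iota_sq2 _ (dt_acv a hn)) (iota_skew _ _) (ord_iota2 ha n) _

theorem Gn_rot1 {R : M K} (h1 : mm (tp R) R = sc 1) (h2 : cof R = R) (hl : LM R 0 1)
    (N W N' W' : M K) :
    Relation.ReflTransGen GaugeStep (Gn N W N' W') (Gn (mm R N) W N' W') := by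
  obtain ⟨a, b, c, ha, hb, hc, hR⟩ := rot_decomp h1 h2 hl
  have s1 := Gn_step1 hc iso3 N W N' W'
  have s2 := Gn_step1 hb iso2 (mm (rE c ![I, 0, 1]) N) W N' W'
  have s3 := Gn_step1 ha iso1 (mm (rE b ![1, -I, 0]) (mm (rE c ![I, 0, 1]) N)) W N' W'
  rw [hR, mm_assoc, mm_assoc]
  exact ((Relation.ReflTransGen.single s1).tail s2).tail s3

theorem Gn_rot2 {R : M K} (h1 : mm (tp R) R = sc 1) (h2 : cof R = R) (hl : LM R 0 1)
    (N W N' W' : M K) :
    Relation.ReflTransGen GaugeStep (Gn N W N' W') (Gn N W (mm R N') W') := by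
  obtain ⟨a, b, c, ha, hb, hc, hR⟩ := rot_decomp h1 h2 hl
  have s1 := Gn_step2 hc iso3 N W N' W'
  have s2 := Gn_step2 hb iso2 N W (mm (rE c ![I, 0, 1]) N') W'
  have s3 := Gn_step2 ha iso1 N W (mm (rE b ![1, -I, 0]) (mm (rE c ![I, 0, 1]) N')) W'
  rw [hR, mm_assoc, mm_assoc]
  exact ((Relation.ReflTransGen.single s1).tail s2).tail s3

theorem mm_cancel_left {N X Y : M K} (hN : det3 N ≠ 0) (h : mm N X = mm N Y) : X = Y := by
  have h1 : mm (tp (cof N)) (mm N X) = mm (tp (cof N)) (mm N Y) := by rw [h]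
  have h2 : mm (tp (cof N)) N = sc (det3 N) := by
    apply m_ext <;> simp [det3] <;> ring
  rw [← mm_assoc, ← mm_assoc, h2, sc_mm, sc_mm] at h1
  exact smul_right_injective _ hN h1

theorem mm_cancel_right {N X Y : M K} (hN : det3 N ≠ 0) (h : mm X N = mm Y N) : X = Y := by
  have h1 : mm (mm X N) (tp (cof N)) = mm (mm Y N) (tp (cof N)) := by rw [h]
  have h2 : mm N (tp (cof N)) = sc (det3 N) := by
    apply m_ext <;> simp [det3] <;> ring
  rw [mm_assoc, mm_assoc, h2, mm_sc, mm_sc] at h1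
  exact smul_right_injective _ hN h1

/-- The rotation between a frame and the symmetric frame. -/
theorem frame_rot {N H S : M K} (hN : mm (tp N) N = cof H) (hl : LM N (-1) 1)
    (hS : tp S = S) (hSS : mm S S = cof H) (hSl : LM S (-1) 1) :
    ∃ R, mm (tp R) R = sc 1 ∧ cof R = R ∧ LM R 0 1 ∧ mm R N = S := by
  have hd : LC (det3 N) (-1 + (-1 + -1)) (det3 (1 : M ℂ)) := LC.det3 hl
  rw [det3_one] at hd
  have hdne : det3 N ≠ 0 := hd.ne one_ne_zero
  set R := (det3 N)⁻¹ • mm S (tp (cof N)) with hR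
  have h1 : mm R N = S := by
    have h2 : mm (tp (cof N)) N = sc (det3 N) := by
      apply m_ext <;> simp [det3] <;> ring
    have h3 : mm R N = (det3 N)⁻¹ • mm S (mm (tp (cof N)) N) := by
      rw [hR, ← mm_assoc]
      apply m_ext <;> simp <;> ring
    rw [h3, h2, mm_sc, smul_smul, inv_mul_cancel₀ hdne, one_smul]
  have h2 : mm (tp R) R = sc 1 := by
    have h3 : mm (tp N) (mm (mm (tp R) R) N) = mm (tp N) (mm (sc 1) N) := by
      rw [mm_assoc, h1, ← mm_assoc, ← tp_mm, h1, hS, hSS, sc_mm, one_smul, hN]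
    have h4 := mm_cancel_left (by rw [det3_tp]; exact hdne) h3
    exact mm_cancel_right hdne h4
  have h3 : LM R 0 1 := by
    have k1 : LC (det3 N)⁻¹ 3 1 := (hd.inv one_ne_zero).congr (by norm_num) (by norm_num)
    have k2 := hSl.mm hl.cof.tp
    have k3 : mm (1 : M ℂ) (tp (cof 1)) = 1 := by
      rw [← sc_one, cof_sc, tp_sc, sc_mm]
      norm_num
    rw [k3] at k2
    exact (LM.smul k1 k2).congr (by norm_num) (by rw [one_smul])
  have h4 : det3 R = 1 := by
    have k1 : (det3 R - 1) * (det3 R + 1) = 0 := by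
      have := congrArg det3 h2
      rw [det3_mm, det3_tp, det3_sc] at this
      linear_combination this
    have k2 : LC (det3 R) 0 1 := by
      have := LC.det3 h3
      rw [det3_one] at this
      exact this.congr (by norm_num) rfl
    have one : LC (1 : K) 0 1 := by
      have := LC.cc 1
      rwa [map_one] at this
    have k3 : det3 R + 1 ≠ 0 := (k2.add one).ne (by norm_num)
    exact sub_eq_zero.mp ((mul_eq_zero.mp k1).resolve_right k3)
  refine ⟨R, h2, ?_, h3, h1⟩
  have k1 := mm_tp_cof R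
  rw [h4, ← h2] at k1
  exact mm_cancel_left (by rw [det3_tp, h4]; exact one_ne_zero) k1

theorem Frame.gauge1 {N H S : M K} (hN : Frame N H) (hS : tp S = S) (hSS : mm S S = cof H)
    (hSl : LM S (-1) 1) (W N' W' : M K) :
    Relation.ReflTransGen GaugeStep (Gn N W N' W') (Gn S W N' W') := by
  obtain ⟨R, h1, h2, h3, h4⟩ := frame_rot hN.gram hN.lead hS hSS hSl
  rw [← h4]
  exact Gn_rot1 h1 h2 h3 N W N' W'

theorem Frame.gauge2 {N' H' S : M K} (hN : Frame N' H') (hS : tp S = S) (hSS : mm S S = cof H')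
    (hSl : LM S (-1) 1) (N W W' : M K) :
    Relation.ReflTransGen GaugeStep (Gn N W N' W') (Gn N W S W') := by
  obtain ⟨R, h1, h2, h3, h4⟩ := frame_rot hN.gram hN.lead hS hSS hSl
  rw [← h4]
  exact Gn_rot2 h1 h2 h3 N W N' W'

end Helper496
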