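import Pool.Agent.Helper496_So4.Core

/-!
Linear algebra lemmas in dimension three.
-/

set_option autoImplicit false

namespace Helper496

variable {k : Type*} [Field k]

theorem v_ne {a : V k} (h : a ≠ 0) : a 0 ≠ 0 ∨ a 1 ≠ 0 ∨ a 2 ≠ 0 := by
  by_contra hc
  push Not at hc
  exact h (v_ext hc.1 hc.2.1 hc.2.2)

theorem par {r s : V k} (hr : r ≠ 0) (h : cr r s = 0) : ∃ c : k, s = c • r := by
  have h0 := congrFun h 0
  have h1 := congrFun h 1
  have h2 := congrFun h 2
  simp at h0 h1 h2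
  rcases v_ne hr with hr | hr | hr
  · refine ⟨s 0 / r 0, v_ext ?_ ?_ ?_⟩
    · simp; field_simp
    · simp; field_simp; linear_combination h2
    · simp; field_simp; linear_combination -h1
  · refine ⟨s 1 / r 1, v_ext ?_ ?_ ?_⟩
    · simp; field_simp; linear_combination -h2
    · simp; field_simp
    · simp; field_simp; linear_combination h0
  · refine ⟨s 2 / r 2, v_ext ?_ ?_ ?_⟩
    · simp; field_simp; linear_combination h1
    · simp; field_simp; linear_combination -h0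
    · simp; field_simp

theorem perp_cr {y m : V k} (hy : y ≠ 0) (h : dt y m = 0) : ∃ z, m = cr y z := by
  simp only [dt] at h
  rcases v_ne hy with hr | hr | hr
  · refine ⟨![0, m 2 / y 0, -(m 1) / y 0], v_ext ?_ ?_ ?_⟩
    · simp; field_simp; linear_combination h
    · simp; field_simp
    · simp; field_simp
  · refine ⟨![-(m 2) / y 1, 0, m 0 / y 1], v_ext ?_ ?_ ?_⟩
    · simp; field_simp
    · simp; field_simp; linear_combination h
    · simp; field_simp
  · refine ⟨![m 1 / y 2, -(m 0) / y 2, 0], v_ext ?_ ?_ ?_⟩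
    · simp; field_simp
    · simp; field_simp
    · simp; field_simp; linear_combination h

theorem exists_dt {u : V k} (hu : u ≠ 0) : ∃ x, dt u x = 1 := by
  rcases v_ne hu with hr | hr | hr
  · exact ⟨![1 / u 0, 0, 0], by simp [dt]; field_simp⟩
  · exact ⟨![0, 1 / u 1, 0], by simp [dt]; field_simp⟩
  · exact ⟨![0, 0, 1 / u 2], by simp [dt]; field_simp⟩

theorem lf2 {u w : V k} (hu : u ≠ 0) (hw : w ≠ 0) : ∃ x, dt u x ≠ 0 ∧ dt w x ≠ 0 := by
  obtain ⟨x, hx⟩ := exists_dt hu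
  obtain ⟨y, hy⟩ := exists_dt hw
  by_cases h1 : dt w x = 0
  · by_cases h2 : dt u y = 0
    · refine ⟨x + y, ?_, ?_⟩
      · rw [dt_add_right, hx, h2, add_zero]; exact one_ne_zero
      · rw [dt_add_right, hy, h1, zero_add]; exact one_ne_zero
    · exact ⟨y, h2, by rw [hy]; exact one_ne_zero⟩
  · exact ⟨x, by rw [hx]; exact one_ne_zero, h1⟩

/-- Columns. -/
def col (A : M k) (j : Fin 3) : V k := ![A 0 j, A 1 j, A 2 j]
/-- Rows. -/
def row (A : M k) (i : Fin 3) : V k := ![A i 0, A i 1, A i 2]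

omit [Field k] in
theorem m_ext_col {A B : M k} (h : ∀ j, col A j = col B j) : A = B := by
  have e : ∀ j, A 0 j = B 0 j ∧ A 1 j = B 1 j ∧ A 2 j = B 2 j := fun j =>
    ⟨congrFun (h j) 0, congrFun (h j) 1, congrFun (h j) 2⟩
  exact m_ext (e 0).1 (e 1).1 (e 2).1 (e 0).2.1 (e 1).2.1 (e 2).2.1 (e 0).2.2 (e 1).2.2 (e 2).2.2

theorem b1v {r1 r2 r3 s1 s2 s3 : V k} (h11 : cr r1 s1 = 0) (h22 : cr r2 s2 = 0)
    (h12 : cr r1 s2 + cr r2 s1 = 0) (h13 : cr r1 s3 + cr r3 s1 = 0)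
    (h23 : cr r2 s3 + cr r3 s2 = 0) (h : cr r1 r2 ≠ 0) :
    ∃ c : k, s1 = c • r1 ∧ s2 = c • r2 ∧ s3 = c • r3 := by
  have hr1 : r1 ≠ 0 := by rintro rfl; exact h (cr_zero_left _)
  have hr2 : r2 ≠ 0 := by rintro rfl; exact h (cr_zero_right _)
  obtain ⟨c, rfl⟩ := par hr1 h11
  obtain ⟨d, rfl⟩ := par hr2 h22
  have hd : d = c := by
    rw [cr_smul_right, cr_smul_right, cr_skew r2 r1, smul_neg, ← sub_eq_add_neg, ← sub_smul] at h12
    exact sub_eq_zero.mp ((smul_eq_zero.mp h12).resolve_right h)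
  subst hd
  have hw1 : cr r1 (s3 - d • r3) = 0 := by
    rw [cr_sub_right, cr_smul_right, ← h13, cr_smul_right, cr_skew r3 r1]; module
  have hw2 : cr r2 (s3 - d • r3) = 0 := by
    rw [cr_sub_right, cr_smul_right, ← h23, cr_smul_right, cr_skew r3 r2]; module
  obtain ⟨e, he⟩ := par hr1 hw1
  rw [he, cr_smul_right, cr_skew, smul_neg, neg_eq_zero] at hw2
  have he0 := (smul_eq_zero.mp hw2).resolve_right h
  rw [he0, zero_smul, sub_eq_zero] at he
  exact ⟨d, rfl, rfl, he⟩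

theorem mv_col (A : M k) (x : V k) : mv A x = x 0 • col A 0 + x 1 • col A 1 + x 2 • col A 2 := by
  apply v_ext <;> simp [col] <;> ring

theorem cof_ne {A : M k} (h : cof A ≠ 0) : cr (col A 0) (col A 1) ≠ 0 ∨
    cr (col A 1) (col A 2) ≠ 0 ∨ cr (col A 2) (col A 0) ≠ 0 := by
  by_contra hc
  push Not at hc
  obtain ⟨h1, h2, h3⟩ := hc
  apply h
  have a0 := congrFun h1 0
  have a1 := congrFun h1 1
  have a2 := congrFun h1 2
  have b0 := congrFun h2 0
  have b1 := congrFun h2 1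
  have b2 := congrFun h2 2
  have c0 := congrFun h3 0
  have c1 := congrFun h3 1
  have c2 := congrFun h3 2
  simp [col] at a0 a1 a2 b0 b1 b2 c0 c1 c2
  apply m_ext <;> simp
  · linear_combination b0
  · linear_combination c0
  · linear_combination a0
  · linear_combination b1
  · linear_combination c1
  · linear_combination a1
  · linear_combination b2
  · linear_combination c2
  · linear_combination a2

/-- If `R x × S x = 0` for all `x` and `R` has rank at least two, `S` is a multiple of `R`. -/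
theorem b1 {A B : M k} (hA : cof A ≠ 0) (h : ∀ x, cr (mv A x) (mv B x) = 0) :
    ∃ c : k, B = c • A := by
  have e0 : ∀ A : M k, mv A ![1, 0, 0] = col A 0 := by intro A; rw [mv_col]; simp
  have e1 : ∀ A : M k, mv A ![0, 1, 0] = col A 1 := by intro A; rw [mv_col]; simp
  have e2 : ∀ A : M k, mv A ![0, 0, 1] = col A 2 := by intro A; rw [mv_col]; simp
  have f01 : ∀ A : M k, mv A ![1, 1, 0] = col A 0 + col A 1 := by intro A; rw [mv_col]; simp
  have f02 : ∀ A : M k, mv A ![1, 0, 1] = col A 0 + col A 2 := by intro A; rw [mv_col]; simp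
  have f12 : ∀ A : M k, mv A ![0, 1, 1] = col A 1 + col A 2 := by intro A; rw [mv_col]; simp
  have h00 := h ![1, 0, 0]
  have h11 := h ![0, 1, 0]
  have h22 := h ![0, 0, 1]
  have h01 := h ![1, 1, 0]
  have h02 := h ![1, 0, 1]
  have h12 := h ![0, 1, 1]
  rw [e0, e0] at h00
  rw [e1, e1] at h11
  rw [e2, e2] at h22
  rw [f01, f01, cr_add_left, cr_add_right, cr_add_right, h00, h11, zero_add, add_zero] at h01
  rw [f02, f02, cr_add_left, cr_add_right, cr_add_right, h00, h22, zero_add, add_zero] at h02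
  rw [f12, f12, cr_add_left, cr_add_right, cr_add_right, h11, h22, zero_add, add_zero] at h12
  have fin : ∀ c : k, col B 0 = c • col A 0 → col B 1 = c • col A 1 → col B 2 = c • col A 2 →
      B = c • A := by
    intro c g0 g1 g2
    apply m_ext_col
    intro j
    have : col (c • A) j = c • col A j := by
      apply v_ext <;> simp [col]
    rw [this]
    fin_cases j
    · exact g0
    · exact g1
    · exact g2
  rcases cof_ne hA with hc | hc | hc
  · obtain ⟨c, g0, g1, g2⟩ := b1v h00 h11 h01 h02 h12 hc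
    exact ⟨c, fin c g0 g1 g2⟩
  · obtain ⟨c, g1, g2, g0⟩ := b1v h11 h22 h12 (by rw [add_comm]; exact h01)
      (by rw [add_comm]; exact h02) hc
    exact ⟨c, fin c g0 g1 g2⟩
  · obtain ⟨c, g2, g0, g1⟩ := b1v h22 h00 (by rw [add_comm]; exact h02)
      (by rw [add_comm]; exact h12) h01 hc
    exact ⟨c, fin c g0 g1 g2⟩

theorem dt_all {a : V k} (h : ∀ x, dt a x = 0) : a = 0 := by
  have h0 := h ![1, 0, 0]
  have h1 := h ![0, 1, 0]
  have h2 := h ![0, 0, 1]
  simp [dt] at h0 h1 h2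
  exact v_ext h0 h1 h2

theorem cr_all {a : V k} (h : ∀ x, cr a x = 0) : a = 0 := by
  have h0 := congrFun (h ![1, 0, 0]) 1
  have h1 := congrFun (h ![0, 1, 0]) 2
  have h2 := congrFun (h ![1, 0, 0]) 2
  simp at h0 h1 h2
  exact v_ext h1 h2 h0

/-- `p × S x = 0` for all `x` and `p ≠ 0`: then `S = p rᵀ`. -/
theorem b1' {p : V k} {S : M k} (hp : p ≠ 0) (h : ∀ x, cr p (mv S x) = 0) :
    ∃ r : V k, S = op p r := by
  have h0 := h ![1, 0, 0]
  have h1 := h ![0, 1, 0]
  have h2 := h ![0, 0, 1]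
  obtain ⟨a, ha⟩ := par hp h0
  obtain ⟨b, hb⟩ := par hp h1
  obtain ⟨c, hc⟩ := par hp h2
  refine ⟨![a, b, c], ?_⟩
  have a0 := congrFun ha 0
  have a1 := congrFun ha 1
  have a2 := congrFun ha 2
  have b0 := congrFun hb 0
  have b1 := congrFun hb 1
  have b2 := congrFun hb 2
  have c0 := congrFun hc 0
  have c1 := congrFun hc 1
  have c2 := congrFun hc 2
  simp at a0 a1 a2 b0 b1 b2 c0 c1 c2
  apply m_ext <;> simp [a0, a1, a2, b0, b1, b2, c0, c1, c2] <;> ring

/-- A matrix with zero cofactors has rank at most one. -/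
theorem rank_one {A : M k} (h : cof A = 0) : ∃ p r : V k, A = op p r := by
  by_cases hA : A = 0
  · exact ⟨0, 0, by rw [hA]; apply m_ext <;> simp⟩
  have hcol : ∃ j, col A j ≠ 0 := by
    by_contra hc
    push Not at hc
    apply hA
    apply m_ext_col
    intro j
    rw [hc j]
    apply v_ext <;> simp [col]
  obtain ⟨j, hj⟩ := hcol
  have e : col A j = mv A ![if j = 0 then 1 else 0, if j = 1 then 1 else 0, if j = 2 then 1 else 0] := by
    rw [mv_col]
    fin_cases j <;> simp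
  obtain ⟨r, hr⟩ := b1' (S := A) hj (by
    intro x
    rw [e, id3, h, zero_mv])
  exact ⟨_, r, hr⟩

/-- `a · (x × C x) = 0` for all `x`. -/
theorem b2a {a : V k} {C : M k} (ha : a ≠ 0) (hC : tp C = C)
    (h : ∀ x, dt a (cr x (mv C x)) = 0) : ∃ c d : k, C = sc c + d • op a a := by
  obtain ⟨s1, s2, s3⟩ := sym3 hC
  have h0 := h ![1, 0, 0]
  have h1 := h ![0, 1, 0]
  have h2 := h ![0, 0, 1]
  have h01 := h ![1, 1, 0]
  have h02 := h ![1, 0, 1]
  have h12 := h ![0, 1, 1]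
  simp [dt, s1, s2, s3] at h0 h1 h2 h01 h02 h12
  rcases v_ne ha with hr | hr | hr
  · set d := ((C 0 0 - C 1 1) + a 1 / a 0 * C 0 1) / (a 0) ^ 2 with hd
    refine ⟨C 1 1 - d * a 1 ^ 2, d, ?_⟩
    apply m_ext <;> simp [s1, s2, s3, hd] <;> field_simp
    all_goals grind
  · set d := ((C 1 1 - C 2 2) + a 2 / a 1 * C 1 2) / (a 1) ^ 2 with hd
    refine ⟨C 2 2 - d * a 2 ^ 2, d, ?_⟩
    apply m_ext <;> simp [s1, s2, s3, hd] <;> field_simp
    all_goals grind
  · set d := ((C 2 2 - C 0 0) + a 0 / a 2 * C 0 2) / (a 2) ^ 2 with hd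
    refine ⟨C 0 0 - d * a 0 ^ 2, d, ?_⟩
    apply m_ext <;> simp [s1, s2, s3, hd] <;> field_simp
    all_goals grind

theorem op_ne {a b : V k} (ha : a ≠ 0) (hb : b ≠ 0) : op a b ≠ 0 := by
  intro h
  obtain ⟨x, hx⟩ := exists_dt hb
  have := op_mv a b x
  rw [h, zero_mv, hx, one_smul] at this
  exact ha this.symm

/-- `R (x × C x) = 0` for all `x` with `C` symmetric and `R` of rank at least two. -/
theorem b2 {A C : M k} (hA : cof A ≠ 0) (hC : tp C = C)
    (h : ∀ x, mv A (cr x (mv C x)) = 0) : ∃ c : k, C = sc c := by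
  have hrow : ∀ i x, dt (row A i) (cr x (mv C x)) = 0 := by
    intro i x
    have := congrFun (h x) i
    rw [mv_apply] at this
    exact this
  have key : ∀ i j, cr (row A i) (row A j) ≠ 0 → ∃ c : k, C = sc c := by
    intro i j hij
    have hi : row A i ≠ 0 := by intro h0; rw [h0] at hij; exact hij (cr_zero_left _)
    obtain ⟨c, d, hcd⟩ := b2a hi hC (hrow i)
    refine ⟨c, ?_⟩
    obtain ⟨x, hx1, hx2⟩ := lf2 hi hij
    have h1 := hrow j x
    have h2 : dt (row A j) (cr x (mv C x)) = d * (dt (row A i) x * dt (cr (row A i) (row A j)) x) := by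
      rw [hcd, add_mv, sc_mv, smul_mv, op_mv]
      simp [dt]
      ring
    rw [h2] at h1
    have hd : d = 0 := (mul_eq_zero.mp h1).resolve_right (mul_ne_zero hx1 hx2)
    rw [hcd, hd, zero_smul, add_zero]
  have ht : cof (tp A) ≠ 0 := by
    intro h0
    apply hA
    rw [← tp_tp (cof A), tp_cof, h0, tp_zero]
  have hcr : ∀ i, col (tp A) i = row A i := by
    intro i
    apply v_ext <;> simp [col, row]
  rcases cof_ne ht with hc | hc | hc
  · rw [hcr, hcr] at hc; exact key _ _ hc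
  · rw [hcr, hcr] at hc; exact key _ _ hc
  · rw [hcr, hcr] at hc; exact key _ _ hc

theorem cof_tp_ne {A : M k} (h : cof A ≠ 0) : cof (tp A) ≠ 0 := by
  intro h0
  apply h
  rw [← tp_tp (cof A), tp_cof, h0, tp_zero]

/-- `x × C x = 0` for all `x`. -/
theorem b0 {C : M k} (h : ∀ x, cr x (mv C x) = 0) : ∃ c : k, C = sc c := by
  have h1 : cof (sc (1 : k)) ≠ 0 := by
    intro h0
    have := congrFun (congrFun h0 0) 0
    simp at this
  obtain ⟨c, hc⟩ := b1 (B := C) h1 (fun x => by rw [sc_mv, one_smul]; exact h x)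
  exact ⟨c, by rw [hc]; apply m_ext <;> simp⟩

/-- A symmetric matrix of rank at most one. -/
theorem rank_one_symm {S : M k} (hS : tp S = S) (h : cof S = 0) : ∃ (a : k) (v : V k),
    S = a • op v v := by
  obtain ⟨s1, s2, s3⟩ := sym3 hS
  have c00 := congrFun (congrFun h 0) 0
  have c01 := congrFun (congrFun h 0) 1
  have c02 := congrFun (congrFun h 0) 2
  have c11 := congrFun (congrFun h 1) 1
  have c12 := congrFun (congrFun h 1) 2
  have c22 := congrFun (congrFun h 2) 2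
  simp [s1, s2, s3] at c00 c01 c02 c11 c12 c22
  by_cases d0 : S 0 0 = 0
  · by_cases d1 : S 1 1 = 0
    · by_cases d2 : S 2 2 = 0
      · refine ⟨0, 0, ?_⟩
        have e01 : S 0 1 = 0 := by
          have : S 0 1 * S 0 1 = 0 := by rw [d0, zero_mul, zero_sub, neg_eq_zero] at c22; exact c22
          exact mul_self_eq_zero.mp this
        have e02 : S 0 2 = 0 := by
          have : S 0 2 * S 0 2 = 0 := by rw [d2, zero_mul, zero_sub, neg_eq_zero] at c11; exact c11
          exact mul_self_eq_zero.mp this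
        have e12 : S 1 2 = 0 := by
          have : S 1 2 * S 1 2 = 0 := by rw [d1, zero_mul, zero_sub, neg_eq_zero] at c00; exact c00
          exact mul_self_eq_zero.mp this
        apply m_ext <;> simp [s1, s2, s3, d0, d1, d2, e01, e02, e12]
      · refine ⟨1 / S 2 2, col S 2, ?_⟩
        apply m_ext <;> simp [s1, s2, s3, col] <;> field_simp <;> grind
    · refine ⟨1 / S 1 1, col S 1, ?_⟩
      apply m_ext <;> simp [s1, s2, s3, col] <;> field_simp <;> grind
  · refine ⟨1 / S 0 0, col S 0, ?_⟩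
    apply m_ext <;> simp [s1, s2, s3, col] <;> field_simp <;> grind

/-- Proportionality modulo scalars of two symmetric matrices, as vanishing of minors. -/
def Mnr (A B : M k) : Prop :=
  A 0 1 * B 0 2 = A 0 2 * B 0 1 ∧ A 0 1 * B 1 2 = A 1 2 * B 0 1 ∧ A 0 2 * B 1 2 = A 1 2 * B 0 2 ∧
  A 0 1 * (B 0 0 - B 1 1) = (A 0 0 - A 1 1) * B 0 1 ∧
  A 0 2 * (B 0 0 - B 1 1) = (A 0 0 - A 1 1) * B 0 2 ∧
  A 1 2 * (B 0 0 - B 1 1) = (A 0 0 - A 1 1) * B 1 2 ∧
  A 0 1 * (B 1 1 - B 2 2) = (A 1 1 - A 2 2) * B 0 1 ∧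
  A 0 2 * (B 1 1 - B 2 2) = (A 1 1 - A 2 2) * B 0 2 ∧
  A 1 2 * (B 1 1 - B 2 2) = (A 1 1 - A 2 2) * B 1 2 ∧
  (A 0 0 - A 1 1) * (B 1 1 - B 2 2) = (A 1 1 - A 2 2) * (B 0 0 - B 1 1)

theorem mnr_span {A B : M k} (hA : tp A = A) (hB : tp B = B) (h : Mnr A B)
    (hn : ¬ ∃ a, A = sc a) : ∃ c d : k, B = sc c + d • A := by
  obtain ⟨s1, s2, s3⟩ := sym3 hA
  obtain ⟨r1, r2, r3⟩ := sym3 hB
  obtain ⟨m1, m2, m3, m4, m5, m6, m7, m8, m9, m10⟩ := h
  by_cases a01 : A 0 1 = 0
  · by_cases a02 : A 0 2 = 0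
    · by_cases a12 : A 1 2 = 0
      · by_cases ad : A 0 0 = A 1 1
        · by_cases ae : A 1 1 = A 2 2
          · exact absurd ⟨A 0 0, by
              apply m_ext <;> simp [s1, s2, s3, a01, a02, a12, ad, ae]⟩ hn
          · have hne : A 1 1 - A 2 2 ≠ 0 := sub_ne_zero.mpr ae
            refine ⟨B 1 1 - (B 1 1 - B 2 2) / (A 1 1 - A 2 2) * A 1 1,
              (B 1 1 - B 2 2) / (A 1 1 - A 2 2), ?_⟩
            apply m_ext <;> simp [s1, s2, s3, r1, r2, r3] <;> field_simp <;> grind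
        · have hne : A 0 0 - A 1 1 ≠ 0 := sub_ne_zero.mpr ad
          refine ⟨B 0 0 - (B 0 0 - B 1 1) / (A 0 0 - A 1 1) * A 0 0,
            (B 0 0 - B 1 1) / (A 0 0 - A 1 1), ?_⟩
          apply m_ext <;> simp [s1, s2, s3, r1, r2, r3] <;> field_simp <;> grind
      · refine ⟨B 0 0 - B 1 2 / A 1 2 * A 0 0, B 1 2 / A 1 2, ?_⟩
        apply m_ext <;> simp [s1, s2, s3, r1, r2, r3] <;> field_simp <;> grind
    · refine ⟨B 0 0 - B 0 2 / A 0 2 * A 0 0, B 0 2 / A 0 2, ?_⟩
      apply m_ext <;> simp [s1, s2, s3, r1, r2, r3] <;> field_simp <;> grind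
  · refine ⟨B 0 0 - B 0 1 / A 0 1 * A 0 0, B 0 1 / A 0 1, ?_⟩
    apply m_ext <;> simp [s1, s2, s3, r1, r2, r3] <;> field_simp <;> grind

/-- `det (x, A x, B x) = 0` for all `x`. -/
theorem mnr_of_det [CharZero k] {A B : M k} (hA : tp A = A) (hB : tp B = B)
    (h : ∀ x, dt x (cr (mv A x) (mv B x)) = 0) : Mnr A B := by
  obtain ⟨s1, s2, s3⟩ := sym3 hA
  obtain ⟨r1, r2, r3⟩ := sym3 hB
  have a1 := h ![1, 0, 0]
  have a2 := h ![0, 1, 0]
  have a3 := h ![0, 0, 1]
  have b1 := h ![1, 1, 0]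
  have b2 := h ![1, -1, 0]
  have b3 := h ![0, 1, 1]
  have b4 := h ![0, 1, -1]
  have b5 := h ![1, 0, 1]
  have b6 := h ![1, 0, -1]
  have b7 := h ![1, 1, 1]
  simp [dt, s1, s2, s3, r1, r2, r3] at a1 a2 a3 b1 b2 b3 b4 b5 b6 b7
  refine ⟨?_, ?_, ?_, ?_, ?_, ?_, ?_, ?_, ?_, ?_⟩ <;> grind

end Helper496
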