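import Pool.Agent.Helper496_So4.Subst
import Pool.Agent.Helper496_So4.Gauge2

/-!
Naturality under substitutions.
-/

set_option autoImplicit false

namespace Helper496

open Complex

attribute [local instance 100] LieRing.ofAssociativeRing

/-- Apply `σ` to a vector. -/
noncomputable def sV (σ : K →+* K) (x : V K) : V K := fun i => σ (x i)

/-- Apply `σ` to a matrix. -/
noncomputable def sM (σ : K →+* K) (A : M K) : M K := fun i j => σ (A i j)

@[simp] theorem sV_apply (σ : K →+* K) (x : V K) (i : Fin 3) : sV σ x i = σ (x i) := rfl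
@[simp] theorem sM_apply (σ : K →+* K) (A : M K) (i j : Fin 3) : sM σ A i j = σ (A i j) := rfl

section
variable (σ : K →+* K)

theorem sM_mm (A B : M K) : sM σ (mm A B) = mm (sM σ A) (sM σ B) := by
  apply m_ext <;> simp
theorem sM_tp (A : M K) : sM σ (tp A) = tp (sM σ A) := by
  apply m_ext <;> simp
theorem sM_cof (A : M K) : sM σ (cof A) = cof (sM σ A) := by
  apply m_ext <;> simp
theorem sM_sc (a : K) : sM σ (sc a) = sc (σ a) := by
  apply m_ext <;> simp
theorem sM_add (A B : M K) : sM σ (A + B) = sM σ A + sM σ B := by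
  apply m_ext <;> simp
theorem sM_sub (A B : M K) : sM σ (A - B) = sM σ A - sM σ B := by
  apply m_ext <;> simp
theorem sM_smul (a : K) (A : M K) : sM σ (a • A) = σ a • sM σ A := by
  apply m_ext <;> simp
theorem sM_op (a b : V K) : sM σ (op a b) = op (sV σ a) (sV σ b) := by
  apply m_ext <;> simp
theorem sM_cm (a : V K) : sM σ (cm a) = cm (sV σ a) := by
  apply m_ext <;> simp
theorem sM_zero : sM σ 0 = 0 := by
  apply m_ext <;> simp
theorem sV_mv (A : M K) (x : V K) : sV σ (mv A x) = mv (sM σ A) (sV σ x) := by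
  apply v_ext <;> simp
theorem sM_axk (v : V K) (a b c : K) :
    sM σ (axk v a b c) = axk (sV σ v) (σ a) (σ b) (σ c) := by
  apply m_ext <;> simp [axk]

end

theorem GoodS.sM_cM {σ : K →+* K} (h : GoodS σ) (A : M ℂ) : sM σ (cM A) = cM A := by
  apply m_ext <;> simp [h.c]
theorem GoodS.sV_cv {σ : K →+* K} (h : GoodS σ) (x : V ℂ) : sV σ (cv x) = cv x := by
  apply v_ext <;> simp [h.c]
theorem GoodS.lm {σ : K →+* K} (h : GoodS σ) {A : M K} {n : ℤ} {C : M ℂ} (hA : LM A n C) :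
    LM (sM σ A) n C := fun i j => h.l _ _ _ (hA i j)

theorem TH.map {σ : K →+* K} (hσ : GoodS σ) {t : K} {H : M K} (h : TH t H) :
    TH (σ t) (sM σ H) := by
  cases h with
  | t1 B _ hB hs hl hc =>
    refine TH.t1 _ B _ hB ?_ (hσ.lm hl) ?_
    · rw [← sM_tp, hs]
    · rw [← sM_cof, hc, sM_sub, sM_sc, hσ.sM_cM, map_pow]
  | t2 A hA =>
    rw [sM_add, sM_sc, hσ.sM_cM]
    exact TH.t2 _ A hA
  | t3 v α β =>
    rw [sM_add, sM_sc, sM_smul, sM_op, hσ.sV_cv, map_add, map_div₀, hσ.c, hσ.c]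
    exact TH.t3 _ v α β

theorem Fam.map {σ : K →+* K} (hσ : GoodS σ) {t s : K} {H W H' W' : M K}
    (h : Fam t s H W H' W') : Fam (σ t) (σ s) (sM σ H) (sM σ W) (sM σ H') (sM σ W') := by
  induction h with
  | dir t s H H' h h' =>
    rw [sM_zero]
    exact Fam.dir _ _ _ _ (h.map hσ) (h'.map hσ)
  | f2 t s a b m n α β α' β' =>
    simp only [sM_add, sM_sc, sM_smul, sM_op, hσ.sV_cv, map_add, map_div₀, hσ.c]
    exact Fam.f2 _ _ a b m n α β α' β'
  | f3 t s a b α β C hC =>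
    simp only [sM_add, sM_sc, sM_smul, sM_op, hσ.sV_cv, map_add, map_div₀, hσ.c, hσ.sM_cM,
      sM_zero]
    exact Fam.f3 _ _ a b α β C hC
  | f4 t s T p q H H' h1 h2 h3 h1' h2' h3' =>
    simp only [sM_add, sM_smul, sM_mm, sM_tp, sM_cof, map_div₀, hσ.c, hσ.sM_cM, map_pow]
    refine Fam.f4 _ _ T p q _ _ ?_ (hσ.lm h2) ?_ ?_ (hσ.lm h2') ?_
    · rw [← sM_tp, h1]
    · rw [← sM_cof, h3, sM_sub, sM_sc, hσ.sM_cM, map_pow]
    · rw [← sM_tp, h1']
    · rw [← sM_cof, h3', sM_sub, sM_sc, hσ.sM_cM, map_pow]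
  | f5 t s O v a b c d r D hO hD =>
    simp only [sM_add, sM_sc, sM_smul, sM_op, hσ.sV_cv, map_add, map_div₀, map_sub, map_inv₀,
      hσ.c, hσ.sM_cM, sM_mm, sM_axk, sM_tp, map_neg]
    have := Fam.f5 (σ t) (σ s) O v a b c d r D hO hD
    simp only [map_add, map_sub] at this
    exact this
  | f6 t s Q A θ hQ hA h =>
    simp only [sM_add, sM_sc, sM_smul, map_inv₀, hσ.sM_cM]
    exact Fam.f6 _ _ Q A θ hQ hA h
  | f7 t s n e x y z θ Q he hQ =>
    simp only [sM_add, sM_sc, sM_smul, map_inv₀, hσ.sM_cM]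
    exact Fam.f7 _ _ n e x y z θ Q he hQ
  | f8 t s n e n' e' a c α α' he he' =>
    simp only [sM_add, sM_sc, sM_smul, map_inv₀, hσ.sM_cM]
    exact Fam.f8 _ _ n e n' e' a c α α' he he'
  | f9 t s n e n' e' a c α α' he he' =>
    simp only [sM_add, sM_sc, sM_smul, map_inv₀, hσ.sM_cM]
    exact Fam.f9 _ _ n e n' e' a c α α' he he'
  | swap h ih => exact ih.swap

theorem Frame.map {σ : K →+* K} (hσ : GoodS σ) {N H : M K} (h : Frame N H) :
    Frame (sM σ N) (sM σ H) where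
  gram := by rw [← sM_tp, ← sM_mm, h.gram, sM_cof]
  cofN := by rw [← sM_mm, h.cofN, sM_cof]
  lead := hσ.lm h.lead

/-- Apply `σ` to a `4 × 4` matrix. -/
noncomputable def sF {σ : K →+* K} (hσ : GoodS σ) : M4 →ₗ[ℂ] M4 where
  toFun X := X.map σ
  map_add' X Y := by ext i j; simp
  map_smul' c X := by
    ext i j
    simp only [Matrix.map_apply, Matrix.smul_apply, RingHom.id_apply, smul_cc, map_mul, hσ.c]

theorem sF_iota {σ : K →+* K} (hσ : GoodS σ) (a b : V K) :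
    sF hσ (iota a b) = iota (sV σ a) (sV σ b) := by
  apply m4_ext
  intro i j
  have h2 : σ (2 : K) = 2 := map_ofNat σ 2
  fin_cases i <;> fin_cases j <;> simp [sF, iota, h2]

theorem Gn_sF {σ : K →+* K} (hσ : GoodS σ) (N W N' W' : M K) :
    (Gn N W N' W').map (sF hσ) = Gn (sM σ N) (sM σ W) (sM σ N') (sM σ W') := by
  have hf : ∀ X Y : M4, sF hσ (X * Y - Y * X) = sF hσ X * sF hσ Y - sF hσ Y * sF hσ X := by
    intro X Y
    have h1 : ∀ X Y : M4, sF hσ (X * Y) = sF hσ X * sF hσ Y := by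
      intro X Y
      exact Matrix.map_mul (f := σ)
    rw [map_sub, h1, h1]
  rw [Gn, gen_map _ hf, Set.image_union, ← Set.range_comp, ← Set.range_comp, Gn, ← sM_mm,
    ← sM_mm]
  have e : ∀ A B : M K, (sF hσ) ∘ (lm IO_iota A B) = lm IO_iota (sM σ A) (sM σ B) := by
    intro A B
    funext z
    rw [Function.comp_apply, lm_apply, lm_apply, sF_iota, sV_mv, sV_mv, hσ.sV_cv]
  rw [e, e]

/-- One reparametrisation. -/
def ReStep (U V : Submodule ℂ M4) : Prop :=
  ∃ (φ : PowerSeries ℂ) (σ : K →+* K), PowerSeries.constantCoeff φ = 0 ∧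
    PowerSeries.coeff 1 φ = 1 ∧ IsSubst φ σ ∧ ∀ Y, Y ∈ V ↔ ∃ X ∈ U, X.map σ = Y

/-- One step: a reparametrisation or an automorphism `exp (ad g)`. -/
def Step (U V : Submodule ℂ M4) : Prop := ReStep U V ∨ GaugeStep U V

/-- The members of the list. -/
def Member (U : Submodule ℂ M4) : Prop :=
  ∃ (s : K) (H W H' W' S S' : M K), LC s (-1) 1 ∧ Fam (lam (-1)) s H W H' W' ∧
    tp S = S ∧ mm S S = cof H ∧ LM S (-1) 1 ∧ tp S' = S' ∧ mm S' S' = cof H' ∧ LM S' (-1) 1 ∧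
    U = Gn S W S' W'

theorem Member.factoring {U : Submodule ℂ M4} (h : Member U) : Factoring U := by
  obtain ⟨s, H, W, H', W', S, S', hs, hf, h1, h2, h3, h1', h2', h3', rfl⟩ := h
  obtain ⟨P, Q, A, B, A', B', he⟩ := hf.eqs (LC.lam (-1)) hs
  obtain ⟨a, hp⟩ := he.pol
  obtain ⟨a', hp'⟩ := he.pol'
  exact he.factoring (Frame.mk' hp (by rw [h1, h2]) h3) (Frame.mk' hp' (by rw [h1', h2']) h3')

theorem Factoring.member {U : Submodule ℂ M4} (hU : Factoring U) :
    ∃ V, Member V ∧ Relation.ReflTransGen Step U V := by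
  obtain ⟨H, W, H', W', N, N', P, Q, A, B, A', B', he, hN, hN', rfl⟩ := exists_eqs hU
  obtain ⟨t, s, ht, hs, hf⟩ := he.fam
  obtain ⟨φ, σ, h0, h1, hσ, hσt⟩ := exists_norm ht
  have hg := hσ.good h0 h1
  have hf2 := hf.map hg
  rw [hσt] at hf2
  have hN2 := hN.map hg
  have hN2' := hN'.map hg
  have hs2 := hg.l _ _ _ hs
  -- symmetric frames
  have root : ∀ {N H : M K}, Frame N H → ∃ S, tp S = S ∧ mm S S = cof H ∧ LM S (-1) 1 := by
    intro N H hN
    have k1 : tp (cof H) = cof H := by rw [← hN.gram, tp_mm, tp_tp]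
    have k2 : LM (cof H) (-2) 1 := by
      rw [← hN.gram]
      have := hN.lead.tp.mm hN.lead
      have k3 : mm (tp (1 : M ℂ)) 1 = 1 := by rw [← sc_one, tp_sc, sc_mm, one_smul]
      rw [k3] at this
      exact this.congr (by norm_num) rfl
    exact exists_root k1 k2
  obtain ⟨S, a1, a2, a3⟩ := root hN2
  obtain ⟨S', b1, b2, b3⟩ := root hN2'
  refine ⟨Gn S (sM σ W) S' (sM σ W'), ⟨σ s, sM σ H, sM σ W, sM σ H', sM σ W', S, S', hs2, hf2,
    a1, a2, a3, b1, b2, b3, rfl⟩, ?_⟩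
  have s1 : Step (Gn N W N' W') (Gn (sM σ N) (sM σ W) (sM σ N') (sM σ W')) := by
    left
    refine ⟨φ, σ, h0, h1, hσ, fun Y => ?_⟩
    rw [← Gn_sF hg, Submodule.mem_map]
    rfl
  have hmono : Relation.ReflTransGen GaugeStep ≤ Relation.ReflTransGen Step :=
    Relation.ReflTransGen.mono (fun _ _ h => Or.inr h)
  have s2 := hmono _ _ (hN2.gauge1 a1 a2 a3 (sM σ W) (sM σ N') (sM σ W'))
  have s3 := hmono _ _ (hN2'.gauge2 b1 b2 b3 S (sM σ W) (sM σ W'))
  exact ((Relation.ReflTransGen.single s1).trans s2).trans s3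

end Helper496
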