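import Pool.Agent.Helper496_So4.Lin

/-!
More linear algebra over `ℂ`: isotropic vectors, rotations, commutants.
-/

set_option autoImplicit false

namespace Helper496

open Complex

theorem dt_cancel {E : Type*} [AddCommGroup E] [Module ℂ E] {v : V ℂ} (hv : v ≠ 0)
    (F : V ℂ → E) (hF : ∀ x y, F (x + y) = F x + F y) (h : ∀ x, dt v x • F x = 0) (x : V ℂ) :
    F x = 0 := by
  obtain ⟨y, hy⟩ := exists_dt hv
  have h1 := h y
  rw [hy, one_smul] at h1
  by_cases hx : dt v x = 0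
  · have h2 := h (x + y)
    rw [dt_add_right, hx, hy, zero_add, one_smul, hF, h1, add_zero] at h2
    exact h2
  · exact (smul_eq_zero.mp (h x)).resolve_left hx

theorem dt_cancel2 {v : V ℂ} (hv : v ≠ 0) (q : V ℂ → ℂ)
    (hq : ∀ x y, q (x + y) + q (x - y) = 2 * q x + 2 * q y)
    (h : ∀ x, dt v x * q x = 0) (x : V ℂ) : q x = 0 := by
  obtain ⟨y, hy⟩ := exists_dt hv
  have h1 := h y
  rw [hy, one_mul] at h1
  by_cases hx : dt v x = 0
  · have h2 := h (x + y)
    have h3 := h (x - y)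
    rw [dt_add_right, hx, hy, zero_add, one_mul] at h2
    rw [dt_sub_right, hx, hy, zero_sub, neg_mul, one_mul, neg_eq_zero] at h3
    have h4 := hq x y
    rw [h2, h3, h1] at h4
    linear_combination -(1 / 2) * h4
  · exact (mul_eq_zero.mp (h x)).resolve_left hx

/-- Isotropic vectors. -/
theorem iso_frame {p : V ℂ} (hp : p ≠ 0) (h : dt p p = 0) : ∃ e, cr p e = I • p := by
  obtain ⟨z, hz⟩ := perp_cr hp h
  exact ⟨I • z, by rw [cr_smul_right, ← hz]⟩

theorem iso_pe {p e : V ℂ} (h : cr p e = I • p) : dt p e = 0 := by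
  have h1 := dt_cr_self_right p e
  rw [h, dt_smul_right, dt_comm] at h1
  exact (mul_eq_zero.mp h1).resolve_left I_ne_zero

theorem iso_pp {p e : V ℂ} (h : cr p e = I • p) : dt p p = 0 := by
  have h1 := dt_cr_self_left p e
  rw [h, dt_smul_right] at h1
  exact (mul_eq_zero.mp h1).resolve_left I_ne_zero

theorem iso_ee {p e : V ℂ} (hp : p ≠ 0) (h : cr p e = I • p) : dt e e = 1 := by
  have h1 : cr e (cr p e) = p := by
    rw [h, cr_smul_right, cr_skew, h, smul_neg, smul_smul, I_mul_I]; simp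
  rw [cr_cr, dt_comm e p, iso_pe h, zero_smul, sub_zero] at h1
  have h2 : (dt e e - 1) • p = 0 := by rw [sub_smul, h1, one_smul, sub_self]
  exact sub_eq_zero.mp ((smul_eq_zero.mp h2).resolve_right hp)

/-- Rank two matrices with zero left-multiplication. -/
theorem cof_of_kills {Q : M ℂ} {v : V ℂ} (hv : v ≠ 0) (h : ∀ x, mv Q (cr v x) = 0) :
    cof Q = 0 := by
  have h1 : ∀ x, cr v (mv (tp Q) x) = 0 := by
    intro x
    apply dt_all
    intro y
    rw [dt_comm, dt_cr_cyc, dt_cr_cyc, dt_comm, ← dt_mv_tp, cr_skew, mv_neg, h,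
      neg_zero, dt_zero_left]
  obtain ⟨r, hr⟩ := b1' hv h1
  have : Q = op r v := by rw [← tp_tp Q, hr, tp_op]
  rw [this, cof_op]

theorem sq_exists (z : ℂ) : ∃ w : ℂ, w ^ 2 = z := by
  obtain ⟨w, hw⟩ := IsAlgClosed.exists_pow_nat_eq z (n := 2) (by norm_num)
  exact ⟨w, hw⟩

/-- Rotations. -/
def Rot (O : M ℂ) : Prop := mm (tp O) O = sc 1 ∧ det3 O = 1

theorem Rot.mul {O T : M ℂ} (hO : Rot O) (hT : Rot T) : Rot (mm O T) := by
  constructor
  · rw [tp_mm, mm_assoc, ← mm_assoc (tp O), hO.1, sc_mm, one_smul, hT.1]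
  · rw [det3_mm, hO.2, hT.2, mul_one]

theorem Rot.inv' {O : M ℂ} (hO : Rot O) : mm O (tp O) = sc 1 := by
  have h1 := hO.1
  rw [mm_eq, sc_one] at h1 ⊢
  exact mul_eq_one_comm.mp h1

theorem Rot.tp {O : M ℂ} (hO : Rot O) : Rot (tp O) := by
  constructor
  · rw [tp_tp]; exact hO.inv'
  · rw [det3_tp]; exact hO.2

theorem Rot.cof {O : M ℂ} (hO : Rot O) : cof O = O := by
  have h1 := mm_tp_cof O
  rw [hO.2] at h1
  have h2 : mm O (mm (Helper496.tp O) (Helper496.cof O)) = mm O (sc 1) := by rw [h1]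
  rw [← mm_assoc, hO.inv', sc_mm, one_smul, mm_sc, one_smul] at h2
  exact h2

theorem Rot.cr {O : M ℂ} (hO : Rot O) (a b : V ℂ) : cr (mv O a) (mv O b) = mv O (cr a b) := by
  rw [id3, hO.cof]

theorem Rot.dt {O : M ℂ} (hO : Rot O) (a b : V ℂ) : dt (mv O a) (mv O b) = dt a b := by
  rw [dt_mv_tp, ← mm_mv, hO.1, sc_mv, one_smul]

theorem Rot.mv_tp {O : M ℂ} (hO : Rot O) (a : V ℂ) : mv O (mv (Helper496.tp O) a) = a := by
  rw [← mm_mv, hO.inv', sc_mv, one_smul]

theorem Rot.tp_mv {O : M ℂ} (hO : Rot O) (a : V ℂ) : mv (Helper496.tp O) (mv O a) = a := by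
  rw [← mm_mv, hO.1, sc_mv, one_smul]

theorem Rot.one : Rot (sc 1) := by
  constructor
  · apply m_ext <;> simp
  · rw [det3_sc]; norm_num

/-- The matrix with given columns. -/
def cols (a b c : V ℂ) : M ℂ := !![a 0, b 0, c 0; a 1, b 1, c 1; a 2, b 2, c 2]

theorem rot_of_frame {f g h : V ℂ} (ff : dt f f = 1) (gg : dt g g = 1) (fg : dt f g = 0)
    (hh : h = cr f g) : Rot (cols f g h) := by
  subst hh
  simp only [dt] at ff gg fg
  constructor
  · apply m_ext <;> simp [cols] <;> grind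
  · simp [cols, det3]; grind

/-- Every vector of given nonzero length is the rotated image of a standard one. -/
theorem rot_std {v : V ℂ} {r : ℂ} (hr : r ≠ 0) (h : dt v v = r ^ 2) :
    ∃ O, Rot O ∧ mv O ![0, 0, r] = v := by
  -- a vector orthogonal to `v` of nonzero length
  have hex : ∃ g : V ℂ, dt g v = 0 ∧ dt g g ≠ 0 := by
    by_contra hcon
    push Not at hcon
    have h0 := hcon (cr ![1, 0, 0] v) (by rw [dt_comm, dt_cr_self_right])
    have h1 := hcon (cr ![0, 1, 0] v) (by rw [dt_comm, dt_cr_self_right])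
    have h2 := hcon (cr ![0, 0, 1] v) (by rw [dt_comm, dt_cr_self_right])
    simp [dt] at h0 h1 h2 h
    have : r ^ 2 = 0 := by linear_combination (1 / 2) * h0 + (1 / 2) * h1 + (1 / 2) * h2 - h
    exact hr (pow_eq_zero_iff two_ne_zero |>.mp this)
  obtain ⟨g, hgv, hgg⟩ := hex
  obtain ⟨s, hs⟩ := sq_exists (dt g g)
  have hs0 : s ≠ 0 := by rintro rfl; apply hgg; rw [← hs]; ring
  set f := s⁻¹ • g with hf
  have ff : dt f f = 1 := by
    rw [hf, dt_smul_left, dt_smul_right, ← hs]; field_simp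
  have fv : dt f v = 0 := by rw [hf, dt_smul_left, hgv, mul_zero]
  set w := r⁻¹ • v with hw
  have ww : dt w w = 1 := by rw [hw, dt_smul_left, dt_smul_right, h]; field_simp
  have fw : dt f w = 0 := by rw [hw, dt_smul_right, fv, mul_zero]
  set g' := cr w f with hg'
  have gg : dt g' g' = 1 := by
    have : dt g' g' = dt w w * dt f f - dt f w ^ 2 := by rw [hg']; simp [dt]; ring
    rw [this, ww, ff, fw]; ring
  have fg : dt f g' = 0 := by rw [hg', dt_cr_self_right]
  have hcr : cr f g' = w := by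
    rw [hg', cr_cr, ff, fw, one_smul, zero_smul, sub_zero]
  refine ⟨cols f g' w, rot_of_frame ff gg fg hcr.symm, ?_⟩
  have : mv (cols f g' w) ![0, 0, r] = r • w := by
    apply v_ext <;> simp [cols] <;> ring
  rw [this, hw, smul_smul, mul_inv_cancel₀ hr, one_smul]

theorem rot_iso {n : V ℂ} (hn : n ≠ 0) (h : dt n n = 0) :
    ∃ O, Rot O ∧ mv O ![1, I, 0] = n := by
  obtain ⟨w, hw⟩ := exists_dt hn
  set m := w - (dt w w / 2) • n with hm
  have nm : dt n m = 1 := by rw [hm, dt_sub_right, dt_smul_right, h, hw]; ring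
  have mm' : dt m m = 0 := by
    rw [hm, dt_sub_left, dt_sub_right, dt_sub_right, dt_smul_left, dt_smul_left, dt_smul_right,
      dt_smul_right, h, dt_comm w n, hw]; ring
  set f := (1 / 2 : ℂ) • n + m with hf
  set g := (-(I / 2)) • n + I • m with hg
  have ff : dt f f = 1 := by
    rw [hf]
    simp only [dt_add_left, dt_add_right, dt_smul_left, dt_smul_right, h, mm', nm, dt_comm m n]
    ring
  have gg : dt g g = 1 := by
    rw [hg]
    simp only [dt_add_left, dt_add_right, dt_smul_left, dt_smul_right, h, mm', nm, dt_comm m n]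
    linear_combination (-1 : ℂ) * I_mul_I
  have fg : dt f g = 0 := by
    rw [hf, hg]
    simp only [dt_add_left, dt_add_right, dt_smul_left, dt_smul_right, h, mm', nm, dt_comm m n]
    ring
  refine ⟨cols f g (cr f g), rot_of_frame ff gg fg rfl, ?_⟩
  have h1 : mv (cols f g (cr f g)) ![1, I, 0] = f + I • g := by
    apply v_ext <;> simp [cols] <;> ring
  rw [h1, hf, hg]
  have h2 : I • (-(I / 2) • n + I • m) = (1 / 2 : ℂ) • n - m := by
    rw [smul_add, smul_smul, smul_smul, I_mul_I]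
    have : I * -(I / 2) = 1 / 2 := by linear_combination (-1 / 2 : ℂ) * I_mul_I
    rw [this]; simp [sub_eq_add_neg]
  rw [h2]
  module

/-- Witt's theorem for one vector. -/
theorem witt {u v : V ℂ} (hu : u ≠ 0) (hv : v ≠ 0) (h : dt u u = dt v v) :
    ∃ O, Rot O ∧ mv O v = u := by
  by_cases hz : dt v v = 0
  · obtain ⟨O, hO, h1⟩ := rot_iso hv hz
    obtain ⟨T, hT, h2⟩ := rot_iso hu (h.trans hz)
    refine ⟨mm T (tp O), hT.mul hO.tp, ?_⟩
    rw [mm_mv, ← h1, hO.tp_mv, h2]
  · obtain ⟨r, hr⟩ := sq_exists (dt v v)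
    have hr0 : r ≠ 0 := by rintro rfl; apply hz; rw [← hr]; ring
    obtain ⟨O, hO, h1⟩ := rot_std hr0 hr.symm
    obtain ⟨T, hT, h2⟩ := rot_std hr0 (h.trans hr.symm)
    refine ⟨mm T (tp O), hT.mul hO.tp, ?_⟩
    rw [mm_mv, ← h1, hO.tp_mv, h2]

/-- The commutant of `v ×`. -/
theorem commutant {Q : M ℂ} {v : V ℂ} (hv : v ≠ 0) (h : ∀ x, mv Q (cr v x) = cr v (mv Q x)) :
    ∃ a b c : ℂ, Q = sc a + b • cm v + c • op v v := by
  have e0 := h ![1, 0, 0]
  have e1 := h ![0, 1, 0]
  have e2 := h ![0, 0, 1]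
  have e00 := congrFun e0 0
  have e01 := congrFun e0 1
  have e02 := congrFun e0 2
  have e10 := congrFun e1 0
  have e11 := congrFun e1 1
  have e12 := congrFun e1 2
  have e20 := congrFun e2 0
  have e21 := congrFun e2 1
  have e22 := congrFun e2 2
  simp at e00 e01 e02 e10 e11 e12 e20 e21 e22
  rcases v_ne hv with hr | hr | hr
  · -- b from the antisymmetric part
    set b := (Q 2 1 - Q 1 2) / (2 * v 0) with hb
    set c := ((Q 0 0 - Q 1 1) + v 1 / v 0 * ((Q 0 1 + Q 1 0) / 2)) / (v 0) ^ 2 with hc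
    refine ⟨Q 1 1 - c * v 1 ^ 2, b, c, ?_⟩
    apply m_ext <;> simp [hb, hc] <;> field_simp <;> grind
  · set b := (Q 0 2 - Q 2 0) / (2 * v 1) with hb
    set c := ((Q 1 1 - Q 2 2) + v 2 / v 1 * ((Q 1 2 + Q 2 1) / 2)) / (v 1) ^ 2 with hc
    refine ⟨Q 2 2 - c * v 2 ^ 2, b, c, ?_⟩
    apply m_ext <;> simp [hb, hc] <;> field_simp <;> grind
  · set b := (Q 1 0 - Q 0 1) / (2 * v 2) with hb
    set c := ((Q 2 2 - Q 0 0) + v 0 / v 2 * ((Q 0 2 + Q 2 0) / 2)) / (v 2) ^ 2 with hc
    refine ⟨Q 0 0 - c * v 0 ^ 2, b, c, ?_⟩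
    apply m_ext <;> simp [hb, hc] <;> field_simp <;> grind

theorem cof_op_add (a b c d : V ℂ) : cof (op a b + op c d) = op (cr a c) (cr b d) := by
  apply m_ext <;> simp <;> ring

/-- Multiples of `v vᵀ` and `d dᵀ` differing by a scalar. -/
theorem op_sc {a b s : ℂ} {v d : V ℂ} (h : a • op v v = sc s + b • op d d) : s = 0 := by
  have h1 : a • op v v - b • op d d = sc s := by rw [h]; abel
  have h2 : cof (a • op v v - b • op d d) = (-(a * b)) • op (cr v d) (cr v d) := by
    apply m_ext <;> simp <;> ring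
  rw [h1] at h2
  have h3 := congrArg cof h2
  rw [cof_smul, cof_op, smul_zero, cof_sc, cof_sc] at h3
  have h4 := congrFun (congrFun h3 0) 0
  rw [sc_00] at h4
  exact pow_eq_zero_iff two_ne_zero |>.mp (pow_eq_zero_iff two_ne_zero |>.mp h4)

theorem op_sc' {a b s : ℂ} {v d : V ℂ} (h : a • op v v = sc s + b • op d d) (hvd : cr v d ≠ 0) :
    a = 0 ∧ b = 0 := by
  have hs := op_sc h
  have hsc : sc (0 : ℂ) = 0 := by apply m_ext <;> simp
  rw [hs, hsc, zero_add] at h
  have hv : v ≠ 0 := by rintro rfl; exact hvd (cr_zero_left _)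
  have hd : d ≠ 0 := by rintro rfl; exact hvd (cr_zero_right _)
  -- apply to a vector orthogonal to `d` but not `v`
  have h1 : ∀ x, (a * dt v x) • v = (b * dt d x) • d := by
    intro x
    have := congrArg (fun T => mv T x) h
    simp only [smul_mv, op_mv, smul_smul] at this
    exact this
  have h2 : ∀ x, a * dt v x = 0 := by
    intro x
    have h3 := congrArg (fun w => cr w d) (h1 x)
    simp only [cr_smul_left, cr_self, smul_zero] at h3
    exact (smul_eq_zero.mp h3).resolve_right hvd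
  have h2' : ∀ x, b * dt d x = 0 := by
    intro x
    have h3 := congrArg (fun w => cr v w) (h1 x)
    simp only [cr_smul_right, cr_self, smul_zero] at h3
    exact (smul_eq_zero.mp h3.symm).resolve_right hvd
  obtain ⟨x, hx⟩ := exists_dt hv
  obtain ⟨y, hy⟩ := exists_dt hd
  have h3 := h2 x
  have h4 := h2' y
  rw [hx, mul_one] at h3
  rw [hy, mul_one] at h4
  exact ⟨h3, h4⟩

end Helper496
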