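import Pool.Agent.Helper496_So4.Lin

/-!
Laurent series: orders and leading coefficients.
-/

set_option autoImplicit false

namespace Helper496

/-- The field of formal Laurent series over `ℂ`. -/
def K : Type := LaurentSeries ℂ

noncomputable instance : Field K := inferInstanceAs (Field (LaurentSeries ℂ))

/-- The coefficient of `λ^n`. -/
noncomputable def cf (f : K) (n : ℤ) : ℂ := HahnSeries.coeff (Γ := ℤ) (R := ℂ) f n

/-- Constants. -/
noncomputable def cc : ℂ →+* K := (HahnSeries.C : ℂ →+* LaurentSeries ℂ)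

noncomputable instance : Algebra ℂ K := (HahnSeries.instAlgebra : Algebra ℂ (HahnSeries ℤ ℂ))

/-- `λ^n`. -/
noncomputable def lam (n : ℤ) : K := HahnSeries.single (Γ := ℤ) (R := ℂ) n (1 : ℂ)

instance : CharZero K := charZero_of_injective_ringHom cc.injective

theorem K_ext {f g : K} (h : ∀ n, cf f n = cf g n) : f = g := HahnSeries.ext (funext h)

theorem cf_add (f g : K) (n : ℤ) : cf (f + g) n = cf f n + cf g n :=
  HahnSeries.coeff_add (Γ := ℤ) (R := ℂ)
theorem cf_sub (f g : K) (n : ℤ) : cf (f - g) n = cf f n - cf g n :=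
  HahnSeries.coeff_sub (Γ := ℤ) (R := ℂ)
theorem cf_neg (f : K) (n : ℤ) : cf (-f) n = -cf f n :=
  HahnSeries.coeff_neg (Γ := ℤ) (R := ℂ)
theorem cf_zero (n : ℤ) : cf 0 n = 0 := rfl
theorem smul_C (c : ℂ) (f : LaurentSeries ℂ) : c • f = HahnSeries.C c * f :=
  (HahnSeries.C_mul_eq_smul (Γ := ℤ) (R := ℂ) (r := c) (x := f)).symm

theorem smul_cc (c : ℂ) (f : K) : c • f = cc c * f := smul_C c f

theorem aux_coeff (c : ℂ) (f : LaurentSeries ℂ) (n : ℤ) :
    (HahnSeries.C c * f).coeff n = c * f.coeff n := by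
  rw [HahnSeries.C_mul_eq_smul, HahnSeries.coeff_smul, smul_eq_mul]

theorem cf_cc_mul (c : ℂ) (f : K) (n : ℤ) : cf (cc c * f) n = c * cf f n := aux_coeff c f n

theorem cf_smul (c : ℂ) (f : K) (n : ℤ) : cf (c • f) n = c * cf f n := by
  rw [smul_cc, cf_cc_mul]

theorem cf_cc (c : ℂ) (n : ℤ) : cf (cc c) n = if n = 0 then c else 0 := by
  by_cases h : n = 0
  · subst h; rw [if_pos rfl]; exact HahnSeries.coeff_single_same (0 : ℤ) c
  · rw [if_neg h]; exact HahnSeries.coeff_single_of_ne h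

theorem cc_inj {a b : ℂ} (h : cc a = cc b) : a = b := cc.injective h

theorem lam_mul (n m : ℤ) : lam n * lam m = lam (n + m) := by
  have := HahnSeries.single_mul_single (Γ := ℤ) (R := ℂ) (a := n) (b := m) (r := 1) (s := 1)
  rw [mul_one] at this
  exact this

theorem lam_zero : lam 0 = 1 := rfl

theorem cf_lam (n k : ℤ) : cf (lam n) k = if k = n then 1 else 0 := by
  by_cases h : k = n
  · subst h; rw [if_pos rfl]; exact HahnSeries.coeff_single_same k 1
  · rw [if_neg h]; exact HahnSeries.coeff_single_of_ne h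

theorem lam_ne (n : ℤ) : lam n ≠ 0 := by
  intro h
  have := congrArg (fun f : K => cf f n) h
  simp [cf_lam, cf_zero] at this

theorem cf_lam_mul (f : K) (n k : ℤ) : cf (lam n * f) k = cf f (k - n) := by
  have := HahnSeries.coeff_single_mul_add (r := (1 : ℂ)) (x := (f : LaurentSeries ℂ))
    (a := k - n) (b := n)
  rw [sub_add_cancel, one_mul] at this
  exact this

theorem cf_mul (f g : K) (n : ℤ) : cf (f * g) n =
    ∑ ij ∈ Finset.antidiagonal (HahnSeries.isPWO_support (Γ := ℤ) (R := ℂ) f)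
      (HahnSeries.isPWO_support (Γ := ℤ) (R := ℂ) g) n, cf f ij.1 * cf g ij.2 :=
  HahnSeries.coeff_mul

/-- Constant vectors. -/
noncomputable def cv (x : V ℂ) : V K := fun i => cc (x i)

/-- Constant matrices. -/
noncomputable def cM (A : M ℂ) : M K := fun i j => cc (A i j)

/-- `f` has order at least `n`. -/
def Ord (f : K) (n : ℤ) : Prop := ∀ k < n, cf f k = 0

theorem Ord.mono {f : K} {n m : ℤ} (h : Ord f n) (hm : m ≤ n) : Ord f m :=
  fun k hk => h k (lt_of_lt_of_le hk hm)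

theorem Ord.add {f g : K} {n : ℤ} (hf : Ord f n) (hg : Ord g n) : Ord (f + g) n := by
  intro k hk; rw [cf_add, hf k hk, hg k hk, add_zero]

theorem Ord.sub {f g : K} {n : ℤ} (hf : Ord f n) (hg : Ord g n) : Ord (f - g) n := by
  intro k hk; rw [cf_sub, hf k hk, hg k hk, sub_zero]

theorem Ord.neg {f : K} {n : ℤ} (hf : Ord f n) : Ord (-f) n := by
  intro k hk; rw [cf_neg, hf k hk, neg_zero]

theorem Ord.smul {f : K} {n : ℤ} (c : ℂ) (hf : Ord f n) : Ord (c • f) n := by
  intro k hk; rw [cf_smul, hf k hk, mul_zero]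

theorem Ord.zero (n : ℤ) : Ord 0 n := fun _ _ => rfl

theorem Ord.cc (c : ℂ) : Ord (cc c) 0 := by
  intro k hk; rw [cf_cc, if_neg hk.ne]

theorem Ord.lam (n : ℤ) : Ord (lam n) n := by
  intro k hk; rw [cf_lam, if_neg hk.ne]

theorem Ord.mul {f g : K} {n m : ℤ} (hf : Ord f n) (hg : Ord g m) : Ord (f * g) (n + m) := by
  intro k hk
  rw [cf_mul]
  apply Finset.sum_eq_zero
  intro p hp
  rw [Finset.mem_antidiagonal] at hp
  obtain ⟨-, -, hp⟩ := hp
  by_cases h : p.1 < n
  · rw [hf _ h, zero_mul]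
  · rw [hg _ (by omega), mul_zero]

theorem coeff_mul_lead {f g : K} {n m : ℤ} (hf : Ord f n) (hg : Ord g m) :
    cf (f * g) (n + m) = cf f n * cf g m := by
  rw [cf_mul]
  apply Finset.sum_eq_single (n, m)
  · intro p hp hne
    rw [Finset.mem_antidiagonal] at hp
    obtain ⟨-, -, hp⟩ := hp
    by_cases h : p.1 < n
    · rw [hf _ h, zero_mul]
    · by_cases h' : p.2 < m
      · rw [hg _ h', mul_zero]
      · exact absurd (Prod.ext (by simp; omega) (by simp; omega)) hne
  · intro hp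
    rw [Finset.mem_antidiagonal] at hp
    by_cases h : cf f n = 0
    · simp [h]
    · by_cases h' : cf g m = 0
      · simp [h']
      · exact absurd ⟨h, h', rfl⟩ hp

theorem exists_ord (f : K) : ∃ n : ℤ, Ord f n :=
  ⟨HahnSeries.order (Γ := ℤ) (R := ℂ) f, fun _ hk => HahnSeries.coeff_eq_zero_of_lt_order hk⟩

theorem eq_zero_of_ord {f : K} (h : ∀ n : ℤ, Ord f n) : f = 0 := by
  apply K_ext
  intro n
  rw [h (n + 1) n (by omega)]
  rfl

/-- Induction: a series whose order can always be increased vanishes. -/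
theorem eq_zero_of_step {ι : Type*} [Finite ι] (f : ι → K)
    (h : ∀ n : ℤ, (∀ i, Ord (f i) n) → ∀ i, Ord (f i) (n + 1)) : ∀ i, f i = 0 := by
  have h0 : ∃ n : ℤ, ∀ i, Ord (f i) n := by
    choose n hn using fun i => exists_ord (f i)
    have : BddBelow (Set.range n) := Set.Finite.bddBelow (Set.finite_range n)
    obtain ⟨b, hb⟩ := this
    exact ⟨b, fun i => (hn i).mono (hb ⟨i, rfl⟩)⟩
  obtain ⟨n, hn⟩ := h0
  have h1 : ∀ m : ℕ, ∀ i, Ord (f i) (n + m) := by
    intro m
    induction m with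
    | zero => simpa using hn
    | succ m ih =>
      intro i
      have := h _ ih i
      push_cast
      rwa [← add_assoc]
  intro i
  apply eq_zero_of_ord
  intro k
  exact (h1 (k - n).toNat i).mono (by omega)

/-- `f = c λ^n + …`. -/
def LC (f : K) (n : ℤ) (c : ℂ) : Prop := Ord f n ∧ cf f n = c

theorem LC.unique {f : K} {n : ℤ} {c d : ℂ} (h : LC f n c) (h' : LC f n d) : c = d :=
  h.2.symm.trans h'.2

theorem LC.add {f g : K} {n : ℤ} {c d : ℂ} (hf : LC f n c) (hg : LC g n d) :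
    LC (f + g) n (c + d) := ⟨hf.1.add hg.1, by rw [cf_add, hf.2, hg.2]⟩

theorem LC.sub {f g : K} {n : ℤ} {c d : ℂ} (hf : LC f n c) (hg : LC g n d) :
    LC (f - g) n (c - d) := ⟨hf.1.sub hg.1, by rw [cf_sub, hf.2, hg.2]⟩

theorem LC.neg {f : K} {n : ℤ} {c : ℂ} (hf : LC f n c) : LC (-f) n (-c) :=
  ⟨hf.1.neg, by rw [cf_neg, hf.2]⟩

theorem LC.mul {f g : K} {n m : ℤ} {c d : ℂ} (hf : LC f n c) (hg : LC g m d) :
    LC (f * g) (n + m) (c * d) :=
  ⟨hf.1.mul hg.1, by rw [coeff_mul_lead hf.1 hg.1, hf.2, hg.2]⟩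

theorem LC.cc (c : ℂ) : LC (cc c) 0 c := ⟨Ord.cc c, by rw [cf_cc, if_pos rfl]⟩

theorem LC.lam (n : ℤ) : LC (lam n) n 1 := ⟨Ord.lam n, by rw [cf_lam, if_pos rfl]⟩

theorem LC.ord {f : K} {n : ℤ} (h : Ord f (n + 1)) : LC f n 0 :=
  ⟨h.mono (by omega), h n (by omega)⟩

theorem LC.zero (n : ℤ) : LC 0 n 0 := ⟨Ord.zero n, rfl⟩

theorem LC.ord_succ {f : K} {n : ℤ} (h : LC f n 0) : Ord f (n + 1) := by
  intro k hk
  rcases (by omega : k < n ∨ k = n) with h1 | h1
  · exact h.1 k h1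
  · rw [h1, h.2]

theorem LC.self {f : K} {n : ℤ} (h : Ord f n) : LC f n (cf f n) := ⟨h, rfl⟩

theorem LC.ne {f : K} {n : ℤ} {c : ℂ} (h : LC f n c) (hc : c ≠ 0) : f ≠ 0 := by
  rintro rfl
  exact hc (h.unique (LC.zero n))

theorem LC.congr {f : K} {n m : ℤ} {c d : ℂ} (h : LC f n c) (h1 : n = m) (h2 : c = d) :
    LC f m d := by subst h1; subst h2; exact h

theorem LC.inv {f : K} {n : ℤ} {c : ℂ} (h : LC f n c) (hc : c ≠ 0) : LC f⁻¹ (-n) c⁻¹ := by
  have hf := h.ne hc
  -- the order of the inverse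
  obtain ⟨m, hm⟩ := exists_ord f⁻¹
  have key : ∀ j : ℕ, m + j ≤ -n → Ord f⁻¹ (m + j) := by
    intro j
    induction j with
    | zero => intro _; simpa using hm
    | succ j ih =>
      intro hj
      push_cast at hj ⊢
      have h1 := ih (by omega)
      have h2 := h.mul (LC.self h1)
      rw [mul_inv_cancel₀ hf] at h2
      have h3 : cf (1 : K) (n + (m + j)) = 0 := by
        have := cf_cc 1 (n + (m + j))
        rw [map_one] at this
        rw [this, if_neg (by omega)]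
      have h4 : c * cf f⁻¹ (m + j) = 0 := by rw [← h2.2, h3]
      have h5 := (mul_eq_zero.mp h4).resolve_left hc
      have h6 : LC f⁻¹ (m + j) 0 := ⟨h1, h5⟩
      rw [← add_assoc]
      exact h6.ord_succ
  have hord : Ord f⁻¹ (-n) := by
    by_cases hmn : m ≤ -n
    · have := key (-n - m).toNat (by omega)
      exact this.mono (by omega)
    · exact hm.mono (by omega)
  have h2 := h.mul (LC.self hord)
  rw [mul_inv_cancel₀ hf, add_neg_cancel] at h2
  have h3 : c * cf f⁻¹ (-n) = 1 := by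
    rw [← h2.2]
    have := cf_cc 1 0
    rw [map_one, if_pos rfl] at this
    exact this
  exact ⟨hord, eq_inv_of_mul_eq_one_right h3⟩

/-- Vectors: `x = c λ^n + …`. -/
def LV (x : V K) (n : ℤ) (c : V ℂ) : Prop := ∀ i, LC (x i) n (c i)

/-- Matrices: `A = C λ^n + …`. -/
def LM (A : M K) (n : ℤ) (C : M ℂ) : Prop := ∀ i j, LC (A i j) n (C i j)

theorem LV.unique {x : V K} {n : ℤ} {c d : V ℂ} (h : LV x n c) (h' : LV x n d) : c = d :=
  funext fun i => (h i).unique (h' i)

theorem LM.unique {x : M K} {n : ℤ} {c d : M ℂ} (h : LM x n c) (h' : LM x n d) : c = d := by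
  ext i j; exact (h i j).unique (h' i j)

theorem LV.add {x y : V K} {n : ℤ} {c d : V ℂ} (h : LV x n c) (h' : LV y n d) :
    LV (x + y) n (c + d) := fun i => (h i).add (h' i)
theorem LV.sub {x y : V K} {n : ℤ} {c d : V ℂ} (h : LV x n c) (h' : LV y n d) :
    LV (x - y) n (c - d) := fun i => (h i).sub (h' i)
theorem LV.neg {x : V K} {n : ℤ} {c : V ℂ} (h : LV x n c) : LV (-x) n (-c) :=
  fun i => (h i).neg
theorem LV.smul {f : K} {x : V K} {n m : ℤ} {a : ℂ} {c : V ℂ} (hf : LC f n a) (h : LV x m c) :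
    LV (f • x) (n + m) (a • c) := fun i => hf.mul (h i)
theorem LM.add {x y : M K} {n : ℤ} {c d : M ℂ} (h : LM x n c) (h' : LM y n d) :
    LM (x + y) n (c + d) := fun i j => (h i j).add (h' i j)
theorem LM.sub {x y : M K} {n : ℤ} {c d : M ℂ} (h : LM x n c) (h' : LM y n d) :
    LM (x - y) n (c - d) := fun i j => (h i j).sub (h' i j)
theorem LM.smul {f : K} {x : M K} {n m : ℤ} {a : ℂ} {c : M ℂ} (hf : LC f n a) (h : LM x m c) :
    LM (f • x) (n + m) (a • c) := fun i j => hf.mul (h i j)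

theorem LV.cr {x y : V K} {n m : ℤ} {c d : V ℂ} (h : LV x n c) (h' : LV y m d) :
    LV (cr x y) (n + m) (cr c d) := by
  intro i
  fin_cases i
  · exact ((h 1).mul (h' 2)).sub ((h 2).mul (h' 1))
  · exact ((h 2).mul (h' 0)).sub ((h 0).mul (h' 2))
  · exact ((h 0).mul (h' 1)).sub ((h 1).mul (h' 0))

theorem LC.dt {x y : V K} {n m : ℤ} {c d : V ℂ} (h : LV x n c) (h' : LV y m d) :
    LC (dt x y) (n + m) (dt c d) :=
  (((h 0).mul (h' 0)).add ((h 1).mul (h' 1))).add ((h 2).mul (h' 2))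

theorem LM.mv {A : M K} {x : V K} {n m : ℤ} {C : M ℂ} {c : V ℂ} (h : LM A n C) (h' : LV x m c) :
    LV (mv A x) (n + m) (mv C c) := by
  intro i
  rw [mv_apply, mv_apply]
  exact (((h i 0).mul (h' 0)).add ((h i 1).mul (h' 1))).add ((h i 2).mul (h' 2))

theorem LM.mm {A B : M K} {n m : ℤ} {C D : M ℂ} (h : LM A n C) (h' : LM B m D) :
    LM (mm A B) (n + m) (mm C D) := by
  intro i j
  rw [mm_apply, mm_apply]
  exact (((h i 0).mul (h' 0 j)).add ((h i 1).mul (h' 1 j))).add ((h i 2).mul (h' 2 j))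

theorem LM.tp {A : M K} {n : ℤ} {C : M ℂ} (h : LM A n C) : LM (tp A) n (tp C) := by
  intro i j
  rw [tp_apply, tp_apply]
  exact h j i

theorem LM.cof {A : M K} {n : ℤ} {C : M ℂ} (h : LM A n C) : LM (cof A) (n + n) (cof C) := by
  have e : ∀ a b c d e f g l : Fin 3, LC (A a b * A c d - A e f * A g l) (n + n)
      (C a b * C c d - C e f * C g l) := fun a b c d e f g l =>
    ((h a b).mul (h c d)).sub ((h e f).mul (h g l))
  intro i j
  fin_cases i <;> fin_cases j <;> exact e _ _ _ _ _ _ _ _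

theorem LC.det3 {A : M K} {n : ℤ} {C : M ℂ} (h : LM A n C) :
    LC (det3 A) (n + (n + n)) (det3 C) :=
  (((h 0 0).mul (((h 1 1).mul (h 2 2)).sub ((h 1 2).mul (h 2 1)))).add
    ((h 0 1).mul (((h 1 2).mul (h 2 0)).sub ((h 1 0).mul (h 2 2))))).add
    ((h 0 2).mul (((h 1 0).mul (h 2 1)).sub ((h 1 1).mul (h 2 0))))

theorem LV.cv (x : V ℂ) : LV (cv x) 0 x := fun i => LC.cc (x i)
theorem LM.cM (A : M ℂ) : LM (cM A) 0 A := fun i j => LC.cc (A i j)

theorem LM.sc {f : K} {n : ℤ} {c : ℂ} (h : LC f n c) : LM (sc f) n (sc c) := by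
  intro i j
  fin_cases i <;> fin_cases j <;> first | exact h | exact LC.zero n

theorem LV.congr {f : V K} {n m : ℤ} {c d : V ℂ} (h : LV f n c) (h1 : n = m) (h2 : c = d) :
    LV f m d := by subst h1; subst h2; exact h
theorem LM.congr {f : M K} {n m : ℤ} {c d : M ℂ} (h : LM f n c) (h1 : n = m) (h2 : c = d) :
    LM f m d := by subst h1; subst h2; exact h

/-! ### Constants -/

@[simp] theorem cv_apply (x : V ℂ) (i : Fin 3) : cv x i = cc (x i) := rfl
@[simp] theorem cM_apply (A : M ℂ) (i j : Fin 3) : cM A i j = cc (A i j) := rfl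

theorem cM_inj {A B : M ℂ} (h : cM A = cM B) : A = B := by
  ext i j
  exact cc_inj (congrFun (congrFun h i) j)
theorem cv_inj {A B : V ℂ} (h : cv A = cv B) : A = B := by
  funext i
  exact cc_inj (congrFun h i)
theorem cM_mv (A : M ℂ) (x : V ℂ) : cv (mv A x) = mv (cM A) (cv x) := by
  funext i; simp
theorem cM_tp (A : M ℂ) : cM (tp A) = tp (cM A) := by
  ext i j; simp
theorem cM_cof (A : M ℂ) : cM (cof A) = cof (cM A) := by
  apply m_ext <;> simp
theorem cM_mm (A B : M ℂ) : cM (mm A B) = mm (cM A) (cM B) := by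
  apply m_ext <;> simp
theorem cM_sc (a : ℂ) : cM (sc a) = sc (cc a) := by
  apply m_ext <;> simp
theorem cM_add (A B : M ℂ) : cM (A + B) = cM A + cM B := by
  apply m_ext <;> simp
theorem cM_sub (A B : M ℂ) : cM (A - B) = cM A - cM B := by
  apply m_ext <;> simp
theorem cM_neg (A : M ℂ) : cM (-A) = -cM A := by
  apply m_ext <;> simp
theorem cM_smul (a : ℂ) (B : M ℂ) : cM (a • B) = cc a • cM B := by
  apply m_ext <;> simp
theorem cM_zero : cM 0 = 0 := by
  apply m_ext <;> simp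
theorem cM_op (a b : V ℂ) : cM (op a b) = op (cv a) (cv b) := by
  apply m_ext <;> simp
theorem cv_cr (a b : V ℂ) : cv (cr a b) = cr (cv a) (cv b) := by
  apply v_ext <;> simp
theorem cv_add (a b : V ℂ) : cv (a + b) = cv a + cv b := by
  apply v_ext <;> simp
theorem cv_sub (a b : V ℂ) : cv (a - b) = cv a - cv b := by
  apply v_ext <;> simp
theorem cv_neg (a : V ℂ) : cv (-a) = -cv a := by
  apply v_ext <;> simp
theorem cv_smul (c : ℂ) (a : V ℂ) : cv (c • a) = cc c • cv a := by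
  apply v_ext <;> simp
theorem cv_zero : cv 0 = 0 := by
  apply v_ext <;> simp
theorem cc_dt (a b : V ℂ) : cc (dt a b) = dt (cv a) (cv b) := by
  simp [dt]
theorem cc_det3 (A : M ℂ) : cc (det3 A) = det3 (cM A) := by
  simp [det3]

/-- A quadratic identity holding for constant vectors holds for all vectors; stated for
polarised expressions. -/
theorem mv_ext_cv {A B : M K} (h : ∀ x : V ℂ, mv A (cv x) = mv B (cv x)) : A = B := by
  have h0 := h ![1, 0, 0]
  have h1 := h ![0, 1, 0]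
  have h2 := h ![0, 0, 1]
  have e : ∀ i, A i 0 = B i 0 ∧ A i 1 = B i 1 ∧ A i 2 = B i 2 := by
    intro i
    have a0 := congrFun h0 i
    have a1 := congrFun h1 i
    have a2 := congrFun h2 i
    simp at a0 a1 a2
    exact ⟨a0, a1, a2⟩
  exact m_ext (e 0).1 (e 0).2.1 (e 0).2.2 (e 1).1 (e 1).2.1 (e 1).2.2 (e 2).1 (e 2).2.1 (e 2).2.2

end Helper496
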