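import Pool.Agent.Helper496_So4.Eqs
import Pool.Agent.Helper496_So4.Crit

/-!
`so_4((λ))` and its two factors.
-/

set_option autoImplicit false

namespace Helper496

attribute [local instance 100] LieRing.ofAssociativeRing

/-- `4 × 4` matrices of Laurent series. -/
abbrev M4 := Matrix (Fin 4) (Fin 4) K

/-- The isomorphism of `so_3 ⊕ so_3` with `so_4`. -/
noncomputable def iota (a b : V K) : M4 := (2 : K)⁻¹ • !![
  0, -a 0 + b 0, -a 1 + b 1, -a 2 + b 2;
  a 0 - b 0, 0, -a 2 - b 2, a 1 + b 1;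
  a 1 - b 1, a 2 + b 2, 0, -a 0 - b 0;
  a 2 - b 2, -a 1 - b 1, a 0 + b 0, 0]

theorem m4_ext {X Y : M4} (h : ∀ i j, X i j = Y i j) : X = Y := by
  ext i j; exact h i j

/-- The properties of `iota` which are used. -/
structure IO (io : V K → V K → M4) : Prop where
  add : ∀ a b c d, io (a + c) (b + d) = io a b + io c d
  smul : ∀ (r : ℂ) a b, io (cc r • a) (cc r • b) = r • io a b
  br : ∀ a b c d, ⁅io a b, io c d⁆ = io (cr a c) (cr b d)
  inj : ∀ a b, io a b = 0 → a = 0 ∧ b = 0

theorem IO_iota : IO iota where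
  add a b c d := by
    apply m4_ext
    intro i j
    fin_cases i <;> fin_cases j <;> simp [iota] <;> ring
  smul r a b := by
    apply m4_ext
    intro i j
    fin_cases i <;> fin_cases j <;> simp [iota, smul_cc] <;> ring
  br a b c d := by
    rw [Ring.lie_def]
    have h2 : (2 : K) ≠ 0 := two_ne_zero
    apply m4_ext
    intro i j
    fin_cases i <;> fin_cases j <;>
      simp [iota, Matrix.mul_apply, Fin.sum_univ_four] <;> field_simp <;> ring
  inj a b h := by
    have h2 : (2 : K) ≠ 0 := two_ne_zero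
    have e : ∀ i j, iota a b i j = 0 := fun i j => by rw [h]; rfl
    have h01 := e 0 1
    have h02 := e 0 2
    have h03 := e 0 3
    have h12 := e 1 2
    have h13 := e 1 3
    have h23 := e 2 3
    simp [iota] at h01 h02 h03 h12 h13 h23
    constructor
    · apply v_ext
      · show a 0 = 0
        have : 2 * a 0 = 0 := by linear_combination -h01 - h23
        simpa using this
      · show a 1 = 0
        have : 2 * a 1 = 0 := by linear_combination -h02 + h13
        simpa using this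
      · show a 2 = 0
        have : 2 * a 2 = 0 := by linear_combination -h03 - h12
        simpa using this
    · apply v_ext
      · show b 0 = 0
        have : 2 * b 0 = 0 := by linear_combination h01 - h23
        simpa using this
      · show b 1 = 0
        have : 2 * b 1 = 0 := by linear_combination h02 + h13
        simpa using this
      · show b 2 = 0
        have : 2 * b 2 = 0 := by linear_combination h03 - h12
        simpa using this

theorem IO.flip {io : V K → V K → M4} (h : IO io) : IO (fun a b => io b a) where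
  add a b c d := h.add b a d c
  smul r a b := h.smul r b a
  br a b c d := h.br b a d c
  inj a b hab := (h.inj b a hab).symm

theorem IO.neg {io : V K → V K → M4} (h : IO io) (a b : V K) : io (-a) (-b) = -io a b := by
  have h1 := h.smul (-1) a b
  rw [map_neg, map_one, neg_one_smul, neg_one_smul, neg_one_smul] at h1
  exact h1

theorem IO.sub {io : V K → V K → M4} (h : IO io) (a b c d : V K) :
    io (a - c) (b - d) = io a b - io c d := by
  rw [sub_eq_add_neg, sub_eq_add_neg, h.add, h.neg, sub_eq_add_neg]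

theorem IO.inj' {io : V K → V K → M4} (h : IO io) {a b c d : V K} (hab : io a b = io c d) :
    a = c ∧ b = d := by
  have h1 : io (a - c) (b - d) = 0 := by rw [h.sub, hab, sub_self]
  obtain ⟨h2, h3⟩ := h.inj _ _ h1
  exact ⟨sub_eq_zero.mp h2, sub_eq_zero.mp h3⟩

/-- The linear map `x ↦ io (A x, B x)`. -/
noncomputable def lm {io : V K → V K → M4} (h : IO io) (A B : M K) : V ℂ →ₗ[ℂ] M4 where
  toFun x := io (mv A (cv x)) (mv B (cv x))
  map_add' x y := by rw [cv_add, mv_add, mv_add, h.add]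
  map_smul' c x := by rw [cv_smul, mv_smul, mv_smul, h.smul, RingHom.id_apply]

theorem lm_apply {io : V K → V K → M4} (h : IO io) (A B : M K) (x : V ℂ) :
    lm h A B x = io (mv A (cv x)) (mv B (cv x)) := rfl

/-! ### Generic computation in a Lie algebra -/

section generic
variable {L : Type*} [LieRing L] [LieAlgebra ℂ L]

/-- The trace part. -/
def trN (P Q : M ℂ) (y : V ℂ) : ℂ := dt ![1, 0, 0] (mv P (cr (mv Q ![1, 0, 0]) y)) +
      dt ![0, 1, 0] (mv P (cr (mv Q ![0, 1, 0]) y)) +
      dt ![0, 0, 1] (mv P (cr (mv Q ![0, 0, 1]) y))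

/-- `M(z,y)`. -/
def Mzy (P Q : M ℂ) (z y : V ℂ) : V ℂ :=
  trN P Q y • z + mv (tp Q) (cr (mv (tp P) z) y)

theorem Mzy_cr (P Q : M ℂ) (a b y : V ℂ) :
    cr a (mv P (cr (mv Q b) y)) - cr b (mv P (cr (mv Q a) y)) = Mzy P Q (cr a b) y := by
  apply v_ext <;> simp [Mzy, trN, dt] <;> ring

theorem lin_extC {E : Type*} [AddCommGroup E] [Module ℂ E] {F G : V ℂ → E}
    (hF : ∀ (r : ℂ) x y, F (x + r • y) = F x + r • F y)
    (hG : ∀ (r : ℂ) x y, G (x + r • y) = G x + r • G y) (h0 : F 0 = G 0)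
    (h : ∀ a b, F (cr a b) = G (cr a b)) (x : V ℂ) : F x = G x := by
  have e0 : ∀ x : V ℂ, x = ((0 + x 0 • cr ![0, 1, 0] ![0, 0, 1]) + x 1 • cr ![0, 0, 1] ![1, 0, 0]) +
      x 2 • cr ![1, 0, 0] ![0, 1, 0] := by
    intro x; apply v_ext <;> simp
  rw [e0 x, hF, hF, hF, hG, hG, hG, h, h, h, h0]

theorem gen1 (X Y : V ℂ →ₗ[ℂ] L) (P Q : M ℂ)
    (hR : ∀ x y, ⁅X x, Y y⁆ = X (cr x (mv P y)) + Y (cr (mv Q x) y)) (z y : V ℂ) :
    ⁅xs X 1 z, Y y⁆ = xs X 1 (cr z (mv P y)) + X (Mzy P Q z y) +
      Y (cr (mv (cof Q) z) y) := by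
  have hcr : ∀ a b, ⁅xs X 1 (cr a b), Y y⁆ = xs X 1 (cr (cr a b) (mv P y)) +
      X (Mzy P Q (cr a b) y) + Y (cr (mv (cof Q) (cr a b)) y) := by
    intro a b
    have j1 : ⁅⁅X a, X b⁆, Y y⁆ = ⁅X a, ⁅X b, Y y⁆⁆ - ⁅X b, ⁅X a, Y y⁆⁆ := lie_lie _ _ _
    rw [xs_one, j1, hR, hR, lie_add, lie_add, hR, hR, ← xs_one, ← xs_one, ← Mzy_cr, ← id3]
    have e1 : cr a (cr b (mv P y)) = cr (cr a b) (mv P y) + cr b (cr a (mv P y)) :=
      cr_jacobi _ _ _
    have e2 : cr (mv Q a) (cr (mv Q b) y) = cr (cr (mv Q a) (mv Q b)) y +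
      cr (mv Q b) (cr (mv Q a) y) := cr_jacobi _ _ _
    rw [e1, e2, map_add, map_add, map_sub]
    abel
  apply lin_extC (F := fun z => ⁅xs X 1 z, Y y⁆) (G := fun z => xs X 1 (cr z (mv P y)) +
    X (Mzy P Q z y) + Y (cr (mv (cof Q) z) y)) _ _ _ hcr
  · intro r a b
    simp only [map_add, map_smul, add_lie, smul_lie]
  · intro r a b
    simp only [Mzy, mv_add, mv_smul, cr_add_left, cr_smul_left, map_add, map_smul, smul_add]
    module
  · simp only [Mzy, mv_zero, cr_zero_left, map_zero, zero_lie, smul_zero, add_zero]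

/-- The defect of the relation `(R3)`. -/
noncomputable def dfct (X : V ℂ →ₗ[ℂ] L) (A B : M ℂ) (x z : V ℂ) : L :=
  ⁅X x, xs X 1 z⁆ - xs X 1 (cr x (mv A z)) - X (cr x (mv B z))

theorem gen2 (X Y : V ℂ →ₗ[ℂ] L) (P Q A B : M ℂ) (hst : RS Q A B)
    (hR : ∀ x y, ⁅X x, Y y⁆ = X (cr x (mv P y)) + Y (cr (mv Q x) y)) (x y : V ℂ) :
    ∃ a b : V ℂ, ⁅dfct X A B x x, Y y⁆ =
      (dfct X A B x (cr x (mv P y)) + dfct X A B (cr x (mv P y)) x) + (xs X 1 a + X b) := by
  have j1 : ⁅⁅X x, xs X 1 x⁆, Y y⁆ = ⁅X x, ⁅xs X 1 x, Y y⁆⁆ - ⁅xs X 1 x, ⁅X x, Y y⁆⁆ :=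
    lie_lie _ _ _
  have hsk : ⁅xs X 1 x, X (cr x (mv P y))⁆ = -⁅X (cr x (mv P y)), xs X 1 x⁆ :=
    (lie_skew _ _).symm
  set z := cr x (mv P y) with hz
  refine ⟨cr x (mv A z) + cr z (mv A x) + cr x (Mzy P Q x y) -
      cr x (mv P (cr (mv Q x) y)) - cr (cr x (mv A x)) (mv P y),
    cr x (mv B z) + cr z (mv B x) + cr x (mv P (cr (mv (cof Q) x) y)) -
      Mzy P Q x (cr (mv Q x) y) - Mzy P Q (cr x (mv A x)) y -
      cr (cr x (mv B x)) (mv P y), ?_⟩
  have hYc : Y (cr (mv Q x) (cr (mv (cof Q) x) y)) - Y (cr (mv (cof Q) x) (cr (mv Q x) y)) =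
      Y (cr (mv (cof Q) (cr x (mv A x))) y) + Y (cr (mv Q (cr x (mv B x))) y) := by
    rw [← map_sub, ← map_add, ← cr_add_left, ← hst x]
    congr 1
    rw [cr_jacobi (mv Q x)]
    abel
  rw [dfct, dfct, dfct, sub_lie, sub_lie, j1, gen1 X Y P Q hR, gen1 X Y P Q hR, hR, hR,
    ← hz, lie_add, lie_add, lie_add, hsk, gen1 X Y P Q hR, hR, ← xs_one]
  simp only [map_add, map_sub]
  rw [sub_eq_iff_eq_add] at hYc
  rw [hYc]
  abel

end generic

theorem xs_lm {io : V K → V K → M4} (h : IO io) (A B : M K) (z : V ℂ) :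
    xs (lm h A B) 1 z = io (mv (cof A) (cv z)) (mv (cof B) (cv z)) := by
  apply lin_extC (F := fun z => xs (lm h A B) 1 z)
    (G := fun z => io (mv (cof A) (cv z)) (mv (cof B) (cv z)))
  · intro r a b; simp only [map_add, map_smul]
  · intro r a b
    simp only [cv_add, cv_smul, mv_add, mv_smul]
    rw [h.add, h.smul]
  · simp only [map_zero, cv_zero, mv_zero]
    have := h.smul 0 0 0
    rw [map_zero, zero_smul, zero_smul] at this
    exact this.symm
  · intro a b
    rw [xs_one, lm_apply, lm_apply, h.br, id3, id3, ← cv_cr]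

/-- A frame for `H`. -/
structure Frame (N H : M K) : Prop where
  gram : mm (tp N) N = cof H
  cofN : mm N H = cof N
  lead : LM N (-1) 1

theorem det3_one : det3 (1 : M ℂ) = 1 := by rw [← sc_one, det3_sc]; norm_num

theorem Frame.mk' {N H : M K} {A : M ℂ} (hp : Pol H A) (h : mm (tp N) N = cof H)
    (hl : LM N (-1) 1) : Frame N H := by
  refine ⟨h, ?_, hl⟩
  have hdN : LC (det3 N) (-3) 1 := by
    have := LC.det3 hl
    rw [det3_one] at this
    exact this.congr (by norm_num) rfl
  have hdH : LC (det3 H) (-3) 1 := by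
    have := LC.det3 hp.lead'
    rw [det3_one] at this
    exact this.congr (by norm_num) rfl
  have hsq : (det3 N - det3 H) * (det3 N + det3 H) = 0 := by
    have h1 := congrArg det3 h
    rw [det3_mm, det3_tp, det3_cof] at h1
    linear_combination h1
  have hsum : det3 N + det3 H ≠ 0 := (hdN.add hdH).ne (by norm_num)
  have hdet : det3 N = det3 H := sub_eq_zero.mp ((mul_eq_zero.mp hsq).resolve_right hsum)
  have hNne : det3 N ≠ 0 := hdN.ne one_ne_zero
  have h1 : mm (tp N) (mm N H) = mm (tp N) (cof N) := by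
    rw [← mm_assoc, h, mm_tp_cof, hdet]
    have h2 := mm_cof_tp H
    rw [hp.sym] at h2
    exact h2
  have h2 : mm (cof N) (mm (tp N) (mm N H)) = mm (cof N) (mm (tp N) (cof N)) := by rw [h1]
  rw [← mm_assoc, ← mm_assoc (cof N) (tp N) (cof N), mm_cof_tp, sc_mm, sc_mm] at h2
  exact smul_right_injective _ hNne h2

/-- The relation `(R2)`. -/
theorem R2 {io : V K → V K → M4} (h : IO io) {H W H' W' N N' : M K} {P Q : M ℂ}
    (hN : Frame N H) (hN' : Frame N' H') (he : RE H W P Q) (he' : RE H' W' Q P) (x y : V ℂ) :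
    ⁅lm h N (mm N' W') x, lm h (mm N W) N' y⁆ =
      lm h N (mm N' W') (cr x (mv P y)) + lm h (mm N W) N' (cr (mv Q x) y) := by
  rw [lm_apply, lm_apply, h.br, lm_apply, lm_apply, ← h.add]
  congr 1
  · rw [mm_mv, id3, ← hN.cofN, mm_mv, he, mv_add, cv_cr, cM_mv, cv_cr, cM_mv, mm_mv]
  · rw [mm_mv, cr_skew, id3, ← hN'.cofN, mm_mv, he', mv_add, cv_cr, cM_mv, cv_cr, cM_mv, mm_mv,
      cr_skew (cv y), cr_skew (mv (cM P) (cv y)), mv_neg, mv_neg, mv_neg]
    abel

/-- The relation `(R3)`. -/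
theorem R3 {io : V K → V K → M4} (h : IO io) {H W H' W' N N' : M K} {P Q A B : M ℂ} {a : ℂ}
    (hp : Pol H (A + sc a)) (hN : Frame N H) (hN' : Frame N' H') (he : RE H W P Q)
    (he' : RE H' W' Q P) (hf : RF H A B) (hst : RS Q A B) (x : V ℂ) :
    ⁅lm h N (mm N' W') x, xs (lm h N (mm N' W')) 1 x⁆ =
      xs (lm h N (mm N' W')) 1 (cr x (mv A x)) + lm h N (mm N' W') (cr x (mv B x)) := by
  set X := lm h N (mm N' W') with hX
  set Y := lm h (mm N W) N' with hY
  set T := mm N' W' with hT
  have hR2 : ∀ x y, ⁅X x, Y y⁆ = X (cr x (mv P y)) + Y (cr (mv Q x) y) :=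
    fun x y => R2 h hN hN' he he' x y
  -- the bilinear defect
  let f1 : V ℂ → V ℂ → V K := fun x z => cr (mv N (cv x)) (mv (cof N) (cv z)) -
    mv (cof N) (cv (cr x (mv A z))) - mv N (cv (cr x (mv B z)))
  let f2 : V ℂ → V ℂ → V K := fun x z => cr (mv T (cv x)) (mv (cof T) (cv z)) -
    mv (cof T) (cv (cr x (mv A z))) - mv T (cv (cr x (mv B z)))
  have hd : ∀ x z, dfct X A B x z = io (f1 x z) (f2 x z) := by
    intro x z
    rw [dfct, xs_lm, xs_lm, lm_apply, lm_apply, h.br, ← h.sub, ← h.sub]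
  -- the first component vanishes on the diagonal
  have hf1 : ∀ x, f1 x x = 0 := by
    intro x
    have h1 := hf (cv x)
    rw [sub_mv, cr_sub_right, mv_sub] at h1
    show cr (mv N (cv x)) (mv (cof N) (cv x)) -
      mv (cof N) (cv (cr x (mv A x))) - mv N (cv (cr x (mv B x))) = 0
    rw [← hN.cofN, mm_mv, id3, ← hN.cofN, mm_mv, mm_mv, cv_cr, cM_mv, cv_cr, cM_mv, ← h1,
      mv_sub]
    abel
  have q1 : ∀ x z : V ℂ, f1 x z + f1 z x = f1 (x + z) (x + z) - f1 x x - f1 z z := by
    intro x z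
    simp only [f1, cv_add, mv_add, cr_add_left, cr_add_right]
    abel
  have q2 : ∀ x z : V ℂ, f2 x z + f2 z x = f2 (x + z) (x + z) - f2 x x - f2 z z := by
    intro x z
    simp only [f2, cv_add, mv_add, cr_add_left, cr_add_right]
    abel
  have hkey : ∀ x y : V ℂ, cr (f2 x x) (mv N' (cv y)) =
      f2 x (cr x (mv P y)) + f2 (cr x (mv P y)) x := by
    intro x y
    obtain ⟨u, w, h1⟩ := gen2 X Y P Q A B hst hR2 x y
    rw [hd, hd, hd, hf1, xs_lm, lm_apply, lm_apply, h.br, cr_zero_left, ← h.add, ← h.add,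
      ← h.add] at h1
    obtain ⟨h2, h3⟩ := h.inj' h1
    rw [q1, hf1, hf1, hf1, sub_zero, sub_zero, zero_add, ← hN.cofN, mm_mv, ← mv_add] at h2
    -- `N` is injective
    have hdN : det3 N ≠ 0 := by
      have := LC.det3 hN.lead
      rw [det3_one] at this
      exact this.ne one_ne_zero
    have h4 : mv H (cv u) + cv w = 0 := by
      have h5 : mv (tp (cof N)) (mv N (mv H (cv u) + cv w)) = 0 := by rw [← h2, mv_zero]
      have h6 : mm (tp (cof N)) N = sc (det3 N) := by
        have := mm_cof_tp (tp N)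
        rw [tp_tp, det3_tp, ← tp_cof] at this
        exact this
      rw [← mm_mv, h6, sc_mv] at h5
      exact (smul_eq_zero.mp h5).resolve_left hdN
    have hu : u = 0 := by
      have l1 := hp.lead'.mv (LV.cv u)
      have l2 : LV (cv w) (-1 + 0) 0 := fun i => LC.ord ((LV.cv w i).1.mono (by norm_num))
      have l3 := l1.add l2
      rw [h4] at l3
      have l4 := l3.unique (fun i => LC.zero _ : LV 0 (-1 + 0) 0)
      rw [← sc_one, sc_mv, one_smul, add_zero] at l4
      exact l4
    have hw : w = 0 := by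
      rw [hu, cv_zero, mv_zero, zero_add] at h4
      exact cv_inj (h4.trans cv_zero.symm)
    rw [hu, hw, cv_zero, mv_zero, mv_zero, add_zero, add_zero] at h3
    exact h3
  -- order argument
  have hf2 : ∀ p : Fin 3 × Fin 3 × Fin 3,
      (f2 (bas p.1) (bas p.2.1) + f2 (bas p.2.1) (bas p.1)) p.2.2 = 0 := by
    apply eq_zero_of_step (fun p : Fin 3 × Fin 3 × Fin 3 =>
      (f2 (bas p.1) (bas p.2.1) + f2 (bas p.2.1) (bas p.1)) p.2.2)
    intro n hn
    -- all polarised values have order at least `n`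
    have hbil : ∀ x z : V ℂ, f2 x z + f2 z x = ∑ i : Fin 3, ∑ j : Fin 3,
        (cc (x i * z j)) • (f2 (bas i) (bas j) + f2 (bas j) (bas i)) := by
      have hlinx : ∀ (x z : V ℂ), f2 x z = ∑ i : Fin 3, ∑ j : Fin 3,
        (cc (x i * z j)) • (f2 (bas i) (bas j)) := by
        intro x z
        have hadd1 : ∀ x x' z, f2 (x + x') z = f2 x z + f2 x' z := by
          intro x x' z
          simp only [f2, cv_add, mv_add, cr_add_left]
          abel
        have hadd2 : ∀ x z z', f2 x (z + z') = f2 x z + f2 x z' := by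
          intro x z z'
          simp only [f2, cv_add, mv_add, cr_add_right]
          abel
        have hsm1 : ∀ (r : ℂ) x z, f2 (r • x) z = cc r • f2 x z := by
          intro r x z
          simp only [f2, cv_smul, mv_smul, cr_smul_left, smul_sub]
        have hsm2 : ∀ (r : ℂ) x z, f2 x (r • z) = cc r • f2 x z := by
          intro r x z
          simp only [f2, cv_smul, mv_smul, cr_smul_right, smul_sub]
        conv_lhs => rw [bas_decomp x, bas_decomp z]
        simp only [hadd1, hadd2, hsm1, hsm2, Fin.sum_univ_three, map_mul]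
        module
      intro x z
      rw [hlinx x z, hlinx z x]
      have : ∑ i : Fin 3, ∑ j : Fin 3, (cc (z i * x j)) • (f2 (bas i) (bas j)) =
          ∑ i : Fin 3, ∑ j : Fin 3, (cc (x i * z j)) • (f2 (bas j) (bas i)) := by
        rw [Finset.sum_comm]
        apply Finset.sum_congr rfl
        intro i _
        apply Finset.sum_congr rfl
        intro j _
        rw [mul_comm (z j)]
      rw [this, ← Finset.sum_add_distrib]
      apply Finset.sum_congr rfl
      intro i _
      rw [← Finset.sum_add_distrib]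
      apply Finset.sum_congr rfl
      intro j _
      rw [smul_add]
    have hordpol : ∀ x z : V ℂ, ∀ i, Ord ((f2 x z + f2 z x) i) n := by
      intro x z i
      rw [hbil]
      simp only [Fin.sum_univ_three, Pi.add_apply, Pi.smul_apply, smul_eq_mul]
      have hterm : ∀ (c : ℂ) (p q : Fin 3),
          Ord (cc c * (f2 (bas p) (bas q) i + f2 (bas q) (bas p) i)) n := by
        intro c p q
        have := (Ord.cc c).mul (hn (p, q, i))
        rw [zero_add] at this
        exact this
      exact ((((hterm _ 0 0).add (hterm _ 0 1)).add (hterm _ 0 2)).add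
        (((hterm _ 1 0).add (hterm _ 1 1)).add (hterm _ 1 2))).add
        (((hterm _ 2 0).add (hterm _ 2 1)).add (hterm _ 2 2))
    have hord : ∀ x : V ℂ, ∀ i, Ord (f2 x x i) n := by
      intro x i
      have h1 := hordpol x x i
      rw [Pi.add_apply] at h1
      have h2 := (Ord.cc (1 / 2 : ℂ)).mul h1
      rw [zero_add] at h2
      have h3 : cc (1 / 2 : ℂ) * (f2 x x i + f2 x x i) = f2 x x i := by
        have : cc (1 / 2 : ℂ) * 2 = 1 := by
          rw [← map_ofNat cc 2, ← map_mul]; norm_num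
        linear_combination (f2 x x i) * this
      rwa [h3] at h2
    have hord2 : ∀ x : V ℂ, ∀ i, Ord (f2 x x i) (n + 1) := by
      intro x
      have hL : LV (f2 x x) n (fun i => cf (f2 x x i) n) := fun i => ⟨hord x i, rfl⟩
      have hz : (fun i => cf (f2 x x i) n : V ℂ) = 0 := by
        apply cr_all
        intro y
        have l1 := hL.cr (hN'.lead.mv (LV.cv y))
        rw [hkey x y] at l1
        have l2 : LV (f2 x (cr x (mv P y)) + f2 (cr x (mv P y)) x) (n + (-1 + 0)) 0 :=
          fun i => LC.ord ((hordpol x (cr x (mv P y)) i).mono (by omega))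
        have l3 := l1.unique l2
        rw [← sc_one, sc_mv, one_smul] at l3
        exact l3
      intro i
      have h4 : LC (f2 x x i) n 0 := by
        have := hL i
        have h5 := congrFun hz i
        exact ⟨this.1, h5⟩
      exact h4.ord_succ
    rintro ⟨i, j, l⟩
    simp only
    rw [q2]
    exact ((hord2 _ l).sub (hord2 _ l)).sub (hord2 _ l)
  have hf2' : ∀ x : V ℂ, f2 x x = 0 := by
    have hpol0 : ∀ i j, f2 (bas i) (bas j) + f2 (bas j) (bas i) = 0 := by
      intro i j
      funext l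
      exact hf2 (i, j, l)
    intro x
    have hadd1 : ∀ x x' z, f2 (x + x') z = f2 x z + f2 x' z := by
      intro x x' z
      simp only [f2, cv_add, mv_add, cr_add_left]
      abel
    have hadd2 : ∀ x z z', f2 x (z + z') = f2 x z + f2 x z' := by
      intro x z z'
      simp only [f2, cv_add, mv_add, cr_add_right]
      abel
    have hsm1 : ∀ (r : ℂ) x z, f2 (r • x) z = cc r • f2 x z := by
      intro r x z
      simp only [f2, cv_smul, mv_smul, cr_smul_left, smul_sub]
    have hsm2 : ∀ (r : ℂ) x z, f2 x (r • z) = cc r • f2 x z := by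
      intro r x z
      simp only [f2, cv_smul, mv_smul, cr_smul_right, smul_sub]
    have g0 : ∀ i, f2 (bas i) (bas i) = 0 := by
      intro i
      have h1 := hpol0 i i
      have h2 : (2 : K) • f2 (bas i) (bas i) = 0 := by rw [two_smul]; exact h1
      exact (smul_eq_zero.mp h2).resolve_left two_ne_zero
    have g10 : f2 (bas 1) (bas 0) = -f2 (bas 0) (bas 1) := eq_neg_of_add_eq_zero_left (hpol0 1 0)
    have g20 : f2 (bas 2) (bas 0) = -f2 (bas 0) (bas 2) := eq_neg_of_add_eq_zero_left (hpol0 2 0)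
    have g21 : f2 (bas 2) (bas 1) = -f2 (bas 1) (bas 2) := eq_neg_of_add_eq_zero_left (hpol0 2 1)
    rw [bas_decomp x]
    simp only [hadd1, hadd2, hsm1, hsm2, g0, g10, g20, g21]
    module
  have hfin : dfct X A B x x = 0 := by
    rw [hd, hf1, hf2']
    have := h.smul 0 0 0
    rw [map_zero, zero_smul, zero_smul] at this
    exact this
  rw [dfct, sub_sub, sub_eq_zero] at hfin
  exact hfin

end Helper496
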