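import Pool.Agent.Helper496_So4.Ser

/-!
Square roots of series and of symmetric matrices of series.
-/

set_option autoImplicit false

namespace Helper496

open Finset

section root
variable {𝒜 : Type*} [Ring 𝒜] [Algebra ℂ 𝒜]

/-- The coefficients of the square root of `1 + g 1 λ + g 2 λ² + …`. -/
noncomputable def rt (g : ℕ → 𝒜) : ℕ → 𝒜
  | 0 => 1
  | n + 1 => (1 / 2 : ℂ) • (g (n + 1) - ∑ i : Fin n, rt g (i + 1) * rt g (n - i))
decreasing_by
  all_goals
    have := i.isLt
    simp_wf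
    try omega

theorem rt_zero (g : ℕ → 𝒜) : rt g 0 = 1 := by rw [rt]

theorem rt_sq (g : ℕ → 𝒜) (n : ℕ) :
    ∑ p ∈ antidiagonal (n + 1), rt g p.1 * rt g p.2 = g (n + 1) := by
  rw [Finset.Nat.sum_antidiagonal_eq_sum_range_succ (fun a b => rt g a * rt g b) (n + 1),
    Finset.sum_range_succ, Finset.sum_range_succ']
  have h1 : ∑ k ∈ range n, rt g (k + 1) * rt g (n + 1 - (k + 1)) =
      ∑ i : Fin n, rt g (i + 1) * rt g (n - i) := by
    rw [Finset.sum_range]
    apply Finset.sum_congr rfl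
    intro i _
    rw [Nat.add_sub_add_right]
  rw [h1, Nat.sub_self, Nat.sub_zero, rt_zero, one_mul, mul_one]
  have h2 : rt g (n + 1) = (1 / 2 : ℂ) • (g (n + 1) - ∑ i : Fin n, rt g (i + 1) * rt g (n - i)) := by
    conv_lhs => rw [rt]
  have h3 : (2 : ℂ) • rt g (n + 1) =
      g (n + 1) - ∑ i : Fin n, rt g (i + 1) * rt g (n - i) := by
    rw [h2, smul_smul]; norm_num
  rw [two_smul] at h3
  rw [add_assoc, h3]
  abel

theorem rt_sq' (g : ℕ → 𝒜) (h0 : g 0 = 1) (n : ℕ) :
    ∑ p ∈ antidiagonal n, rt g p.1 * rt g p.2 = g n := by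
  cases n with
  | zero => simp [rt_zero, h0]
  | succ n => exact rt_sq g n

end root

/-! ### Series from sequences -/

/-- The series with given coefficients. -/
noncomputable def ofS (a : ℕ → ℂ) : K :=
  HahnSeries.ofPowerSeries ℤ ℂ (PowerSeries.mk a)

theorem cf_ofS (a : ℕ → ℂ) (n : ℕ) : cf (ofS a) n = a n := by
  have := HahnSeries.ofPowerSeries_apply_coeff (Γ := ℤ) (PowerSeries.mk a) n
  rw [PowerSeries.coeff_mk] at this
  exact this

theorem cf_ofS_neg (a : ℕ → ℂ) {n : ℤ} (h : n < 0) : cf (ofS a) n = 0 := by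
  have : (HahnSeries.ofPowerSeries ℤ ℂ (PowerSeries.mk a)).coeff n = 0 := by
    rw [HahnSeries.ofPowerSeries_apply]
    apply HahnSeries.embDomain_notin_range
    rintro ⟨m, hm⟩
    have : (m : ℤ) = n := hm
    omega
  exact this

theorem ofS_cf {f : K} (h : Ord f 0) : f = ofS (fun n => cf f n) := by
  apply K_ext
  intro n
  rcases lt_or_ge n 0 with hn | hn
  · rw [cf_ofS_neg _ hn, h n hn]
  · obtain ⟨m, rfl⟩ := Int.eq_ofNat_of_zero_le hn
    rw [cf_ofS]

theorem ofS_ord (a : ℕ → ℂ) : Ord (ofS a) 0 := fun _ hn => cf_ofS_neg a hn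

theorem ofS_mul (a b : ℕ → ℂ) :
    ofS a * ofS b = ofS (fun n => ∑ p ∈ antidiagonal n, a p.1 * b p.2) := by
  have h1 : ofS a * ofS b =
      HahnSeries.ofPowerSeries ℤ ℂ (PowerSeries.mk a * PowerSeries.mk b) :=
    (map_mul (HahnSeries.ofPowerSeries ℤ ℂ) _ _).symm
  rw [h1]
  show _ = HahnSeries.ofPowerSeries ℤ ℂ _
  congr 1
  ext n
  rw [PowerSeries.coeff_mul, PowerSeries.coeff_mk]
  simp only [PowerSeries.coeff_mk]

theorem ofS_add (a b : ℕ → ℂ) : ofS a + ofS b = ofS (fun n => a n + b n) := by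
  apply K_ext
  intro n
  rw [cf_add]
  rcases lt_or_ge n 0 with hn | hn
  · rw [cf_ofS_neg _ hn, cf_ofS_neg _ hn, cf_ofS_neg _ hn, add_zero]
  · obtain ⟨m, rfl⟩ := Int.eq_ofNat_of_zero_le hn
    rw [cf_ofS, cf_ofS, cf_ofS]

/-- The matrix of series with given coefficients. -/
noncomputable def ofSM (a : ℕ → M ℂ) : M K := fun i j => ofS (fun n => a n i j)

theorem ofSM_mm (a b : ℕ → M ℂ) :
    mm (ofSM a) (ofSM b) = ofSM (fun n => ∑ p ∈ antidiagonal n, a p.1 * b p.2) := by
  ext i j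
  rw [mm_apply]
  simp only [ofSM, ofS_mul, ofS_add]
  congr 1
  funext n
  rw [Matrix.sum_apply, ← Finset.sum_add_distrib, ← Finset.sum_add_distrib]
  apply Finset.sum_congr rfl
  intro p _
  rw [Matrix.mul_apply, Fin.sum_univ_three]

theorem ofSM_lead (a : ℕ → M ℂ) : LM (ofSM a) 0 (a 0) := by
  intro i j
  refine ⟨ofS_ord _, ?_⟩
  exact cf_ofS _ 0

theorem exists_sqrt0 {f : K} (h : LC f 0 1) : ∃ t, t * t = f ∧ LC t 0 1 := by
  refine ⟨ofS (rt fun n => cf f n), ?_, ofS_ord _, ?_⟩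
  · rw [ofS_mul]
    conv_rhs => rw [ofS_cf h.1]
    congr 1
    funext n
    exact rt_sq' _ h.2 n
  · exact (cf_ofS _ 0).trans (rt_zero _)

theorem exists_sqrt {f : K} (h : LC f (-2) 1) : ∃ t, t * t = f ∧ LC t (-1) 1 := by
  have h1 : LC (lam 2 * f) 0 1 := by
    have := (LC.lam 2).mul h
    exact this.congr (by norm_num) (by norm_num)
  obtain ⟨t, ht, hl⟩ := exists_sqrt0 h1
  refine ⟨lam (-1) * t, ?_, ?_⟩
  · have : lam (-1) * t * (lam (-1) * t) = lam (-1) * lam (-1) * (t * t) := by ring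
    rw [this, ht, lam_mul, ← mul_assoc, lam_mul]
    norm_num [lam_zero]
  · have := (LC.lam (-1)).mul hl
    exact this.congr (by norm_num) (by norm_num)

theorem exists_root0 {G : M K} (h : LM G 0 1) : ∃ R, mm R R = G ∧ LM R 0 1 := by
  have hG : G = ofSM (fun n i j => cf (G i j) n) := by
    ext i j
    exact ofS_cf (h i j).1
  refine ⟨ofSM (rt fun n i j => cf (G i j) n), ?_, ?_⟩
  · rw [ofSM_mm]
    conv_rhs => rw [hG]
    congr 1
    funext n
    apply rt_sq'
    ext i j
    exact (h i j).2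
  · have := ofSM_lead (rt fun n i j => cf (G i j) n)
    rw [rt_zero] at this
    exact this

theorem root_unique {A B : M K} (hA : LM A (-1) 1) (hB : LM B (-1) 1) (h : mm A A = mm B B) :
    A = B := by
  set D := A - B with hD
  have h1 : mm A D + mm D B = 0 := by
    have e : mm A D + mm D B = mm A A - mm B B := by
      rw [hD]; apply m_ext <;> simp <;> ring
    rw [e, h, sub_self]
  have hz : ∀ i : Fin 3 × Fin 3, D i.1 i.2 = 0 := by
    apply eq_zero_of_step (fun i : Fin 3 × Fin 3 => D i.1 i.2)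
    intro n hn
    set C : M ℂ := fun i j => cf (D i j) n with hC
    have hDC : LM D n C := fun i j => ⟨hn (i, j), rfl⟩
    have h2 := ((hA.mm hDC).congr (by ring : _ = n + -1) rfl).add (hDC.mm hB)
    rw [h1] at h2
    have h3 : mm 1 C + mm C 1 = 0 := h2.unique (fun i j => LC.zero _)
    have hC0 : C = 0 := by
      rw [← sc_one, sc_mm, mm_sc, one_smul] at h3
      have h4 : (2 : ℂ) • C = 0 := by rw [two_smul]; exact h3
      exact (smul_eq_zero.mp h4).resolve_left two_ne_zero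
    intro i
    have h4 : LC (D i.1 i.2) n 0 := by
      have := hDC i.1 i.2
      rw [hC0] at this
      exact this
    exact h4.ord_succ
  have hD0 : D = 0 := by
    ext i j
    exact hz (i, j)
  rw [hD] at hD0
  exact sub_eq_zero.mp hD0

/-- Square roots of symmetric matrices. -/
theorem exists_root {G : M K} (hs : tp G = G) (h : LM G (-2) 1) :
    ∃ R, tp R = R ∧ mm R R = G ∧ LM R (-1) 1 := by
  have h1 : LM (lam 2 • G) 0 1 := by
    have := LM.smul (LC.lam 2) h
    exact this.congr (by norm_num) (by rw [one_smul])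
  obtain ⟨R, hR, hl⟩ := exists_root0 h1
  have h2 : mm (lam (-1) • R) (lam (-1) • R) = G := by
    have e : mm (lam (-1) • R) (lam (-1) • R) = (lam (-1) * lam (-1)) • mm R R := by
      apply m_ext <;> simp <;> ring
    rw [e, hR, smul_smul, lam_mul, lam_mul]
    norm_num [lam_zero]
  have h3 : LM (lam (-1) • R) (-1) 1 := by
    have := LM.smul (LC.lam (-1)) hl
    exact this.congr (by norm_num) (by rw [one_smul])
  have h4 : LM (tp (lam (-1) • R)) (-1) 1 := by
    have := h3.tp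
    have e : tp (1 : M ℂ) = 1 := by rw [← sc_one, tp_sc]
    rwa [e] at this
  refine ⟨lam (-1) • R, ?_, h2, h3⟩
  apply root_unique h4 h3
  rw [← tp_mm, h2, hs]

end Helper496
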