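import Pool.Agent.Helper496_So4.Sqrt

/-!
Substitutions `λ ↦ λ + k₂ λ² + …`.
-/

set_option autoImplicit false

namespace Helper496

open Complex

/-- A power series as an element of `K`. -/
noncomputable def ofPS (f : PowerSeries ℂ) : K := HahnSeries.ofPowerSeries ℤ ℂ f

/-- `σ` is the substitution `λ ↦ φ(λ)`. -/
def IsSubst (φ : PowerSeries ℂ) (σ : K →+* K) : Prop :=
  ∀ f : PowerSeries ℂ, σ (ofPS f) = ofPS (PowerSeries.subst φ f)

theorem ofPS_mul (f g : PowerSeries ℂ) : ofPS (f * g) = ofPS f * ofPS g :=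
  map_mul (HahnSeries.ofPowerSeries ℤ ℂ) f g

theorem ofPS_add (f g : PowerSeries ℂ) : ofPS (f + g) = ofPS f + ofPS g :=
  map_add (HahnSeries.ofPowerSeries ℤ ℂ) f g

theorem ofPS_C (c : ℂ) : ofPS (PowerSeries.C c) = cc c :=
  HahnSeries.ofPowerSeries_C c

theorem ofPS_X : ofPS PowerSeries.X = lam 1 :=
  HahnSeries.ofPowerSeries_X

theorem cf_ofPS (f : PowerSeries ℂ) (n : ℕ) : cf (ofPS f) n = PowerSeries.coeff n f :=
  HahnSeries.ofPowerSeries_apply_coeff (Γ := ℤ) f n

theorem ofPS_ord (f : PowerSeries ℂ) : Ord (ofPS f) 0 := by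
  have h : f = PowerSeries.mk (fun n => PowerSeries.coeff n f) := by
    ext n; rw [PowerSeries.coeff_mk]
  rw [h]
  exact ofS_ord _

theorem exists_ofPS {f : K} (h : Ord f 0) : ∃ F : PowerSeries ℂ, f = ofPS F :=
  ⟨_, ofS_cf h⟩

section
variable {φ : PowerSeries ℂ} (h0 : PowerSeries.constantCoeff φ = 0)

include h0 in
theorem hasSubst : PowerSeries.HasSubst φ := PowerSeries.HasSubst.of_constantCoeff_zero' h0

include h0 in
theorem subst_inj (h1 : PowerSeries.coeff 1 φ = 1) {f g : PowerSeries ℂ}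
    (h : (PowerSeries.subst φ f : PowerSeries ℂ) = PowerSeries.subst φ g) : f = g := by
  have : Invertible (PowerSeries.coeff 1 φ) := by rw [h1]; exact invertibleOne
  have h2 : (PowerSeries.subst φ.substInv φ : PowerSeries ℂ) = PowerSeries.X :=
    PowerSeries.subst_substInv_right φ h0
  have h3 : ∀ f : PowerSeries ℂ, (PowerSeries.subst φ.substInv
      (PowerSeries.subst φ f : PowerSeries ℂ) : PowerSeries ℂ) = f := by
    intro f
    rw [PowerSeries.subst_comp_subst_apply (hasSubst h0) (PowerSeries.HasSubst.substInv φ), h2,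
      PowerSeries.X_subst]
  rw [← h3 f, h, h3]

include h0 in
theorem exists_subst (h1 : PowerSeries.coeff 1 φ = 1) : ∃ σ : K →+* K, IsSubst φ σ := by
  let g : PowerSeries ℂ →+* LaurentSeries ℂ :=
    (HahnSeries.ofPowerSeries ℤ ℂ).comp
      (PowerSeries.substAlgHom (R := ℂ) (S := ℂ) (τ := Unit) (hasSubst h0)).toRingHom
  have hg : Function.Injective g := by
    intro f f' hff
    have h2 := HahnSeries.ofPowerSeries_injective hff
    apply subst_inj h0 h1
    simpa [PowerSeries.coe_substAlgHom] using h2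
  let σ : LaurentSeries ℂ →+* LaurentSeries ℂ := IsFractionRing.lift (A := PowerSeries ℂ) hg
  refine ⟨σ, ?_⟩
  intro f
  have h2 : σ (algebraMap (PowerSeries ℂ) (LaurentSeries ℂ) f) = g f :=
    IsFractionRing.lift_algebraMap hg f
  rw [LaurentSeries.coe_algebraMap] at h2
  refine h2.trans ?_
  show HahnSeries.ofPowerSeries ℤ ℂ
    (PowerSeries.substAlgHom (R := ℂ) (S := ℂ) (τ := Unit) (hasSubst h0) f) = _
  rw [PowerSeries.coe_substAlgHom]
  rfl

end

/-- The properties of substitutions which are used. -/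
structure GoodS (σ : K →+* K) : Prop where
  c : ∀ a, σ (cc a) = cc a
  l : ∀ f n a, LC f n a → LC (σ f) n a

theorem IsSubst.good {φ : PowerSeries ℂ} {σ : K →+* K} (h0 : PowerSeries.constantCoeff φ = 0)
    (h1 : PowerSeries.coeff 1 φ = 1) (h : IsSubst φ σ) : GoodS σ := by
  have hc : ∀ a, σ (cc a) = cc a := by
    intro a
    rw [← ofPS_C, h, PowerSeries.subst_C]
    rfl
  have hX : σ (lam 1) = ofPS φ := by
    rw [← ofPS_X, h, PowerSeries.subst_X (hasSubst h0)]
  have hφ : LC (ofPS φ) 1 1 := by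
    have k1 : LC (ofPS φ) 0 0 := by
      refine ⟨ofPS_ord φ, ?_⟩
      have := cf_ofPS φ 0
      rw [PowerSeries.coeff_zero_eq_constantCoeff_apply, h0] at this
      exact this
    refine ⟨k1.ord_succ, ?_⟩
    have := cf_ofPS φ 1
    rw [h1] at this
    exact this
  have hn : ∀ n : ℕ, LC (σ (lam n)) n 1 := by
    intro n
    induction n with
    | zero =>
      have : lam ((0 : ℕ) : ℤ) = cc 1 := by rw [map_one]; rfl
      rw [this, hc]
      exact LC.cc 1
    | succ n ih =>
      have : lam ((n + 1 : ℕ) : ℤ) = lam n * lam 1 := by rw [lam_mul]; rfl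
      rw [this, map_mul, hX]
      exact (ih.mul hφ).congr (by push_cast; rfl) (by norm_num)
  have hz : ∀ n : ℤ, LC (σ (lam n)) n 1 := by
    intro n
    rcases Int.eq_nat_or_neg n with ⟨m, rfl | rfl⟩
    · exact hn m
    · have : lam (-(m : ℤ)) = (lam m)⁻¹ := by
        apply eq_inv_of_mul_eq_one_left
        rw [lam_mul, neg_add_cancel]; rfl
      rw [this, map_inv₀]
      exact ((hn m).inv one_ne_zero).congr rfl (by norm_num)
  have h3 : ∀ f a, LC f 0 a → LC (σ f) 0 a := by
    intro f a hf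
    have k1 : LC (f - cc a) 0 0 := (hf.sub (LC.cc a)).congr rfl (by ring)
    have k2 : Ord (lam (-1) * (f - cc a)) 0 := ((Ord.lam (-1)).mul k1.ord_succ).mono (by norm_num)
    obtain ⟨F, hF⟩ := exists_ofPS k2
    have k3 : f = cc a + lam 1 * ofPS F := by
      rw [← hF, ← mul_assoc, lam_mul]
      norm_num [lam_zero]
    rw [k3, map_add, map_mul, hc, hX, h]
    have k4 : LC (ofPS φ * ofPS (PowerSeries.subst φ F)) 0 0 :=
      LC.ord ((hφ.1.mul (ofPS_ord _)).mono (by norm_num))
    exact ((LC.cc a).add k4).congr rfl (by ring)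
  refine ⟨hc, ?_⟩
  intro f n a hf
  have k1 : LC (lam (-n) * f) 0 a :=
    ((LC.lam (-n)).mul hf).congr (by ring) (by ring)
  have k2 : f = lam n * (lam (-n) * f) := by
    rw [← mul_assoc, lam_mul, add_neg_cancel, lam_zero, one_mul]
  rw [k2, map_mul]
  exact ((hz n).mul (h3 _ _ k1)).congr (by ring) (by ring)

/-- Every `t = λ⁻¹ + …` can be brought to `λ⁻¹`. -/
theorem exists_norm {t : K} (ht : LC t (-1) 1) : ∃ (φ : PowerSeries ℂ) (σ : K →+* K),
    PowerSeries.constantCoeff φ = 0 ∧ PowerSeries.coeff 1 φ = 1 ∧ IsSubst φ σ ∧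
      σ t = lam (-1) := by
  have htne : t ≠ 0 := ht.ne one_ne_zero
  have h1 : LC t⁻¹ 1 1 := (ht.inv one_ne_zero).congr (by norm_num) (by norm_num)
  obtain ⟨θ, hθ⟩ := exists_ofPS (h1.1.mono (by norm_num : (0 : ℤ) ≤ 1))
  have c0 : PowerSeries.constantCoeff θ = 0 := by
    have := cf_ofPS θ 0
    rw [PowerSeries.coeff_zero_eq_constantCoeff_apply, ← hθ] at this
    rw [← this]
    exact h1.1 0 (by norm_num)
  have c1 : PowerSeries.coeff 1 θ = 1 := by
    have := cf_ofPS θ 1
    rw [← hθ] at this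
    rw [← this]
    exact h1.2
  have : Invertible (PowerSeries.coeff 1 θ) := by rw [c1]; exact invertibleOne
  have d0 : PowerSeries.constantCoeff θ.substInv = 0 := PowerSeries.constantCoeff_substInv θ
  have d1 : PowerSeries.coeff 1 θ.substInv = 1 := by
    rw [PowerSeries.coeff_one_substInv]
    exact invOf_eq_right_inv (by rw [mul_one, c1])
  obtain ⟨σ, hσ⟩ := exists_subst d0 d1
  refine ⟨θ.substInv, σ, d0, d1, hσ, ?_⟩
  have h3 : σ t⁻¹ = lam 1 := by
    rw [hθ, hσ, ← ofPS_X]
    congr 1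
    exact PowerSeries.subst_substInv_right θ c0
  rw [map_inv₀] at h3
  have h4 : σ t = (lam 1)⁻¹ := by rw [← h3, inv_inv]
  rw [h4]
  symm
  apply eq_inv_of_mul_eq_one_left
  rw [lam_mul]
  rfl

end Helper496
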