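import Pool.Agent.Helper496_So4.Ser

/-!
The possible series `H` in one factor.
-/

set_option autoImplicit false

namespace Helper496

/-- The relation `(F)`. -/
def RF (H : M K) (A B : M ℂ) : Prop :=
  ∀ x : V K, mv H (cr x (mv (H - cM A) x)) = cr x (mv (cM B) x)

/-- `H = λ⁻¹ + A + …`, symmetric. -/
structure Pol (H : M K) (A : M ℂ) : Prop where
  sym : tp H = H
  lead : LM (H - sc (lam (-1))) 0 A

theorem Pol.symA {H : M K} {A : M ℂ} (h : Pol H A) : tp A = A := by
  have h1 := h.lead.tp
  rw [tp_sub, h.sym, tp_sc] at h1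
  exact h1.unique h.lead

theorem Pol.lead' {H : M K} {A : M ℂ} (h : Pol H A) : LM H (-1) 1 := by
  have h1 : LM (sc (lam (-1))) (-1) (sc 1) := (LC.lam (-1)).elim fun a b => LM.sc ⟨a, b⟩
  have h2 : LM (H - sc (lam (-1))) (-1) 0 := fun i j => LC.ord ((h.lead i j).1.mono (by norm_num))
  have h3 := h1.add h2
  rw [add_sub_cancel, add_zero, sc_one] at h3
  exact h3

theorem RF.mnr {H : M K} {A B : M ℂ} (hp : Pol H A) (hF : RF H A B) : Mnr (cM A) H := by
  apply mnr_of_det
  · rw [← cM_tp, hp.symA]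
  · exact hp.sym
  · intro x
    have h1 := congrArg (dt x) (hF x)
    rw [dt_cr_self_left] at h1
    obtain ⟨s1, s2, s3⟩ := sym3 hp.sym
    have h2 : dt x (mv H (cr x (mv (H - cM A) x))) = -dt x (cr (mv (cM A) x) (mv H x)) := by
      simp [dt, s1, s2, s3]; ring
    rw [← neg_eq_zero, ← h2, h1]

theorem Mnr.of_cM {A B : M ℂ} (h : Mnr (cM A) (cM B)) : Mnr A B := by
  obtain ⟨m1, m2, m3, m4, m5, m6, m7, m8, m9, m10⟩ := h
  refine ⟨?_, ?_, ?_, ?_, ?_, ?_, ?_, ?_, ?_, ?_⟩ <;> apply cc_inj <;>
    simp only [cM_apply, ← map_mul, ← map_sub] at * <;> assumption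

theorem sc_of_cM {A : M ℂ} {a : K} (h : cM A = sc a) : ∃ b, A = sc b := by
  refine ⟨A 0 0, ?_⟩
  have e : ∀ i j, cc (A i j) = sc a i j := fun i j => congrFun (congrFun h i) j
  have h00 := e 0 0
  have h01 := e 0 1
  have h02 := e 0 2
  have h10 := e 1 0
  have h11 := e 1 1
  have h12 := e 1 2
  have h20 := e 2 0
  have h21 := e 2 1
  have h22 := e 2 2
  simp at h00 h01 h02 h10 h11 h12 h20 h21 h22
  have e1 : A 1 1 = A 0 0 := cc_inj (by rw [h11, h00])
  have e2 : A 2 2 = A 0 0 := cc_inj (by rw [h22, h00])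
  have z : ∀ {c : ℂ}, cc c = 0 → c = 0 := fun hc => cc_inj (by rw [hc, map_zero])
  apply m_ext <;> simp [e1, e2, h01, h02, h10, h12, h20, h21]

/-- Symmetric matrices whose cofactor matrix lies in the span of `1` and `A`. -/
theorem quad_type {A : M ℂ} (hA : tp A = A) (hn : ¬ ∃ a, A = sc a) {c d : ℂ}
    (h : cof A = sc c + d • A) : ∃ (a α : ℂ) (v : V ℂ), A = sc a + α • op v v ∧ α • op v v ≠ 0 := by
  obtain ⟨s1, s2, s3⟩ := sym3 hA
  set S := A + sc d with hS
  have hSs : tp S = S := by rw [hS, tp_add, tp_sc, hA]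
  have hcS : cof S = sc (c + d * (A 0 0 + A 1 1 + A 2 2) + d ^ 2) := by
    have h00 := congrFun (congrFun h 0) 0
    have h01 := congrFun (congrFun h 0) 1
    have h02 := congrFun (congrFun h 0) 2
    have h11 := congrFun (congrFun h 1) 1
    have h12 := congrFun (congrFun h 1) 2
    have h22 := congrFun (congrFun h 2) 2
    simp [s1, s2, s3] at h00 h01 h02 h11 h12 h22
    apply m_ext <;> simp [hS, s1, s2, s3] <;> grind
  set κ := c + d * (A 0 0 + A 1 1 + A 2 2) + d ^ 2 with hκ
  have hdet := mm_tp_cof S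
  rw [hSs, hcS, mm_sc] at hdet
  have h2 : A = S - sc d := by rw [hS, add_sub_cancel_right]
  clear_value S
  have hκ0 : κ = 0 := by
    by_contra hne
    apply hn
    refine ⟨κ⁻¹ * det3 S - d, ?_⟩
    have : S = sc (κ⁻¹ * det3 S) := by
      have h1 : S = κ⁻¹ • sc (det3 S) := by rw [← hdet, smul_smul, inv_mul_cancel₀ hne, one_smul]
      refine h1.trans ?_
      apply m_ext <;> simp
    have h3 : A = sc (κ⁻¹ * det3 S) - sc d := h2.trans (congrArg (fun T => T - sc d) this)
    refine h3.trans ?_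
    apply m_ext <;> simp
  have hc0 : cof S = 0 := by
    rw [hcS, hκ0]; apply m_ext <;> simp
  obtain ⟨α, v, hv⟩ := rank_one_symm hSs hc0
  refine ⟨-d, α, v, ?_, ?_⟩
  · rw [h2, hv]
    apply m_ext <;> simp <;> ring
  · intro h0
    apply hn
    refine ⟨-d, ?_⟩
    rw [h2, hv, h0]
    apply m_ext <;> simp

theorem cof_add_id {k : Type*} [Field k] {A : M k} (hA : tp A = A) (h0 h1 : k) (x : V k) :
    mv (sc h0 + h1 • A) (cr x (mv ((sc h0 + h1 • A) - A) x)) =
      (h1 - 1) • (h0 • cr x (mv A x) - h1 • cr x (mv (cof A) x)) := by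
  obtain ⟨s1, s2, s3⟩ := sym3 hA
  apply v_ext <;> simp [s1, s2, s3] <;> ring

/-- The trichotomy. -/
theorem trich {H : M K} {A B : M ℂ} (hp : Pol H A) (hB : tp B = B) (hF : RF H A B) :
    (∃ a, A = sc a) ∨ ((∃ b, B = sc b) ∧ ∃ t, H = sc t + cM A) ∨
    (∃ (a b α β : ℂ) (v : V ℂ), A = sc a + α • op v v ∧ α • op v v ≠ 0 ∧
      B = sc b + β • op v v) := by
  by_cases hA : ∃ a, A = sc a
  · exact Or.inl hA
  refine Or.inr ?_
  have hAs := hp.symA
  have hAn : ¬ ∃ a, cM A = sc a := by
    rintro ⟨a, ha⟩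
    exact hA (sc_of_cM ha)
  have hAK : tp (cM A) = cM A := by rw [← cM_tp, hAs]
  obtain ⟨h0, h1, hH⟩ := mnr_span hAK hp.sym (hF.mnr hp) hAn
  -- the relation
  have hrel : ∀ x : V K, (h1 - 1) • (h0 • cr x (mv (cM A) x) - h1 • cr x (mv (cof (cM A)) x)) =
      cr x (mv (cM B) x) := by
    intro x
    rw [← hF x, hH, cof_add_id hAK]
  by_cases hh : h1 = 1
  · left
    refine ⟨?_, h0, by rw [hH, hh, one_smul]⟩
    have : ∀ x : V K, cr x (mv (cM B) x) = 0 := by
      intro x
      rw [← hrel x, hh, sub_self, zero_smul]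
    obtain ⟨c, hc⟩ := b0 this
    exact sc_of_cM hc
  right
  have hh' : h1 - 1 ≠ 0 := sub_ne_zero.mpr hh
  -- the scalar identity
  obtain ⟨c, hc⟩ : ∃ c, ((h1 - 1) * h0) • cM A - ((h1 - 1) * h1) • cof (cM A) - cM B = sc c := by
    apply b0
    intro x
    rw [sub_mv, sub_mv, smul_mv, smul_mv, cr_sub_right, cr_sub_right, cr_smul_right,
      cr_smul_right, ← hrel x]
    module
  set p := (h1 - 1) * h0 with hpdef
  set r := (h1 - 1) * h1 with hrdef
  -- order of `h1`
  have hlead := hp.lead
  have hlc : LC h1 0 1 := by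
    have hoff : ∀ i j, sc h0 i j = 0 → sc (lam (-1)) i j = 0 → A i j ≠ 0 → LC h1 0 1 := by
      intro i j e1 e2 hne
      have h2 := hlead i j
      rw [hH] at h2
      simp only [Matrix.sub_apply, Matrix.add_apply, Matrix.smul_apply, smul_eq_mul, e1, e2,
        zero_add, sub_zero, cM_apply] at h2
      have h3 := h2.mul (LC.cc (A i j)⁻¹)
      rw [mul_assoc, ← map_mul, mul_inv_cancel₀ hne, map_one, mul_one, add_zero] at h3
      exact h3
    have hdia : ∀ i j, sc h0 i i = h0 → sc h0 j j = h0 → sc (lam (-1)) i i = lam (-1) →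
        sc (lam (-1)) j j = lam (-1) → A i i - A j j ≠ 0 → LC h1 0 1 := by
      intro i j e1 e2 e3 e4 hne
      have h2 := (hlead i i).sub (hlead j j)
      rw [hH] at h2
      simp only [Matrix.sub_apply, Matrix.add_apply, Matrix.smul_apply, smul_eq_mul, e1, e2,
        e3, e4, cM_apply] at h2
      have e5 : h0 + h1 * cc (A i i) - lam (-1) - (h0 + h1 * cc (A j j) - lam (-1)) =
          h1 * cc (A i i - A j j) := by rw [map_sub]; ring
      rw [e5] at h2
      have h3 := h2.mul (LC.cc (A i i - A j j)⁻¹)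
      rw [mul_assoc, ← map_mul, mul_inv_cancel₀ hne, map_one, mul_one, add_zero] at h3
      exact h3
    obtain ⟨s1, s2, s3⟩ := sym3 hAs
    by_cases a01 : A 0 1 = 0
    · by_cases a02 : A 0 2 = 0
      · by_cases a12 : A 1 2 = 0
        · by_cases ad : A 0 0 - A 1 1 = 0
          · by_cases ae : A 1 1 - A 2 2 = 0
            · exfalso
              rw [sub_eq_zero] at ad ae
              exact hA ⟨A 0 0, by apply m_ext <;> simp [s1, s2, s3, a01, a02, a12, ad, ae]⟩
            · exact hdia 1 2 rfl rfl rfl rfl ae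
          · exact hdia 0 1 rfl rfl rfl rfl ad
        · exact hoff 1 2 rfl rfl a12
      · exact hoff 0 2 rfl rfl a02
    · exact hoff 0 1 rfl rfl a01
  have hone : LC (1 : K) 0 1 := by have := LC.cc 1; rwa [map_one] at this
  have hh1 : LC (h1 - 1) 1 (cf (h1 - 1) 1) := by
    have h2 := hlc.sub hone
    rw [sub_self] at h2
    have h3 := h2.ord_succ
    rw [zero_add] at h3
    exact LC.self h3
  have hh0 : LC h0 (-1) 1 := by
    have h2 := hp.lead' 0 0
    rw [hH] at h2
    simp only [Matrix.add_apply, Matrix.smul_apply, smul_eq_mul, sc_00, cM_apply,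
      Matrix.one_apply_eq] at h2
    have h3 : LC (h1 * cc (A 0 0)) (-1) 0 :=
      LC.ord ((hlc.mul (LC.cc (A 0 0))).1.mono (by norm_num))
    have h4 := h2.sub h3
    rw [add_sub_cancel_right, sub_zero] at h4
    exact h4
  set β := cf (h1 - 1) 1 with hβ
  have hplc : LC p 0 β := (hh1.mul hh0).congr (by norm_num) (mul_one _)
  have hrlc : LC r 0 0 := by
    have h2 := hh1.mul hlc
    exact LC.ord (h2.1.mono (by norm_num))
  have hrne : r ≠ 0 := mul_ne_zero hh' (hlc.ne one_ne_zero)
  obtain ⟨s1, s2, s3⟩ := sym3 hAs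
  obtain ⟨t1, t2, t3⟩ := sym3 hB
  -- `B = b + β A`
  have hcc : ∀ i j, sc c i j = 0 → B i j = β * A i j := by
    intro i j e1
    have h2 := congrFun (congrFun hc i) j
    rw [e1] at h2
    simp only [Matrix.sub_apply, Matrix.smul_apply, smul_eq_mul, cM_apply] at h2
    have h3 : LC (p * cc (A i j) - r * cof (cM A) i j - cc (B i j)) 0
        (β * A i j - 0 * cof A i j - B i j) := by
      have h4 : LC (cof (cM A) i j) 0 (cof A i j) := by
        rw [← cM_cof]; exact LC.cc _
      have h5 := ((hplc.mul (LC.cc (A i j))).sub (hrlc.mul h4)).sub (LC.cc (B i j))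
      simpa using h5
    rw [h2] at h3
    have h4 := h3.unique (LC.zero 0)
    linear_combination -h4
  have hdd : ∀ i j, sc c i i = c → sc c j j = c →
      B i i - B j j = β * (A i i - A j j) := by
    intro i j e1 e2
    have h2 := congrFun (congrFun hc i) i
    have h2' := congrFun (congrFun hc j) j
    rw [e1] at h2
    rw [e2, ← h2] at h2'
    simp only [Matrix.sub_apply, Matrix.smul_apply, smul_eq_mul, cM_apply] at h2'
    have h4 : ∀ i, LC (cof (cM A) i i) 0 (cof A i i) := by
      intro i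
      rw [← cM_cof]; exact LC.cc _
    have h5 : ∀ i, LC (p * cc (A i i) - r * cof (cM A) i i - cc (B i i)) 0
        (β * A i i - 0 * cof A i i - B i i) := by
      intro i
      have h6 := ((hplc.mul (LC.cc (A i i))).sub (hrlc.mul (h4 i))).sub (LC.cc (B i i))
      simpa using h6
    have h7 := h5 j
    rw [h2'] at h7
    have h8 := h7.unique (h5 i)
    linear_combination h8
  have hBA : B = sc (B 0 0 - β * A 0 0) + β • A := by
    have e1 := hcc 0 1 rfl
    have e2 := hcc 0 2 rfl
    have e3 := hcc 1 2 rfl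
    have e4 := hdd 0 1 rfl rfl
    have e5 := hdd 1 2 rfl rfl
    apply m_ext <;> simp [s1, s2, s3, t1, t2, t3, e1, e2, e3]
    · linear_combination -e4
    · linear_combination -e4 - e5
  -- the cofactor matrix
  have hmn : Mnr A (cof A) := by
    apply Mnr.of_cM
    have hB' : cM B = sc (cc (B 0 0 - β * A 0 0)) + cc β • cM A := by
      conv_lhs => rw [hBA]
      rw [cM_add, cM_smul, cM_sc]
    have hcf : r • cof (cM A) = (p - cc β) • cM A - sc (c + cc (B 0 0 - β * A 0 0)) := by
      rw [hB'] at hc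
      rw [sc_add, ← hc]
      module
    rw [cM_cof]
    have hent : ∀ i j, r * cof (cM A) i j = (p - cc β) * cM A i j -
        sc (c + cc (B 0 0 - β * A 0 0)) i j := fun i j => congrFun (congrFun hcf i) j
    have h00 := hent 0 0
    have h01 := hent 0 1
    have h02 := hent 0 2
    have h11 := hent 1 1
    have h12 := hent 1 2
    have h22 := hent 2 2
    simp only [sc_00, sc_01, sc_02, sc_11, sc_12, sc_22, sub_zero] at h00 h01 h02 h11 h12 h22
    refine ⟨?_, ?_, ?_, ?_, ?_, ?_, ?_, ?_, ?_, ?_⟩ <;> apply mul_left_cancel₀ hrne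
    · linear_combination cM A 0 1 * h02 - cM A 0 2 * h01
    · linear_combination cM A 0 1 * h12 - cM A 1 2 * h01
    · linear_combination cM A 0 2 * h12 - cM A 1 2 * h02
    · linear_combination cM A 0 1 * (h00 - h11) - (cM A 0 0 - cM A 1 1) * h01
    · linear_combination cM A 0 2 * (h00 - h11) - (cM A 0 0 - cM A 1 1) * h02
    · linear_combination cM A 1 2 * (h00 - h11) - (cM A 0 0 - cM A 1 1) * h12
    · linear_combination cM A 0 1 * (h11 - h22) - (cM A 1 1 - cM A 2 2) * h01
    · linear_combination cM A 0 2 * (h11 - h22) - (cM A 1 1 - cM A 2 2) * h02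
    · linear_combination cM A 1 2 * (h11 - h22) - (cM A 1 1 - cM A 2 2) * h12
    · linear_combination (cM A 0 0 - cM A 1 1) * (h11 - h22) -
        (cM A 1 1 - cM A 2 2) * (h00 - h11)
  obtain ⟨c0, c1, hcA⟩ := mnr_span hAs (by rw [tp_cof, hAs]) hmn hA
  obtain ⟨a, α, v, hv, hne⟩ := quad_type hAs hA hcA
  obtain ⟨b', hb'⟩ : ∃ b', B = sc b' + β • A := ⟨_, hBA⟩
  refine ⟨a, b' + β * a, α, β * α, v, hv, hne, ?_⟩
  rw [hb', hv]
  apply m_ext <;> simp <;> ring

/-- `A` scalar: `cof H = f - B`. -/
theorem HA1 {H : M K} {a : ℂ} {B : M ℂ} (hp : Pol H (sc a)) (hF : RF H (sc a) B) :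
    ∃ f, cof H = sc f - cM B := by
  have h1 : ∀ x : V K, cr x (mv (cof H + cM B) x) = 0 := by
    intro x
    have h2 := hF x
    have h3 : mv H (cr x (mv (H - cM (sc a)) x)) = -cr x (mv (cof H) x) := by
      rw [sub_mv, cr_sub_right, mv_sub, id5 hp.sym, cM_sc, sc_mv, cr_smul_right, cr_self,
        smul_zero, mv_zero, sub_zero, cr_skew]
    rw [add_mv, cr_add_right, ← h2, h3, add_neg_cancel]
  obtain ⟨f, hf⟩ := b0 h1
  exact ⟨f, by rw [← hf, add_sub_cancel_right]⟩

/-- Both `A` and `B` in the span of `1` and `v vᵀ`. -/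
theorem HA3 {H : M K} {a b α β : ℂ} {v : V ℂ} (hp : Pol H (sc a + α • op v v))
    (hF : RF H (sc a + α • op v v) (sc b + β • op v v)) :
    ∃ t, H = sc t + (cc α + cc β / t) • op (cv v) (cv v) := by
  have hl := hp.lead'
  have hd : LC (det3 H) (-1 + (-1 + -1)) (det3 (1 : M ℂ)) := LC.det3 hl
  have hd1 : det3 (1 : M ℂ) = 1 := by rw [← sc_one, det3_sc]; norm_num
  rw [hd1] at hd
  have hdne : det3 H ≠ 0 := hd.ne one_ne_zero
  by_cases hA : α • op v v = 0
  · -- `A` scalar
    rw [hA, add_zero] at hp hF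
    obtain ⟨f, hf⟩ := HA1 hp hF
    have h1 := cof_cof H
    set f' := f - cc b with hf'
    have hf2 : cof H = sc f' - cc β • op (cv v) (cv v) := by
      rw [hf, cM_add, cM_sc, cM_smul, cM_op, hf']
      apply m_ext <;> simp <;> ring
    have h2 : det3 H • H = sc (f' ^ 2 - f' * cc β * dt (cv v) (cv v)) +
        (f' * cc β) • op (cv v) (cv v) := by
      rw [← h1, hf2]
      apply m_ext <;> simp [dt] <;> ring
    set h0 := (det3 H)⁻¹ * (f' ^ 2 - f' * cc β * dt (cv v) (cv v)) with hh0
    set h1' := (det3 H)⁻¹ * (f' * cc β) with hh1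
    have h3 : H = sc h0 + h1' • op (cv v) (cv v) := by
      have : H = (det3 H)⁻¹ • (det3 H • H) := by rw [smul_smul, inv_mul_cancel₀ hdne, one_smul]
      rw [this, h2]
      apply m_ext <;> simp [hh0, hh1] <;> ring
    -- compare cofactors
    have h4 : cof H = sc (h0 ^ 2 + h0 * h1' * dt (cv v) (cv v)) -
        (h0 * h1') • op (cv v) (cv v) := by
      rw [h3]
      apply m_ext <;> simp [dt] <;> ring
    have hαz : cc α • op (cv v) (cv v) = 0 := by
      rw [← cM_op, ← cM_smul, hA, cM_zero]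
    by_cases hv : v = 0
    · refine ⟨h0, ?_⟩
      rw [h3, hv]
      apply m_ext <;> simp
    have hα : α = 0 := by
      by_contra hne
      have hz : op v v = 0 := (smul_eq_zero.mp hA).resolve_left hne
      exact op_ne hv hv hz
    -- `(h0 h1' - β) v vᵀ` is scalar
    have h5 : (h0 * h1' - cc β) • op (cv v) (cv v) =
        sc (h0 ^ 2 + h0 * h1' * dt (cv v) (cv v) - f') := by
      have h6 : sc (h0 ^ 2 + h0 * h1' * dt (cv v) (cv v)) - (h0 * h1') • op (cv v) (cv v) =
        sc f' - cc β • op (cv v) (cv v) := by rw [← h4, hf2]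
      have h7 : (h0 * h1' - cc β) • op (cv v) (cv v) =
          (h0 * h1') • op (cv v) (cv v) - cc β • op (cv v) (cv v) := by module
      have h8 : (h0 * h1') • op (cv v) (cv v) =
          sc (h0 ^ 2 + h0 * h1' * dt (cv v) (cv v)) - (sc f' - cc β • op (cv v) (cv v)) := by
        rw [← h6]; abel
      rw [h7, h8]
      apply m_ext <;> simp <;> ring
    have h6 : h0 * h1' - cc β = 0 := by
      by_contra hne
      have h7 := congrArg cof h5
      rw [cof_smul, cof_op, smul_zero, cof_sc] at h7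
      have h8 := congrFun (congrFun h7 0) 0
      have h8' : h0 ^ 2 + h0 * h1' * dt (cv v) (cv v) - f' = 0 := by
        rw [sc_00] at h8
        exact pow_eq_zero_iff (two_ne_zero) |>.mp h8.symm
      rw [h8'] at h5
      have h9 : sc (0 : K) = 0 := by apply m_ext <;> simp
      rw [h9, smul_eq_zero] at h5
      have h10 := h5.resolve_left hne
      rw [← cM_op, ← cM_zero] at h10
      exact op_ne hv hv (cM_inj h10)
    have h0ne : h0 ≠ 0 := by
      rintro h0z
      rw [h3, h0z] at hdne
      apply hdne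
      have : sc (0 : K) = 0 := by apply m_ext <;> simp
      rw [this, zero_add]
      simp [det3]
      ring
    refine ⟨h0, ?_⟩
    conv_lhs => rw [h3]
    rw [hα, map_zero, zero_add]
    congr 2
    field_simp
    linear_combination h6
  · -- `A` not scalar
    have hn : ¬ ∃ c, sc a + α • op v v = sc c := by
      rintro ⟨c, hc⟩
      apply hA
      have h1 : α • op v v = sc (c - a) := by
        have : α • op v v = sc c - sc a := by rw [← hc]; abel
        rw [this]; apply m_ext <;> simp
      have h2 := congrArg cof h1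
      rw [cof_smul, cof_op, smul_zero, cof_sc] at h2
      have h3 := congrFun (congrFun h2 0) 0
      rw [sc_00] at h3
      have h4 : c - a = 0 := pow_eq_zero_iff (two_ne_zero) |>.mp h3.symm
      rw [h1, h4]; apply m_ext <;> simp
    have hAs := hp.symA
    have hAn : ¬ ∃ c, cM (sc a + α • op v v) = sc c := by
      rintro ⟨c, hc⟩
      exact hn (sc_of_cM hc)
    have hAK : tp (cM (sc a + α • op v v)) = cM (sc a + α • op v v) := by rw [← cM_tp, hAs]
    obtain ⟨h0, h1, hH⟩ := mnr_span hAK hp.sym (hF.mnr hp) hAn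
    set t := h0 + h1 * cc a with ht
    have hH' : H = sc t + (h1 * cc α) • op (cv v) (cv v) := by
      rw [hH, cM_add, cM_sc, cM_smul, cM_op, ht]
      apply m_ext <;> simp <;> ring
    have hv : v ≠ 0 := by
      rintro rfl
      apply hA
      apply m_ext <;> simp
    have hvK : cv v ≠ 0 := by
      intro h
      exact hv (cv_inj (h.trans cv_zero.symm))
    have key : (h1 - 1) * cc α * t = cc β := by
      -- choose `x` with `v · x = 1` and `x × v ≠ 0`
      have hex : ∃ x : V K, dt (cv v) x ≠ 0 ∧ cr x (cv v) ≠ 0 := by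
        by_contra hcon
        push Not at hcon
        obtain ⟨y, hy⟩ := exists_dt hvK
        have h2 : ∀ z, cr z (cv v) = 0 := by
          intro z
          by_cases hz : dt (cv v) z = 0
          · have h3 := hcon (z + y) (by rw [dt_add_right, hz, hy, zero_add]; exact one_ne_zero)
            have h4 := hcon y (by rw [hy]; exact one_ne_zero)
            rw [cr_add_left, h4, add_zero] at h3
            exact h3
          · exact hcon z hz
        have h3 := cr_all (a := cv v) (fun z => by rw [cr_skew, h2, neg_zero])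
        exact hvK h3
      obtain ⟨x, hx1, hx2⟩ := hex
      have h2 := hF x
      have h3 : mv H (cr x (mv (H - cM (sc a + α • op v v)) x)) =
          ((h1 - 1) * cc α * t * dt (cv v) x) • cr x (cv v) := by
        rw [hH', cM_add, cM_sc, cM_smul, cM_op]
        apply v_ext <;> simp [dt] <;> ring
      have h4 : cr x (mv (cM (sc b + β • op v v)) x) = (cc β * dt (cv v) x) • cr x (cv v) := by
        rw [cM_add, cM_sc, cM_smul, cM_op]
        apply v_ext <;> simp [dt] <;> ring
      rw [h3, h4, ← sub_eq_zero, ← sub_smul, smul_eq_zero] at h2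
      have h5 := h2.resolve_right hx2
      have h6 : ((h1 - 1) * cc α * t - cc β) * dt (cv v) x = 0 := by linear_combination h5
      exact sub_eq_zero.mp ((mul_eq_zero.mp h6).resolve_right hx1)
    have htne : t ≠ 0 := by
      intro h0'
      rw [hH', h0'] at hdne
      apply hdne
      have : sc (0 : K) = 0 := by apply m_ext <;> simp
      rw [this, zero_add]
      simp [det3]
      ring
    refine ⟨t, ?_⟩
    conv_lhs => rw [hH']
    congr 2
    field_simp
    linear_combination key

end Helper496
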